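import Pool.Agent.V11279.Dyn15

set_option autoImplicit false
set_option linter.unusedSectionVars false

/-!
# The proportion of automorphisms with a fixed root
-/

namespace Pool.Agent.V11279.Dyn

open Polynomial IntermediateField Module Filter
open scoped Classical

section prop

theorem AA_ps_eq (L : Type) [Field L] [Algebra ℚ L] [FiniteDimensional ℚ L] (m : ℕ) :
    AA L m ps = (Nat.card {σ : L ≃ₐ[ℚ] L // ∃ β ∈ (Pol m).rootSet L, σ β = β} : ℝ) /
      Nat.card (L ≃ₐ[ℚ] L) := by
  have h1 : ∀ σ : L ≃ₐ[ℚ] L, ps (XX L m σ) =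
      if ∃ β ∈ (Pol m).rootSet L, σ β = β then 1 else 0 := by
    intro σ
    unfold ps
    split_ifs with h2 h3 h3
    · exfalso
      obtain ⟨β, hβ, hσ⟩ := h3
      unfold XX at h2
      rw [Finset.card_eq_zero, Finset.filter_eq_empty_iff] at h2
      exact h2 (mem_Tf.2 (mem_rootSet_Pol.1 hβ)) hσ
    · rfl
    · rfl
    · exfalso
      apply h2
      unfold XX
      rw [Finset.card_eq_zero, Finset.filter_eq_empty_iff]
      intro x hx hσ
      exact h3 ⟨x, mem_rootSet_Pol.2 (mem_Tf.1 hx), hσ⟩
  unfold AA
  rw [Nat.card_eq_fintype_card (α := L ≃ₐ[ℚ] L), Nat.card_eq_fintype_card, Fintype.card_subtype]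
  congr 1
  rw [Finset.sum_congr rfl (fun σ _ => h1 σ), Finset.sum_boole]

/-- The standard instances of the splitting field, for a general base field. -/
noncomputable def algF {F : Type} [Field F] (p : F[X]) : Algebra F p.SplittingField := inferInstance

theorem splitF {F : Type} [Field F] (p : F[X]) :
    @IsSplittingField F p.SplittingField _ _ (algF p) p :=
  inferInstanceAs (IsSplittingField F p.SplittingField p)

theorem finF {F : Type} [Field F] (p : F[X]) :
    @FiniteDimensional F p.SplittingField _ _ (algF p).toModule :=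
  inferInstanceAs (FiniteDimensional F p.SplittingField)

/-- The proportion of elements of the Galois group of `p` fixing at least one root of `p`. -/
noncomputable def fixProp {F : Type} [Field F] (p : F[X]) : ℝ :=
  (Nat.card {σ : p.Gal // ∃ β : p.rootSet p.SplittingField, σ • β = β} : ℝ) / Nat.card p.Gal

theorem fixProp_eq {F : Type} [Field F] (p : F[X]) : fixProp p =
    (Nat.card {σ : p.SplittingField ≃ₐ[F] p.SplittingField //
      ∃ β ∈ p.rootSet p.SplittingField, σ β = β} : ℝ) /
      Nat.card (p.SplittingField ≃ₐ[F] p.SplittingField) := by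
  unfold fixProp
  congr 1
  congr 1
  apply Nat.card_congr
  apply Equiv.subtypeEquiv (Equiv.refl _)
  intro σ
  constructor
  · rintro ⟨β, hβ⟩
    exact ⟨β, β.2, congrArg Subtype.val hβ⟩
  · rintro ⟨β, hβ, h⟩
    exact ⟨⟨β, hβ⟩, Subtype.ext h⟩

theorem fixProp_limit : Tendsto (fun m => fixProp (Pol m)) atTop (nhds 0) := by
  have h1 := @main_limit (fun m => (Pol m).SplittingField) (fun m => inferInstance)
    (fun m => algF (Pol m)) (fun m => splitF (Pol m)) (fun m => finF (Pol m))
  have h2 : ∀ m, fixProp (Pol m) = @AA (Pol m).SplittingField _ (algF (Pol m)) (finF (Pol m)) m ps := by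
    intro m
    rw [@AA_ps_eq (Pol m).SplittingField _ (algF (Pol m)) (finF (Pol m)) m, fixProp_eq]
    rfl
  simp only [h2]
  exact h1

end prop

end Pool.Agent.V11279.Dyn
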