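import Pool.Agent.V11279.BAd

namespace Pool.Agent.V11279.BA

open Set Topology MeasureTheory Filter

section uk
variable {ι : Type*}

/-- the list `x^k y` -/
def uk (x y : Lt ι) : ℕ → List (Lt ι)
  | 0 => [y]
  | k + 1 => x :: uk x y k

lemma uk_ne (x y : Lt ι) (k : ℕ) : uk x y k ≠ [] := by
  cases k <;> simp [uk]

lemma uk_last (x y : Lt ι) (k : ℕ) : (uk x y k).getLast (uk_ne x y k) = y := by
  induction k with
  | zero => rfl
  | succ k ih =>
    show (x :: uk x y k).getLast _ = y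
    rw [List.getLast_cons (uk_ne x y k), ih]

lemma uk_rd {x y : Lt ι} (h : y ≠ iv x) (k : ℕ) : Rd (uk x y k) := by
  induction k with
  | zero => exact List.isChain_singleton _
  | succ k ih =>
    rcases k with _ | k
    · exact List.isChain_cons_cons.mpr ⟨h, ih⟩
    · exact List.isChain_cons_cons.mpr ⟨iv_ne x, ih⟩

lemma uk_mem {x y : Lt ι} {k : ℕ} {w : Bd ι} : w ∈ cyl (uk x y k) ↔ (∀ i < k, w.c i = x) ∧ w.c k = y := by
  induction k generalizing w with
  | zero => simp [uk, cyl]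
  | succ k ih =>
    show (w.c 0 = x ∧ w.tl ∈ cyl (uk x y k)) ↔ _
    rw [ih]
    constructor
    · rintro ⟨h0, h1, h2⟩
      refine ⟨fun i hi => ?_, h2⟩
      rcases i with _ | i
      · exact h0
      · exact h1 i (by omega)
    · rintro ⟨h0, h1⟩
      exact ⟨h0 0 (by omega), fun i hi => h0 (i + 1) (by omega), h1⟩

lemma uk_disj {x y : Lt ι} (h : y ≠ x) : Pairwise (fun i j => Disjoint (cyl (uk x y i)) (cyl (uk x y j))) := by
  intro i j hij
  rw [Set.disjoint_left]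
  intro w hi hj
  rw [uk_mem] at hi hj
  rcases lt_trichotomy i j with h' | h' | h'
  · exact h (hi.2.symm.trans (hj.1 i h'))
  · exact hij h'
  · exact h (hj.2.symm.trans (hi.1 j h'))

variable [TopologicalSpace ι] [DiscreteTopology ι]

lemma epa {x y : Lt ι} (h1 : y ≠ x) (h2 : y ≠ iv x) {V : Set (Bd ι)} (hV : IsOpen V)
    (hne : V.Nonempty) (k : ℕ) : ∃ g : FreeGroup ι, ∀ w ∉ cyl (uk x y k), act g w ∈ V := by
  obtain ⟨v, hv0, hv, hsub⟩ := exists_cyl hV hne
  have key : ∃ v' : List (Lt ι), ∃ h : v' ≠ [], Rd v' ∧ cyl v' ⊆ V ∧ v'.getLast h ≠ y := by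
    by_cases hl : v.getLast hv0 = y
    · refine ⟨v ++ [x], by simp, rd_append hv hv0 x ?_, (cyl_append_subset _ _).trans hsub, ?_⟩
      · rw [hl]
        intro h
        exact h2 (by rw [h, iv_iv])
      · rw [List.getLast_append_singleton]
        exact h1.symm
    · exact ⟨v, hv0, hv, hsub, hl⟩
  obtain ⟨v', hv'0, hv', hsub', hl'⟩ := key
  refine ⟨FreeGroup.mk v' * (FreeGroup.mk (uk x y k))⁻¹, fun w hw => ?_⟩
  rw [map_mul]
  show act (FreeGroup.mk v') (act (FreeGroup.mk (uk x y k))⁻¹ w) ∈ V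
  rw [act_inv_mk, act_mk]
  exact hsub' (pingpong (uk_rd h2 k) hv' (uk_ne x y k) hv'0 (by rw [uk_last]; exact hl'.symm) hw)

lemma epb {H : Type*} [Group H] (φ : FreeGroup ι →* H) {x y : Lt ι} (hx : φ (FreeGroup.mk [x]) = 1)
    (h1 : y ≠ x) (h2 : y ≠ iv x) {V : Set (Bd ι)} (hV : IsOpen V)
    (hne : V.Nonempty) : ∃ N : ℕ, ∀ k ≥ N, ∃ g : FreeGroup ι, φ g = 1 ∧
      ∀ w ∉ cyl (uk x y k), act g w ∈ V := by
  obtain ⟨v0, hv00, hv0, hsub⟩ := exists_cyl hV hne
  have key : ∃ t : Lt ι, t ≠ iv (v0.getLast hv00) ∧ t ≠ x ∧ t ≠ iv x := by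
    by_cases h : y = iv (v0.getLast hv00)
    · refine ⟨iv y, ?_, ?_, ?_⟩
      · rw [← h]
        exact fun h => iv_ne y h.symm
      · intro h3
        exact h2 (by rw [← h3, iv_iv])
      · intro h3
        exact h1 (iv_inj h3)
    · exact ⟨y, h, h1, h2⟩
  obtain ⟨t, ht1, ht2, ht3⟩ := key
  have hv : Rd (v0 ++ [t]) := rd_append hv0 hv00 t ht1
  have hvl : (v0 ++ [t]).getLast (by simp) = t := List.getLast_append_singleton _
  have hvx : Rd ((v0 ++ [t]) ++ [x]) := rd_append hv (by simp) x (by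
    rw [hvl]
    intro h
    exact ht3 (by rw [h, iv_iv]))
  refine ⟨(v0 ++ [t]).length, fun k hk => ?_⟩
  have hu : Rd (uk x y k) := uk_rd h2 k
  have hux : Rd (uk x y k ++ [x]) := rd_append hu (uk_ne x y k) x (by
    rw [uk_last]
    intro h
    exact h2 (by rw [h, iv_iv]))
  have hsplit : ∀ L : List (Lt ι), FreeGroup.mk (L ++ [x]) = FreeGroup.mk L * FreeGroup.mk [x] := by
    intro L
    exact (FreeGroup.mul_mk).symm
  refine ⟨(FreeGroup.mk ((v0 ++ [t]) ++ [x]) * (FreeGroup.mk (v0 ++ [t]))⁻¹) *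
    (FreeGroup.mk (uk x y k ++ [x]) * (FreeGroup.mk (uk x y k))⁻¹), ?_, fun w hw => ?_⟩
  · rw [hsplit, hsplit]
    simp only [map_mul, map_inv, hx]
    group
  · rw [map_mul, map_mul, map_mul]
    show act (FreeGroup.mk ((v0 ++ [t]) ++ [x])) (act (FreeGroup.mk (v0 ++ [t]))⁻¹
      (act (FreeGroup.mk (uk x y k ++ [x])) (act (FreeGroup.mk (uk x y k))⁻¹ w))) ∈ V
    rw [act_inv_mk, act_inv_mk, act_mk, act_mk]
    have e1 : lact (uk x y k ++ [x]) (linv (uk x y k) w) ∈ cyl (uk x y k ++ [x]) :=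
      pingpong hu hux (uk_ne x y k) (by simp) (by
        rw [uk_last, List.getLast_append_singleton]; exact h1) hw
    have e2 : lact (uk x y k ++ [x]) (linv (uk x y k) w) ∉ cyl (v0 ++ [t]) := by
      intro h
      have e3 := cyl_append_subset _ _ e1
      rw [uk_mem] at e3
      rw [mem_cyl] at h
      have e4 := h v0.length (by simp)
      have e5 := e3.1 v0.length (by
        have : (v0 ++ [t]).length = v0.length + 1 := by simp
        omega)
      rw [e5] at e4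
      simp at e4
      exact ht2 e4.symm
    have e3 := pingpong hv hvx (by simp) (by simp) (by
        rw [hvl, List.getLast_append_singleton]; exact ht2) e2
    exact hsub (cyl_append_subset _ _ (cyl_append_subset _ _ e3))

/-- perfectness -/
lemma exists_ne (h3 : ∀ a b c : Lt ι, ∃ t, t ≠ a ∧ t ≠ b ∧ t ≠ c) {V : Set (Bd ι)} (hV : IsOpen V)
    (hne : V.Nonempty) (q : Bd ι) : ∃ w ∈ V, w ≠ q := by
  obtain ⟨v, hv0, hv, hsub⟩ := exists_cyl hV hne
  obtain ⟨t1, ht1, -, -⟩ := h3 (iv (v.getLast hv0)) (iv (v.getLast hv0)) (iv (v.getLast hv0))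
  obtain ⟨t2, ht2, ht12, -⟩ := h3 (iv (v.getLast hv0)) t1 t1
  obtain ⟨m1, -, c1⟩ := lact_good hv hv0 (w := cst t1) ht1
  obtain ⟨m2, -, c2⟩ := lact_good hv hv0 (w := cst t2) ht2
  by_cases h : lact v (cst t1) = q
  · refine ⟨lact v (cst t2), hsub m2, ?_⟩
    rintro rfl
    have a1 := c1 0
    have a2 := c2 0
    rw [h] at a1
    exact ht12 (a2.symm.trans a1)
  · exact ⟨_, hsub m1, h⟩

lemma dense_move [DecidableEq ι] (h3 : ∀ a b c : Lt ι, ∃ t, t ≠ a ∧ t ≠ b ∧ t ≠ c)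
    (γ : FreeGroup ι) (hγ : γ ≠ 1) : Dense {w : Bd ι | act γ w ≠ w} := by
  rw [dense_iff_inter_open]
  intro V hV hne
  obtain ⟨v, hv0, hv, hsub⟩ := exists_cyl hV hne
  set g := (FreeGroup.mk v)⁻¹ * γ * FreeGroup.mk v with hg
  have hg1 : g ≠ 1 := by
    intro h
    apply hγ
    have : γ = FreeGroup.mk v * g * (FreeGroup.mk v)⁻¹ := by rw [hg]; group
    rw [this, h]; group
  have hL0 : g.toWord ≠ [] := by
    rw [Ne, FreeGroup.toWord_eq_nil_iff]; exact hg1
  have hL : Rd g.toWord := rd_of_isReduced FreeGroup.isReduced_toWord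
  obtain ⟨t, ht1, ht2, ht3⟩ := h3 (iv (v.getLast hv0)) (iv (g.toWord.getLast hL0)) (g.toWord.head hL0)
  obtain ⟨m1, -, -⟩ := lact_good hv hv0 (w := cst t) ht1
  obtain ⟨-, hh, -⟩ := lact_good hL hL0 (w := cst t) ht2
  refine ⟨lact v (cst t), hsub m1, ?_⟩
  show act γ (lact v (cst t)) ≠ lact v (cst t)
  rw [← act_mk]
  have e1 : act γ (act (FreeGroup.mk v) (cst t)) = act (FreeGroup.mk v) (act g (cst t)) := by
    show (act γ * act (FreeGroup.mk v)) (cst t) = (act (FreeGroup.mk v) * act g) (cst t)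
    rw [← map_mul, ← map_mul]
    congr 2
    rw [hg]; group
  rw [e1]
  intro h
  have h' := (act (FreeGroup.mk v)).injective h
  rw [← FreeGroup.mk_toWord (x := g), act_mk] at h'
  rw [h'] at hh
  exact ht3 hh

lemma dense_avoid (h3 : ∀ a b c : Lt ι, ∃ t, t ≠ a ∧ t ≠ b ∧ t ≠ c)
    (γ : FreeGroup ι) (p : Bd ι) : Dense {w : Bd ι | act γ w ≠ p} := by
  rw [dense_iff_inter_open]
  intro V hV hne
  obtain ⟨w, hw, hne⟩ := exists_ne h3 hV hne ((act γ).symm p)
  refine ⟨w, hw, ?_⟩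
  intro h
  exact hne ((act γ).injective (by rw [h, Homeomorph.apply_symm_apply]))

lemma exists_generic [DecidableEq ι] [Finite ι] (h3 : ∀ a b c : Lt ι, ∃ t, t ≠ a ∧ t ≠ b ∧ t ≠ c)
    (p : Bd ι) : ∃ w : Bd ι, (∀ γ : FreeGroup ι, act γ w = w → γ = 1) ∧ ∀ γ : FreeGroup ι, act γ w ≠ p := by
  have hc : Countable (FreeGroup ι) := inferInstance
  haveI : Nonempty (Bd ι) := ⟨p⟩
  have hD : Dense (⋂ i : {γ : FreeGroup ι // γ ≠ 1} ⊕ FreeGroup ι,
      (Sum.elim (fun γ => {w : Bd ι | act γ.1 w ≠ w}) (fun γ => {w : Bd ι | act γ w ≠ p}) i : Set (Bd ι))) := by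
    refine dense_iInter_of_isOpen ?_ ?_
    · rintro (γ | γ)
      · exact isOpen_ne_fun (act γ.1).continuous continuous_id
      · exact isOpen_ne_fun (act γ).continuous continuous_const
    · rintro (γ | γ)
      · exact dense_move h3 γ.1 γ.2
      · exact dense_avoid h3 γ p
  obtain ⟨w, hw⟩ := hD.nonempty
  rw [mem_iInter] at hw
  refine ⟨w, fun γ hγ => ?_, fun γ => hw (Sum.inr γ)⟩
  by_contra hne
  exact (hw (Sum.inl ⟨γ, hne⟩)) hγ

end uk

lemma small_of_disjoint {Z : Type*} [MeasurableSpace Z] (ν : Measure Z) [IsProbabilityMeasure ν]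
    (U : ℕ → Set Z) (hU : ∀ k, MeasurableSet (U k)) (hd : Pairwise (fun i j => Disjoint (U i) (U j)))
    (ε : ENNReal) (hε : 0 < ε) : ∃ N, ∀ k ≥ N, ν (U k) ≤ ε := by
  have h1 : ∑' k, ν (U k) = ν (⋃ k, U k) := (measure_iUnion hd hU).symm
  have h2 : ∑' k, ν (U k) ≠ ⊤ := by rw [h1]; exact measure_ne_top _ _
  have h3 := ENNReal.tendsto_atTop_zero_of_tsum_ne_top h2
  obtain ⟨N, hN⟩ := Filter.eventually_atTop.mp ((tendsto_order.1 h3).2 ε hε)
  exact ⟨N, fun k hk => (hN k hk).le⟩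

end Pool.Agent.V11279.BA
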