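import Pool.Agent.V11279.BAc
import Pool.Agent.V11279.BAe

namespace Pool.Agent.V11279.BA

open Set Topology MeasureTheory Filter

/-- killing the last generator -/
noncomputable def kill : FreeGroup (Fin 3) →* FreeGroup (Fin 2) :=
  FreeGroup.lift ![FreeGroup.of 0, FreeGroup.of 1, 1]

/-- a section -/
def sec : FreeGroup (Fin 2) →* FreeGroup (Fin 3) := FreeGroup.map (Fin.castSucc)

lemma kill_sec (g : FreeGroup (Fin 2)) : kill (sec g) = g := by
  have : kill.comp sec = MonoidHom.id _ := by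
    apply FreeGroup.ext_hom
    intro i
    fin_cases i <;> simp [kill, sec]
  exact DFunLike.congr_fun this g

/-- the space -/
def YY : Type := Bd (Fin 3) × Bd (Fin 2)

instance : TopologicalSpace YY := inferInstanceAs (TopologicalSpace (Bd (Fin 3) × Bd (Fin 2)))
instance : CompactSpace YY := inferInstanceAs (CompactSpace (Bd (Fin 3) × Bd (Fin 2)))
instance : T2Space YY := inferInstanceAs (T2Space (Bd (Fin 3) × Bd (Fin 2)))
instance : TotallyDisconnectedSpace YY :=
  inferInstanceAs (TotallyDisconnectedSpace (Bd (Fin 3) × Bd (Fin 2)))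
instance : FirstCountableTopology YY :=
  inferInstanceAs (FirstCountableTopology (Bd (Fin 3) × Bd (Fin 2)))

instance : MeasurableSpace YY := borel YY
instance : BorelSpace YY := ⟨rfl⟩

noncomputable instance : MulAction (FreeGroup (Fin 3)) YY where
  smul g y := (act g y.1, act (kill g) y.2)
  one_smul y := by
    show (act 1 y.1, act (kill 1) y.2) = y
    rw [map_one, map_one, map_one]; rfl
  mul_smul g h y := by
    show (act (g * h) y.1, act (kill (g * h)) y.2) = (act g (act h y.1), act (kill g) (act (kill h) y.2))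
    rw [map_mul, map_mul, map_mul]; rfl

lemma smul_fst (g : FreeGroup (Fin 3)) (y : YY) : (g • y).1 = act g y.1 := rfl
lemma smul_snd (g : FreeGroup (Fin 3)) (y : YY) : (g • y).2 = act (kill g) y.2 := rfl

lemma cont_fst : Continuous (fun y : YY => y.1) := continuous_fst
lemma cont_snd : Continuous (fun y : YY => y.2) := continuous_snd

instance : ContinuousConstSMul (FreeGroup (Fin 3)) YY where
  continuous_const_smul g := by
    show Continuous (fun y : Bd (Fin 3) × Bd (Fin 2) => (act g y.1, act (kill g) y.2))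
    exact ((act g).continuous.comp continuous_fst).prodMk ((act (kill g)).continuous.comp continuous_snd)

lemma hsp (ν : Measure YY) (hν : IsProbabilityMeasure ν) (V : Set YY) (hV : IsOpen V)
    (hne : V.Nonempty) (ε : ENNReal) (hε : 0 < ε) :
    ∃ γ : FreeGroup (Fin 3), ν {y | γ • y ∉ V} ≤ ε := by
  obtain ⟨y0, hy0⟩ := hne
  obtain ⟨V1, V2, hV1, hV2, hy1, hy2, hsub⟩ := isOpen_prod_iff.mp hV y0.1 y0.2 hy0
  have hε2 : 0 < ε / 2 := ENNReal.half_pos hε.ne'
  -- second factor
  let x2 : Lt (Fin 2) := (0, true)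
  let y2 : Lt (Fin 2) := (1, true)
  have hx2 : y2 ≠ x2 := by decide
  have hx2' : y2 ≠ iv x2 := by decide
  have hm2 : ∀ k, MeasurableSet ((fun y : YY => y.2) ⁻¹' cyl (uk x2 y2 k)) := fun k =>
    ((cyl_clopen _).isClosed.preimage cont_snd).measurableSet
  obtain ⟨N, hN⟩ := small_of_disjoint ν (fun k => (fun y : YY => y.2) ⁻¹' cyl (uk x2 y2 k)) hm2
    (fun i j hij => (uk_disj hx2 hij).preimage _) (ε / 2) hε2
  obtain ⟨g, hg⟩ := epa hx2 hx2' hV2 ⟨_, hy2⟩ N
  set γ := sec g with hγ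
  have h1 : ν {y | (γ • y).2 ∉ V2} ≤ ε / 2 := by
    refine le_trans (measure_mono ?_) (hN N le_rfl)
    intro y hy
    by_contra hc
    apply hy
    show act (kill γ) y.2 ∈ V2
    rw [hγ, kill_sec]
    exact hg _ hc
  -- first factor
  let x3 : Lt (Fin 3) := (2, true)
  let y3 : Lt (Fin 3) := (0, true)
  have hx3 : y3 ≠ x3 := by decide
  have hx3' : y3 ≠ iv x3 := by decide
  have hmγ : Measurable (fun y : YY => γ • y) := (continuous_const_smul γ).measurable
  have hprob : IsProbabilityMeasure (Measure.map (fun y : YY => γ • y) ν) :=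
    Measure.isProbabilityMeasure_map hmγ.aemeasurable
  have hm3 : ∀ k, MeasurableSet ((fun y : YY => y.1) ⁻¹' cyl (uk x3 y3 k)) := fun k =>
    ((cyl_clopen _).isClosed.preimage cont_fst).measurableSet
  obtain ⟨N1, hN1⟩ := small_of_disjoint (Measure.map (fun y : YY => γ • y) ν)
    (fun k => (fun y : YY => y.1) ⁻¹' cyl (uk x3 y3 k)) hm3
    (fun i j hij => (uk_disj hx3 hij).preimage _) (ε / 2) hε2
  obtain ⟨N2, hN2⟩ := epb kill (x := x3) (y := y3) (by
    show kill (FreeGroup.of 2) = 1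
    simp [kill]) hx3 hx3' hV1 ⟨_, hy1⟩
  obtain ⟨n, hn1, hn⟩ := hN2 (max N1 N2) (le_max_right _ _)
  have h2 : ν {y | (γ • y).1 ∈ cyl (uk x3 y3 (max N1 N2))} ≤ ε / 2 := by
    have := hN1 (max N1 N2) (le_max_left _ _)
    rw [Measure.map_apply hmγ (hm3 _)] at this
    exact this
  refine ⟨n * γ, ?_⟩
  calc ν {y | (n * γ) • y ∉ V} ≤ ν ({y | (γ • y).2 ∉ V2} ∪ {y | (γ • y).1 ∈ cyl (uk x3 y3 (max N1 N2))}) := by
        apply measure_mono
        intro y hy
        by_contra hc
        rw [Set.mem_union, not_or] at hc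
        apply hy
        rw [mul_smul]
        apply hsub
        constructor
        · show act n (γ • y).1 ∈ V1
          exact hn _ hc.2
        · show act (kill n) (γ • y).2 ∈ V2
          rw [hn1, map_one]
          exact not_not.mp hc.1
    _ ≤ _ := measure_union_le _ _
    _ ≤ ε / 2 + ε / 2 := add_le_add h1 h2
    _ = ε := ENNReal.add_halves ε

lemma hmin (y : YY) : Dense (MulAction.orbit (FreeGroup (Fin 3)) y) := by
  rw [dense_iff_inter_open]
  intro V hV hne
  obtain ⟨γ, hγ⟩ := hsp (Measure.dirac y) inferInstance V hV hne (1 / 2) (by simp)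
  refine ⟨γ • y, ?_, γ, rfl⟩
  by_contra h
  have hm : MeasurableSet {y : YY | γ • y ∉ V} :=
    (hV.preimage (continuous_const_smul γ)).isClosed_compl.measurableSet
  rw [Measure.dirac_apply' _ hm, Set.indicator_of_mem (by exact h)] at hγ
  have : (1 : ENNReal) ≤ 1 / 2 := hγ
  rw [one_div] at this
  exact absurd this (by simp)

lemma h33 : ∀ a b c : Lt (Fin 3), ∃ t, t ≠ a ∧ t ≠ b ∧ t ≠ c := by decide
lemma h32 : ∀ a b c : Lt (Fin 2), ∃ t, t ≠ a ∧ t ≠ b ∧ t ≠ c := by decide

lemma yy_ne {V : Set YY} (hV : IsOpen V) (hne : V.Nonempty) (q : YY) : ∃ w ∈ V, w ≠ q := by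
  obtain ⟨y0, hy0⟩ := hne
  obtain ⟨V1, V2, hV1, hV2, hy1, hy2, hsub⟩ := isOpen_prod_iff.mp hV y0.1 y0.2 hy0
  obtain ⟨w, hw, hwq⟩ := exists_ne h33 hV1 ⟨_, hy1⟩ q.1
  exact ⟨(w, y0.2), hsub ⟨hw, hy2⟩, fun h => hwq (congrArg (fun y : YY => y.1) h)⟩

lemma yy_avoid {V : Set YY} (hV : IsOpen V) (hne : V.Nonempty) (F : Set YY) (hF : F.Finite) :
    (V \ F).Nonempty := by
  induction F, hF using Set.Finite.induction_on with
  | empty => simpa using hne
  | @insert a s _ hs ih =>
    have ho : IsOpen (V \ s) := hV.sdiff hs.isClosed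
    obtain ⟨w, hw, hwa⟩ := yy_ne ho ih a
    refine ⟨w, hw.1, ?_⟩
    rw [Set.mem_insert_iff]
    rintro (h | h)
    · exact hwa h
    · exact hw.2 h

/-- base points -/
def p1 : Bd (Fin 3) := cst (0, true)
def p2 : Bd (Fin 2) := cst (0, true)

/-- the cross -/
def KK : Set YY := {y | y.1 = p1 ∨ y.2 = p2}

/-- the box -/
def BB : Set YY := {y | y.1 ∈ cyl [((1 : Fin 3), true)] ∧ y.2 ∈ cyl [((1 : Fin 2), true)]}

lemma exists_setup : ∃ d : YY, Setup (FreeGroup (Fin 3)) d KK BB := by
  obtain ⟨d1, hd1, hd1'⟩ := exists_generic h33 p1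
  obtain ⟨d2, -, hd2'⟩ := exists_generic h32 p2
  obtain ⟨dd, hdd⟩ : ∃ dd : YY, dd = (d1, d2) := ⟨_, rfl⟩
  have hdd1 : dd.1 = d1 := by rw [hdd]
  have hdd2 : dd.2 = d2 := by rw [hdd]
  refine ⟨dd, ?_⟩
  constructor
  · intro U y hU hy
    exact compact_exists_isClopen_in_isOpen hU hy
  · intro x y hxy
    exact t2_separation hxy
  · intro γ hγ
    have := congrArg (fun y : YY => y.1) hγ
    simp only [smul_fst, hdd1] at this
    exact hd1 γ this
  · intro U hU hne F hF
    have h1 := yy_avoid hU hne ((fun γ : FreeGroup (Fin 3) => γ • dd) '' F) (hF.image _)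
    have h2 : IsOpen (U \ ((fun γ : FreeGroup (Fin 3) => γ • dd) '' F)) :=
      hU.sdiff (hF.image _).isClosed
    obtain ⟨_, h3, γ, rfl⟩ := (hmin dd).inter_open_nonempty _ h2 h1
    exact ⟨γ, h3.1, fun h => h3.2 ⟨γ, h, rfl⟩⟩
  · have : KK = (fun y : YY => y.1) ⁻¹' {p1} ∪ (fun y : YY => y.2) ⁻¹' {p2} := by
      ext y; rfl
    rw [this]
    exact (isClosed_singleton.preimage cont_fst).union (isClosed_singleton.preimage cont_snd)
  · exact ((cyl_clopen [((1 : Fin 3), true)]).preimage cont_fst).inter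
      ((cyl_clopen [((1 : Fin 2), true)]).preimage cont_snd)
  · rw [Set.disjoint_left]
    rintro y (h | h) ⟨hb1, hb2⟩
    · rw [h] at hb1
      exact absurd hb1.1 (by decide)
    · rw [h] at hb2
      exact absurd hb2.1 (by decide)
  · rintro γ (h | h)
    · rw [smul_fst, hdd1] at h
      exact hd1' γ h
    · rw [smul_snd, hdd2] at h
      exact hd2' (kill γ) h
  · intro γ
    refine ⟨(p1, act (kill γ)⁻¹ p2), Or.inl rfl, Or.inr ?_⟩
    show act (kill γ) (act (kill γ)⁻¹ p2) = p2
    show (act (kill γ) * act (kill γ)⁻¹) p2 = p2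
    rw [← map_mul, mul_inv_cancel, map_one]; rfl

lemma bb_nonempty : BB.Nonempty :=
  ⟨(cst (1, true), cst (1, true)), ⟨rfl, mem_univ _⟩, rfl, mem_univ _⟩

/-- the free product of two free groups of rank three is free of rank six -/
noncomputable def freeEquiv : FreeGroup (Fin 6) ≃* GG (FreeGroup (Fin 3)) :=
  (FreeGroup.freeGroupCongr (Fintype.equivFinOfCardEq (α := Bool × Fin 3) (by decide)).symm).trans
  (MonoidHom.toMulEquiv
    (FreeGroup.lift (fun p : Bool × Fin 3 =>
      (Monoid.CoprodI.of (M := fun _ : Bool => FreeGroup (Fin 3)) (i := p.1) (FreeGroup.of p.2))))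
    (Monoid.CoprodI.lift (fun b => FreeGroup.map (fun i => (b, i))))
    (by
      apply FreeGroup.ext_hom
      rintro ⟨b, i⟩
      simp)
    (by
      apply Monoid.CoprodI.ext_hom
      intro b
      apply FreeGroup.ext_hom
      intro i
      simp))

theorem main : ∃ (X : Type) (_ : TopologicalSpace X) (_ : CompactSpace X) (_ : T2Space X)
    (_ : Nonempty X) (_ : MeasurableSpace X) (_ : BorelSpace X) (_ : MulAction (FreeGroup (Fin 6)) X),
    (∀ g : FreeGroup (Fin 6), Continuous fun x : X => g • x) ∧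
    (∀ g : FreeGroup (Fin 6), (∀ x : X, g • x = x) → g = 1) ∧
    (∀ x : X, Dense (MulAction.orbit (FreeGroup (Fin 6)) x)) ∧
    (∀ μ : ProbabilityMeasure X, ∃ x : X, diracProba x ∈
      closure {ν : ProbabilityMeasure X | ∃ g : FreeGroup (Fin 6),
        (ν : Measure X) = Measure.map (fun y => g • y) (μ : Measure X)}) ∧
    ¬ Dense {x : X | MulAction.stabilizer (FreeGroup (Fin 6)) x = ⊥} := by
  obtain ⟨d, S⟩ := exists_setup
  obtain ⟨s, hs, hsB, hsl, hsw⟩ := exists_involution S
  let ρ : FreeGroup (Fin 6) →* Equiv.Perm (FreeGroup (Fin 3)) := (rho s hs).comp freeEquiv.toMonoidHom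
  have hinj : Function.Injective ρ := (rho_injective s hs hsw).comp freeEquiv.injective
  have hloc : ∀ g, Loc d (fun δ => ρ g δ) := fun g => Loc.rho s hs hsl (freeEquiv g)
  let ι : FreeGroup (Fin 3) →* FreeGroup (Fin 6) := freeEquiv.symm.toMonoidHom.comp
    (Monoid.CoprodI.of (M := fun _ : Bool => FreeGroup (Fin 3)) (i := false))
  have hι : ∀ γ δ, ρ (ι γ) δ = γ * δ := by
    intro γ δ
    show rho s hs (freeEquiv (freeEquiv.symm
      (Monoid.CoprodI.of (M := fun _ : Bool => FreeGroup (Fin 3)) (i := false) γ))) δ = γ * δ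
    rw [MulEquiv.apply_symm_apply, rho_of]
    rfl
  let _ : MeasurableSpace (XT d ρ) := borel _
  have : BorelSpace (XT d ρ) := ⟨rfl⟩
  -- the element with an open set of fixed points
  obtain ⟨δ1, hδ1, -⟩ := S.dense BB S.Bclopen.isOpen bb_nonempty ∅ Set.finite_empty
  obtain ⟨δ2, hδ2, hδ12⟩ := S.dense BB S.Bclopen.isOpen bb_nonempty {δ1} (Set.finite_singleton _)
  have hne : δ2 ≠ δ1 := hδ12
  set t := δ2 * δ1⁻¹ with ht
  have ht1 : t ≠ 1 := by
    intro h
    rw [ht, mul_inv_eq_one] at h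
    exact hne h
  let c : FreeGroup (Fin 6) := freeEquiv.symm
    (Monoid.CoprodI.of (M := fun _ : Bool => FreeGroup (Fin 3)) (i := true) t *
     Monoid.CoprodI.of (M := fun _ : Bool => FreeGroup (Fin 3)) (i := false) t⁻¹)
  have hc : c ≠ 1 := by
    intro h
    have h1 := congrArg freeEquiv h
    rw [map_one, MulEquiv.apply_symm_apply] at h1
    have h2 := congrArg (Monoid.CoprodI.lift (M := fun _ : Bool => FreeGroup (Fin 3))
      (fun b => match b with
        | true => MonoidHom.id (FreeGroup (Fin 3))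
        | false => 1)) h1
    rw [map_mul, map_one, Monoid.CoprodI.lift_of, Monoid.CoprodI.lift_of] at h2
    simp at h2
    exact ht1 h2
  have hcfix : ∀ δ : FreeGroup (Fin 3), δ • d ∈ BB ∩ (fun y => t⁻¹ • y) ⁻¹' BB → ρ c δ = δ := by
    rintro δ ⟨ha, hb⟩
    show rho s hs (freeEquiv (freeEquiv.symm _)) δ = δ
    rw [MulEquiv.apply_symm_apply, map_mul, Equiv.Perm.mul_apply, rho_of, rho_of]
    show s (t * s (t⁻¹ * δ)) = δ
    rw [hsB (t⁻¹ * δ) (by rw [mul_smul]; exact hb), mul_inv_cancel_left, hsB δ ha]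
  refine ⟨XT d ρ, inferInstance, inferInstance, inferInstance, inferInstance, inferInstance,
    inferInstance, inferInstance, smul_cont d ρ, faithful hinj S.free, minimal hloc ι hι hmin,
    strongly_proximal hloc ι hι hsp, ?_⟩
  refine not_top_free c hc (BB ∩ (fun y => t⁻¹ • y) ⁻¹' BB)
    (S.Bclopen.isOpen.inter (S.Bclopen.isOpen.preimage (continuous_const_smul _))) ⟨δ2, hδ2, ?_⟩ hcfix
  show t⁻¹ • (δ2 • d) ∈ BB
  rw [← mul_smul, ht]
  simpa using hδ1

end Pool.Agent.V11279.BA
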