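import Mathlib

set_option autoImplicit false

namespace Pool.Agent.V11279.QP

open Set Filter

/-- `U` is nonprincipal. -/
def Nonprincipal (U : Ultrafilter ℕ) : Prop := ∀ n : ℕ, ({n} : Set ℕ) ∉ U

/-- `U` is a p-point: nonprincipal, and every sequence of members has a pseudo-intersection
in `U`. -/
def IsPPoint (U : Ultrafilter ℕ) : Prop :=
  Nonprincipal U ∧
    ∀ A : ℕ → Set ℕ, (∀ n, A n ∈ U) → ∃ X ∈ U, ∀ n, (X \ A n).Finite

/-- `U` is a q-point: nonprincipal, and every finite-to-one function is injective on a member. -/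
def IsQPoint (U : Ultrafilter ℕ) : Prop :=
  Nonprincipal U ∧
    ∀ f : ℕ → ℕ, (∀ m : ℕ, {n : ℕ | f n = m}.Finite) → ∃ X ∈ U, Set.InjOn f X

/-- `U` is selective: nonprincipal, and every function is constant or injective on a member. -/
def IsSelective (U : Ultrafilter ℕ) : Prop :=
  Nonprincipal U ∧
    ∀ f : ℕ → ℕ, (∃ X ∈ U, ∃ c : ℕ, ∀ x ∈ X, f x = c) ∨ ∃ X ∈ U, Set.InjOn f X

/-- isomorphism of ultrafilters: a permutation carries one to the other. -/
def Isomorphic (U V : Ultrafilter ℕ) : Prop := ∃ e : Equiv.Perm ℕ, U.map e = V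

/-- the Fubini sum `lim_{n → W} Y n`, coded on `ℕ` by the pairing function. -/
def fubini (W : Ultrafilter ℕ) (Y : ℕ → Ultrafilter ℕ) : Ultrafilter ℕ :=
  W.bind (fun n => (Y n).map (Nat.pair n))

theorem mem_fubini {W : Ultrafilter ℕ} {Y : ℕ → Ultrafilter ℕ} {A : Set ℕ} :
    A ∈ fubini W Y ↔ {n | {a | Nat.pair n a ∈ A} ∈ Y n} ∈ W := by
  rfl

/-- nonprincipal ultrafilters contain only infinite sets -/
theorem Nonprincipal.infinite {U : Ultrafilter ℕ} (h : Nonprincipal U) {X : Set ℕ}
    (hX : X ∈ U) : X.Infinite := by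
  intro hf
  obtain ⟨x, _, hx⟩ := (Ultrafilter.finite_biUnion_mem_iff (f := U) hf
    (s := fun x : ℕ => ({x} : Set ℕ))).1 (by simpa using hX)
  exact h x hx

theorem Nonprincipal.finite_notMem {U : Ultrafilter ℕ} (h : Nonprincipal U) {X : Set ℕ}
    (hX : X.Finite) : X ∉ U := fun hm => h.infinite hm hX

theorem isSelective_pPoint {U : Ultrafilter ℕ} (h : IsSelective U) : IsPPoint U := by
  classical
  refine ⟨h.1, fun A hA => ?_⟩
  by_cases hI : (⋂ n, A n) ∈ U
  · refine ⟨_, hI, fun n => ?_⟩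
    have : (⋂ n, A n) \ A n = ∅ := by
      ext x
      constructor
      · rintro ⟨h1, h2⟩
        exact absurd (mem_iInter.1 h1 n) h2
      · intro hx
        exact absurd hx (notMem_empty x)
    rw [this]
    exact finite_empty
  · have hc : (⋂ n, A n)ᶜ ∈ U := Ultrafilter.compl_mem_iff_notMem.2 hI
    have hex : ∀ x ∈ (⋂ n, A n)ᶜ, ∃ n, x ∉ A n := by
      intro x hx
      by_contra hcon
      push Not at hcon
      exact hx (mem_iInter.2 hcon)
    let f : ℕ → ℕ := fun x => if h : ∃ n, x ∉ A n then Nat.find h else 0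
    have hf : ∀ x (hx : ∃ n, x ∉ A n), f x = Nat.find hx := fun x hx => by
      simp only [f]
      rw [dif_pos hx]
    rcases h.2 f with ⟨X, hX, c, hXc⟩ | ⟨X, hX, hXi⟩
    · exfalso
      have hm : X ∩ (⋂ n, A n)ᶜ ∩ A c ∈ U := inter_mem (inter_mem hX hc) (hA c)
      obtain ⟨x, ⟨hx1, hx2⟩, hx3⟩ := U.nonempty_of_mem hm
      have h1 := hex x hx2
      have h2 := Nat.find_spec h1
      rw [← hf x h1, hXc x hx1] at h2
      exact h2 hx3
    · refine ⟨X ∩ (⋂ n, A n)ᶜ, inter_mem hX hc, fun n => ?_⟩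
      have : MapsTo f ((X ∩ (⋂ n, A n)ᶜ) \ A n) (Iic n) := by
        rintro x ⟨⟨hx1, hx2⟩, hx3⟩
        have h1 := hex x hx2
        rw [hf x h1]
        exact Nat.find_min' h1 hx3
      exact Set.Finite.of_finite_image ((finite_Iic n).subset (image_subset_iff.2 this))
        (hXi.mono (fun x hx => hx.1.1))

/-- A map injective on a member of a nonprincipal ultrafilter agrees with a permutation on a
member. -/
theorem exists_perm {U : Ultrafilter ℕ} (h : Nonprincipal U) {f : ℕ → ℕ} {X : Set ℕ}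
    (hX : X ∈ U) (hf : InjOn f X) :
    ∃ e : Equiv.Perm ℕ, ∃ X' ∈ U, ∀ x ∈ X', e x = f x := by
  classical
  -- split `X` into two infinite halves
  have hXi := h.infinite hX
  obtain ⟨A, B, hAB, hA, hB, hd⟩ : ∃ A B : Set ℕ, A ∪ B = X ∧ A.Infinite ∧ B.Infinite ∧
      Disjoint A B := by
    let g := Nat.nth (· ∈ X)
    have hg : StrictMono g := Nat.nth_strictMono hXi
    have hgX : ∀ n, g n ∈ X := fun n => Nat.nth_mem_of_infinite hXi n
    refine ⟨range (fun n => g (2 * n)), X \ range (fun n => g (2 * n)), ?_, ?_, ?_, ?_⟩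
    · rw [union_sdiff_cancel]
      rintro _ ⟨n, rfl⟩
      exact hgX _
    · exact infinite_range_of_injective (fun a b hab => by
        have := hg.injective hab
        omega)
    · have : range (fun n => g (2 * n + 1)) ⊆ X \ range (fun n => g (2 * n)) := by
        rintro _ ⟨n, rfl⟩
        refine ⟨hgX _, ?_⟩
        rintro ⟨m, hm⟩
        have := hg.injective hm
        omega
      exact (infinite_range_of_injective (fun a b hab => by
        have := hg.injective hab
        omega)).mono this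
    · exact disjoint_sdiff_right
  -- one half is in `U`
  have key : ∀ A B : Set ℕ, A ∪ B = X → B.Infinite → Disjoint A B → A ∈ U →
      ∃ e : Equiv.Perm ℕ, ∃ X' ∈ U, ∀ x ∈ X', e x = f x := by
    intro A B hAB hB hd hAU
    have hAX : A ⊆ X := hAB ▸ subset_union_left
    have hBX : B ⊆ X := hAB ▸ subset_union_right
    have hAc : (Aᶜ).Infinite := hB.mono (fun x hx hxA => (disjoint_left.1 hd) hxA hx)
    have hfc : ((f '' A)ᶜ).Infinite := by
      have hBi : (f '' B).Infinite := hB.image (hf.mono hBX)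
      refine hBi.mono ?_
      rintro _ ⟨b, hb, rfl⟩ ⟨a, ha, hab⟩
      have := hf (hAX ha) (hBX hb) hab
      subst this
      exact (disjoint_left.1 hd) ha hb
    have i1 : Infinite ↥(Aᶜ) := hAc.to_subtype
    have i2 : Infinite ↥((f '' A)ᶜ) := hfc.to_subtype
    have d1 : Denumerable ↥(Aᶜ) := Classical.choice (nonempty_denumerable _)
    have d2 : Denumerable ↥((f '' A)ᶜ) := Classical.choice (nonempty_denumerable _)
    let e1 : A ≃ (f '' A : Set ℕ) := Equiv.Set.imageOfInjOn f A (hf.mono hAX)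
    let e2 : ↥(Aᶜ) ≃ ↥((f '' A)ᶜ) := (Denumerable.eqv _).trans (Denumerable.eqv _).symm
    let e : Equiv.Perm ℕ := (Equiv.Set.sumCompl A).symm.trans
      ((Equiv.sumCongr e1 e2).trans (Equiv.Set.sumCompl (f '' A)))
    refine ⟨e, A, hAU, fun x hx => ?_⟩
    simp only [e, Equiv.trans_apply]
    rw [Equiv.Set.sumCompl_symm_apply_of_mem hx]
    rfl
  have hor : A ∈ U ∨ B ∈ U := Ultrafilter.union_mem_iff.1 (hAB ▸ hX)
  rcases hor with hAU | hBU
  · exact key A B hAB hB hd hAU
  · exact key B A (by rw [union_comm]; exact hAB) hA hd.symm hBU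

theorem map_eq_of_eqOn {U : Ultrafilter ℕ} {f g : ℕ → ℕ} {X : Set ℕ} (hX : X ∈ U)
    (h : ∀ x ∈ X, f x = g x) : U.map f = U.map g := by
  ext s
  simp only [Ultrafilter.mem_map]
  constructor
  · intro hs
    refine mem_of_superset (inter_mem hs hX) ?_
    rintro x ⟨hx1, hx2⟩
    simpa [mem_preimage, ← h x hx2] using hx1
  · intro hs
    refine mem_of_superset (inter_mem hs hX) ?_
    rintro x ⟨hx1, hx2⟩
    simpa [mem_preimage, h x hx2] using hx1

/-- Images under almost-injective maps of nonisomorphic ultrafilters are distinct. -/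
theorem map_ne {U V : Ultrafilter ℕ} (hU : Nonprincipal U) (hV : Nonprincipal V)
    (hn : ¬ Isomorphic U V) {f g : ℕ → ℕ} {X Z : Set ℕ} (hX : X ∈ U) (hf : InjOn f X)
    (hZ : Z ∈ V) (hg : InjOn g Z) : U.map f ≠ V.map g := by
  intro h
  obtain ⟨e, X', hX', he⟩ := exists_perm hU hX hf
  obtain ⟨e', Z', hZ', he'⟩ := exists_perm hV hZ hg
  apply hn
  refine ⟨e.trans e'.symm, ?_⟩
  have h1 : U.map e = V.map e' := by
    rw [map_eq_of_eqOn hX' he, map_eq_of_eqOn hZ' he', h]
  have h2 : (U.map e).map e'.symm = V := by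
    rw [h1, Ultrafilter.map_map]
    simp
  rw [Ultrafilter.map_map] at h2
  exact h2

/-- **Theorem.** A Fubini sum of pairwise nonisomorphic selective ultrafilters over a
nonprincipal ultrafilter is a q-point. -/
theorem fubini_qPoint {W : Ultrafilter ℕ} {Y : ℕ → Ultrafilter ℕ}
    (hY : ∀ n, IsSelective (Y n)) (hne : ∀ n m, n ≠ m → ¬ Isomorphic (Y n) (Y m)) :
    IsQPoint (fubini W Y) := by
  classical
  refine ⟨fun k hk => ?_, fun f hf => ?_⟩
  · rw [mem_fubini] at hk
    obtain ⟨n, hn⟩ := W.nonempty_of_mem hk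
    refine (hY n).1.finite_notMem (X := {a | Nat.pair n a ∈ ({k} : Set ℕ)}) ?_ hn
    refine (finite_singleton (Nat.unpair k).2).subset ?_
    intro a ha
    have : Nat.pair n a = k := ha
    simp [← this]
  · let F : ℕ → ℕ → ℕ := fun n a => f (Nat.pair n a)
    have hF : ∀ n m, {a | F n a = m}.Finite := by
      intro n m
      have : Nat.pair n '' {a | F n a = m} ⊆ {k | f k = m} := by
        rintro _ ⟨a, ha, rfl⟩
        exact ha
      exact Set.Finite.of_finite_image ((hf m).subset this)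
        (fun a _ b _ hab => (Nat.pair_eq_pair.1 hab).2)
    have hA : ∀ n, ∃ A ∈ Y n, InjOn (F n) A := by
      intro n
      rcases (hY n).2 (F n) with ⟨X, hX, c, hc⟩ | h
      · exfalso
        exact (hY n).1.finite_notMem ((hF n c).subset (fun x hx => hc x hx)) hX
      · exact h
    choose A hAY hAi using hA
    have hdist : ∀ n m, n ≠ m → (Y n).map (F n) ≠ (Y m).map (F m) := fun n m hnm =>
      map_ne (hY n).1 (hY m).1 (hne n m hnm) (hAY n) (hAi n) (hAY m) (hAi m)
    have hnp : ∀ n, ∀ s : Set ℕ, s.Finite → s ∉ (Y n).map (F n) := by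
      intro n s hs hm
      rw [Ultrafilter.mem_map] at hm
      refine (hY n).1.finite_notMem (X := F n ⁻¹' s) ?_ hm
      have : F n ⁻¹' s = ⋃ m ∈ s, {a | F n a = m} := by
        ext a
        simp
      rw [this]
      exact hs.biUnion (fun m _ => hF n m)
    have hB : ∀ n, ∃ B ∈ (Y n).map (F n), ∀ m, m ≠ n → B ∉ (Y m).map (F m) := by
      intro n
      have hC : ∀ m, ∃ C ∈ (Y n).map (F n), m ≠ n → C ∉ (Y m).map (F m) := by
        intro m
        by_cases hmn : m = n
        · exact ⟨univ, univ_mem, fun h => absurd hmn h⟩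
        · by_contra hcon
          push Not at hcon
          apply hdist n m (fun h => hmn h.symm)
          symm
          apply Ultrafilter.coe_injective
          exact (Ultrafilter.coe_le_coe.1 (fun s hs => (hcon s hs).2)) ▸ rfl
      choose C hC1 hC2 using hC
      obtain ⟨X, hX, hXf⟩ := (isSelective_pPoint (hY n)).2 (fun m => F n ⁻¹' (C m))
        (fun m => hC1 m)
      refine ⟨F n '' X, image_mem_map hX, fun m hm hmem => ?_⟩
      have hsub : F n '' X ⊆ C m ∪ F n '' (X \ F n ⁻¹' (C m)) := by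
        rintro _ ⟨x, hx, rfl⟩
        by_cases hxC : F n x ∈ C m
        · exact Or.inl hxC
        · exact Or.inr ⟨x, ⟨hx, hxC⟩, rfl⟩
      rcases Ultrafilter.union_mem_iff.1 (mem_of_superset hmem hsub) with h | h
      · exact hC2 m hm h
      · exact hnp m _ ((hXf m).image _) h
    choose B hB1 hB2 using hB
    let E : ℕ → Set ℕ := fun n => B n \ ⋃ m ∈ Finset.range n, B m
    have hE : ∀ n, E n ∈ (Y n).map (F n) := by
      intro n
      have hcomp : (⋃ m ∈ Finset.range n, B m)ᶜ ∈ (Y n).map (F n) := by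
        rw [Ultrafilter.compl_mem_iff_notMem]
        intro hmem
        obtain ⟨m, hm, hm2⟩ := (Ultrafilter.finite_biUnion_mem_iff
          (Finset.finite_toSet (Finset.range n))).1 (by simpa using hmem)
        exact hB2 m n (by simp at hm; omega) hm2
      exact inter_mem (hB1 n) hcomp
    have hEd : ∀ n m, n < m → Disjoint (E n) (E m) := by
      intro n m hnm
      rw [Set.disjoint_left]
      intro x hx hx2
      apply hx2.2
      simp only [mem_iUnion]
      exact ⟨n, Finset.mem_range.2 hnm, hx.1⟩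
    have hEd' : ∀ n m, n ≠ m → Disjoint (E n) (E m) := by
      intro n m hnm
      rcases lt_or_gt_of_ne hnm with h | h
      · exact hEd n m h
      · exact (hEd m n h).symm
    refine ⟨{k | (Nat.unpair k).2 ∈ A (Nat.unpair k).1 ∩ F (Nat.unpair k).1 ⁻¹' E (Nat.unpair k).1},
      ?_, ?_⟩
    · rw [mem_fubini]
      refine mem_of_superset univ_mem (fun n _ => ?_)
      show _ ∈ Y n
      have : {a | Nat.pair n a ∈ {k | (Nat.unpair k).2 ∈ A (Nat.unpair k).1 ∩
          F (Nat.unpair k).1 ⁻¹' E (Nat.unpair k).1}} = A n ∩ F n ⁻¹' E n := by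
        ext a
        simp
      rw [this]
      exact inter_mem (hAY n) (hE n)
    · intro k hk l hl hkl
      obtain ⟨hk1, hk2⟩ := hk
      obtain ⟨hl1, hl2⟩ := hl
      have ek : f k = F (Nat.unpair k).1 (Nat.unpair k).2 := by
        simp [F, Nat.pair_unpair]
      have el : f l = F (Nat.unpair l).1 (Nat.unpair l).2 := by
        simp [F, Nat.pair_unpair]
      by_cases hnm : (Nat.unpair k).1 = (Nat.unpair l).1
      · have h2 : (Nat.unpair k).2 = (Nat.unpair l).2 := by
          rw [← hnm] at hl1 el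
          exact hAi _ hk1 hl1 (by rw [← ek, ← el, hkl])
        rw [← Nat.pair_unpair k, ← Nat.pair_unpair l, hnm, h2]
      · exfalso
        refine (Set.disjoint_left.1 (hEd' _ _ hnm)) (a := f k) ?_ ?_
        · rw [ek]; exact hk2
        · rw [hkl, el]; exact hl2

theorem fubini_not_selective {W : Ultrafilter ℕ} {Y : ℕ → Ultrafilter ℕ}
    (hW : Nonprincipal W) (hY : ∀ n, Nonprincipal (Y n)) :
    ¬ IsSelective (fubini W Y) := by
  rintro ⟨_, h⟩
  rcases h (fun k => (Nat.unpair k).1) with ⟨X, hX, c, hc⟩ | ⟨X, hX, hi⟩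
  · rw [mem_fubini] at hX
    refine hW.finite_notMem (X := {n | {a | Nat.pair n a ∈ X} ∈ Y n}) ?_ hX
    refine (finite_singleton c).subset ?_
    intro n hn
    obtain ⟨a, ha⟩ := (Y n).nonempty_of_mem hn
    have := hc _ ha
    simpa using this
  · rw [mem_fubini] at hX
    obtain ⟨n, hn⟩ := W.nonempty_of_mem hX
    have hinf := (hY n).infinite hn
    obtain ⟨a, ha, b, hb, hab⟩ := hinf.nontrivial
    have := hi ha hb (by simp)
    exact hab (Nat.pair_eq_pair.1 this).2

end Pool.Agent.V11279.QP
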