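import Mathlib
import Pool.Agent.V11279.QPa

set_option autoImplicit false

namespace Pool.Agent.V11279.QP

open Set Filter

/-- Tower lemma: transfinite construction along a well-order. -/
theorem exists_tower {I : Type} [LinearOrder I] [WellFoundedLT I] {α : Type} [Nonempty α]
    (Q : I → α → Prop) (R : α → α → Prop)
    (step : ∀ i : I, ∀ g : I → α, (∀ j < i, Q j (g j) ∧ ∀ k < j, R (g j) (g k)) →
      ∃ a, Q i a ∧ ∀ j < i, R a (g j)) :
    ∃ g : I → α, ∀ i, Q i (g i) ∧ ∀ j < i, R (g i) (g j) := by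
  classical
  let G : (i : I) → ((j : I) → j < i → α) → α := fun i rec =>
    Classical.epsilon (fun a => Q i a ∧ ∀ j (hj : j < i), R a (rec j hj))
  let wf : WellFounded (fun a b : I => a < b) := wellFounded_lt
  let g : I → α := wf.fix G
  have hg : ∀ i, g i = Classical.epsilon (fun a => Q i a ∧ ∀ j (_ : j < i), R a (g j)) := by
    intro i
    show wf.fix G i = _
    rw [wf.fix_eq]
  refine ⟨g, fun i => ?_⟩
  induction i using wf.induction with
  | _ i ih =>
    obtain ⟨a, ha⟩ := step i g (fun j hj => ih j hj)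
    have := Classical.epsilon_spec (p := fun a => Q i a ∧ ∀ j (_ : j < i), R a (g j)) ⟨a, ha⟩
    rw [← hg i] at this
    exact this

/-- pseudo-intersections of sequences with infinite finite intersections -/
theorem exists_pseudo (B : ℕ → Set ℕ) (h : ∀ n, (⋂ l ∈ Finset.range (n + 1), B l).Infinite) :
    ∃ X : Set ℕ, X.Infinite ∧ ∀ n, (X \ B n).Finite := by
  obtain ⟨φ, hφ, hP⟩ := extraction_forall_of_frequently
    (P := fun n k => k ∈ ⋂ l ∈ Finset.range (n + 1), B l)
    (fun n => Nat.frequently_atTop_iff_infinite.2 (h n))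
  refine ⟨range φ, infinite_range_of_injective hφ.injective, fun n => ?_⟩
  refine (((Finset.range n).finite_toSet).image φ).subset ?_
  rintro _ ⟨⟨k, rfl⟩, hk⟩
  refine ⟨k, ?_, rfl⟩
  by_contra hkn
  simp only [Finset.coe_range, mem_Iio, not_lt] at hkn
  apply hk
  have := hP k
  simp only [mem_iInter, Finset.mem_range] at this
  exact this n (by omega)

/-- sequences of infinite sets -/
abbrev P : Type := {A : ℕ → Set ℕ // ∀ n, (A n).Infinite}

/-- almost inclusion in every coordinate -/
def R (A B : P) : Prop := ∀ n, (A.1 n \ B.1 n).Finite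

theorem R.trans {A B C : P} (h1 : R A B) (h2 : R B C) : R A C := fun n =>
  ((h1 n).union (h2 n)).subset (fun x hx => by
    by_cases hB : x ∈ B.1 n
    · exact Or.inr ⟨hB, hx.2⟩
    · exact Or.inl ⟨hx.1, hB⟩)

/-- infinite sets contain infinite subsets on which a given map is constant or injective -/
theorem exists_const_or_inj {A : Set ℕ} (hA : A.Infinite) (f : ℕ → ℕ) :
    ∃ B ⊆ A, B.Infinite ∧ ((∃ c, ∀ x ∈ B, f x = c) ∨ InjOn f B) := by
  by_cases h : ∃ c, (A ∩ f ⁻¹' {c}).Infinite
  · obtain ⟨c, hc⟩ := h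
    exact ⟨_, inter_subset_left, hc, Or.inl ⟨c, fun x hx => hx.2⟩⟩
  · push Not at h
    have him : (f '' A).Infinite := by
      intro hfin
      apply hA
      have : A ⊆ ⋃ c ∈ f '' A, (A ∩ f ⁻¹' {c}) := by
        intro x hx
        simp only [mem_iUnion]
        exact ⟨f x, mem_image_of_mem f hx, hx, rfl⟩
      refine (hfin.biUnion (fun c _ => ?_)).subset this
      exact h c
    obtain ⟨B, hBA, hB⟩ := (surjOn_image f A).exists_bijOn_subset
    refine ⟨B, hBA, ?_, Or.inr hB.injOn⟩
    intro hfin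
    exact him (by
      have := hfin.image f
      rwa [hB.image_eq] at this)

/-- infinite sets can be split -/
theorem exists_split {A : Set ℕ} (hA : A.Infinite) :
    ∃ C D : Set ℕ, C ⊆ A ∧ D ⊆ A ∧ C.Infinite ∧ D.Infinite ∧ Disjoint C D := by
  classical
  let g := Nat.nth (· ∈ A)
  have hg : StrictMono g := Nat.nth_strictMono hA
  have hgX : ∀ n, g n ∈ A := fun n => Nat.nth_mem_of_infinite hA n
  refine ⟨range (fun n => g (2 * n)), range (fun n => g (2 * n + 1)), ?_, ?_, ?_, ?_, ?_⟩
  · rintro _ ⟨n, rfl⟩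
    exact hgX _
  · rintro _ ⟨n, rfl⟩
    exact hgX _
  · exact infinite_range_of_injective (fun a b hab => by
      have := hg.injective hab
      omega)
  · exact infinite_range_of_injective (fun a b hab => by
      have := hg.injective hab
      omega)
  · rw [Set.disjoint_left]
    rintro _ ⟨n, rfl⟩ ⟨m, hm⟩
    have := hg.injective hm
    omega

theorem exists_disjoint_image {A B : Set ℕ} (hA : A.Infinite) (hB : B.Infinite) (f : ℕ → ℕ) :
    ∃ A' ⊆ A, ∃ B' ⊆ B, A'.Infinite ∧ B'.Infinite ∧ ∀ x ∈ A', f x ∉ B' := by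
  obtain ⟨C, D, hC, hD, hCi, hDi, hd⟩ := exists_split hB
  by_cases h : (A ∩ f ⁻¹' C).Infinite
  · refine ⟨_, inter_subset_left, D, hD, h, hDi, fun x hx hxD => ?_⟩
    exact (Set.disjoint_left.1 hd) hx.2 hxD
  · refine ⟨A \ f ⁻¹' C, sdiff_subset, C, hC, ?_, hCi, fun x hx hxC => hx.2 hxC⟩
    intro hfin
    apply hA
    refine ((not_infinite.1 h).union hfin).subset ?_
    intro x hx
    by_cases hxC : f x ∈ C
    · exact Or.inl ⟨hx, hxC⟩
    · exact Or.inr ⟨hx, hxC⟩

/-- The requirement attached to `(f, n, m)`. -/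
def Q (t : (ℕ → ℕ) × ℕ × ℕ) (A : P) : Prop :=
  ((∃ c, ∀ x ∈ A.1 t.2.1, t.1 x = c) ∨ InjOn t.1 (A.1 t.2.1)) ∧
    (t.2.1 ≠ t.2.2 → ∀ x ∈ A.1 t.2.1, t.1 x ∉ A.1 t.2.2)

theorem exists_Q (t : (ℕ → ℕ) × ℕ × ℕ) (A : P) : ∃ B : P, Q t B ∧ ∀ n, B.1 n ⊆ A.1 n := by
  classical
  obtain ⟨f, n, m⟩ := t
  obtain ⟨C, hCA, hC, hCf⟩ := exists_const_or_inj (A.2 n) f
  obtain ⟨C', hC', D', hD', hCi, hDi, hCD⟩ := exists_disjoint_image hC (A.2 m) f
  by_cases hnm : n = m
  · refine ⟨⟨Function.update A.1 n C, fun k => ?_⟩, ⟨?_, ?_⟩, fun k => ?_⟩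
    · by_cases hk : k = n
      · subst hk; simpa using hC
      · simpa [Function.update_of_ne hk] using A.2 k
    · simpa using hCf
    · intro h; exact absurd hnm h
    · by_cases hk : k = n
      · subst hk; simpa using hCA
      · simp [Function.update_of_ne hk]
  · have hmn : m ≠ n := fun h => hnm h.symm
    refine ⟨⟨Function.update (Function.update A.1 n C') m D', fun k => ?_⟩, ⟨?_, ?_⟩,
      fun k => ?_⟩
    · by_cases hk : k = m
      · subst hk; simpa using hDi
      · by_cases hk2 : k = n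
        · subst hk2; simpa [Function.update_of_ne hk] using hCi
        · simpa [Function.update_of_ne hk, Function.update_of_ne hk2] using A.2 k
    · have e : Function.update (Function.update A.1 n C') m D' n = C' := by
        rw [Function.update_of_ne hnm]; simp
      simp only [e]
      rcases hCf with ⟨c, hc⟩ | hi
      · exact Or.inl ⟨c, fun x hx => hc x (hC' hx)⟩
      · exact Or.inr (hi.mono hC')
    · intro _
      have e : Function.update (Function.update A.1 n C') m D' n = C' := by
        rw [Function.update_of_ne hnm]; simp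
      simp only [e, Function.update_self]
      exact hCD
    · by_cases hk : k = m
      · subst hk; simpa using hD'
      · by_cases hk2 : k = n
        · subst hk2; simpa [Function.update_of_ne hk] using hC'.trans hCA
        · simp [Function.update_of_ne hk, Function.update_of_ne hk2]

/-- countable towers have lower bounds -/
theorem exists_lower {I : Type} [LinearOrder I] (i : I) (hi : (Iio i).Countable)
    (g : I → P) (hg : ∀ j < i, ∀ k < j, R (g j) (g k)) : ∃ B : P, ∀ j < i, R B (g j) := by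
  classical
  by_cases hne : (Iio i).Nonempty
  · obtain ⟨s, hs⟩ := hi.exists_eq_range hne
    have hsi : ∀ n, s n < i := fun n => by
      have : s n ∈ Iio i := hs ▸ mem_range_self n
      exact this
    -- for each finite stage a maximal index
    have hmax : ∀ n, ∃ N, N ≤ n ∧ ∀ l ≤ n, s l ≤ s N := by
      intro n
      obtain ⟨N, hN, hN2⟩ := Finset.exists_max_image (Finset.range (n + 1)) s ⟨0, by simp⟩
      exact ⟨N, by simpa [Nat.lt_succ_iff] using hN, fun l hl => hN2 l (by simp; omega)⟩
    have key : ∀ c : ℕ, ∃ X : Set ℕ, X.Infinite ∧ ∀ n, (X \ (g (s n)).1 c).Finite := by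
      intro c
      refine exists_pseudo (fun n => (g (s n)).1 c) (fun n => ?_)
      obtain ⟨N, _, hN⟩ := hmax n
      have hfin : (⋃ l ∈ Finset.range (n + 1), ((g (s N)).1 c \ (g (s l)).1 c)).Finite := by
        refine Set.Finite.biUnion (Finset.finite_toSet _) (fun l hl => ?_)
        have hl' : l ≤ n := by
          have : l ∈ Finset.range (n + 1) := hl
          simpa [Nat.lt_succ_iff] using this
        rcases (hN l hl').lt_or_eq with h | h
        · exact hg _ (hsi N) _ h c
        · rw [h]; simp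
      intro hcon
      apply (g (s N)).2 c
      refine (hcon.union hfin).subset ?_
      intro x hx
      by_cases hx2 : x ∈ ⋂ l ∈ Finset.range (n + 1), (g (s l)).1 c
      · exact Or.inl hx2
      · right
        simp only [mem_iInter, not_forall] at hx2
        obtain ⟨l, hl, hl2⟩ := hx2
        simp only [mem_iUnion]
        exact ⟨l, hl, hx, hl2⟩
    choose X hX1 hX2 using key
    refine ⟨⟨X, hX1⟩, fun j hj c => ?_⟩
    have : j ∈ range s := hs ▸ hj
    obtain ⟨n, rfl⟩ := this
    exact hX2 c n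
  · refine ⟨⟨fun _ => univ, fun _ => infinite_univ⟩, fun j hj => ?_⟩
    exact absurd ⟨j, hj⟩ hne

/-- **CH construction.** -/
theorem exists_selectives (hCH : Cardinal.aleph.{0} 1 = Cardinal.continuum.{0}) :
    ∃ Y : ℕ → Ultrafilter ℕ, (∀ n, IsSelective (Y n)) ∧
      ∀ n m, n ≠ m → ∀ f : ℕ → ℕ, (Y n).map f ≠ Y m := by
  classical
  let T := (ℕ → ℕ) × ℕ × ℕ
  have hT : Cardinal.mk T = Cardinal.aleph 1 := by
    rw [hCH]
    simp [T]
  let I : Type := (Cardinal.mk T).ord.ToType
  have hI : Cardinal.mk I = Cardinal.mk T := Cardinal.mk_ord_toType _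
  obtain ⟨e⟩ := Cardinal.eq.1 hI
  have hcount : ∀ i : I, (Iio i).Countable := by
    intro i
    rw [Cardinal.countable_iff_lt_aleph_one, ← hT]
    exact Cardinal.mk_Iio_toType_ord_lt i
  have hinst : Nonempty P := ⟨⟨fun _ => univ, fun _ => infinite_univ⟩⟩
  obtain ⟨g, hg⟩ := exists_tower (I := I) (fun i A => Q (e i) A) R (by
    intro i g hg
    obtain ⟨B, hB⟩ := exists_lower i (hcount i) g (fun j hj => (hg j hj).2)
    obtain ⟨C, hC, hCB⟩ := exists_Q (e i) B
    refine ⟨C, hC, fun j hj => R.trans (fun n => ?_) (hB j hj)⟩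
    rw [sdiff_eq_empty.2 (hCB n)]
    exact finite_empty)
  have hR : ∀ i j, ∃ k, R (g k) (g i) ∧ R (g k) (g j) := by
    intro i j
    have hrefl : ∀ A : P, R A A := fun A n => by simp
    rcases lt_trichotomy i j with h | h | h
    · exact ⟨j, (hg j).2 i h, hrefl _⟩
    · subst h
      exact ⟨i, hrefl _, hrefl _⟩
    · exact ⟨i, hrefl _, (hg i).2 j h⟩
  have hIne : Nonempty I := ⟨e.symm (fun _ => 0, 0, 0)⟩
  let V : ℕ → Filter ℕ := fun n =>
    { sets := {X | ∃ i, ((g i).1 n \ X).Finite}
      univ_sets := ⟨Classical.arbitrary I, by simp⟩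
      sets_of_superset := by
        rintro X Z ⟨i, hi⟩ hXZ
        exact ⟨i, hi.subset (sdiff_subset_sdiff_right hXZ)⟩
      inter_sets := by
        rintro X Z ⟨i, hi⟩ ⟨j, hj⟩
        obtain ⟨k, hki, hkj⟩ := hR i j
        refine ⟨k, (((hki n).union (hkj n)).union (hi.union hj)).subset ?_⟩
        rintro x ⟨hx, hx2⟩
        by_cases h1 : x ∈ (g i).1 n
        · by_cases h2 : x ∈ (g j).1 n
          · right
            by_cases h3 : x ∈ X
            · exact Or.inr ⟨h2, fun h4 => hx2 ⟨h3, h4⟩⟩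
            · exact Or.inl ⟨h1, h3⟩
          · exact Or.inl (Or.inr ⟨hx, h2⟩)
        · exact Or.inl (Or.inl ⟨hx, h1⟩) }
  have hV : ∀ n X, X ∈ V n ↔ ∃ i, ((g i).1 n \ X).Finite := fun n X => Iff.rfl
  have hmem : ∀ n i, (g i).1 n ∈ V n := fun n i => (hV n _).2 ⟨i, by simp⟩
  have hdec : ∀ n X, X ∉ V n ↔ Xᶜ ∈ V n := by
    intro n X
    let f : ℕ → ℕ := fun x => if x ∈ X then 1 else 0
    have hQ := (hg (e.symm (f, n, n))).1
    simp only [Equiv.apply_symm_apply, Q] at hQ
    have hconst : ∃ c, ∀ x ∈ (g (e.symm (f, n, n))).1 n, f x = c := by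
      rcases hQ.1 with h | h
      · exact h
      · exfalso
        apply (g (e.symm (f, n, n))).2 n
        refine Set.Finite.of_finite_image ((finite_Iic 1).subset ?_) h
        rintro _ ⟨x, _, rfl⟩
        simp only [f, mem_Iic]
        split_ifs <;> omega
    obtain ⟨c, hc⟩ := hconst
    have hdis : X ∈ V n ∨ Xᶜ ∈ V n := by
      by_cases h1 : c = 1
      · left
        refine (V n).sets_of_superset (hmem n (e.symm (f, n, n))) (fun x hx => ?_)
        have := hc x hx
        by_contra hxX
        simp only [f, if_neg hxX] at this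
        omega
      · right
        refine (V n).sets_of_superset (hmem n (e.symm (f, n, n))) (fun x hx hxX => ?_)
        have := hc x hx
        simp only [f, if_pos hxX] at this
        omega
    constructor
    · intro h
      exact hdis.resolve_left h
    · intro h1 h2
      have := (V n).inter_sets h1 h2
      obtain ⟨i, hi⟩ := this
      apply (g i).2 n
      refine hi.subset (fun x hx => ⟨hx, ?_⟩)
      rintro ⟨h3, h4⟩
      exact h3 h4
  let Y : ℕ → Ultrafilter ℕ := fun n => Ultrafilter.ofComplNotMemIff (V n) (fun s => by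
    rw [hdec]
    simp)
  have hY : ∀ n X, X ∈ Y n ↔ X ∈ V n := fun n X => Iff.rfl
  refine ⟨Y, fun n => ⟨fun k hk => ?_, fun f => ?_⟩, fun n m hnm f hf => ?_⟩
  · rw [hY, hV] at hk
    obtain ⟨i, hi⟩ := hk
    apply (g i).2 n
    refine (hi.union (finite_singleton k)).subset (fun x hx => ?_)
    by_cases h : x = k
    · exact Or.inr h
    · exact Or.inl ⟨hx, h⟩
  · have hQ := (hg (e.symm (f, n, n))).1
    simp only [Equiv.apply_symm_apply, Q] at hQ
    rcases hQ.1 with ⟨c, hc⟩ | h
    · exact Or.inl ⟨_, (hY n _).2 (hmem n (e.symm (f, n, n))), c, hc⟩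
    · exact Or.inr ⟨_, (hY n _).2 (hmem n (e.symm (f, n, n))), h⟩
  · have hQ := (hg (e.symm (f, n, m))).1
    simp only [Equiv.apply_symm_apply, Q] at hQ
    have h1 := hQ.2 hnm
    have h2 : (g (e.symm (f, n, m))).1 n ∈ Y n := (hY n _).2 (hmem n _)
    have h3 : (g (e.symm (f, n, m))).1 m ∈ Y m := (hY m _).2 (hmem m _)
    rw [← hf, Ultrafilter.mem_map] at h3
    obtain ⟨x, hx1, hx2⟩ := (Y n).nonempty_of_mem (inter_mem h2 h3)
    exact h1 x hx1 hx2

end Pool.Agent.V11279.QP
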