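import Mathlib
import Pool.Agent.V11279.QPb

set_option autoImplicit false

namespace Pool.Agent.V11279.QP

open Set Filter

/-- `IsIterate k U`: `U` is a Fubini iterate of p-points of depth at most `k + 1`. -/
inductive IsIterate : ℕ → Ultrafilter ℕ → Prop
  | base (W : Ultrafilter ℕ) (h : IsPPoint W) : IsIterate 0 W
  | mono (j : ℕ) (W : Ultrafilter ℕ) (h : IsIterate j W) : IsIterate (j + 1) W
  | sum (j : ℕ) (W : Ultrafilter ℕ) (Y : ℕ → Ultrafilter ℕ) (hW : IsPPoint W)
      (hY : ∀ n, IsIterate j (Y n)) : IsIterate (j + 1) (fubini W Y)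

/-- Tukey reducibility `V ≤_T U`, witnessed by a monotone cofinal map. -/
def TukeyLE (V U : Ultrafilter ℕ) : Prop :=
  ∃ g : Set ℕ → Set ℕ, (∀ A ∈ U, g A ∈ V) ∧
    (∀ A ∈ U, ∀ B ∈ U, A ⊆ B → g A ⊆ g B) ∧
    ∀ B ∈ V, ∃ A ∈ U, g A ⊆ B

/-- There are infinitely many selective ultrafilters up to isomorphism. -/
def InfinitelyManySelectives : Prop :=
  ∃ Y : ℕ → Ultrafilter ℕ, (∀ n, IsSelective (Y n)) ∧
    ∀ n m, n ≠ m → ¬ Isomorphic (Y n) (Y m)

theorem Isomorphic.symm {U V : Ultrafilter ℕ} (h : Isomorphic U V) : Isomorphic V U := by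
  obtain ⟨e, he⟩ := h
  refine ⟨e.symm, ?_⟩
  rw [← he, Ultrafilter.map_map]
  simp

theorem Isomorphic.trans {U V W : Ultrafilter ℕ} (h : Isomorphic U V) (h' : Isomorphic V W) :
    Isomorphic U W := by
  obtain ⟨e, he⟩ := h
  obtain ⟨e', he'⟩ := h'
  refine ⟨e.trans e', ?_⟩
  rw [← he', ← he, Ultrafilter.map_map]
  rfl

theorem Isomorphic.refl (U : Ultrafilter ℕ) : Isomorphic U U := ⟨Equiv.refl _, by simp⟩

theorem tukeyLE_refl (U : Ultrafilter ℕ) : TukeyLE U U :=
  ⟨id, fun _ h => h, fun _ _ _ _ h => h, fun B hB => ⟨B, hB, subset_rfl⟩⟩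

theorem fubini_nonprincipal {W : Ultrafilter ℕ} {Y : ℕ → Ultrafilter ℕ}
    (hY : ∀ n, Nonprincipal (Y n)) : Nonprincipal (fubini W Y) := by
  intro k hk
  rw [mem_fubini] at hk
  obtain ⟨n, hn⟩ := W.nonempty_of_mem hk
  refine (hY n).finite_notMem (X := {a | Nat.pair n a ∈ ({k} : Set ℕ)}) ?_ hn
  refine (finite_singleton (Nat.unpair k).2).subset ?_
  intro a ha
  have : Nat.pair n a = k := ha
  simp [← this]

theorem IsIterate.nonprincipal {k : ℕ} {U : Ultrafilter ℕ} (h : IsIterate k U) :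
    Nonprincipal U := by
  induction h with
  | base W h => exact h.1
  | mono j W h ih => exact ih
  | sum j W Y hW hY ih => exact fubini_nonprincipal ih

theorem selective_of_pPoint_qPoint {U : Ultrafilter ℕ} (hp : IsPPoint U) (hq : IsQPoint U) :
    IsSelective U := by
  classical
  refine ⟨hp.1, fun f => ?_⟩
  by_cases h : ∃ c, {x | f x = c} ∈ U
  · obtain ⟨c, hc⟩ := h
    exact Or.inl ⟨_, hc, c, fun x hx => hx⟩
  · right
    push Not at h
    obtain ⟨X, hX, hXf⟩ := hp.2 (fun c => {x | f x = c}ᶜ)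
      (fun c => Ultrafilter.compl_mem_iff_notMem.2 (h c))
    obtain ⟨Z, hZ, hi⟩ := hq.2 (fun x => if x ∈ X then 2 * f x else 2 * x + 1) (by
      intro m
      refine ((hXf (m / 2)).union (finite_singleton (m / 2))).subset ?_
      intro x hx
      have hx' : (if x ∈ X then 2 * f x else 2 * x + 1) = m := hx
      by_cases hxX : x ∈ X
      · rw [if_pos hxX] at hx'
        left
        refine ⟨hxX, fun h => h ?_⟩
        show f x = m / 2
        omega
      · rw [if_neg hxX] at hx'
        right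
        show x = m / 2
        omega)
    refine ⟨X ∩ Z, inter_mem hX hZ, ?_⟩
    intro a ha b hb hab
    apply hi ha.2 hb.2
    simp only [if_pos ha.1, if_pos hb.1, hab]

theorem qPoint_factors {W : Ultrafilter ℕ} {Y : ℕ → Ultrafilter ℕ}
    (hY : ∀ n, Nonprincipal (Y n)) (hq : IsQPoint (fubini W Y)) :
    {n | IsQPoint (Y n)} ∈ W := by
  classical
  by_contra hcon
  have hB : {n | IsQPoint (Y n)}ᶜ ∈ W := Ultrafilter.compl_mem_iff_notMem.2 hcon
  have hf : ∀ n, ∃ f : ℕ → ℕ, (∀ m, {a | f a = m}.Finite) ∧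
      (¬ IsQPoint (Y n) → ∀ X ∈ Y n, ¬ InjOn f X) := by
    intro n
    by_cases h : IsQPoint (Y n)
    · exact ⟨id, fun m => finite_singleton m, fun h' => absurd h h'⟩
    · have h2 : ¬ ∀ f : ℕ → ℕ, (∀ m : ℕ, {n : ℕ | f n = m}.Finite) → ∃ X ∈ Y n, Set.InjOn f X :=
        fun h3 => h ⟨hY n, h3⟩
      push Not at h2
      obtain ⟨f, hf1, hf2⟩ := h2
      exact ⟨f, hf1, fun _ => hf2⟩
  choose f hf1 hf2 using hf
  obtain ⟨X, hX, hi⟩ := hq.2 (fun k => Nat.pair (Nat.unpair k).1 (f (Nat.unpair k).1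
      (Nat.unpair k).2)) (by
    intro m
    refine ((hf1 (Nat.unpair m).1 (Nat.unpair m).2).image (Nat.pair (Nat.unpair m).1)).subset ?_
    intro k hk
    have hk' : Nat.pair (Nat.unpair k).1 (f (Nat.unpair k).1 (Nat.unpair k).2) = m := hk
    have h1 : (Nat.unpair m).1 = (Nat.unpair k).1 := by rw [← hk']; simp
    have h2 : (Nat.unpair m).2 = f (Nat.unpair k).1 (Nat.unpair k).2 := by rw [← hk']; simp
    refine ⟨(Nat.unpair k).2, ?_, ?_⟩
    · show f (Nat.unpair m).1 (Nat.unpair k).2 = (Nat.unpair m).2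
      rw [h1, h2]
    · rw [h1, Nat.pair_unpair])
  rw [mem_fubini] at hX
  obtain ⟨n, hn1, hn2⟩ := W.nonempty_of_mem (inter_mem hX hB)
  refine hf2 n hn2 _ hn1 ?_
  intro a ha b hb hab
  have := hi (show Nat.pair n a ∈ X from ha) (show Nat.pair n b ∈ X from hb) (by simp [hab])
  exact (Nat.pair_eq_pair.1 this).2

theorem not_qPoint_of_isomorphic {W : Ultrafilter ℕ} {Y : ℕ → Ultrafilter ℕ} {S : Ultrafilter ℕ}
    (hW : Nonprincipal W) (hS : Nonprincipal S) (h : {n | Isomorphic (Y n) S} ∈ W) :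
    ¬ IsQPoint (fubini W Y) := by
  classical
  intro hq
  have he : ∀ n, ∃ e : Equiv.Perm ℕ, Isomorphic (Y n) S → (Y n).map e = S := by
    intro n
    by_cases hn : Isomorphic (Y n) S
    · obtain ⟨e, he⟩ := hn
      exact ⟨e, fun _ => he⟩
    · exact ⟨Equiv.refl _, fun h => absurd h hn⟩
  choose e he using he
  obtain ⟨X, hX, hi⟩ := hq.2 (fun k => if (Nat.unpair k).1 ≤ e (Nat.unpair k).1 (Nat.unpair k).2
      then 2 * e (Nat.unpair k).1 (Nat.unpair k).2 else 2 * k + 1) (by
    intro m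
    refine (((finite_Iic (m / 2)).image (fun n => Nat.pair n ((e n).symm (m / 2)))).union
      (finite_singleton (m / 2))).subset ?_
    intro k hk
    have hk' : (if (Nat.unpair k).1 ≤ e (Nat.unpair k).1 (Nat.unpair k).2
      then 2 * e (Nat.unpair k).1 (Nat.unpair k).2 else 2 * k + 1) = m := hk
    split_ifs at hk' with hle
    · left
      have h2 : e (Nat.unpair k).1 (Nat.unpair k).2 = m / 2 := by omega
      refine ⟨(Nat.unpair k).1, ?_, ?_⟩
      · show (Nat.unpair k).1 ≤ m / 2
        omega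
      · show Nat.pair (Nat.unpair k).1 ((e (Nat.unpair k).1).symm (m / 2)) = k
        rw [← h2, Equiv.symm_apply_apply, Nat.pair_unpair]
    · right
      show k = m / 2
      omega)
  rw [mem_fubini] at hX
  have hG := inter_mem hX h
  have hGi := hW.infinite hG
  obtain ⟨n, hn⟩ := hGi.nonempty
  obtain ⟨m, hm, hnm⟩ := hGi.exists_gt n
  have hSn : e n '' {a | Nat.pair n a ∈ X} ∈ S := by
    rw [← he n hn.2]
    exact image_mem_map hn.1
  have hSm : e m '' {a | Nat.pair m a ∈ X} ∈ S := by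
    rw [← he m hm.2]
    exact image_mem_map hm.1
  have hlarge : {b | m ≤ b} ∈ S := by
    by_contra hcon
    have := Ultrafilter.compl_mem_iff_notMem.2 hcon
    refine hS.finite_notMem (X := {b | m ≤ b}ᶜ) ?_ this
    refine (finite_Iio m).subset ?_
    intro b hb
    have : ¬ m ≤ b := hb
    exact not_le.1 this
  obtain ⟨b, ⟨⟨a, ha, hab⟩, ⟨a', ha', hab'⟩⟩, hb⟩ :=
    S.nonempty_of_mem (inter_mem (inter_mem hSn hSm) hlarge)
  have hb' : m ≤ b := hb
  have key := hi (show Nat.pair n a ∈ X from ha) (show Nat.pair m a' ∈ X from ha') (by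
    simp only [Nat.unpair_pair]
    rw [hab, hab', if_pos (by omega), if_pos hb'])
  have := (Nat.pair_eq_pair.1 key).1
  omega

/-- If there are only finitely many selective ultrafilters up to isomorphism, then every finite
Fubini iterate of p-points that is a q-point is selective. -/
theorem selective_of_iterate (hfin : ¬ InfinitelyManySelectives) {k : ℕ} {U : Ultrafilter ℕ}
    (h : IsIterate k U) (hq : IsQPoint U) : IsSelective U := by
  classical
  induction h with
  | base W h => exact selective_of_pPoint_qPoint h hq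
  | mono j W h ih => exact ih hq
  | sum j W Y hW hY ih =>
    exfalso
    have hG := qPoint_factors (fun n => (hY n).nonprincipal) hq
    have hsel : ∀ n, IsQPoint (Y n) → IsSelective (Y n) := fun n => ih n
    let st : Setoid (Ultrafilter ℕ) := ⟨Isomorphic, Isomorphic.refl, Isomorphic.symm,
      Isomorphic.trans⟩
    let q : ℕ → Quotient st := fun n => Quotient.mk st (Y n)
    by_cases hc : (q '' {n | IsQPoint (Y n)}).Finite
    · obtain ⟨c, hcm, hc2⟩ := (Ultrafilter.finite_biUnion_mem_iff (f := W) hc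
        (s := fun c => {n | q n = c})).1 (by
          refine mem_of_superset hG (fun n hn => ?_)
          simp only [mem_iUnion]
          exact ⟨q n, mem_image_of_mem q hn, rfl⟩)
      obtain ⟨n0, _, hn0⟩ := hcm
      refine not_qPoint_of_isomorphic (S := Y n0) hW.1 (hY n0).nonprincipal ?_ hq
      refine mem_of_superset hc2 (fun n hn => ?_)
      have h1 : q n = q n0 := by rw [hn0]; exact hn
      exact Quotient.exact h1
    · have hc' : (q '' {n | IsQPoint (Y n)}).Infinite := hc
      apply hfin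
      have i1 : Infinite ↥(q '' {n | IsQPoint (Y n)}) := hc'.to_subtype
      let φ := Infinite.natEmbedding ↥(q '' {n | IsQPoint (Y n)})
      have hch : ∀ i, ∃ n, IsQPoint (Y n) ∧ q n = (φ i).1 := fun i => (φ i).2
      choose s hs1 hs2 using hch
      refine ⟨fun i => Y (s i), fun i => hsel _ (hs1 i), fun i j hij hiso => hij ?_⟩
      apply φ.injective
      apply Subtype.ext
      rw [← hs2 i, ← hs2 j]
      exact Quotient.sound hiso

/-- Infinitely many selective ultrafilters give a Fubini iterate of depth two that is a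
nonselective q-point. -/
theorem exists_iterate (h : InfinitelyManySelectives) :
    ∃ V : Ultrafilter ℕ, IsIterate 1 V ∧ IsQPoint V ∧ ¬ IsSelective V := by
  obtain ⟨Y, hY, hne⟩ := h
  refine ⟨fubini (Y 0) Y, ?_, fubini_qPoint hY hne,
    fubini_not_selective (hY 0).1 (fun n => (hY n).1)⟩
  exact IsIterate.sum 0 _ _ (isSelective_pPoint (hY 0))
    (fun n => IsIterate.base _ (isSelective_pPoint (hY n)))

theorem infinitelyManySelectives_of_CH (hCH : Cardinal.aleph.{0} 1 = Cardinal.continuum.{0}) :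
    InfinitelyManySelectives := by
  obtain ⟨Y, h1, h2⟩ := exists_selectives hCH
  exact ⟨Y, h1, fun n m hnm ⟨e, he⟩ => h2 n m hnm e he⟩

end Pool.Agent.V11279.QP
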