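import Pool.Agent.V11279.HG2

set_option autoImplicit false

/-!
# The associated order of the ring of integers is maximal when the degree is invertible
-/

namespace Pool.Agent.V11279.HG

open scoped nonZeroDivisors

variable {R K L : Type} [CommRing R] [Field K] [Field L] [Algebra R K] [Algebra K L] [Algebra R L]
  [IsScalarTower R K L]

/-- The element `∑_η (∑_g g(a) η⁻¹(g(b))) η` of `L[N]`; it acts as
`v ↦ ∑_g Tr(b g⁻¹(v)) g(a)`. -/
noncomputable def avg [Fintype (L ≃ₐ[K] L)] (a b : L) : MonoidAlgebra L (NN K L) :=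
  ∑ k : L ≃ₐ[K] L, MonoidAlgebra.single (eN k) (∑ g : L ≃ₐ[K] L, g a * k⁻¹ (g b))

theorem coeff_avg [Fintype (L ≃ₐ[K] L)] (a b : L) (k : L ≃ₐ[K] L) :
    (avg (K := K) a b).coeff (eN k) = ∑ g : L ≃ₐ[K] L, g a * k⁻¹ (g b) := by
  classical
  rw [avg, MonoidAlgebra.coeff_sum, Finsupp.finsetSum_apply, Finset.sum_eq_single k]
  · simp
  · intro h _ hk
    rw [MonoidAlgebra.coeff_single, Finsupp.single_apply, if_neg]
    exact fun e => hk (eN.injective e)
  · simp

theorem avg_mem [Fintype (L ≃ₐ[K] L)] (a b : L) : avg (K := K) a b ∈ Hlam K L := by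
  rw [mem_Hlam_iff]
  intro g k
  rw [coeff_avg, coeff_avg, map_sum, ← Equiv.sum_comp (Equiv.mulLeft g)]
  apply Finset.sum_congr rfl
  intro h _
  simp only [Equiv.coe_mulLeft, map_mul g]
  have e1 : (g * k * g⁻¹)⁻¹ ((g * h) b) = g (k⁻¹ (h b)) := by
    rw [← AlgEquiv.mul_apply, ← AlgEquiv.mul_apply, ← AlgEquiv.mul_apply]
    congr 1
    group
  rw [e1, AlgEquiv.mul_apply]

theorem actL_avg [FiniteDimensional K L] [IsGalois K L] (a b v : L) :
    actL (avg (K := K) a b) v =
      ∑ g : L ≃ₐ[K] L, algebraMap K L (Algebra.trace K L (b * g⁻¹ v)) * g a := by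
  rw [actL_apply]
  simp only [coeff_avg, Finset.sum_mul]
  rw [Finset.sum_comm]
  apply Finset.sum_congr rfl
  intro g _
  rw [trace_eq_sum_automorphisms, Finset.sum_mul]
  refine Fintype.sum_equiv ((Equiv.inv (L ≃ₐ[K] L)).trans (Equiv.mulRight g)) _ _ fun k => ?_
  simp only [Equiv.trans_apply, Equiv.inv_apply, Equiv.coe_mulRight, map_mul (k⁻¹ * g)]
  have e1 : (k⁻¹ * g) (g⁻¹ v) = k⁻¹ v := by
    rw [← AlgEquiv.mul_apply]
    congr 1
    group
  rw [e1, AlgEquiv.mul_apply]
  ring

theorem coeff_one_mul_avg [FiniteDimensional K L] [IsGalois K L]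
    {y : MonoidAlgebra L (NN K L)} (hy : y ∈ Hlam K L) (a b : L) :
    (y * avg (K := K) a b).coeff 1 = algebraMap K L (Algebra.trace K L (actL y a * b)) := by
  have h1 : (1 : NN K L) = eN 1 := by rw [map_one]
  rw [h1, coeff_mul_eN, trace_eq_sum_automorphisms]
  simp only [mul_one, coeff_avg, inv_inv, Finset.mul_sum]
  have h2 : ∀ h : L ≃ₐ[K] L, h (actL y a * b) =
      ∑ k : L ≃ₐ[K] L, y.coeff (eN k) * ((k⁻¹ * h) a * h b) := by
    intro h
    rw [actL_apply, map_mul h, map_sum, Finset.sum_mul]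
    refine Fintype.sum_equiv (MulAut.conj h).toEquiv _ _ fun k => ?_
    simp only [MulEquiv.toEquiv_eq_coe, EquivLike.coe_coe, MulAut.conj_apply, map_mul h]
    have e1 : ((h * k * h⁻¹)⁻¹ * h) a = h (k⁻¹ a) := by
      rw [← AlgEquiv.mul_apply]
      congr 1
      group
    rw [mem_Hlam_iff.1 hy h k, e1, mul_assoc]
  simp only [h2]
  conv_rhs => rw [Finset.sum_comm]
  apply Finset.sum_congr rfl
  intro k _
  refine Fintype.sum_equiv (Equiv.mulLeft k) _ _ fun g => ?_
  simp only [Equiv.coe_mulLeft, inv_mul_cancel_left]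
  rfl

variable [IsDedekindDomain R] [IsFractionRing R K] [FiniteDimensional K L]

theorem isMaximalOrder_assocLam [IsGalois K L]
    (hn : IsUnit ((Nat.card (L ≃ₐ[K] L) : ℕ) : R)) :
    IsMaximalOrder R K (assocLam R K L (Subalgebra.toSubmodule (integralClosure R L)))
      (Hlam K L) := by
  classical
  set S := integralClosure R L with hS
  have hfin : Module.Finite R S := IsIntegralClosure.finite R K L S
  refine ⟨isOrder_assocLam _ (Module.Finite.iff_fg.1 hfin) ?_, ?_⟩
  · intro x
    obtain ⟨y, hy, h⟩ := exists_integral_multiples R K (L := L) {x}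
    exact ⟨y, hy, h x (by simp)⟩
  intro Λ' hΛ' hle
  apply le_antisymm _ hle
  intro y hy
  have hyH : y ∈ Hlam K L := by
    have : y ∈ Subalgebra.toSubmodule (Hlam K L) := by
      rw [← hΛ'.2]; exact Submodule.subset_span hy
    exact this
  refine ⟨hyH, fun a ha => ?_⟩
  rw [act_eq_actL]
  have hfr : IsFractionRing S L := IsIntegralClosure.isFractionRing_of_finite_extension R K L S
  have hded : IsDedekindDomain S := IsIntegralClosure.isDedekindDomain R K L S
  -- it suffices to be in the double dual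
  suffices h : actL y a ∈ FractionalIdeal.dual R K
      (FractionalIdeal.dual R K (1 : FractionalIdeal S⁰ L)) by
    rw [FractionalIdeal.dual_dual, FractionalIdeal.mem_one_iff] at h
    obtain ⟨s, hs⟩ := h
    rw [← hs]
    exact s.2
  rw [FractionalIdeal.mem_dual (FractionalIdeal.dual_ne_zero R K (I := (1 : FractionalIdeal S⁰ L)) one_ne_zero)]
  intro b hb
  rw [FractionalIdeal.mem_dual (I := (1 : FractionalIdeal S⁰ L)) one_ne_zero] at hb
  have hb' : ∀ s ∈ S, ∃ r : R, algebraMap R K r = Algebra.trace K L (b * s) := by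
    intro s hs
    have := hb s (by
      rw [FractionalIdeal.mem_one_iff]
      exact ⟨⟨s, hs⟩, rfl⟩)
    rw [Algebra.traceForm_apply] at this
    exact this
  -- the averaged element lies in the associated order
  have hx : avg (K := K) a b ∈ assocLam R K L (Subalgebra.toSubmodule S) := by
    refine ⟨avg_mem a b, fun v hv => ?_⟩
    rw [act_eq_actL, actL_avg]
    apply Submodule.sum_mem
    intro g _
    have hgv : g⁻¹ v ∈ S := by
      have hv' : IsIntegral R v := hv
      exact hv'.map ((g⁻¹ : L ≃ₐ[K] L).toAlgHom.restrictScalars R)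
    obtain ⟨r, hr⟩ := hb' _ hgv
    rw [← hr, ← IsScalarTower.algebraMap_apply, ← Algebra.smul_def]
    apply Submodule.smul_mem
    have ha' : IsIntegral R a := ha
    exact ha'.map ((g : L ≃ₐ[K] L).toAlgHom.restrictScalars R)
  have hz : y * avg (K := K) a b ∈ Λ' := mul_mem hy (hle hx)
  have hzi : IsIntegral R (y * avg (K := K) a b) := IsIntegral.of_mem_of_fg Λ' hΛ'.1 _ hz
  have : Finite (NN K L) := Finite.of_equiv _ eN.toEquiv
  have h3 := isIntegral_card_mul_coeff_one _ hzi
  rw [coeff_one_mul_avg hyH, ← Nat.card_congr (eN (K := K) (L := L)).toEquiv] at h3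
  have h4 : IsIntegral R ((Nat.card (L ≃ₐ[K] L) : K) * Algebra.trace K L (actL y a * b)) := by
    rw [← isIntegral_algebraMap_iff (algebraMap K L).injective]
    simpa using h3
  rw [IsIntegrallyClosed.isIntegral_iff] at h4
  obtain ⟨r, hr⟩ := h4
  obtain ⟨u, hu⟩ := hn
  rw [Algebra.traceForm_apply]
  refine ⟨↑u⁻¹ * r, ?_⟩
  rw [map_mul, hr, ← mul_assoc, ← map_natCast (algebraMap R K), ← hu, ← map_mul, Units.inv_mul,
    map_one, one_mul]

end Pool.Agent.V11279.HG
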