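import Pool.Agent.V11279.HG7

set_option autoImplicit false

/-!
# The nonclassical associated order of `ℚ_p(p^(1/3), ζ₃)/ℚ_p` is not a Hopf order
-/

namespace Pool.Agent.V11279.HG

open Polynomial
open scoped TensorProduct

namespace Dat

section card

variable {p : ℕ} [hpf : Fact p.Prime] {L : Type} [Field L] [Algebra ℚ_[p] L]
  [FiniteDimensional ℚ_[p] L] (D : Dat p L)

open Classical in
/-- The number of elements of `C`. -/
noncomputable def nC : ℕ := (Finset.univ.filter fun g : L ≃ₐ[ℚ_[p]] L => D.C g).card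

open Classical in
/-- The number of elements of `T`. -/
noncomputable def nT : ℕ := (Finset.univ.filter fun g : L ≃ₐ[ℚ_[p]] L => D.T g).card

theorem eq_of_χ {g h : L ≃ₐ[ℚ_[p]] L} (h1 : D.χ g = D.χ h) (h2 : g D.ζ = h D.ζ) : g = h := by
  have h3 : h⁻¹ * g = 1 := by
    apply D.hgen
    · rw [AlgEquiv.mul_apply, D.g_π g, h1, ← D.g_π h, ← AlgEquiv.mul_apply, inv_mul_cancel]
      rfl
    · rw [AlgEquiv.mul_apply, h2, ← AlgEquiv.mul_apply, inv_mul_cancel]
      rfl
  rw [inv_mul_eq_one] at h3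
  exact h3.symm

theorem nC_le : D.nC ≤ 3 := by
  classical
  have h : D.nC ≤ ({1, D.ζ, D.ζ ^ 2} : Finset L).card := by
    apply Finset.card_le_card_of_injOn D.χ
    · intro g _
      have := D.cube_root (D.χ3 g)
      simpa using this
    · intro g hg h hh e
      simp only [Finset.coe_filter, Finset.mem_univ, true_and, Set.mem_ofPred_eq] at hg hh
      exact D.eq_of_χ e (hg.trans hh.symm)
  exact h.trans Finset.card_le_three

theorem nT_le : D.nT ≤ 3 := by
  classical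
  have h : D.nT ≤ ({1, D.ζ, D.ζ ^ 2} : Finset L).card := by
    apply Finset.card_le_card_of_injOn D.χ
    · intro g _
      have := D.cube_root (D.χ3 g)
      simpa using this
    · intro g hg h hh e
      simp only [Finset.coe_filter, Finset.mem_univ, true_and, Set.mem_ofPred_eq] at hg hh
      exact D.eq_of_χ e (hg.trans hh.symm)
  exact h.trans Finset.card_le_three

theorem nC_pos : 0 < D.nC := by
  classical
  apply Finset.card_pos.2
  exact ⟨1, by simp [C_one]⟩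

end card

variable {p : ℕ} [hpf : Fact p.Prime] {L : Type} [Field L] [Algebra ℚ_[p] L]
  [FiniteDimensional ℚ_[p] L] [IsGalois ℚ_[p] L] (D : Dat p L)

theorem nT_eq (hp5 : 5 ≤ p) (hp3 : p % 3 = 2) : D.nT = D.nC := by
  classical
  obtain ⟨τ, hτ⟩ := D.exists_T hp5 hp3
  symm
  apply Finset.card_bij (fun g _ => τ * g)
  · intro g hg
    simp only [Finset.mem_filter, Finset.mem_univ, true_and] at hg ⊢
    exact D.TC hτ hg
  · intro g _ h _ e
    exact mul_left_cancel e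
  · intro g hg
    simp only [Finset.mem_filter, Finset.mem_univ, true_and] at hg
    exact ⟨τ⁻¹ * g, by simpa using D.TT (D.T_inv hτ) hg, by simp⟩

theorem card_eq (hp5 : 5 ≤ p) (hp3 : p % 3 = 2) : Nat.card (L ≃ₐ[ℚ_[p]] L) = 2 * D.nC := by
  classical
  rw [Nat.card_eq_fintype_card, ← Finset.card_univ,
    ← Finset.card_filter_add_card_filter_not (s := Finset.univ) (fun g : L ≃ₐ[ℚ_[p]] L => D.C g)]
  have h1 : (Finset.univ.filter fun g : L ≃ₐ[ℚ_[p]] L => ¬ D.C g) =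
      Finset.univ.filter fun g : L ≃ₐ[ℚ_[p]] L => D.T g := by
    ext g
    simp only [Finset.mem_filter, Finset.mem_univ, true_and]
    constructor
    · exact fun h => (D.C_or_T g).resolve_left h
    · exact fun h h' => D.not_C_T h' h
  rw [h1, two_mul]
  congr 1
  exact D.nT_eq hp5 hp3

theorem not_dvd_nC (hp5 : 5 ≤ p) : ¬ p ∣ D.nC := by
  intro h
  have := Nat.le_of_dvd D.nC_pos h
  have := D.nC_le
  omega

include D in
theorem not_dvd_card (hp5 : 5 ≤ p) (hp3 : p % 3 = 2) : ¬ p ∣ Nat.card (L ≃ₐ[ℚ_[p]] L) := by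
  rw [D.card_eq hp5 hp3]
  intro h
  rcases (Nat.Prime.dvd_mul hpf.out).1 h with h | h
  · have := Nat.le_of_dvd (by norm_num) h
    omega
  · exact D.not_dvd_nC hp5 h

include D in
theorem noncomm (hp5 : 5 ≤ p) (hp3 : p % 3 = 2) :
    ∃ g h : L ≃ₐ[ℚ_[p]] L, g * h ≠ h * g := by
  obtain ⟨τ, hτ⟩ := D.exists_T hp5 hp3
  obtain ⟨s, hs, hs1⟩ := D.exists_C hp5 hp3
  refine ⟨s, τ, fun e => hs1 ?_⟩
  have h1 := D.χ_mul s τ
  have h2 := D.χ_mul τ s
  rw [D.C_apply hs (D.χ3 _)] at h1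
  rw [D.T_apply hτ (D.χ3 _)] at h2
  rw [e, h2] at h1
  have h3 := D.χ_ne τ
  have h4 := D.χ_ne s
  have h5 : D.χ τ * D.χ s * (D.χ s - 1) = 0 := by linear_combination h1
  rcases mul_eq_zero.1 h5 with h6 | h6
  · rcases mul_eq_zero.1 h6 with h7 | h7
    · exact absurd h7 h3
    · exact absurd h7 h4
  · exact sub_eq_zero.1 h6

open Classical in
theorem sum_χ_sq (hp5 : 5 ≤ p) (hp3 : p % 3 = 2) :
    ∑ s ∈ Finset.univ.filter (fun g : L ≃ₐ[ℚ_[p]] L => D.C g), D.χ s ^ 2 = 0 := by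
  obtain ⟨s0, hs0, hne⟩ := D.exists_C hp5 hp3
  set S := ∑ s ∈ Finset.univ.filter (fun g : L ≃ₐ[ℚ_[p]] L => D.C g), D.χ s ^ 2 with hS
  have h1 : D.χ s0 ^ 2 * S = S := by
    rw [hS, Finset.mul_sum]
    apply Finset.sum_bij (fun g _ => s0 * g)
    · intro g hg
      simp only [Finset.mem_filter, Finset.mem_univ, true_and] at hg ⊢
      exact D.CC hs0 hg
    · intro g _ h _ e
      exact mul_left_cancel e
    · intro g hg
      simp only [Finset.mem_filter, Finset.mem_univ, true_and] at hg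
      exact ⟨s0⁻¹ * g, by simpa using D.CC (D.C_inv hs0) hg, by simp⟩
    · intro g _
      rw [D.χ_mul, D.C_apply hs0 (D.χ3 _)]
      ring
  have h2 : (D.χ s0 ^ 2 - 1) * S = 0 := by linear_combination h1
  rcases mul_eq_zero.1 h2 with h3 | h3
  · exfalso
    apply hne
    have h4 := D.χ3 s0
    linear_combination h4 - D.χ s0 * h3
  · exact h3

section integral

variable [Algebra ℤ_[p] L] [IsScalarTower ℤ_[p] ℚ_[p] L]

omit [FiniteDimensional ℚ_[p] L] [IsGalois ℚ_[p] L] in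
theorem int_iff (w : ℚ_[p]) : IsIntegral ℤ_[p] (algebraMap ℚ_[p] L w) ↔ ‖w‖ ≤ 1 := by
  rw [isIntegral_algebraMap_iff (algebraMap ℚ_[p] L).injective, IsIntegrallyClosed.isIntegral_iff]
  constructor
  · rintro ⟨z, rfl⟩
    exact z.2
  · intro h
    exact ⟨⟨w, h⟩, rfl⟩

omit [FiniteDimensional ℚ_[p] L] [IsGalois ℚ_[p] L] in
theorem int_map (g : L ≃ₐ[ℚ_[p]] L) {x : L} (hx : IsIntegral ℤ_[p] x) : IsIntegral ℤ_[p] (g x) :=
  hx.map (g.toAlgHom.restrictScalars ℤ_[p])

omit [FiniteDimensional ℚ_[p] L] [IsGalois ℚ_[p] L] in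
theorem int_root {ω : L} (h : ω ^ 3 = 1) : IsIntegral ℤ_[p] ω :=
  IsIntegral.of_pow (n := 3) (by norm_num) (by rw [h]; exact isIntegral_one)

omit [FiniteDimensional ℚ_[p] L] [IsGalois ℚ_[p] L] in
theorem int_π : IsIntegral ℤ_[p] D.π := by
  apply IsIntegral.of_pow (n := 3) (by norm_num)
  rw [D.hπ]
  have := isIntegral_algebraMap (R := ℤ_[p]) (A := L) (x := (p : ℤ_[p]))
  rwa [map_natCast] at this

/-- The test element maps integers to integers. -/
theorem int_hel (hp5 : 5 ≤ p) (hp3 : p % 3 = 2) {x : L} (hx : IsIntegral ℤ_[p] x) :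
    IsIntegral ℤ_[p] (actL D.hel x) := by
  classical
  obtain ⟨τ, hτ⟩ := D.exists_T hp5 hp3
  have hπ0 := D.π_ne
  set t : L := ∑ g ∈ Finset.univ.filter (fun g : L ≃ₐ[ℚ_[p]] L => D.T g), g (D.π * x) with ht
  have h1 : actL D.hel x = t / D.π ^ 2 := by
    rw [actL_apply, ← Equiv.sum_comp (Equiv.inv (L ≃ₐ[ℚ_[p]] L)), ht, Finset.sum_filter,
      Finset.sum_div]
    apply Finset.sum_congr rfl
    intro g _
    rw [D.coeff_hel, Equiv.inv_apply, inv_inv]
    by_cases hg : D.T g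
    · rw [if_pos hg, D.cf_T (D.T_inv hg), D.χ_inv_T hg, map_mul, D.g_π g]
      field_simp
    · have hg' := (D.C_or_T g).resolve_right hg
      rw [if_neg hg, D.cf_C (D.C_inv hg')]
      simp
  have h2 : IsIntegral ℤ_[p] (t / D.π) := by
    rw [ht, Finset.sum_div]
    apply IsIntegral.sum
    intro g _
    have : g (D.π * x) / D.π = D.χ g * g x := by
      rw [map_mul, D.g_π g]
      field_simp
    rw [this]
    exact (int_root (D.χ3 g)).mul (int_map g hx)
  have h3 : ∀ g, D.C g → g t = t := by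
    intro s hs
    rw [ht, map_sum]
    apply Finset.sum_bij (fun g _ => s * g)
    · intro g hg
      simp only [Finset.mem_filter, Finset.mem_univ, true_and] at hg ⊢
      exact D.CT hs hg
    · intro g _ h _ e
      exact mul_left_cancel e
    · intro g hg
      simp only [Finset.mem_filter, Finset.mem_univ, true_and] at hg
      exact ⟨s⁻¹ * g, by simpa using D.CT (D.C_inv hs) hg, by simp⟩
    · intro g _
      rfl
  obtain ⟨a, b, hab, hT⟩ := D.fixed_C hp5 hp3 h3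
  have h4 := hT τ hτ
  -- the norm
  set N : ℚ_[p] := a ^ 2 - a * b + b ^ 2 with hN
  have h5 : algebraMap ℚ_[p] L N = t * τ t := by
    rw [h4]
    conv_rhs => rw [hab]
    simp only [hN, map_add, map_sub, map_mul, map_pow]
    linear_combination (algebraMap ℚ_[p] L b ^ 2 * (-(D.ζ - 1)) -
      algebraMap ℚ_[p] L a * algebraMap ℚ_[p] L b) * D.hζ
  have h6 : IsIntegral ℤ_[p] (algebraMap ℚ_[p] L N / D.π ^ 2) := by
    have : algebraMap ℚ_[p] L N / D.π ^ 2 = D.χ τ * ((t / D.π) * τ (t / D.π)) := by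
      rw [h5, map_div₀, D.g_π τ]
      have := D.χ_ne τ
      field_simp
    rw [this]
    exact (int_root (D.χ3 τ)).mul (h2.mul (int_map τ h2))
  have h7 : IsIntegral ℤ_[p] (algebraMap ℚ_[p] L (N ^ 3 / (p : ℚ_[p]) ^ 2)) := by
    have : algebraMap ℚ_[p] L (N ^ 3 / (p : ℚ_[p]) ^ 2) = (algebraMap ℚ_[p] L N / D.π ^ 2) ^ 3 := by
      rw [map_div₀, map_pow, map_pow, map_natCast, div_pow, ← D.hπ]
      ring
    rw [this]
    exact h6.pow 3
  rw [int_iff, norm_div, norm_pow, norm_pow, Padic.norm_p] at h7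
  have hp0 : (0 : ℝ) < p := by exact_mod_cast hpf.out.pos
  have h8 : ‖N‖ ^ 3 ≤ (p : ℝ) ^ (-2 : ℤ) := by
    rw [div_le_one (by positivity)] at h7
    rw [zpow_neg]
    simpa using h7
  obtain ⟨ha, hb⟩ := norm_le_of_cube p hp5 hp3 a b h8
  have hpp : (p : ℚ_[p]) ≠ 0 := by exact_mod_cast hpf.out.ne_zero
  have h9 : ∀ c : ℚ_[p], ‖c‖ ≤ (p : ℝ)⁻¹ → IsIntegral ℤ_[p] (algebraMap ℚ_[p] L (c / p)) := by
    intro c hc
    rw [int_iff, norm_div, Padic.norm_p]
    exact (div_le_one (by positivity)).2 hc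
  have h10 : actL D.hel x =
      D.π * (algebraMap ℚ_[p] L (a / p) + algebraMap ℚ_[p] L (b / p) * D.ζ) := by
    rw [h1, hab, map_div₀, map_div₀, map_natCast, ← D.hπ]
    field_simp
  rw [h10]
  exact D.int_π.mul ((h9 a ha).add ((h9 b hb).mul (int_root D.ζ3)))

/-- The test functional: `φ(h) = ∑ h_g cf(g)`. -/
noncomputable def phi (h : MonoidAlgebra L (NN ℚ_[p] L)) : L :=
  ∑ g : L ≃ₐ[ℚ_[p]] L, h.coeff (eN g) * D.cf g

omit [Algebra ℤ_[p] L] [IsScalarTower ℤ_[p] ℚ_[p] L] in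
theorem cf_conj (s g : L ≃ₐ[ℚ_[p]] L) : D.cf (s * g * s⁻¹) = s (D.cf g) := by
  have := mem_Hlam_iff.1 D.hel_mem s g
  rwa [D.coeff_hel, D.coeff_hel] at this

omit [Algebra ℤ_[p] L] [IsScalarTower ℤ_[p] ℚ_[p] L] in
theorem phi_mem {h : MonoidAlgebra L (NN ℚ_[p] L)} (hh : h ∈ Hlam ℚ_[p] L) :
    ∃ w : ℚ_[p], algebraMap ℚ_[p] L w = D.phi h := by
  apply mem_range
  intro s
  rw [phi, map_sum]
  refine Fintype.sum_equiv (MulAut.conj s).toEquiv _ _ fun g => ?_
  simp only [MulEquiv.toEquiv_eq_coe, EquivLike.coe_coe, MulAut.conj_apply, map_mul s]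
  rw [D.cf_conj, mem_Hlam_iff.1 hh s g]

/-- `φ` is integral on the associated order, up to the factor `nC`. -/
theorem int_phi (hp5 : 5 ≤ p) (hp3 : p % 3 = 2) {h : MonoidAlgebra L (NN ℚ_[p] L)}
    (hh : h ∈ Hlam ℚ_[p] L) (hint : ∀ x, IsIntegral ℤ_[p] x → IsIntegral ℤ_[p] (actL h x)) :
    ∃ z : ℤ_[p], algebraMap ℤ_[p] L z = (D.nC : L) * D.phi h := by
  classical
  have hπ0 := D.π_ne
  obtain ⟨w, hw⟩ := D.phi_mem hh
  set CC := Finset.univ.filter (fun g : L ≃ₐ[ℚ_[p]] L => D.C g) with hCC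
  have h1 : ∑ s ∈ CC, D.χ s * s (actL h D.π) = (D.nC : L) * D.phi h * D.π ^ 2 := by
    have h2 : ∀ s ∈ CC, D.χ s * s (actL h D.π) =
        D.χ s ^ 2 * (∑ g ∈ CC, h.coeff (eN g) * g⁻¹ D.π) + D.phi h * D.π ^ 2 := by
      intro s hs
      simp only [hCC, Finset.mem_filter, Finset.mem_univ, true_and] at hs
      rw [← actL_comm hh, D.g_π s, actL_apply, Finset.mul_sum,
        ← Finset.sum_filter_add_sum_filter_not (s := Finset.univ) (fun g : L ≃ₐ[ℚ_[p]] L => D.C g)]
      congr 1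
      · rw [Finset.mul_sum]
        apply Finset.sum_congr rfl
        intro g hg
        simp only [Finset.mem_filter, Finset.mem_univ, true_and] at hg
        rw [map_mul, D.C_apply (D.C_inv hg) (D.χ3 s)]
        ring
      · rw [phi, Finset.sum_mul,
          ← Finset.sum_filter_add_sum_filter_not (s := Finset.univ)
            (fun g : L ≃ₐ[ℚ_[p]] L => D.C g)
            (f := fun g => h.coeff (eN g) * D.cf g * D.π ^ 2)]
        rw [Finset.sum_eq_zero (s := Finset.univ.filter (fun g : L ≃ₐ[ℚ_[p]] L => D.C g)), zero_add]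
        · apply Finset.sum_congr rfl
          intro g hg
          simp only [Finset.mem_filter, Finset.mem_univ, true_and] at hg
          have hg' := (D.C_or_T g).resolve_left hg
          rw [map_mul, D.T_apply (D.T_inv hg') (D.χ3 s), D.g_π g⁻¹, D.χ_inv_T hg', D.cf_T hg']
          field_simp
          linear_combination h.coeff (eN g) * D.χ g * D.χ3 s
        · intro g hg
          simp only [Finset.mem_filter, Finset.mem_univ, true_and] at hg
          rw [D.cf_C hg]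
          ring
    rw [Finset.sum_congr rfl h2, Finset.sum_add_distrib, ← Finset.sum_mul, D.sum_χ_sq hp5 hp3,
      zero_mul, zero_add, Finset.sum_const, nsmul_eq_mul, ← mul_assoc]
    rfl
  have h3 : IsIntegral ℤ_[p] ((D.nC : L) * D.phi h * D.π ^ 2) := by
    rw [← h1]
    apply IsIntegral.sum
    intro s _
    exact (int_root (D.χ3 s)).mul (int_map s (hint _ D.int_π))
  have h4 : IsIntegral ℤ_[p] (algebraMap ℚ_[p] L (((D.nC : ℚ_[p]) * w) ^ 3 * (p : ℚ_[p]) ^ 2)) := by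
    have : algebraMap ℚ_[p] L (((D.nC : ℚ_[p]) * w) ^ 3 * (p : ℚ_[p]) ^ 2) =
        ((D.nC : L) * D.phi h * D.π ^ 2) ^ 3 := by
      rw [map_mul, map_pow, map_pow, map_natCast, map_mul, map_natCast, hw, ← D.hπ]
      ring
    rw [this]
    exact h3.pow 3
  rw [int_iff, norm_mul, norm_pow, norm_pow, Padic.norm_p] at h4
  have hp0 : (0 : ℝ) < p := by exact_mod_cast hpf.out.pos
  have h5 : ‖(D.nC : ℚ_[p]) * w‖ ^ 3 ≤ (p : ℝ) ^ 2 := by
    rw [inv_pow, ← div_eq_mul_inv, div_le_one (by positivity)] at h4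
    exact h4
  have h6 := norm_le_one_of_cube p _ h5
  obtain ⟨z, hz⟩ : ∃ z : ℤ_[p], (z : ℚ_[p]) = (D.nC : ℚ_[p]) * w := ⟨⟨_, h6⟩, rfl⟩
  refine ⟨z, ?_⟩
  rw [IsScalarTower.algebraMap_apply ℤ_[p] ℚ_[p] L, ← hw]
  show algebraMap ℚ_[p] L (z : ℚ_[p]) = _
  rw [hz, map_mul, map_natCast]

/-- The functional `Φ = nC φ` on `L[N]`. -/
noncomputable def Phi : MonoidAlgebra L (NN ℚ_[p] L) →ₗ[L] L where
  toFun h := (D.nC : L) * D.phi h
  map_add' a b := by simp [phi, add_mul, Finset.sum_add_distrib, mul_add]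
  map_smul' r a := by
    simp only [phi, MonoidAlgebra.coeff_smul, Finsupp.smul_apply, smul_eq_mul, RingHom.id_apply,
      Finset.mul_sum]
    apply Finset.sum_congr rfl
    intro g _
    ring

omit [IsGalois ℚ_[p] L] [Algebra ℤ_[p] L] [IsScalarTower ℤ_[p] ℚ_[p] L] in
theorem Phi_single (g : L ≃ₐ[ℚ_[p]] L) (c : L) :
    D.Phi (MonoidAlgebra.single (eN g) c) = (D.nC : L) * (c * D.cf g) := by
  classical
  show (D.nC : L) * D.phi _ = _
  rw [phi, Finset.sum_eq_single g]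
  · simp
  · intro h _ hk
    rw [MonoidAlgebra.coeff_single, Finsupp.single_apply, if_neg, zero_mul]
    exact fun e => hk (eN.injective e).symm
  · simp

/-- `Φ ⊗ Φ`. -/
noncomputable def Phi2 : MonoidAlgebra L (NN ℚ_[p] L) ⊗[L] MonoidAlgebra L (NN ℚ_[p] L) →ₗ[L] L :=
  (TensorProduct.lid L L).toLinearMap ∘ₗ TensorProduct.map D.Phi D.Phi

omit [Algebra ℤ_[p] L] [IsScalarTower ℤ_[p] ℚ_[p] L] in
theorem Phi2_comul_hel :
    D.Phi2 (Coalgebra.comul (R := L) D.hel) = ((D.nC ^ 2 * D.nT : ℕ) : L) / p := by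
  classical
  have hp := p_ne (p := p) (L := L)
  rw [hel, map_sum, map_sum]
  have h1 : ∀ g : L ≃ₐ[ℚ_[p]] L,
      D.Phi2 (Coalgebra.comul (R := L) (MonoidAlgebra.single (eN g) (D.cf g))) =
        if D.T g then (D.nC : L) ^ 2 / p else 0 := by
    intro g
    rw [MonoidAlgebra.comul_single, CommSemiring.comul_apply, TensorProduct.map_tmul, Phi2,
      LinearMap.comp_apply, TensorProduct.map_tmul]
    simp only [MonoidAlgebra.lsingle_apply, LinearEquiv.coe_coe, TensorProduct.lid_tmul,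
      Phi_single, smul_eq_mul]
    split_ifs with hg
    · rw [D.cf_T hg]
      have h3 := D.χ3 g
      have h4 := D.hπ
      have h5 := D.π_ne
      rw [← h4]
      field_simp
      linear_combination (D.nC : L) ^ 2 * h3
    · rw [D.cf_C ((D.C_or_T g).resolve_right hg)]
      ring
  simp only [h1]
  rw [← Finset.sum_filter, Finset.sum_const, nsmul_eq_mul]
  push_cast
  rw [show ((Finset.univ.filter fun g : L ≃ₐ[ℚ_[p]] L => D.T g).card : L) = (D.nT : L) from rfl]
  ring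

include D in
/-- The associated order in `H_λ` is not a Hopf order. -/
theorem not_hopf (hp5 : 5 ≤ p) (hp3 : p % 3 = 2) :
    ¬ IsHopfOrder ℤ_[p] ℚ_[p]
      (assocLam ℤ_[p] ℚ_[p] L (Subalgebra.toSubmodule (integralClosure ℤ_[p] L)))
      (Hlam ℚ_[p] L) := by
  classical
  intro H
  have hmem : D.hel ∈ assocLam ℤ_[p] ℚ_[p] L
      (Subalgebra.toSubmodule (integralClosure ℤ_[p] L)) := by
    refine ⟨D.hel_mem, fun x hx => ?_⟩
    rw [act_eq_actL]
    exact D.int_hel hp5 hp3 hx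
  have h1 := H.2.1 _ hmem
  have h2 : ∀ u ∈ Submodule.span ℤ_[p]
      {t : MonoidAlgebra L (NN ℚ_[p] L) ⊗[L] MonoidAlgebra L (NN ℚ_[p] L) |
        ∃ x ∈ assocLam ℤ_[p] ℚ_[p] L (Subalgebra.toSubmodule (integralClosure ℤ_[p] L)),
        ∃ y ∈ assocLam ℤ_[p] ℚ_[p] L (Subalgebra.toSubmodule (integralClosure ℤ_[p] L)),
          t = x ⊗ₜ[L] y}, ∃ z : ℤ_[p], algebraMap ℤ_[p] L z = D.Phi2 u := by
    intro u hu
    induction hu using Submodule.span_induction with
    | mem t ht =>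
      obtain ⟨x, hx, y, hy, rfl⟩ := ht
      obtain ⟨a, ha⟩ := D.int_phi hp5 hp3 hx.1 (fun v hv => by
        rw [← act_eq_actL]; exact hx.2 v hv)
      obtain ⟨b, hb⟩ := D.int_phi hp5 hp3 hy.1 (fun v hv => by
        rw [← act_eq_actL]; exact hy.2 v hv)
      refine ⟨a * b, ?_⟩
      rw [map_mul, ha, hb, Phi2, LinearMap.comp_apply, TensorProduct.map_tmul]
      simp only [LinearEquiv.coe_coe, TensorProduct.lid_tmul, smul_eq_mul]
      rfl
    | zero => exact ⟨0, by simp⟩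
    | add a b _ _ ha hb =>
      obtain ⟨a', ha⟩ := ha
      obtain ⟨b', hb⟩ := hb
      exact ⟨a' + b', by rw [map_add, map_add, ha, hb]⟩
    | smul r a _ ha =>
      obtain ⟨a', ha⟩ := ha
      refine ⟨r * a', ?_⟩
      rw [map_mul, ha, ← IsScalarTower.algebraMap_smul L r a, map_smul, smul_eq_mul]
  obtain ⟨z, hz⟩ := h2 _ h1
  rw [D.Phi2_comul_hel, D.nT_eq hp5 hp3] at hz
  have hp0 : (0 : ℝ) < p := by exact_mod_cast hpf.out.pos
  have hp := p_ne (p := p) (L := L)
  have h3 : (z : ℚ_[p]) = ((D.nC ^ 2 * D.nC : ℕ) : ℚ_[p]) / p := by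
    apply (algebraMap ℚ_[p] L).injective
    rw [map_div₀, map_natCast, map_natCast, ← hz]
    exact (IsScalarTower.algebraMap_apply ℤ_[p] ℚ_[p] L z).symm
  have h4 : ‖((D.nC ^ 2 * D.nC : ℕ) : ℚ_[p])‖ = 1 := by
    rw [Padic.norm_natCast_eq_one_iff]
    have h5 : p.Coprime D.nC := (Nat.Prime.coprime_iff_not_dvd hpf.out).2 (D.not_dvd_nC hp5)
    exact (h5.pow_right 2).mul_right h5
  have h5 := z.2
  rw [h3, norm_div, h4, Padic.norm_p, one_div, inv_inv] at h5
  have : (1 : ℝ) < p := by exact_mod_cast hpf.out.one_lt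
  linarith

end integral

end Dat

end Pool.Agent.V11279.HG
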