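import Mathlib

namespace Pool.Agent.V11279.BA

open Set Topology

variable {Γ : Type*} [Group Γ] {Y : Type*} [TopologicalSpace Y] [MulAction Γ Y]

/-- `h` is locally (in the topology pulled back along the orbit map of `d`) a left translation. -/
def Loc (d : Y) (h : Γ → Γ) : Prop :=
  ∀ δ : Γ, ∃ U : Set Y, IsOpen U ∧ δ • d ∈ U ∧ ∃ γ : Γ, ∀ δ' : Γ, δ' • d ∈ U → h δ' = γ * δ'

/-- Finite stage of the generic involution. -/
structure Cnd (Γ : Type*) [Group Γ] {Y : Type*} [TopologicalSpace Y] [MulAction Γ Y]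
    (d : Y) (K B : Set Y) where
  E : Set Y
  clopen : IsClopen E
  dK : Disjoint E K
  dB : Disjoint E B
  h : Γ → Γ
  inv : ∀ δ, h (h δ) = δ
  fix : ∀ δ, δ • d ∉ E → h δ = δ
  loc : Loc d h

variable {d : Y} {K B : Set Y}

instance : Preorder (Cnd Γ d K B) where
  le p q := p.E ⊆ q.E ∧ ∀ δ : Γ, δ • d ∈ p.E → q.h δ = p.h δ
  le_refl p := ⟨Subset.rfl, fun _ _ => rfl⟩
  le_trans p q r hpq hqr := ⟨hpq.1.trans hqr.1, fun δ hδ =>
    (hqr.2 δ (hpq.1 hδ)).trans (hpq.2 δ hδ)⟩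

lemma Cnd.le_def {p q : Cnd Γ d K B} : p ≤ q ↔ p.E ⊆ q.E ∧ ∀ δ : Γ, δ • d ∈ p.E → q.h δ = p.h δ :=
  Iff.rfl

lemma Cnd.h_mem (p : Cnd Γ d K B) {δ : Γ} (hδ : δ • d ∈ p.E) : p.h δ • d ∈ p.E := by
  by_contra h
  have h1 := p.fix _ h
  rw [p.inv] at h1
  rw [← h1] at h
  exact h hδ

lemma Cnd.h_ne (p : Cnd Γ d K B) {δ x : Γ} (hδ : δ • d ∈ p.E) (hx : x • d ∉ p.E) : p.h δ ≠ x := by
  intro h
  exact hx (h ▸ p.h_mem hδ)

/-- The empty condition. -/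
def Cnd.init : Cnd Γ d K B where
  E := ∅
  clopen := isClopen_empty
  dK := by simp
  dB := by simp
  h := id
  inv := fun _ => rfl
  fix := fun _ _ => rfl
  loc := fun δ => ⟨univ, isOpen_univ, mem_univ _, 1, fun δ' _ => by simp⟩

variable [ContinuousConstSMul Γ Y]

open Classical in
/-- The swap of a clopen set `C` with `γ • C`, on top of `h`. -/
noncomputable def swp (d : Y) (C : Set Y) (γ : Γ) (h : Γ → Γ) (δ : Γ) : Γ :=
  if δ • d ∈ C then γ * δ else if γ⁻¹ • (δ • d) ∈ C then γ⁻¹ * δ else h δ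

omit [TopologicalSpace Y] [ContinuousConstSMul Γ Y] in
lemma swp_a {d : Y} {C : Set Y} {γ : Γ} {h : Γ → Γ} {δ : Γ} (ha : δ • d ∈ C) :
    swp d C γ h δ = γ * δ := by
  unfold swp; rw [if_pos ha]

omit [TopologicalSpace Y] [ContinuousConstSMul Γ Y] in
lemma swp_b {d : Y} {C : Set Y} {γ : Γ} {h : Γ → Γ} {δ : Γ} (ha : δ • d ∉ C)
    (hb : γ⁻¹ • (δ • d) ∈ C) : swp d C γ h δ = γ⁻¹ * δ := by
  unfold swp; rw [if_neg ha, if_pos hb]

omit [TopologicalSpace Y] [ContinuousConstSMul Γ Y] in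
lemma swp_c {d : Y} {C : Set Y} {γ : Γ} {h : Γ → Γ} {δ : Γ} (ha : δ • d ∉ C)
    (hb : γ⁻¹ • (δ • d) ∉ C) : swp d C γ h δ = h δ := by
  unfold swp; rw [if_neg ha, if_neg hb]

/-- Adding a swap. -/
noncomputable def Cnd.addSwap (p : Cnd Γ d K B) (C : Set Y) (hC : IsClopen C) (γ : Γ)
    (h1 : Disjoint C (p.E ∪ K ∪ B)) (h2 : ∀ y ∈ C, γ • y ∉ p.E ∪ K ∪ B)
    (h3 : ∀ y ∈ C, γ • y ∉ C) : Cnd Γ d K B where
  E := p.E ∪ (C ∪ (fun y => γ⁻¹ • y) ⁻¹' C)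
  clopen := p.clopen.union (hC.union (hC.preimage (continuous_const_smul _)))
  dK := by
    rw [Set.disjoint_left]
    rintro y (hy | hy | hy) hK
    · exact Set.disjoint_left.mp p.dK hy hK
    · exact Set.disjoint_left.mp h1 hy (Or.inl (Or.inr hK))
    · exact h2 _ hy (by rw [smul_inv_smul]; exact Or.inl (Or.inr hK))
  dB := by
    rw [Set.disjoint_left]
    rintro y (hy | hy | hy) hK
    · exact Set.disjoint_left.mp p.dB hy hK
    · exact Set.disjoint_left.mp h1 hy (Or.inr hK)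
    · exact h2 _ hy (by rw [smul_inv_smul]; exact (Or.inr hK))
  h := swp d C γ p.h
  inv := by
    intro δ
    by_cases ha : δ • d ∈ C
    · have hb : (γ * δ) • d ∉ C := by rw [mul_smul]; exact h3 _ ha
      have hc : γ⁻¹ • ((γ * δ) • d) ∈ C := by rw [mul_smul, inv_smul_smul]; exact ha
      rw [swp_a ha, swp_b hb hc, inv_mul_cancel_left]
    · by_cases hb : γ⁻¹ • (δ • d) ∈ C
      · have hc : (γ⁻¹ * δ) • d ∈ C := by rw [mul_smul]; exact hb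
        rw [swp_b ha hb, swp_a hc, mul_inv_cancel_left]
      · have e : swp d C γ p.h δ = p.h δ := swp_c ha hb
        rw [e]
        by_cases hE : δ • d ∈ p.E
        · have hE' := p.h_mem hE
          have hx : p.h δ • d ∉ C := fun h => Set.disjoint_left.mp h1 h (Or.inl (Or.inl hE'))
          have hy : γ⁻¹ • (p.h δ • d) ∉ C := fun h => h2 _ h (by
            rw [smul_inv_smul]; exact Or.inl (Or.inl hE'))
          rw [swp_c hx hy, p.inv]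
        · rw [p.fix δ hE, e, p.fix δ hE]
  fix := by
    intro δ hδ
    have ha : δ • d ∉ C := fun h => hδ (Or.inr (Or.inl h))
    have hb : γ⁻¹ • (δ • d) ∉ C := fun h => hδ (Or.inr (Or.inr h))
    rw [swp_c ha hb]
    exact p.fix δ (fun h => hδ (Or.inl h))
  loc := by
    intro δ
    by_cases ha : δ • d ∈ C
    · exact ⟨C, hC.isOpen, ha, γ, fun δ' h' => swp_a h'⟩
    · by_cases hb : γ⁻¹ • (δ • d) ∈ C
      · refine ⟨(fun y => γ⁻¹ • y) ⁻¹' C, (hC.preimage (continuous_const_smul _)).isOpen, hb, γ⁻¹,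
          fun δ' h' => ?_⟩
        have h'' : γ⁻¹ • (δ' • d) ∈ C := h'
        have hc : δ' • d ∉ C := by
          intro hc
          have := h3 _ h''
          rw [smul_inv_smul] at this
          exact this hc
        exact swp_b hc h''
      · obtain ⟨U, hU, hδU, γ', hγ'⟩ := p.loc δ
        refine ⟨U ∩ (C ∪ (fun y => γ⁻¹ • y) ⁻¹' C)ᶜ,
          hU.inter (hC.union (hC.preimage (continuous_const_smul _))).compl.isOpen,
          ⟨hδU, by rintro (h | h); exacts [ha h, hb h]⟩, γ', fun δ' h' => ?_⟩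
        have hx : δ' • d ∉ C := fun h => h'.2 (Or.inl h)
        have hy : γ⁻¹ • (δ' • d) ∉ C := fun h => h'.2 (Or.inr h)
        rw [swp_c hx hy]
        exact hγ' δ' h'.1

omit [ContinuousConstSMul Γ Y] in
/-- Committing a clopen set to be fixed pointwise. -/
def Cnd.addFix (p : Cnd Γ d K B) (C : Set Y) (hC : IsClopen C)
    (h1 : Disjoint C K) (h2 : Disjoint C B) : Cnd Γ d K B where
  E := p.E ∪ C
  clopen := p.clopen.union hC
  dK := by rw [Set.disjoint_union_left]; exact ⟨p.dK, h1⟩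
  dB := by rw [Set.disjoint_union_left]; exact ⟨p.dB, h2⟩
  h := p.h
  inv := p.inv
  fix := fun δ hδ => p.fix δ (fun h => hδ (Or.inl h))
  loc := p.loc

/-- Word evaluation: `Ev s [γ₁, …, γₘ] δ = γ₁ s γ₂ s ⋯ γₘ s δ`. -/
def Ev (s : Γ → Γ) : List Γ → Γ → Γ
  | [], δ => δ
  | γ :: l, δ => γ * s (Ev s l δ)

/-- The set-up used by the construction. -/
structure Setup (Γ : Type*) [Group Γ] {Y : Type*} [TopologicalSpace Y] [MulAction Γ Y]
    (d : Y) (K B : Set Y) : Prop where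
  basis : ∀ (U : Set Y) (y : Y), IsOpen U → y ∈ U → ∃ C : Set Y, IsClopen C ∧ y ∈ C ∧ C ⊆ U
  t2 : ∀ x y : Y, x ≠ y → ∃ U V : Set Y, IsOpen U ∧ IsOpen V ∧ x ∈ U ∧ y ∈ V ∧ Disjoint U V
  free : ∀ γ : Γ, γ • d = d → γ = 1
  dense : ∀ U : Set Y, IsOpen U → U.Nonempty → ∀ F : Set Γ, F.Finite → ∃ γ : Γ, γ • d ∈ U ∧ γ ∉ F
  Kclosed : IsClosed K
  Bclopen : IsClopen B
  KB : Disjoint K B
  dK : ∀ γ : Γ, γ • d ∉ K
  meet : ∀ γ : Γ, ∃ y ∈ K, γ • y ∈ K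

variable (S : Setup Γ d K B)

include S

omit [ContinuousConstSMul Γ Y] in
lemma Setup.inj {x y : Γ} (h : x • d = y • d) : x = y := by
  have : (y⁻¹ * x) • d = d := by rw [mul_smul, h, inv_smul_smul]
  have := S.free _ this
  exact (inv_mul_eq_one.mp this).symm

/-- Adding a swap of two fresh points keeping a third one fresh. -/
lemma exists_swap (p : Cnd Γ d K B) {x y z : Γ} (hxy : x ≠ y) (hzx : z ≠ x) (hzy : z ≠ y)
    (hx : x • d ∉ p.E ∪ B) (hy : y • d ∉ p.E ∪ B) (hz : z • d ∉ p.E ∪ B) :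
    ∃ q : Cnd Γ d K B, p ≤ q ∧ x • d ∈ q.E ∧ q.h x = y ∧ z • d ∉ q.E ∪ B := by
  have hFc : IsClosed (p.E ∪ K ∪ B) := (p.clopen.isClosed.union S.Kclosed).union S.Bclopen.isClosed
  have hfr : ∀ w : Γ, w • d ∉ p.E ∪ B → w • d ∉ p.E ∪ K ∪ B := by
    rintro w hw ((h | h) | h)
    · exact hw (Or.inl h)
    · exact S.dK _ h
    · exact hw (Or.inr h)
  obtain ⟨U1, V1, hU1, hV1, hxU1, hyV1, hd1⟩ := S.t2 (x • d) (y • d) (fun h => hxy (S.inj h))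
  obtain ⟨U2, V2, hU2, hV2, hzU2, hxV2, hd2⟩ := S.t2 (z • d) (x • d) (fun h => hzx (S.inj h))
  obtain ⟨U3, V3, hU3, hV3, hzU3, hyV3, hd3⟩ := S.t2 (z • d) (y • d) (fun h => hzy (S.inj h))
  set γ := y * x⁻¹ with hγ
  have hγx : γ • (x • d) = y • d := by rw [hγ, mul_smul, inv_smul_smul]
  -- the open set for `x`
  have hopen : IsOpen ((U1 ∩ V2 ∩ (p.E ∪ K ∪ B)ᶜ) ∩
      (fun w => γ • w) ⁻¹' (V1 ∩ V3 ∩ (p.E ∪ K ∪ B)ᶜ)) :=
    ((hU1.inter hV2).inter hFc.isOpen_compl).inter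
      (((hV1.inter hV3).inter hFc.isOpen_compl).preimage (continuous_const_smul _))
  obtain ⟨C, hC, hxC, hCsub⟩ := S.basis _ (x • d) hopen
    ⟨⟨⟨hxU1, hxV2⟩, hfr x hx⟩, by
      show γ • (x • d) ∈ (V1 ∩ V3 ∩ (p.E ∪ K ∪ B)ᶜ : Set Y)
      rw [hγx]; exact ⟨⟨hyV1, hyV3⟩, hfr y hy⟩⟩
  have h1 : Disjoint C (p.E ∪ K ∪ B) := Set.disjoint_left.mpr fun w hw h => (hCsub hw).1.2 h
  have h2 : ∀ w ∈ C, γ • w ∉ p.E ∪ K ∪ B := fun w hw => (hCsub hw).2.2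
  have h3 : ∀ w ∈ C, γ • w ∉ C := fun w hw h =>
    Set.disjoint_left.mp hd1 (hCsub h).1.1.1 (hCsub hw).2.1.1
  refine ⟨p.addSwap C hC γ h1 h2 h3, ⟨fun w hw => Or.inl hw, ?_⟩, ?_, ?_, ?_⟩
  · intro δ hδ
    have ha : δ • d ∉ C := fun h => Set.disjoint_left.mp h1 h (Or.inl (Or.inl hδ))
    have hb : γ⁻¹ • (δ • d) ∉ C := fun h => h2 _ h (by
      rw [smul_inv_smul]; exact Or.inl (Or.inl hδ))
    show swp d C γ p.h δ = p.h δ
    exact swp_c ha hb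
  · exact Or.inr (Or.inl hxC)
  · show swp d C γ p.h x = y
    rw [swp_a hxC, hγ, inv_mul_cancel_right]
  · rintro ((h | h | h) | h)
    · exact hz (Or.inl h)
    · exact Set.disjoint_left.mp hd2 hzU2 (hCsub h).1.1.2
    · have : γ • (γ⁻¹ • (z • d)) ∈ V3 := (hCsub h).2.1.2
      rw [smul_inv_smul] at this
      exact Set.disjoint_left.mp hd3 hzU3 this
    · exact hz (Or.inr h)

/-- Main density statement. -/
lemma exists_run (l : List Γ) (hl : ∀ γ ∈ l, γ ≠ 1) : ∀ (p : Cnd Γ d K B) (V : Set Y), IsOpen V →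
    K ⊆ V → ∃ q : Cnd Γ d K B, p ≤ q ∧ ∃ δ x : Γ, x • d ∈ V ∧ x • d ∉ q.E ∪ B ∧
      ((l = [] ∧ x = δ) ∨ δ • d ∈ q.E) ∧
      ∀ s : Γ → Γ, (∀ δ : Γ, δ • d ∈ q.E → s δ = q.h δ) → Ev s l δ = x := by
  induction l with
  | nil =>
    intro p V hV hKV
    obtain ⟨y, hy, -⟩ := S.meet 1
    have hop : IsOpen (V ∩ (p.E ∪ B)ᶜ) :=
      hV.inter (p.clopen.isClosed.union S.Bclopen.isClosed).isOpen_compl
    obtain ⟨γ, hγ, -⟩ := S.dense _ hop ⟨y, hKV hy, by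
      rintro (h | h)
      · exact Set.disjoint_left.mp p.dK h hy
      · exact Set.disjoint_left.mp S.KB hy h⟩ ∅ Set.finite_empty
    exact ⟨p, le_rfl, γ, γ, hγ.1, hγ.2, Or.inl ⟨rfl, rfl⟩, fun s hs => rfl⟩
  | cons γ l ih =>
    intro p V hV hKV
    obtain ⟨p1, hp1, δ, x, -, hx, hδ, hs⟩ := ih (fun γ' h => hl γ' (List.mem_cons_of_mem _ h)) p V hV hKV
    have hγ1 : γ ≠ 1 := hl γ (List.mem_cons_self)
    have hV1 : IsOpen (V ∩ (p1.E ∪ B)ᶜ) :=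
      hV.inter (p1.clopen.isClosed.union S.Bclopen.isClosed).isOpen_compl
    have hKV1 : K ⊆ V ∩ (p1.E ∪ B)ᶜ := by
      intro y hy
      refine ⟨hKV hy, ?_⟩
      rintro (h | h)
      · exact Set.disjoint_left.mp p1.dK h hy
      · exact Set.disjoint_left.mp S.KB hy h
    obtain ⟨k, hk, hγk⟩ := S.meet γ
    obtain ⟨y, hy, hyF⟩ := S.dense ((V ∩ (p1.E ∪ B)ᶜ) ∩ (fun w => γ • w) ⁻¹' (V ∩ (p1.E ∪ B)ᶜ))
      (hV1.inter (hV1.preimage (continuous_const_smul _))) ⟨k, hKV1 hk, hKV1 hγk⟩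
      {x, γ⁻¹ * x} (by simp)
    have hyx : y ≠ x := fun h => hyF (by simp [h])
    have hyx' : γ * y ≠ x := fun h => hyF (by simp [← h])
    have hgy : γ * y ≠ y := by
      intro h
      exact hγ1 (by simpa using h)
    have hz : (γ * y) • d ∈ V ∩ (p1.E ∪ B)ᶜ := by
      rw [mul_smul]; exact hy.2
    obtain ⟨q, hq, hxq, hqx, hzq⟩ := exists_swap S p1 (x := x) (y := y) (z := γ * y) hyx.symm hyx' hgy
      hx hy.1.2 hz.2
    refine ⟨q, hp1.trans hq, δ, γ * y, hz.1, hzq, Or.inr ?_, ?_⟩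
    · rcases hδ with ⟨-, rfl⟩ | h
      · exact hxq
      · exact hq.1 h
    · intro s hsq
      show γ * s (Ev s l δ) = γ * y
      rw [hs s (fun δ' h' => (hsq δ' (hq.1 h')).trans (hq.2 δ' h')), hsq x hxq, hqx]

/-- Existence of the generic involution. -/
theorem exists_involution [Countable Γ] :
    ∃ s : Γ → Γ, (∀ δ, s (s δ) = δ) ∧ (∀ δ : Γ, δ • d ∈ B → s δ = δ) ∧ Loc d s ∧
      ∀ l : List Γ, l ≠ [] → (∀ γ ∈ l, γ ≠ 1) → ∃ δ : Γ, Ev s l δ ≠ δ ∧ Ev s l δ ≠ s δ := by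
  classical
  -- the family of requirements
  let D1 : Γ → Set (Cnd Γ d K B) := fun δ => {p | δ • d ∈ p.E ∪ B}
  let D2 : {l : List Γ // l ≠ [] ∧ ∀ γ ∈ l, γ ≠ 1} → Set (Cnd Γ d K B) := fun l =>
    {p | ∃ δ x : Γ, x ≠ δ ∧ x ≠ p.h δ ∧ δ • d ∈ p.E ∧
      ∀ s : Γ → Γ, (∀ δ : Γ, δ • d ∈ p.E → s δ = p.h δ) → Ev s l.1 δ = x}
  have hD1 : ∀ δ, IsCofinal (D1 δ) := by
    intro δ p
    by_cases hδ : δ • d ∈ p.E ∪ B
    · exact ⟨p, hδ, le_rfl⟩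
    · have hop : IsOpen (K ∪ B)ᶜ := (S.Kclosed.union S.Bclopen.isClosed).isOpen_compl
      obtain ⟨C, hC, hδC, hCs⟩ := S.basis _ (δ • d) hop (by
        rintro (h | h)
        · exact S.dK _ h
        · exact hδ (Or.inr h))
      refine ⟨p.addFix C hC (Set.disjoint_left.mpr fun y hy h => hCs hy (Or.inl h))
        (Set.disjoint_left.mpr fun y hy h => hCs hy (Or.inr h)), Or.inl (Or.inr hδC),
        fun y hy => Or.inl hy, fun δ _ => rfl⟩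
  have hD2 : ∀ l, IsCofinal (D2 l) := by
    intro l p
    obtain ⟨q, hpq, δ, x, -, hx, hδ, hs⟩ := exists_run S l.1 l.2.2 p univ isOpen_univ (subset_univ _)
    have hδ' : δ • d ∈ q.E := by
      rcases hδ with ⟨h, -⟩ | h
      · exact absurd h l.2.1
      · exact h
    refine ⟨q, ⟨δ, x, ?_, ?_, hδ', hs⟩, hpq⟩
    · rintro rfl
      exact hx (Or.inl hδ')
    · exact (q.h_ne hδ' (fun h => hx (Or.inl h))).symm
  let _ : Encodable (Γ ⊕ {l : List Γ // l ≠ [] ∧ ∀ γ ∈ l, γ ≠ 1}) := Encodable.ofCountable _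
  let 𝒟 : Γ ⊕ {l : List Γ // l ≠ [] ∧ ∀ γ ∈ l, γ ≠ 1} → Order.Cofinal (Cnd Γ d K B) := fun i =>
    match i with
    | Sum.inl δ => ⟨D1 δ, hD1 δ⟩
    | Sum.inr l => ⟨D2 l, hD2 l⟩
  let I := Order.idealOfCofinals (Cnd.init : Cnd Γ d K B) 𝒟
  have hI1 : ∀ δ : Γ, ∃ p : Cnd Γ d K B, p ∈ I ∧ δ • d ∈ p.E ∪ B := by
    intro δ
    obtain ⟨p, hp, hpI⟩ := Order.cofinal_meets_idealOfCofinals (Cnd.init : Cnd Γ d K B) 𝒟 (Sum.inl δ)
    exact ⟨p, hpI, hp⟩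
  choose P hPI hP using hI1
  let s : Γ → Γ := fun δ => (P δ).h δ
  have hcoh : ∀ p ∈ I, ∀ q ∈ I, ∀ δ : Γ, δ • d ∈ p.E → δ • d ∈ q.E → p.h δ = q.h δ := by
    intro p hp q hq δ hδp hδq
    obtain ⟨r, hr, hpr, hqr⟩ := I.directed p hp q hq
    rw [← hpr.2 δ hδp, ← hqr.2 δ hδq]
  have hsI : ∀ p ∈ I, ∀ δ : Γ, δ • d ∈ p.E → s δ = p.h δ := by
    intro p hp δ hδ
    have : δ • d ∈ (P δ).E := by
      rcases hP δ with h | h
      · exact h
      · exact absurd h (fun h => Set.disjoint_left.mp p.dB hδ h)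
    exact hcoh _ (hPI δ) p hp δ this hδ
  have hsB : ∀ δ : Γ, δ • d ∈ B → s δ = δ := by
    intro δ hδ
    exact (P δ).fix δ (fun h => Set.disjoint_left.mp (P δ).dB h hδ)
  refine ⟨s, ?_, hsB, ?_, ?_⟩
  · intro δ
    rcases hP δ with h | h
    · rw [hsI _ (hPI δ) δ h, hsI _ (hPI δ) _ ((P δ).h_mem h), (P δ).inv]
    · rw [hsB δ h, hsB δ h]
  · intro δ
    rcases hP δ with h | h
    · obtain ⟨U, hU, hδU, γ, hγ⟩ := (P δ).loc δ
      refine ⟨U ∩ (P δ).E, hU.inter (P δ).clopen.isOpen, ⟨hδU, h⟩, γ, fun δ' h' => ?_⟩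
      rw [hsI _ (hPI δ) δ' h'.2, hγ δ' h'.1]
    · exact ⟨B, S.Bclopen.isOpen, h, 1, fun δ' h' => by rw [hsB δ' h', one_mul]⟩
  · intro l hl hl1
    obtain ⟨p, hp, hpI⟩ := Order.cofinal_meets_idealOfCofinals (Cnd.init : Cnd Γ d K B) 𝒟
      (Sum.inr ⟨l, hl, hl1⟩)
    obtain ⟨δ, x, hx1, hx2, hδ, hs⟩ : p ∈ D2 ⟨l, hl, hl1⟩ := hp
    refine ⟨δ, ?_, ?_⟩
    · rw [hs s (hsI p hpI)]
      exact hx1
    · rw [hs s (hsI p hpI), hsI p hpI δ hδ]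
      exact hx2

end Pool.Agent.V11279.BA
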