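import Pool.Agent.V11279.BAa

namespace Pool.Agent.V11279.BA

open Set Topology

section words

variable {Γ : Type*} [Group Γ]

/-- the free product of two copies of `Γ` -/
abbrev GG (Γ : Type*) [Group Γ] := Monoid.CoprodI (fun _ : Bool => Γ)

/-- The involution as a permutation. -/
def sP (s : Γ → Γ) (hs : ∀ δ, s (s δ) = δ) : Equiv.Perm Γ := Function.Involutive.toPerm s hs

lemma sP_apply (s : Γ → Γ) (hs : ∀ δ, s (s δ) = δ) (δ : Γ) : sP s hs δ = s δ := rfl

lemma sP_inv (s : Γ → Γ) (hs : ∀ δ, s (s δ) = δ) : (sP s hs)⁻¹ = sP s hs := rfl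

/-- The two homomorphisms: left translations, and left translations conjugated by `s`. -/
def hom2 (s : Γ → Γ) (hs : ∀ δ, s (s δ) = δ) : Bool → (Γ →* Equiv.Perm Γ)
  | false => MulAction.toPermHom Γ Γ
  | true => (MulAut.conj (sP s hs)).toMonoidHom.comp (MulAction.toPermHom Γ Γ)

/-- The action of the free product. -/
noncomputable def rho (s : Γ → Γ) (hs : ∀ δ, s (s δ) = δ) : GG Γ →* Equiv.Perm Γ :=
  Monoid.CoprodI.lift (fun b => hom2 s hs b)

/-- `s` or the identity. -/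
def ee (s : Γ → Γ) : Bool → Γ → Γ
  | false => id
  | true => s

lemma ee_ee (s : Γ → Γ) (hs : ∀ δ, s (s δ) = δ) (b : Bool) (δ : Γ) : ee s b (ee s b δ) = δ := by
  cases b
  · rfl
  · exact hs δ

lemma rho_of (s : Γ → Γ) (hs : ∀ δ, s (s δ) = δ) (b : Bool) (γ δ : Γ) :
    rho s hs (Monoid.CoprodI.of (M := fun _ : Bool => Γ) (i := b) γ) δ =
      ee s b (γ * ee s b δ) := by
  unfold rho
  rw [Monoid.CoprodI.lift_of]
  cases b
  · rfl
  · rfl

lemma word_eval (s : Γ → Γ) (hs : ∀ δ, s (s δ) = δ) (w : Monoid.CoprodI.Word (fun _ : Bool => Γ)) :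
    w ≠ Monoid.CoprodI.Word.empty → ∃ (i j : Bool) (l : List Γ), w.fstIdx = some i ∧ l ≠ [] ∧
      (∀ γ ∈ l, γ ≠ 1) ∧ ∀ δ, ee s i (rho s hs w.prod δ) = Ev s l (ee s j δ) := by
  refine w.consRecOn ?_ ?_
  · intro h; exact absurd rfl h
  · intro i m w h1 h2 ih _
    by_cases hw : w = Monoid.CoprodI.Word.empty
    · subst hw
      refine ⟨i, !i, [m], by simp [Monoid.CoprodI.Word.fstIdx_cons], by simp, by simpa using h2, ?_⟩
      intro δ
      rw [Monoid.CoprodI.Word.prod_cons, Monoid.CoprodI.Word.prod_empty, mul_one, rho_of, ee_ee s hs]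
      show m * ee s i δ = m * s (ee s (!i) δ)
      cases i
      · show m * δ = m * s (s δ)
        rw [hs]
      · rfl
    · obtain ⟨i', j, l, hi', hl, hl1, hE⟩ := ih hw
      have hii : i' = !i := by
        rw [hi'] at h1
        have : i' ≠ i := fun h => h1 (by rw [h])
        revert this
        cases i <;> cases i' <;> simp
      subst hii
      refine ⟨i, j, m :: l, by simp [Monoid.CoprodI.Word.fstIdx_cons], by simp, ?_, ?_⟩
      · intro γ hγ
        rcases List.mem_cons.mp hγ with rfl | h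
        · exact h2
        · exact hl1 γ h
      intro δ
      rw [Monoid.CoprodI.Word.prod_cons, map_mul, Equiv.Perm.mul_apply, rho_of, ee_ee s hs]
      show m * ee s i (rho s hs w.prod δ) = m * s (Ev s l (ee s j δ))
      rw [← hE δ]
      cases i
      · show m * (rho s hs w.prod δ) = m * s (s (rho s hs w.prod δ))
        rw [hs]
      · rfl

theorem rho_injective (s : Γ → Γ) (hs : ∀ δ, s (s δ) = δ)
    (hw : ∀ l : List Γ, l ≠ [] → (∀ γ ∈ l, γ ≠ 1) → ∃ δ : Γ, Ev s l δ ≠ δ ∧ Ev s l δ ≠ s δ) :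
    Function.Injective (rho s hs) := by
  rw [injective_iff_map_eq_one]
  intro g hg
  by_contra hne
  classical
  set w := Monoid.CoprodI.Word.equiv g with hwdef
  have hgw : w.prod = g := Monoid.CoprodI.Word.equiv.symm_apply_apply g
  have hw0 : w ≠ Monoid.CoprodI.Word.empty := by
    intro h
    rw [h, Monoid.CoprodI.Word.prod_empty] at hgw
    exact hne hgw.symm
  obtain ⟨i, j, l, -, hl, hl1, hE⟩ := word_eval s hs w hw0
  rw [hgw, hg] at hE
  obtain ⟨δ, h1, h2⟩ := hw l hl hl1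
  have h3 : ee s i (ee s j δ) = Ev s l δ := by
    have := hE (ee s j δ)
    rw [ee_ee s hs] at this
    exact this
  rw [← h3] at h1 h2
  cases i <;> cases j
  · exact h1 rfl
  · exact h2 rfl
  · exact h2 rfl
  · exact h1 (hs δ)

variable {Y : Type*} [TopologicalSpace Y] [MulAction Γ Y] [ContinuousConstSMul Γ Y] {d : Y}

lemma Loc.comp {h k : Γ → Γ} (hh : Loc d h) (hk : Loc d k) : Loc d (fun δ => h (k δ)) := by
  intro δ
  obtain ⟨U, hU, hδU, γ, hγ⟩ := hk δ
  obtain ⟨V, hV, hδV, γ', hγ'⟩ := hh (k δ)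
  refine ⟨U ∩ (fun y => γ • y) ⁻¹' V, hU.inter (hV.preimage (continuous_const_smul _)),
    ⟨hδU, ?_⟩, γ' * γ, ?_⟩
  · show γ • (δ • d) ∈ V
    rw [← mul_smul, ← hγ δ hδU]
    exact hδV
  · intro δ' hδ'
    have h1 : k δ' = γ * δ' := hγ δ' hδ'.1
    have h2 : γ • (δ' • d) ∈ V := hδ'.2
    rw [← mul_smul, ← h1] at h2
    show h (k δ') = _
    rw [hγ' _ h2, h1, mul_assoc]

omit [ContinuousConstSMul Γ Y] in
lemma Loc.mul_left (γ : Γ) : Loc d (fun δ => γ * δ) := fun _ =>
  ⟨univ, isOpen_univ, mem_univ _, γ, fun _ _ => rfl⟩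

lemma Loc.rho (s : Γ → Γ) (hs : ∀ δ, s (s δ) = δ) (hl : Loc d s) (g : GG Γ) :
    Loc d (fun δ => rho s hs g δ) := by
  induction g using Monoid.CoprodI.induction_on with
  | one => simpa using Loc.mul_left (d := d) (1 : Γ)
  | of i m =>
    simp only [rho_of]
    cases i
    · exact Loc.mul_left m
    · exact hl.comp ((Loc.mul_left m).comp hl)
  | mul x y hx hy =>
    simp only [map_mul, Equiv.Perm.mul_apply]
    exact hx.comp hy

end words

end Pool.Agent.V11279.BA
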