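import Pool.Agent.V11279.BAb

namespace Pool.Agent.V11279.BA

open Set Topology MeasureTheory Filter

section space

variable {Γ : Type*} [Group Γ] {Y : Type*} [TopologicalSpace Y] [MulAction Γ Y]
variable {G : Type*} [Group G]

/-- the canonical points -/
def xi (d : Y) (ρ : G →* Equiv.Perm Γ) (δ : Γ) : G → Y := fun g => (ρ g δ) • d

/-- the space -/
def XT (d : Y) (ρ : G →* Equiv.Perm Γ) : Type _ := {x : G → Y // x ∈ closure (Set.range (xi d ρ))}

variable (d : Y) (ρ : G →* Equiv.Perm Γ)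

instance : TopologicalSpace (XT d ρ) := inferInstanceAs (TopologicalSpace (Subtype _))

/-- canonical points in the space -/
def pt (δ : Γ) : XT d ρ := ⟨xi d ρ δ, subset_closure ⟨δ, rfl⟩⟩

instance : Nonempty (XT d ρ) := ⟨pt d ρ 1⟩

instance [T2Space Y] : T2Space (XT d ρ) := inferInstanceAs (T2Space (Subtype _))

instance [CompactSpace Y] : CompactSpace (XT d ρ) := by
  have : IsCompact (closure (Set.range (xi d ρ))) := isClosed_closure.isCompact
  exact isCompact_iff_compactSpace.mp this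

lemma xi_mul (δ : Γ) (g h : G) : xi d ρ δ (h * g) = xi d ρ (ρ g δ) h := by
  simp [xi, map_mul, Equiv.Perm.mul_apply]

/-- the action on functions -/
def act0 (g : G) (x : G → Y) : G → Y := fun h => x (h * g)

lemma act0_cont (g : G) : Continuous (act0 (Y := Y) g) :=
  continuous_pi fun h => continuous_apply (h * g)

lemma act0_mem (g : G) {x : G → Y} (hx : x ∈ closure (Set.range (xi d ρ))) :
    act0 g x ∈ closure (Set.range (xi d ρ)) := by
  refine map_mem_closure (act0_cont g) hx ?_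
  rintro _ ⟨δ, rfl⟩
  exact ⟨ρ g δ, by funext h; exact (xi_mul d ρ δ g h).symm⟩

instance : MulAction G (XT d ρ) where
  smul g x := ⟨act0 g x.1, act0_mem d ρ g x.2⟩
  one_smul x := Subtype.ext (by funext h; show x.1 (h * 1) = x.1 h; rw [mul_one])
  mul_smul g g' x := Subtype.ext (by
    funext h
    show x.1 (h * (g * g')) = x.1 (h * g * g')
    rw [mul_assoc])

lemma smul_val (g : G) (x : XT d ρ) (h : G) : (g • x).1 h = x.1 (h * g) := rfl

lemma smul_pt (g : G) (δ : Γ) : g • pt d ρ δ = pt d ρ (ρ g δ) :=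
  Subtype.ext (by funext h; exact xi_mul d ρ δ g h)

lemma smul_cont (g : G) : Continuous (fun x : XT d ρ => g • x) :=
  Continuous.subtype_mk ((act0_cont g).comp continuous_subtype_val) _

/-- projection -/
def pr (x : XT d ρ) : Y := x.1 1

lemma pr_cont : Continuous (pr d ρ) := (continuous_apply 1).comp continuous_subtype_val

lemma ev_cont (g : G) : Continuous (fun x : XT d ρ => x.1 g) :=
  (continuous_apply g).comp continuous_subtype_val

lemma pr_pt (δ : Γ) : pr d ρ (pt d ρ δ) = δ • d := by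
  show (ρ 1 δ) • d = δ • d
  rw [map_one]; rfl

lemma pt_dense : Dense (Set.range (pt d ρ)) := by
  intro x
  refine closure_subtype.mpr ?_
  have : Subtype.val '' Set.range (pt d ρ) = Set.range (xi d ρ) := by
    ext y
    constructor
    · rintro ⟨_, ⟨δ, rfl⟩, rfl⟩
      exact ⟨δ, rfl⟩
    · rintro ⟨δ, rfl⟩
      exact ⟨_, ⟨δ, rfl⟩, rfl⟩
  show x.1 ∈ closure (Subtype.val '' Set.range (pt d ρ))
  rw [this]
  exact x.2

variable [ContinuousConstSMul Γ Y] [T2Space Y]

variable {d ρ}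

/-- two continuous functions agreeing at the canonical points lying over an open set `U` agree at
all points over `U` -/
lemma eq_on_open {Z : Type*} [TopologicalSpace Z] [T2Space Z] (W : Set (XT d ρ)) (hW : IsOpen W)
    {F H : XT d ρ → Z}
    (hF : Continuous F) (hH : Continuous H) (hFH : ∀ δ : Γ, pt d ρ δ ∈ W → F (pt d ρ δ) = H (pt d ρ δ))
    {x : XT d ρ} (hx : x ∈ W) : F x = H x := by
  have h1 : x ∈ closure (W ∩ Set.range (pt d ρ)) :=
    (pt_dense d ρ).open_subset_closure_inter hW hx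
  have h2 : closure (W ∩ Set.range (pt d ρ)) ⊆ {x | F x = H x} := by
    refine closure_minimal ?_ (isClosed_eq hF hH)
    rintro _ ⟨h, δ, rfl⟩
    exact hFH δ h
  exact h2 h1

lemma pr_equivariant (ι : Γ →* G) (hι : ∀ γ δ, ρ (ι γ) δ = γ * δ) (γ : Γ) (x : XT d ρ) :
    pr d ρ (ι γ • x) = γ • pr d ρ x := by
  refine eq_on_open (F := fun x => pr d ρ (ι γ • x)) (H := fun x => γ • pr d ρ x) univ isOpen_univ
    ((pr_cont d ρ).comp (smul_cont d ρ _)) ((continuous_const_smul γ).comp (pr_cont d ρ)) ?_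
    (mem_univ x)
  intro δ _
  rw [smul_pt, pr_pt, pr_pt, hι, mul_smul]

lemma fibre (hloc : ∀ g, Loc d (fun δ => ρ g δ)) (δ : Γ) (x : XT d ρ) (hx : pr d ρ x = δ • d) :
    x = pt d ρ δ := by
  apply Subtype.ext
  funext g
  obtain ⟨U, hU, hδU, γ, hγ0⟩ := hloc g δ
  have hγ : ∀ δ' : Γ, δ' • d ∈ U → ρ g δ' = γ * δ' := hγ0
  have h1 : x.1 g = γ • pr d ρ x := by
    refine eq_on_open (F := fun x : XT d ρ => x.1 g) (H := fun x => γ • pr d ρ x)
      ((pr d ρ) ⁻¹' U) (hU.preimage (pr_cont d ρ))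
      (ev_cont d ρ g)
      ((continuous_const_smul γ).comp (pr_cont d ρ)) ?_ ?_
    · intro δ' hδ'
      have h2 : δ' • d ∈ U := by
        have : pr d ρ (pt d ρ δ') ∈ U := hδ'
        rwa [pr_pt] at this
      show (ρ g δ') • d = γ • pr d ρ (pt d ρ δ')
      rw [pr_pt, hγ δ' h2, mul_smul]
    · show pr d ρ x ∈ U
      rw [hx]; exact hδU
  rw [h1, hx]
  show γ • δ • d = (ρ g δ) • d
  rw [hγ δ hδU, mul_smul]

lemma nbhd [CompactSpace Y] (hloc : ∀ g, Loc d (fun δ => ρ g δ)) (δ : Γ) (W : Set (XT d ρ))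
    (hW : IsOpen W) (hδ : pt d ρ δ ∈ W) :
    ∃ V : Set Y, IsOpen V ∧ δ • d ∈ V ∧ ∀ x : XT d ρ, pr d ρ x ∈ V → x ∈ W := by
  refine ⟨(pr d ρ '' Wᶜ)ᶜ, ?_, ?_, ?_⟩
  · rw [isOpen_compl_iff]
    exact (hW.isClosed_compl.isCompact.image (pr_cont d ρ)).isClosed
  · rintro ⟨x, hx, hxd⟩
    exact hx (by rw [fibre hloc δ x hxd]; exact hδ)
  · intro x hx
    by_contra h
    exact hx ⟨x, h, rfl⟩

theorem minimal [CompactSpace Y] (hloc : ∀ g, Loc d (fun δ => ρ g δ))
    (ι : Γ →* G) (hι : ∀ γ δ, ρ (ι γ) δ = γ * δ)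
    (hmin : ∀ y : Y, Dense (MulAction.orbit Γ y)) (x : XT d ρ) : Dense (MulAction.orbit G x) := by
  rw [dense_iff_inter_open]
  intro W hW hne
  obtain ⟨_, hz, δ, rfl⟩ := (pt_dense d ρ).inter_open_nonempty W hW hne
  obtain ⟨V, hV, hδV, hVW⟩ := nbhd hloc δ W hW hz
  obtain ⟨_, hyV, γ, rfl⟩ := (hmin (pr d ρ x)).inter_open_nonempty V hV ⟨_, hδV⟩
  refine ⟨ι γ • x, hVW _ ?_, ι γ, rfl⟩
  rw [pr_equivariant ι hι]
  exact hyV

theorem faithful (hinj : Function.Injective ρ) (hfree : ∀ γ : Γ, γ • d = d → γ = 1) (g : G)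
    (hg : ∀ x : XT d ρ, g • x = x) : g = 1 := by
  apply hinj
  rw [map_one]
  ext δ
  have h1 := hg (pt d ρ δ)
  rw [smul_pt] at h1
  have h2 := congrArg (pr d ρ) h1
  rw [pr_pt, pr_pt] at h2
  have h3 : (δ⁻¹ * ρ g δ) • d = d := by rw [mul_smul, h2, inv_smul_smul]
  have h4 := hfree _ h3
  rw [inv_mul_eq_one] at h4
  exact h4.symm

theorem not_top_free (c : G) (hc : c ≠ 1) (U : Set Y) (hU : IsOpen U)
    (hne : ∃ δ : Γ, δ • d ∈ U) (hfix : ∀ δ : Γ, δ • d ∈ U → ρ c δ = δ) :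
    ¬ Dense {x : XT d ρ | MulAction.stabilizer G x = ⊥} := by
  intro hD
  obtain ⟨δ, hδ⟩ := hne
  obtain ⟨x, hx1, hx2⟩ := hD.inter_open_nonempty ((pr d ρ) ⁻¹' U) (hU.preimage (pr_cont d ρ))
    ⟨pt d ρ δ, by show pr d ρ _ ∈ U; rw [pr_pt]; exact hδ⟩
  have h1 : c • x = x := by
    refine eq_on_open (F := fun x : XT d ρ => c • x) (H := fun x => x)
      ((pr d ρ) ⁻¹' U) (hU.preimage (pr_cont d ρ)) (smul_cont d ρ c) continuous_id ?_ hx1
    intro δ' hδ'
    have h2 : δ' • d ∈ U := by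
      have : pr d ρ (pt d ρ δ') ∈ U := hδ'
      rwa [pr_pt] at this
    show c • pt d ρ δ' = pt d ρ δ'
    rw [smul_pt, hfix δ' h2]
  have h2 : c ∈ MulAction.stabilizer G x := h1
  have hx2' : MulAction.stabilizer G x = ⊥ := hx2
  rw [hx2', Subgroup.mem_bot] at h2
  exact hc h2

theorem strongly_proximal [CompactSpace Y] [FirstCountableTopology Y]
    [MeasurableSpace Y] [BorelSpace Y] [MeasurableSpace (XT d ρ)] [BorelSpace (XT d ρ)]
    (hloc : ∀ g, Loc d (fun δ => ρ g δ))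
    (ι : Γ →* G) (hι : ∀ γ δ, ρ (ι γ) δ = γ * δ)
    (hsp : ∀ ν : Measure Y, IsProbabilityMeasure ν → ∀ V : Set Y, IsOpen V → V.Nonempty →
      ∀ ε : ENNReal, 0 < ε → ∃ γ : Γ, ν {y | γ • y ∉ V} ≤ ε)
    (μ : ProbabilityMeasure (XT d ρ)) : ∃ x : XT d ρ, diracProba x ∈
      closure {ν : ProbabilityMeasure (XT d ρ) | ∃ g : G,
        (ν : Measure (XT d ρ)) = Measure.map (fun y => g • y) (μ : Measure (XT d ρ))} := by
  refine ⟨pt d ρ 1, ?_⟩
  obtain ⟨V, hV⟩ := (𝓝 ((1 : Γ) • d)).exists_antitone_basis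
  have hVo : ∀ k, ∃ V' : Set Y, V' ⊆ V k ∧ IsOpen V' ∧ (1 : Γ) • d ∈ V' := fun k =>
    mem_nhds_iff.mp (hV.1.mem_of_mem trivial)
  choose V' hV'V hV'o hV'd using hVo
  have hmeas : Measurable (pr d ρ) := (pr_cont d ρ).measurable
  have hprob : IsProbabilityMeasure (Measure.map (pr d ρ) (μ : Measure (XT d ρ))) :=
    Measure.isProbabilityMeasure_map hmeas.aemeasurable
  have hγ : ∀ k : ℕ, ∃ γ : Γ, (Measure.map (pr d ρ) (μ : Measure (XT d ρ))) {y | γ • y ∉ V' k} ≤
      (2⁻¹ : ENNReal) ^ k := fun k =>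
    hsp _ hprob (V' k) (hV'o k) ⟨_, hV'd k⟩ _ (by simp [pos_iff_ne_zero])
  choose γ hγ using hγ
  have hclosed : ∀ k, IsClosed {y : Y | γ k • y ∉ V' k} := fun k =>
    ((hV'o k).preimage (continuous_const_smul (γ k))).isClosed_compl
  -- almost everywhere convergence
  have hae : ∀ᵐ x ∂(μ : Measure (XT d ρ)), ∀ᶠ k in atTop, x ∉ {x : XT d ρ | γ k • pr d ρ x ∉ V' k} := by
    apply ae_eventually_notMem
    have hle : ∀ k, (μ : Measure (XT d ρ)) {x : XT d ρ | γ k • pr d ρ x ∉ V' k} ≤ (2⁻¹ : ENNReal) ^ k := by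
      intro k
      have := hγ k
      rw [Measure.map_apply hmeas (hclosed k).measurableSet] at this
      exact this
    refine ne_top_of_le_ne_top ?_ (ENNReal.tsum_le_tsum hle)
    rw [ENNReal.tsum_geometric]
    simp
  have hconv : ∀ᵐ x ∂(μ : Measure (XT d ρ)), Tendsto (fun k => ι (γ k) • x) atTop (𝓝 (pt d ρ 1)) := by
    filter_upwards [hae] with x hx
    rw [tendsto_nhds]
    intro W hW hmem
    obtain ⟨U, hU, hdU, hUW⟩ := nbhd hloc 1 W hW hmem
    obtain ⟨N, -, hN⟩ := hV.1.mem_iff.mp (hU.mem_nhds hdU)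
    filter_upwards [hx, eventually_ge_atTop N] with k hk hkN
    apply hUW
    rw [pr_equivariant ι hι]
    apply hN
    apply hV.antitone hkN
    apply hV'V
    by_contra h
    exact hk h
  -- the measures
  have hm : ∀ k, Measurable (fun y : XT d ρ => ι (γ k) • y) := fun k => (smul_cont d ρ _).measurable
  let ν : ℕ → ProbabilityMeasure (XT d ρ) := fun k => μ.map (hm k).aemeasurable
  have hν : Tendsto ν atTop (𝓝 (diracProba (pt d ρ 1))) := by
    rw [ProbabilityMeasure.tendsto_iff_forall_integral_tendsto]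
    intro f
    have h1 : ∀ k, ∫ ω, f ω ∂(ν k : Measure (XT d ρ)) =
        ∫ ω, f (ι (γ k) • ω) ∂(μ : Measure (XT d ρ)) := by
      intro k
      show ∫ ω, f ω ∂(Measure.map (fun y : XT d ρ => ι (γ k) • y) (μ : Measure (XT d ρ))) = _
      rw [integral_map (hm k).aemeasurable f.continuous.aestronglyMeasurable]
    simp only [h1]
    have h2 : ∫ ω, f ω ∂(diracProba (pt d ρ 1) : Measure (XT d ρ)) =
        ∫ ω, f (pt d ρ 1) ∂(μ : Measure (XT d ρ)) := by
      rw [integral_const]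
      simp [diracProba]
    rw [h2]
    apply tendsto_integral_of_dominated_convergence (fun _ => ‖f‖)
    · intro k
      exact (f.continuous.comp (smul_cont d ρ _)).aestronglyMeasurable
    · exact integrable_const _
    · intro k
      exact Filter.Eventually.of_forall fun x => f.norm_coe_le_norm _
    · filter_upwards [hconv] with x hx
      exact (f.continuous.tendsto _).comp hx
  refine mem_closure_of_tendsto hν (Filter.Eventually.of_forall fun k => ⟨ι (γ k), rfl⟩)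

end space

end Pool.Agent.V11279.BA
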