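import Mathlib

namespace Pool.Agent.V11279.BA

open Set Topology

/-- letters -/
abbrev Lt (ι : Type*) := ι × Bool

/-- inverse letter -/
def iv {ι : Type*} (a : Lt ι) : Lt ι := (a.1, !a.2)

section basic
variable {ι : Type*}

@[simp] lemma iv_iv (a : Lt ι) : iv (iv a) = a := by simp [iv]

lemma iv_inj {a b : Lt ι} (h : iv a = iv b) : a = b := by rw [← iv_iv a, h, iv_iv]

lemma iv_ne (a : Lt ι) : a ≠ iv a := by
  intro h
  have := congrArg Prod.snd h
  simp [iv] at this

/-- reduced infinite words -/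
def Bd (ι : Type*) := {w : ℕ → Lt ι // ∀ k, w (k + 1) ≠ iv (w k)}

variable [TopologicalSpace ι] [DiscreteTopology ι]

instance : TopologicalSpace (Bd ι) := inferInstanceAs (TopologicalSpace (Subtype _))

instance : T2Space (Bd ι) := inferInstanceAs (T2Space (Subtype _))

instance : TotallyDisconnectedSpace (Bd ι) := inferInstanceAs (TotallyDisconnectedSpace (Subtype _))

instance : FirstCountableTopology (Bd ι) :=
  inferInstanceAs (FirstCountableTopology ({w : ℕ → Lt ι | ∀ k, w (k + 1) ≠ iv (w k)} : Set _))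

instance [Finite ι] : CompactSpace (Bd ι) := by
  have h : IsClosed {w : ℕ → Lt ι | ∀ k, w (k + 1) ≠ iv (w k)} := by
    rw [Set.ofPred_forall]
    refine isClosed_iInter fun k => ?_
    have : {w : ℕ → Lt ι | w (k + 1) ≠ iv (w k)} =
        (fun w : ℕ → Lt ι => (w (k + 1), w k)) ⁻¹' {p | p.1 ≠ iv p.2} := rfl
    rw [this]
    exact (isClosed_discrete _).preimage
      ((continuous_apply (k + 1)).prodMk (continuous_apply k))
  exact isCompact_iff_compactSpace.mp h.isCompact

/-- coordinate -/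
def Bd.c (w : Bd ι) (k : ℕ) : Lt ι := w.1 k

omit [TopologicalSpace ι] [DiscreteTopology ι] in
lemma Bd.ext' {w w' : Bd ι} (h : ∀ k, w.c k = w'.c k) : w = w' := Subtype.ext (funext h)

omit [TopologicalSpace ι] [DiscreteTopology ι] in
lemma Bd.red (w : Bd ι) (k : ℕ) : w.c (k + 1) ≠ iv (w.c k) := w.2 k

omit [DiscreteTopology ι] in
lemma Bd.c_cont (k : ℕ) : Continuous (fun w : Bd ι => w.c k) :=
  (continuous_apply k).comp continuous_subtype_val

omit [TopologicalSpace ι] [DiscreteTopology ι] in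
/-- tail -/
def Bd.tl (w : Bd ι) : Bd ι := ⟨fun k => w.c (k + 1), fun k => w.red (k + 1)⟩

omit [TopologicalSpace ι] [DiscreteTopology ι] in
/-- cons -/
def Bd.cs (a : Lt ι) (w : Bd ι) (h : w.c 0 ≠ iv a) : Bd ι :=
  ⟨fun k => if k = 0 then a else w.c (k - 1), fun k => by
    rcases k with _ | k
    · simpa using h
    · simpa using w.red k⟩

open Classical in
/-- the letter homeomorphism -/
noncomputable def Bd.hm (a : Lt ι) (w : Bd ι) : Bd ι :=
  if h : w.c 0 = iv a then w.tl else w.cs a h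

omit [TopologicalSpace ι] [DiscreteTopology ι] in
lemma Bd.hm_pos {a : Lt ι} {w : Bd ι} (h : w.c 0 = iv a) : Bd.hm a w = w.tl := by
  unfold Bd.hm; rw [dif_pos h]

omit [TopologicalSpace ι] [DiscreteTopology ι] in
lemma Bd.hm_neg {a : Lt ι} {w : Bd ι} (h : w.c 0 ≠ iv a) : Bd.hm a w = w.cs a h := by
  unfold Bd.hm; rw [dif_neg h]

omit [TopologicalSpace ι] [DiscreteTopology ι] in
lemma Bd.cs_zero (a : Lt ι) (w : Bd ι) (h : w.c 0 ≠ iv a) : (w.cs a h).c 0 = a := rfl

omit [TopologicalSpace ι] [DiscreteTopology ι] in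
lemma Bd.cs_succ (a : Lt ι) (w : Bd ι) (h : w.c 0 ≠ iv a) (k : ℕ) : (w.cs a h).c (k + 1) = w.c k :=
  rfl

omit [TopologicalSpace ι] [DiscreteTopology ι] in
lemma Bd.tl_c (w : Bd ι) (k : ℕ) : w.tl.c k = w.c (k + 1) := rfl

omit [TopologicalSpace ι] [DiscreteTopology ι] in
lemma Bd.hm_iv_hm (a : Lt ι) (w : Bd ι) : Bd.hm (iv a) (Bd.hm a w) = w := by
  by_cases h : w.c 0 = iv a
  · rw [Bd.hm_pos h]
    have h1 : w.tl.c 0 ≠ iv (iv a) := by
      rw [Bd.tl_c, ← h]
      exact w.red 0
    rw [Bd.hm_neg h1]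
    apply Bd.ext'
    intro k
    rcases k with _ | k
    · exact h.symm
    · rfl
  · rw [Bd.hm_neg h, Bd.hm_pos (by rw [Bd.cs_zero, iv_iv])]
    apply Bd.ext'
    intro k
    rfl

lemma Bd.hm_cont (a : Lt ι) : Continuous (Bd.hm a) := by
  classical
  refine Continuous.subtype_mk (f := fun w : Bd ι => (Bd.hm a w).1) ?_ (fun w => (Bd.hm a w).2)
  refine continuous_pi fun k => ?_
  have h : (fun w : Bd ι => (Bd.hm a w).1 k) = (fun p : Lt ι × Lt ι × Lt ι =>
      if p.1 = iv a then p.2.1 else if k = 0 then a else p.2.2) ∘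
      (fun w : Bd ι => (w.c 0, w.c (k + 1), w.c (k - 1))) := by
    funext w
    by_cases h : w.c 0 = iv a
    · simp only [Bd.hm_pos h, Function.comp, if_pos h]
      rfl
    · simp only [Bd.hm_neg h, Function.comp, if_neg h]
      rfl
  rw [h]
  exact continuous_of_discreteTopology.comp
    ((Bd.c_cont 0).prodMk ((Bd.c_cont (k + 1)).prodMk (Bd.c_cont (k - 1))))

/-- as a homeomorphism -/
noncomputable def Bd.hE (a : Lt ι) : Bd ι ≃ₜ Bd ι where
  toFun := Bd.hm a
  invFun := Bd.hm (iv a)
  left_inv := Bd.hm_iv_hm a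
  right_inv w := by
    have := Bd.hm_iv_hm (iv a) w
    rwa [iv_iv] at this
  continuous_toFun := Bd.hm_cont a
  continuous_invFun := Bd.hm_cont (iv a)

/-- the action -/
noncomputable def act : FreeGroup ι →* (Bd ι ≃ₜ Bd ι) :=
  FreeGroup.lift (fun i => Bd.hE (i, true))

/-- action of a list -/
noncomputable def lact (L : List (Lt ι)) (w : Bd ι) : Bd ι := L.foldr (fun a w => Bd.hm a w) w

omit [TopologicalSpace ι] [DiscreteTopology ι] in
lemma lact_cons (a : Lt ι) (L : List (Lt ι)) (w : Bd ι) : lact (a :: L) w = Bd.hm a (lact L w) := rfl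

lemma act_mk (L : List (Lt ι)) (w : Bd ι) : act (FreeGroup.mk L) w = lact L w := by
  unfold act
  rw [FreeGroup.lift_mk]
  induction L with
  | nil => rfl
  | cons a L ih =>
    rw [List.map_cons, List.prod_cons, lact_cons, ← ih]
    rcases a with ⟨i, b⟩
    cases b
    · rfl
    · rfl

/-- inverse action of a list -/
noncomputable def linv : List (Lt ι) → Bd ι → Bd ι
  | [], w => w
  | a :: L, w => linv L (Bd.hm (iv a) w)

omit [TopologicalSpace ι] [DiscreteTopology ι] in
lemma lact_linv (L : List (Lt ι)) (w : Bd ι) : lact L (linv L w) = w := by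
  induction L generalizing w with
  | nil => rfl
  | cons a L ih =>
    show Bd.hm a (lact L (linv L (Bd.hm (iv a) w))) = w
    rw [ih]
    have := Bd.hm_iv_hm (iv a) w
    rwa [iv_iv] at this

omit [TopologicalSpace ι] [DiscreteTopology ι] in
lemma linv_lact (L : List (Lt ι)) (w : Bd ι) : linv L (lact L w) = w := by
  induction L generalizing w with
  | nil => rfl
  | cons a L ih =>
    show linv L (Bd.hm (iv a) (Bd.hm a (lact L w))) = w
    rw [Bd.hm_iv_hm, ih]

lemma act_inv_mk (L : List (Lt ι)) (w : Bd ι) : act (FreeGroup.mk L)⁻¹ w = linv L w := by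
  rw [map_inv]
  show (act (FreeGroup.mk L)).symm w = linv L w
  rw [Homeomorph.symm_apply_eq, act_mk, lact_linv]

/-- reduced lists -/
def Rd (L : List (Lt ι)) : Prop := List.IsChain (fun a b => b ≠ iv a) L

omit [TopologicalSpace ι] [DiscreteTopology ι] in
lemma rd_of_isReduced {L : List (Lt ι)} (h : FreeGroup.IsReduced L) : Rd L := by
  unfold Rd
  unfold FreeGroup.IsReduced at h
  refine h.imp ?_
  rintro ⟨i, b⟩ ⟨j, c⟩ h1 h2
  simp only [iv, Prod.mk.injEq] at h1 h2
  have := h1 h2.1.symm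
  rw [h2.2] at this
  cases b <;> simp at this

/-- cylinders -/
def cyl : List (Lt ι) → Set (Bd ι)
  | [] => univ
  | a :: L => {w | w.c 0 = a ∧ w.tl ∈ cyl L}

omit [TopologicalSpace ι] [DiscreteTopology ι] in
lemma mem_cyl {L : List (Lt ι)} {w : Bd ι} : w ∈ cyl L ↔ ∀ k (hk : k < L.length), w.c k = L[k] := by
  induction L generalizing w with
  | nil => simp [cyl]
  | cons a L ih =>
    show (w.c 0 = a ∧ w.tl ∈ cyl L) ↔ _
    rw [ih]
    constructor
    · rintro ⟨h0, h1⟩ k hk
      rcases k with _ | k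
      · simpa using h0
      · have := h1 k (by simpa using hk)
        simpa [Bd.tl_c] using this
    · intro h
      refine ⟨h 0 (Nat.succ_pos _), fun k hk => ?_⟩
      have := h (k + 1) (by simpa using hk)
      simpa [Bd.tl_c] using this

/-- prefix list of an infinite word -/
def pre : Bd ι → ℕ → List (Lt ι)
  | _, 0 => []
  | w, n + 1 => w.c 0 :: pre w.tl n

omit [TopologicalSpace ι] [DiscreteTopology ι] in
lemma pre_length (w : Bd ι) (n : ℕ) : (pre w n).length = n := by
  induction n generalizing w with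
  | zero => rfl
  | succ n ih => simp [pre, ih]

omit [TopologicalSpace ι] [DiscreteTopology ι] in
lemma mem_cyl_pre (w w' : Bd ι) (n : ℕ) : w' ∈ cyl (pre w n) ↔ ∀ k < n, w'.c k = w.c k := by
  induction n generalizing w w' with
  | zero => simp [pre, cyl]
  | succ n ih =>
    show (w'.c 0 = w.c 0 ∧ w'.tl ∈ cyl (pre w.tl n)) ↔ _
    rw [ih]
    constructor
    · rintro ⟨h0, h1⟩ k hk
      rcases k with _ | k
      · exact h0
      · exact h1 k (by omega)
    · intro h
      exact ⟨h 0 (by omega), fun k hk => h (k + 1) (by omega)⟩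

omit [TopologicalSpace ι] [DiscreteTopology ι] in
lemma pre_rd (w : Bd ι) (n : ℕ) : Rd (pre w n) := by
  induction n generalizing w with
  | zero => exact List.isChain_nil
  | succ n ih =>
    rcases n with _ | n
    · exact List.isChain_singleton _
    · show Rd (w.c 0 :: w.tl.c 0 :: pre w.tl.tl n)
      exact List.isChain_cons_cons.mpr ⟨w.red 0, ih w.tl⟩

/-- every nonempty open set contains a cylinder over a nonempty reduced list -/
lemma exists_cyl {V : Set (Bd ι)} (hV : IsOpen V) (hne : V.Nonempty) :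
    ∃ v : List (Lt ι), v ≠ [] ∧ Rd v ∧ cyl v ⊆ V := by
  obtain ⟨w, hw⟩ := hne
  obtain ⟨V', hV', rfl⟩ := isOpen_induced_iff.mp hV
  obtain ⟨_, ⟨x, n, rfl⟩, hxw, hsub⟩ :=
    (PiNat.isTopologicalBasis_cylinders (fun _ : ℕ => Lt ι)).exists_subset_of_mem_open hw hV'
  refine ⟨pre w (n + 1), by simp [pre], pre_rd w _, ?_⟩
  intro w' hw'
  apply hsub
  rw [mem_cyl_pre] at hw'
  rw [PiNat.mem_cylinder_iff] at hxw ⊢
  intro i hi
  have h1 : w'.1 i = w.1 i := hw' i (by omega)
  rw [h1]
  exact hxw i hi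

lemma cyl_clopen (L : List (Lt ι)) : IsClopen (cyl L) := by
  have : cyl L = ⋂ k : Fin L.length, (fun w : Bd ι => w.c k) ⁻¹' {L[k]} := by
    ext w
    rw [mem_cyl]
    simp only [mem_iInter, mem_preimage, mem_singleton_iff]
    exact ⟨fun h k => h k k.2, fun h k hk => h ⟨k, hk⟩⟩
  rw [this]
  exact isClopen_iInter_of_finite fun k => (isClopen_discrete _).preimage (Bd.c_cont _)

omit [TopologicalSpace ι] [DiscreteTopology ι] in
/-- prepending a reduced list -/
lemma lact_good {L : List (Lt ι)} (hL : Rd L) (hne : L ≠ []) {w : Bd ι}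
    (hw : w.c 0 ≠ iv (L.getLast hne)) :
    (lact L w) ∈ cyl L ∧ (lact L w).c 0 = L.head hne ∧ ∀ k, (lact L w).c (L.length + k) = w.c k := by
  induction L with
  | nil => exact absurd rfl hne
  | cons a L ih =>
    rcases L with _ | ⟨b, L⟩
    · have h1 : lact [a] w = w.cs a hw := Bd.hm_neg hw
      rw [h1]
      refine ⟨⟨rfl, mem_univ _⟩, rfl, fun k => ?_⟩
      show (w.cs a hw).c (1 + k) = _
      rw [Nat.add_comm]; rfl
    · have hL' : Rd (b :: L) := (List.isChain_cons_cons.mp hL).2
      have hab : b ≠ iv a := (List.isChain_cons_cons.mp hL).1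
      obtain ⟨h1, h2, h3⟩ := ih hL' (by simp) (by simpa using hw)
      have h4 : (lact (b :: L) w).c 0 ≠ iv a := by rw [h2]; exact hab
      have h5 : lact (a :: b :: L) w = (lact (b :: L) w).cs a h4 := by
        rw [lact_cons, Bd.hm_neg h4]
      rw [h5]
      refine ⟨⟨rfl, ?_⟩, rfl, fun k => ?_⟩
      · have : ((lact (b :: L) w).cs a h4).tl = lact (b :: L) w := Bd.ext' fun k => rfl
        rw [this]
        exact h1
      · have : (a :: b :: L).length + k = ((b :: L).length + k) + 1 := by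
          simp [List.length_cons]; omega
        rw [this, Bd.cs_succ, h3]

omit [TopologicalSpace ι] [DiscreteTopology ι] in
/-- outside the cylinder of `L`, the inverse action starts with the inverse of the last letter -/
lemma linv_bad {L : List (Lt ι)} (hL : Rd L) (hne : L ≠ []) {w : Bd ι} (hw : w ∉ cyl L) :
    (linv L w).c 0 = iv (L.getLast hne) := by
  induction L generalizing w with
  | nil => exact absurd rfl hne
  | cons a L ih =>
    rcases L with _ | ⟨b, L⟩
    · have h1 : w.c 0 ≠ iv (iv a) := by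
        rw [iv_iv]
        intro h
        exact hw ⟨h, mem_univ _⟩
      show (Bd.hm (iv a) w).c 0 = _
      rw [Bd.hm_neg h1]
      rfl
    · have hL' : Rd (b :: L) := (List.isChain_cons_cons.mp hL).2
      have hab : b ≠ iv a := (List.isChain_cons_cons.mp hL).1
      show (linv (b :: L) (Bd.hm (iv a) w)).c 0 = _
      rw [List.getLast_cons (by simp)]
      apply ih hL'
      by_cases h : w.c 0 = a
      · rw [Bd.hm_pos (by rw [iv_iv]; exact h)]
        intro h'
        exact hw ⟨h, h'⟩
      · rw [Bd.hm_neg (by rw [iv_iv]; exact h)]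
        intro h'
        exact hab h'.1.symm

omit [TopologicalSpace ι] [DiscreteTopology ι] in
/-- basic ping-pong map -/
lemma pingpong {u v : List (Lt ι)} (hu : Rd u) (hv : Rd v) (hu0 : u ≠ []) (hv0 : v ≠ [])
    (hl : u.getLast hu0 ≠ v.getLast hv0) {w : Bd ι} (hw : w ∉ cyl u) : lact v (linv u w) ∈ cyl v :=
  (lact_good hv hv0 (by rw [linv_bad hu hu0 hw]; exact fun h => hl (iv_inj h))).1

omit [TopologicalSpace ι] [DiscreteTopology ι] in
lemma rd_append {u : List (Lt ι)} (hu : Rd u) (hu0 : u ≠ []) (a : Lt ι)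
    (ha : a ≠ iv (u.getLast hu0)) : Rd (u ++ [a]) := by
  unfold Rd
  rw [List.isChain_append]
  refine ⟨hu, List.isChain_singleton _, ?_⟩
  intro x hx y hy
  rw [List.getLast?_eq_getLast_of_ne_nil hu0] at hx
  simp at hx hy
  subst hx; subst hy
  exact ha

omit [TopologicalSpace ι] [DiscreteTopology ι] in
lemma cyl_append_subset (u v : List (Lt ι)) : cyl (u ++ v) ⊆ cyl u := by
  intro w hw
  rw [mem_cyl] at hw ⊢
  intro k hk
  have := hw k (by simp; omega)
  rw [this, List.getElem_append_left hk]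

/-- constant infinite word -/
def cst (a : Lt ι) : Bd ι := ⟨fun _ => a, fun _ => iv_ne a⟩

end basic

end Pool.Agent.V11279.BA
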