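import Mathlib

/-!
Besicovitch cylindrical transformations over a topological group with small paths (generalising
`Pool.Agent.V11105.Besicovitch`, where the group is the circle).
-/

open Filter Set Topology
open scoped NNReal

namespace Pool.Agent.V11279.BesT

noncomputable section

variable {G : Type*} [AddCommGroup G]

/-- The cylindrical transformation `(x,y) ↦ (x + a, y + φ(x))` of `G × ℝ`, as a bijection. -/
def cyl (a : G) (φ : G → ℝ) : Equiv.Perm (G × ℝ) where
  toFun p := (p.1 + a, p.2 + φ p.1)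
  invFun p := (p.1 - a, p.2 - φ (p.1 - a))
  left_inv p := by simp
  right_inv p := by simp

/-- The (two-sided) orbit of a point under the cylindrical transformation. -/
def orbit (a : G) (φ : G → ℝ) (p : G × ℝ) : Set (G × ℝ) :=
  Set.range fun n : ℤ => ((cyl a φ) ^ n) p

/-- The cylindrical transformation is Besicovitch: some orbit is dense in `G × ℝ` and some
orbit has no accumulation point in `G × ℝ`. -/
structure IsBesicovitch [TopologicalSpace G] (a : G) (φ : G → ℝ) : Prop where
  exists_dense_orbit : ∃ p, Dense (orbit a φ p)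
  exists_discrete_orbit : ∃ p, ∀ z, ¬ AccPt z (𝓟 (orbit a φ p))

/-! ### Cocycle -/

variable {a : G} {φ : G → ℝ}

/-- Birkhoff sums. -/
def S (a : G) (φ : G → ℝ) (n : ℤ) (x : G) : ℝ := (((cyl a φ) ^ n) (x, 0)).2

lemma cyl_apply (x : G) (y : ℝ) : cyl a φ (x, y) = (x + a, y + φ x) := rfl

lemma cyl_symm_apply (x : G) (y : ℝ) :
    (cyl a φ)⁻¹ (x, y) = (x - a, y - φ (x - a)) := rfl

lemma cyl_zpow_aux (n : ℤ) : ∀ (x : G) (y : ℝ),
    ((cyl a φ) ^ n) (x, y) = (x + n • a, y + S a φ n x) := by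
  induction n using Int.induction_on with
  | zero => intro x y; simp [S]
  | succ n ih =>
    intro x y
    have h : ∀ y, ((cyl a φ) ^ ((n : ℤ) + 1)) (x, y) = cyl a φ (((cyl a φ) ^ (n : ℤ)) (x, y)) := by
      intro y; rw [zpow_add_one, ← (Commute.self_zpow (cyl a φ) n).eq]; rfl
    have hS : S a φ ((n : ℤ) + 1) x = S a φ n x + φ (x + (n : ℤ) • a) := by
      have h0 := h 0
      rw [ih x 0, cyl_apply] at h0
      unfold S at *
      rw [h0]; simp
    rw [h y, ih x y, cyl_apply, hS, add_smul, one_smul]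
    ext <;> simp [add_assoc]
  | pred n ih =>
    intro x y
    have h : ∀ y, ((cyl a φ) ^ (-(n : ℤ) - 1)) (x, y)
        = (cyl a φ)⁻¹ (((cyl a φ) ^ (-(n : ℤ))) (x, y)) := by
      intro y; rw [zpow_sub_one, ← ((Commute.self_zpow (cyl a φ) (-(n : ℤ))).inv_left).eq]; rfl
    have hS : S a φ (-(n : ℤ) - 1) x = S a φ (-n) x
        - φ (x + (-(n : ℤ)) • a - a) := by
      have h0 := h 0
      rw [ih x 0, cyl_symm_apply] at h0
      unfold S at *
      rw [h0]; simp
    rw [h y, ih x y, cyl_symm_apply, hS, sub_smul, one_smul]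
    ext
    · simp [add_sub_assoc]
    · simp [add_sub_assoc]

lemma S_zero (x : G) : S a φ 0 x = 0 := by simp [S]

lemma S_one (x : G) : S a φ 1 x = φ x := by simp [S, cyl_apply]

lemma S_add (m n : ℤ) (x : G) :
    S a φ (m + n) x = S a φ n x + S a φ m (x + n • a) := by
  have h : ((cyl a φ) ^ (m + n)) (x, 0) = ((cyl a φ) ^ m) (((cyl a φ) ^ n) (x, 0)) := by
    rw [zpow_add]; rfl
  have h1 := congrArg Prod.snd h
  rw [cyl_zpow_aux n, cyl_zpow_aux m, cyl_zpow_aux (m + n)] at h1
  simpa using h1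

lemma S_neg (n : ℤ) : S a φ n (-(n • a)) = - S a φ (-n) 0 := by
  have h := S_add (a := a) (φ := φ) n (-n) 0
  rw [add_neg_cancel, S_zero] at h
  simp only [zero_add, neg_smul] at h
  linarith

variable [TopologicalSpace G] [IsTopologicalAddGroup G]

lemma continuous_cyl_zpow (hφ : Continuous φ) (n : ℤ) : Continuous (fun p => ((cyl a φ) ^ n) p) := by
  have h1 : Continuous (fun p => (cyl a φ) p) := by
    show Continuous (fun p : G × ℝ => (p.1 + a, p.2 + φ p.1))
    fun_prop
  have h2 : Continuous (fun p => (cyl a φ)⁻¹ p) := by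
    show Continuous (fun p : G × ℝ =>
      (p.1 - a, p.2 - φ (p.1 - a)))
    fun_prop
  induction n using Int.induction_on with
  | zero =>
    have : (fun p : G × ℝ => ((cyl a φ) ^ (0 : ℤ)) p) = id := by
      ext p <;> simp
    rw [this]; exact continuous_id
  | succ n ih =>
    simp only [zpow_add_one]
    exact ih.comp h1
  | pred n ih =>
    simp only [zpow_sub_one]
    exact ih.comp h2

lemma continuous_S (hφ : Continuous φ) (n : ℤ) : Continuous (S a φ n) := by
  have h : Continuous (fun x : G => (((cyl a φ) ^ n) (x, (0 : ℝ))).2) :=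
    continuous_snd.comp ((continuous_cyl_zpow hφ n).comp (continuous_id.prodMk continuous_const))
  exact h

/-- Transitivity on open sets. -/
lemma transitive_open (hφ : Continuous φ) (hdense : DenseRange (fun n : ℤ => n • a))
    (hS : Tendsto (fun n : ℤ => S a φ n 0) cofinite atTop)
    (q : ℕ → ℤ) (γ : ℕ → ℝ → G) (hq : Tendsto (fun j => q j) atTop cofinite)
    (hq' : Tendsto (fun j => - q j) atTop cofinite)
    (hγc : ∀ j, Continuous (γ j)) (hγ0 : ∀ j, γ j 0 = 0) (hγ1 : ∀ j, γ j 1 = -((q j) • a))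
    (hγ : ∀ t : ℕ → ℝ, (∀ᶠ j in atTop, t j ∈ Icc (0 : ℝ) 1) →
      Tendsto (fun j => γ j (t j)) atTop (𝓝 0))
    {U V : Set (G × ℝ)} (hU : IsOpen U) (hUn : U.Nonempty) (hV : IsOpen V)
    (hVn : V.Nonempty) : ∃ m : ℤ, ∃ p ∈ U, ((cyl a φ) ^ m) p ∈ V := by
  obtain ⟨⟨x1, y1⟩, h1⟩ := hUn
  obtain ⟨⟨x2, y2⟩, h2⟩ := hVn
  obtain ⟨l, hl⟩ : ∃ l : ℤ, (l • a, y1) ∈ U := by
    have := hdense.exists_mem_open (s := (fun x => (x, y1)) ⁻¹' U) (hU.preimage (by fun_prop))
      ⟨x1, h1⟩
    exact this
  obtain ⟨k, hk⟩ : ∃ k : ℤ, (k • a, y2) ∈ V := by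
    have := hdense.exists_mem_open (s := (fun x => (x, y2)) ⁻¹' V) (hV.preimage (by fun_prop))
      ⟨x2, h2⟩
    exact this
  set s0 := S a φ (k - l) (l • a) with hs0
  set s := y2 - y1 - s0 with hs
  have hcS := fun n => continuous_S (a := a) hφ n
  -- the intermediate value argument
  have hex : ∀ᶠ j in atTop, ∃ t ∈ Icc (0 : ℝ) 1, S a φ (q j) (γ j t) = s := by
    have e1 := (hS.comp hq).eventually (eventually_ge_atTop s)
    have e2 := (hS.comp hq').eventually (eventually_ge_atTop (-s))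
    filter_upwards [e1, e2] with j h1 h2
    simp only [Function.comp] at h1 h2
    have hc : ContinuousOn (fun t : ℝ => S a φ (q j) (γ j t)) (Icc 0 1) :=
      ((hcS (q j)).comp (hγc j)).continuousOn
    have hiv := intermediate_value_Icc' (zero_le_one) hc
    have hs1 : s ∈ Icc (S a φ (q j) (γ j 1)) (S a φ (q j) (γ j 0)) := by
      constructor
      · rw [hγ1, S_neg]
        linarith
      · rw [hγ0]; exact h1
    obtain ⟨t, ht, hts⟩ := hiv hs1
    exact ⟨t, ht, hts⟩
  -- choose
  choose! t ht using fun j => (Classical.em (∃ t ∈ Icc (0 : ℝ) 1,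
    S a φ (q j) (γ j t) = s)).elim
      (fun h => (⟨h.choose, fun _ => h.choose_spec⟩ : ∃ t : ℝ, (∃ t ∈ Icc (0 : ℝ) 1,
    S a φ (q j) (γ j t) = s) → t ∈ Icc (0 : ℝ) 1 ∧
    S a φ (q j) (γ j t) = s))
      (fun h => ⟨0, fun h' => absurd h' h⟩)
  set z : ℕ → G := fun j => γ j (t j) with hz
  have hzlim : Tendsto z atTop (𝓝 0) := by
    apply hγ
    filter_upwards [hex] with j hj
    exact (ht j hj).1
  have hδlim : Tendsto (fun j => (q j) • a) atTop (𝓝 0) := by
    have h := (hγ (fun _ => 1) (Eventually.of_forall fun _ => by simp)).neg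
    simp only [hγ1, neg_neg, neg_zero] at h
    exact h
  have hzδ : Tendsto (fun j => z j + (q j) • a) atTop (𝓝 0) := by
    simpa using hzlim.add hδlim
  -- the points
  have hp : Tendsto (fun j => ((l • a + z j, y1) : G × ℝ)) atTop
      (𝓝 (l • a, y1)) := by
    apply Tendsto.prodMk_nhds _ tendsto_const_nhds
    simpa using (tendsto_const_nhds (x := l • a)).add hzlim
  have hq2 : Tendsto (fun j => ((k • a + (z j + (q j) • a),
      y1 + (s + S a φ l (z j + (q j) • a) - S a φ l (z j)
      + S a φ (k - l) (l • a + (z j + (q j) • a))))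
        : G × ℝ)) atTop (𝓝 (k • a, y2)) := by
    apply Tendsto.prodMk_nhds
    · simpa using (tendsto_const_nhds (x := k • a)).add hzδ
    · have l1 : Tendsto (fun j => S a φ l (z j + (q j) • a)) atTop
          (𝓝 (S a φ l 0)) := ((hcS l).tendsto 0).comp hzδ
      have l2 : Tendsto (fun j => S a φ l (z j)) atTop (𝓝 (S a φ l 0)) :=
        ((hcS l).tendsto 0).comp hzlim
      have l3 : Tendsto (fun j => S a φ (k - l) (l • a
          + (z j + (q j) • a))) atTop (𝓝 s0) := by
        apply ((hcS (k - l)).tendsto _).comp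
        simpa using (tendsto_const_nhds (x := l • a)).add hzδ
      have := (((tendsto_const_nhds (x := s)).add l1).sub l2).add l3
      have h5 := (tendsto_const_nhds (x := y1)).add this
      convert h5 using 2
      rw [hs]; ring
  have ev1 := hp.eventually (hU.mem_nhds hl)
  have ev2 := hq2.eventually (hV.mem_nhds hk)
  obtain ⟨j, hj, hj1, hj2⟩ := (hex.and (ev1.and ev2)).exists
  refine ⟨(k - l) + q j, _, hj1, ?_⟩
  rw [cyl_zpow_aux]
  have hSj : S a φ (q j) (z j) = s := (ht j hj).2
  have hSl : S a φ (q j) (l • a + z j)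
      = s + S a φ l (z j + (q j) • a) - S a φ l (z j) := by
    have a1 := S_add (a := a) (φ := φ) (q j) l (z j)
    have a2 := S_add (a := a) (φ := φ) l (q j) (z j)
    rw [add_comm l (q j), a1, hSj] at a2
    rw [add_comm (l • a) (z j)]
    linarith
  have e1 : l • a + z j + (k - l + q j) • a
      = k • a + (z j + (q j) • a) := by
    simp only [add_smul, sub_smul]
    abel
  have e2 : S a φ (k - l + q j) (l • a + z j)
      = s + S a φ l (z j + (q j) • a) - S a φ l (z j)
        + S a φ (k - l) (l • a + (z j + (q j) • a)) := by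
    rw [S_add, hSl]
    rw [show l • a + z j + (q j) • a
      = l • a + (z j + (q j) • a) by abel]
  rw [e1, e2]
  exact hj2

/-- A discrete orbit over `0` with Birkhoff sums tending to `+∞` in both directions. -/
theorem isBesicovitch_of [T1Space G] [SecondCountableTopology G] [BaireSpace (G × ℝ)]
    (hφ : Continuous φ) (hdense : DenseRange (fun n : ℤ => n • a))
    (hS : Tendsto (fun n : ℤ => S a φ n 0) cofinite atTop)
    (q : ℕ → ℤ) (γ : ℕ → ℝ → G) (hq : Tendsto (fun j => q j) atTop cofinite)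
    (hq' : Tendsto (fun j => - q j) atTop cofinite)
    (hγc : ∀ j, Continuous (γ j)) (hγ0 : ∀ j, γ j 0 = 0) (hγ1 : ∀ j, γ j 1 = -((q j) • a))
    (hγ : ∀ t : ℕ → ℝ, (∀ᶠ j in atTop, t j ∈ Icc (0 : ℝ) 1) →
      Tendsto (fun j => γ j (t j)) atTop (𝓝 0)) :
    IsBesicovitch a φ := by
  constructor
  · -- dense orbit
    set B := TopologicalSpace.countableBasis (G × ℝ) with hB
    have hBc : B.Countable := TopologicalSpace.countable_countableBasis _
    have hBb := TopologicalSpace.isBasis_countableBasis (G × ℝ)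
    set W : Set (G × ℝ) → Set (G × ℝ) :=
      fun V => ⋃ m : ℤ, (fun p => ((cyl a φ) ^ m) p) ⁻¹' V with hW
    have hd : Dense (⋂ V ∈ B \ {∅}, W V) := by
      apply dense_biInter_of_isOpen
      · intro V hV
        exact isOpen_iUnion fun m => (hBb.isOpen hV.1).preimage (continuous_cyl_zpow hφ m)
      · exact hBc.mono sdiff_subset
      · intro V hV
        rw [dense_iff_inter_open]
        intro U hU hUn
        have hVn : V.Nonempty := nonempty_iff_ne_empty.2 hV.2
        obtain ⟨m, p, hp, hpV⟩ := transitive_open hφ hdense hS q γ hq hq' hγc hγ0 hγ1 hγ hU hUn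
          (hBb.isOpen hV.1) hVn
        exact ⟨p, hp, mem_iUnion.2 ⟨m, hpV⟩⟩
    obtain ⟨p, hp⟩ := hd.nonempty
    refine ⟨p, ?_⟩
    rw [hBb.dense_iff]
    intro V hV hVn
    have := mem_iInter₂.1 hp V ⟨hV, hVn.ne_empty⟩
    obtain ⟨m, hm⟩ := mem_iUnion.1 this
    exact ⟨_, hm, ⟨m, rfl⟩⟩
  · refine ⟨(0, 0), ?_⟩
    intro z hz
    have hN : {p : G × ℝ | p.2 < z.2 + 1} ∈ 𝓝 z := by
      apply (isOpen_lt continuous_snd continuous_const).mem_nhds
      simp
    have hinf := Set.Infinite.of_accPt (hz.nhds_inter hN)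
    apply hinf
    have hfin : {n : ℤ | ¬ (z.2 + 1 ≤ S a φ n 0)}.Finite := by
      have := hS.eventually (eventually_ge_atTop (z.2 + 1))
      exact this
    apply (hfin.image (fun n : ℤ => ((cyl a φ) ^ n) ((0 : G), (0 : ℝ)))).subset
    rintro p ⟨hp1, n, rfl⟩
    refine ⟨n, ?_, rfl⟩
    simp only [mem_ofPred_eq, not_le] at hp1 ⊢
    exact hp1


end

end Pool.Agent.V11279.BesT
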