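import Pool.Agent.V11279.BesT

/-!
A unit-like number `β` of degree `e + 2`: integer coefficient vectors of its powers.
-/

open Filter Set Topology Polynomial

namespace Pool.Agent.V11279.BesU

noncomputable section

/-- The coefficient `4^(e+1) - 2`. -/
def A (e : ℕ) : ℤ := 4 ^ (e + 1) - 2

/-- The polynomial `X^(e+2) + A X - 2`. -/
def P (e : ℕ) : ℤ[X] := X ^ (e + 2) + (C (A e) * X + C (-2))

lemma A_even (e : ℕ) : (2 : ℤ) ∣ A e := by
  refine ⟨2 * 4 ^ e - 1, ?_⟩
  unfold A
  ring

lemma degree_low (e : ℕ) : (C (A e) * X + C (-2) : ℤ[X]).degree < ((e + 2 : ℕ) : WithBot ℕ) := by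
  refine lt_of_le_of_lt degree_linear_le ?_
  exact_mod_cast (show 1 < e + 2 by omega)

lemma P_monic (e : ℕ) : (P e).Monic := monic_X_pow_add (degree_low e)

lemma P_natDegree (e : ℕ) : (P e).natDegree = e + 2 := by
  unfold P
  rw [natDegree_add_eq_left_of_degree_lt]
  · exact natDegree_X_pow _
  · rw [degree_X_pow]
    exact degree_low e

lemma P_irreducible (e : ℕ) : Irreducible (P e) := by
  have hp : (Ideal.span {(2 : ℤ)}).IsPrime := by
    rw [Ideal.span_singleton_prime (by norm_num)]
    exact Int.prime_two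
  refine irreducible_of_eisenstein_criterion hp ?_ ?_ ?_ ?_ (P_monic e).isPrimitive
  · rw [(P_monic e).leadingCoeff, ← Ideal.ne_top_iff_one]
    exact hp.ne_top
  · intro n hn
    rw [(Monic.ne_zero (P_monic e)) |> degree_eq_natDegree, P_natDegree] at hn
    have hn' : n < e + 2 := by exact_mod_cast hn
    rw [Ideal.mem_span_singleton]
    unfold P
    rw [coeff_add, coeff_X_pow, if_neg (by omega), zero_add, coeff_add, coeff_C_mul, coeff_C,
      coeff_X]
    by_cases h1 : 1 = n
    · rw [if_pos h1, if_neg (by omega), mul_one, add_zero]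
      exact A_even e
    · rw [if_neg h1, mul_zero, zero_add]
      split_ifs
      · norm_num
      · exact dvd_zero _
  · rw [(Monic.ne_zero (P_monic e)) |> degree_eq_natDegree, P_natDegree]
    exact_mod_cast (show 0 < e + 2 by omega)
  · have : (P e).coeff 0 = -2 := by
      unfold P
      simp [coeff_X_pow]
    rw [this, Ideal.span_singleton_pow, Ideal.mem_span_singleton]
    norm_num

lemma exists_beta (e : ℕ) : ∃ β : ℝ, 0 < β ∧ β < 1 ∧ β ^ (e + 2) = 2 - (A e) * β := by
  have hc : ContinuousOn (fun x : ℝ => x ^ (e + 2) + (A e) * x) (Icc 0 1) := by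
    apply Continuous.continuousOn
    fun_prop
  have h4 : (4 : ℝ) ≤ 4 ^ (e + 1) := by
    calc (4 : ℝ) = 4 ^ 1 := by norm_num
      _ ≤ 4 ^ (e + 1) := pow_le_pow_right₀ (by norm_num) (by omega)
  have hA : (A e : ℝ) = 4 ^ (e + 1) - 2 := by
    unfold A; push_cast; ring
  have h := intermediate_value_Ioo (zero_le_one (α := ℝ)) hc
  have h2 : (2 : ℝ) ∈ Ioo ((0 : ℝ) ^ (e + 2) + (A e) * 0) ((1 : ℝ) ^ (e + 2) + (A e) * 1) := by
    constructor
    · simp
    · rw [one_pow, hA]
      linarith
  obtain ⟨β, hβ, h3⟩ := h h2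
  exact ⟨β, hβ.1, hβ.2, by simp only at h3; linarith⟩

/-- The number `β`. -/
def β (e : ℕ) : ℝ := (exists_beta e).choose

lemma β_pos (e : ℕ) : 0 < β e := (exists_beta e).choose_spec.1
lemma β_lt_one (e : ℕ) : β e < 1 := (exists_beta e).choose_spec.2.1
lemma β_eq (e : ℕ) : β e ^ (e + 2) = 2 - (A e) * β e := (exists_beta e).choose_spec.2.2

lemma β_mul_lt (e : ℕ) : β e * 4 ^ e < 1 := by
  have h1 := β_eq e
  have h2 := pow_pos (β_pos e) (e + 2)
  have h0 := β_pos e
  have hA : (A e : ℝ) = 4 ^ (e + 1) - 2 := by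
    unfold A; push_cast; ring
  have h4 := β_lt_one e
  rw [hA] at h1
  rw [h1, pow_succ] at h2
  linarith

/-- No nontrivial integral relation of small degree. -/
lemma β_indep (e : ℕ) (k : Fin (e + 1) → ℤ) (hk : k ≠ 0) (l : ℤ) :
    ∑ i, (k i : ℝ) * β e ^ ((i : ℕ) + 1) ≠ l := by
  intro h
  have hirr : Irreducible ((P e).map (Int.castRingHom ℚ)) :=
    (IsPrimitive.Int.irreducible_iff_irreducible_map_cast (P_monic e).isPrimitive).1
      (P_irreducible e)
  have hroot : aeval (β e) ((P e).map (Int.castRingHom ℚ)) = 0 := by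
    have : aeval (β e) ((P e).map (algebraMap ℤ ℚ)) = aeval (β e) (P e) :=
      aeval_map_algebraMap ℚ (β e) (P e)
    rw [show Int.castRingHom ℚ = algebraMap ℤ ℚ from rfl, this]
    unfold P
    simp only [map_add, map_mul, aeval_X, aeval_C, map_pow]
    have := β_eq e
    simp only [algebraMap_int_eq, eq_intCast]
    push_cast
    linarith
  have hmon : ((P e).map (Int.castRingHom ℚ)).Monic := (P_monic e).map _
  have hmin : (P e).map (Int.castRingHom ℚ) = minpoly ℚ (β e) :=
    minpoly.eq_of_irreducible_of_monic hirr hroot hmon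
  set Q : ℚ[X] := ∑ i : Fin (e + 1), C (k i : ℚ) * X ^ ((i : ℕ) + 1) - C (l : ℚ) with hQ
  have hQe : aeval (β e) Q = 0 := by
    rw [hQ, map_sub, map_sum]
    simp only [map_mul, map_pow, aeval_X, aeval_C]
    simp only [eq_ratCast, Rat.cast_intCast]
    rw [h]; simp
  obtain ⟨i0, hi0⟩ : ∃ i, k i ≠ 0 := by
    by_contra hcon
    push Not at hcon
    exact hk (funext hcon)
  have hQ0 : Q ≠ 0 := by
    intro h0
    have h1 : Q.coeff ((i0 : ℕ) + 1) = 0 := by rw [h0, coeff_zero]
    rw [hQ, coeff_sub, finsetSum_coeff] at h1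
    simp only [coeff_C_mul, coeff_X_pow, coeff_C, mul_ite, mul_one, mul_zero] at h1
    rw [Finset.sum_eq_single i0] at h1
    · simp only [if_true] at h1
      rw [if_neg (by omega), sub_zero] at h1
      exact hi0 (by exact_mod_cast h1)
    · intro j _ hj
      rw [if_neg]
      intro h2
      apply hj
      ext
      omega
    · intro h2
      exact absurd (Finset.mem_univ _) h2
  have hdeg : (minpoly ℚ (β e)).natDegree ≤ Q.natDegree :=
    natDegree_le_natDegree (minpoly.degree_le_of_ne_zero ℚ (β e) hQ0 hQe)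
  have hd1 : (minpoly ℚ (β e)).natDegree = e + 2 := by
    rw [← hmin, (P_monic e).natDegree_map, P_natDegree]
  have hd2 : Q.natDegree ≤ e + 1 := by
    rw [hQ]
    refine (natDegree_sub_le _ _).trans (max_le ?_ ?_)
    · refine natDegree_sum_le_of_forall_le _ _ fun i _ => ?_
      refine (natDegree_C_mul_X_pow_le _ _).trans ?_
      omega
    · rw [natDegree_C]; omega
  omega

/-! ### The coefficient vectors -/

/-- The integer coefficients of `β^n` with respect to `1, β, …, β^(e+1)`. -/
def c (e : ℕ) : ℕ → Fin (e + 2) → ℤ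
  | 0 => fun i => if i = 0 then 1 else 0
  | n + 1 => Fin.cons (2 * c e n (Fin.last (e + 1)))
      (fun i => c e n i.castSucc - if i = 0 then A e * c e n (Fin.last (e + 1)) else 0)

lemma c_succ_zero (e n : ℕ) : c e (n + 1) 0 = 2 * c e n (Fin.last (e + 1)) := rfl

lemma c_succ_succ (e n : ℕ) (i : Fin (e + 1)) : c e (n + 1) i.succ =
    c e n i.castSucc - if i = 0 then A e * c e n (Fin.last (e + 1)) else 0 := rfl

lemma c_sum (e n : ℕ) : ∑ i, (c e n i : ℝ) * β e ^ (i : ℕ) = β e ^ n := by
  induction n with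
  | zero =>
    simp [c]
  | succ n ih =>
    rw [Fin.sum_univ_succ, c_succ_zero]
    simp only [c_succ_succ]
    have h1 : ∑ i : Fin (e + 1), (((c e n i.castSucc
        - if i = 0 then A e * c e n (Fin.last (e + 1)) else 0 : ℤ)) : ℝ) * β e ^ (i.succ : ℕ)
        = (∑ i : Fin (e + 1), (c e n i.castSucc : ℝ) * β e ^ ((i : ℕ) + 1))
          - (A e) * c e n (Fin.last (e + 1)) * β e := by
      have : ∀ i : Fin (e + 1), (((c e n i.castSucc
        - if i = 0 then A e * c e n (Fin.last (e + 1)) else 0 : ℤ)) : ℝ) * β e ^ (i.succ : ℕ)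
        = (c e n i.castSucc : ℝ) * β e ^ ((i : ℕ) + 1) -
          (if i = 0 then (A e) * c e n (Fin.last (e + 1)) * β e else 0) := by
        intro i
        by_cases h : i = 0
        · subst h; simp; ring
        · simp [h]
      rw [Finset.sum_congr rfl fun i _ => this i, Finset.sum_sub_distrib]
      simp
    have h0 := ih
    rw [Fin.sum_univ_castSucc] at h0
    rw [h1, pow_succ, ← h0, add_mul, Finset.sum_mul]
    have h2 : ∑ i : Fin (e + 1), (c e n i.castSucc : ℝ) * β e ^ (i.castSucc : ℕ) * β e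
        = ∑ i : Fin (e + 1), (c e n i.castSucc : ℝ) * β e ^ ((i : ℕ) + 1) := by
      refine Finset.sum_congr rfl fun i _ => ?_
      rw [Fin.val_castSucc, pow_succ]; ring
    rw [h2]
    have h3 := β_eq e
    rw [Fin.val_last, mul_assoc (c e n (Fin.last (e + 1)) : ℝ), ← pow_succ, h3]
    push_cast
    simp
    ring

lemma c_bound (e n : ℕ) : |c e n 0| ≤ 4 ^ n ∧
    ∀ i : Fin (e + 1), |c e n i.succ| * (2 * 4 ^ (i : ℕ)) ≤ 4 ^ (n + e + 1) := by
  induction n with
  | zero =>
    constructor
    · simp [c]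
    · intro i
      simp [c, Fin.succ_ne_zero]
  | succ n ih =>
    obtain ⟨h0, h1⟩ := ih
    have hlast : Fin.last (e + 1) = (Fin.last e).succ := rfl
    have h2 := h1 (Fin.last e)
    rw [← hlast, Fin.val_last] at h2
    set L := |c e n (Fin.last (e + 1))| with hL
    have hp : (0 : ℤ) < 4 ^ e := by positivity
    have h3 : L * 2 ≤ 4 ^ (n + 1) := by
      have : L * 2 * 4 ^ e ≤ 4 ^ (n + 1) * 4 ^ e := by
        calc L * 2 * 4 ^ e = L * (2 * 4 ^ e) := by ring
          _ ≤ 4 ^ (n + e + 1) := h2
          _ = 4 ^ (n + 1) * 4 ^ e := by ring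
      exact le_of_mul_le_mul_right this hp
    have hL0 : 0 ≤ L := abs_nonneg _
    constructor
    · rw [c_succ_zero, abs_mul, ← hL]
      simp only [Nat.abs_ofNat]
      linarith
    · intro i
      rw [c_succ_succ]
      induction i using Fin.cases with
      | zero =>
        rw [if_pos rfl]
        have hA : 0 ≤ A e := by
          unfold A
          have : (4 : ℤ) ^ 1 ≤ 4 ^ (e + 1) := pow_le_pow_right₀ (by norm_num) (by omega)
          linarith
        have h4 : |c e n (Fin.castSucc 0) - A e * c e n (Fin.last (e + 1))| ≤ 4 ^ n + A e * L := by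
          refine (abs_sub _ _).trans ?_
          rw [abs_mul, abs_of_nonneg hA, ← hL]
          have : (Fin.castSucc (0 : Fin (e + 1))) = 0 := rfl
          rw [this]
          linarith
        have h5 : A e * (L * 2) ≤ A e * 4 ^ (n + 1) := mul_le_mul_of_nonneg_left h3 hA
        have h6 : (4 : ℤ) ^ (n + 1 + e + 1) = 4 ^ (n + 1) * (A e + 2) := by
          unfold A; ring
        have h7 : (0 : ℤ) < 4 ^ n := by positivity
        rw [h6]
        simp only [Fin.val_zero, pow_zero, mul_one]
        rw [pow_succ] at h5 ⊢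
        nlinarith
      | succ j =>
        rw [if_neg (Fin.succ_ne_zero j), sub_zero]
        have h4 := h1 j.castSucc
        have h5 : (j.succ).castSucc = (j.castSucc).succ := rfl
        rw [h5]
        rw [Fin.val_castSucc] at h4
        rw [Fin.val_succ]
        calc |c e n j.castSucc.succ| * (2 * 4 ^ ((j : ℕ) + 1))
            = (|c e n j.castSucc.succ| * (2 * 4 ^ (j : ℕ))) * 4 := by ring
          _ ≤ 4 ^ (n + e + 1) * 4 := mul_le_mul_of_nonneg_right h4 (by norm_num)
          _ = 4 ^ (n + 1 + e + 1) := by ring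

end

end Pool.Agent.V11279.BesU
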