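import Pool.Agent.V11279.BesU

/-!
The function on the torus of dimension `e + 1`.
-/

open Filter Set Topology
open Pool.Agent.V11279.BesT Pool.Agent.V11279.BesU

namespace Pool.Agent.V11279.BesV

noncomputable section

/-- The torus of dimension `e + 1`. -/
abbrev T (e : ℕ) : Type := Fin (e + 1) → UnitAddCircle

/-- The rotation vector `(β, β², …)`. -/
def al (e : ℕ) : Fin (e + 1) → ℝ := fun i => β e ^ ((i : ℕ) + 1)

/-- The rotation vector in the torus. -/
def a (e : ℕ) : T e := fun i => (al e i : UnitAddCircle)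

/-- The `n`-th linear form on the torus. -/
def ell (e n : ℕ) (x : T e) : UnitAddCircle := ∑ i, c e n i.succ • x i

/-- The real part of the standard character. -/
def cosT (x : UnitAddCircle) : ℝ := (AddCircle.toCircle x : ℂ).re

lemma cosT_coe (t : ℝ) : cosT (t : UnitAddCircle) = Real.cos (2 * Real.pi * t) := by
  unfold cosT
  have := fourier_coe_apply (T := (1 : ℝ)) (n := 1) (x := t)
  rw [fourier_one] at this
  rw [this, show (2 * Real.pi * Complex.I * ((1 : ℤ) : ℂ) * (t : ℂ) / ((1 : ℝ) : ℂ))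
    = ((2 * Real.pi * t : ℝ) : ℂ) * Complex.I by push_cast; ring, Complex.exp_ofReal_mul_I_re]

lemma continuous_cosT : Continuous cosT := by
  unfold cosT
  exact Complex.continuous_re.comp (continuous_subtype_val.comp AddCircle.continuous_toCircle)

lemma zsmul_coe (k : ℤ) (t : ℝ) : k • (t : UnitAddCircle) = ((k * t : ℝ) : UnitAddCircle) := by
  rw [← zsmul_eq_mul]; rfl

lemma int_coe (k : ℤ) : ((k : ℝ) : UnitAddCircle) = 0 := by
  rw [AddCircle.coe_eq_zero_iff]
  exact ⟨k, by simp⟩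

lemma sum_coe {ι : Type*} (s : Finset ι) (f : ι → ℝ) :
    ((∑ i ∈ s, f i : ℝ) : UnitAddCircle) = ∑ i ∈ s, (f i : UnitAddCircle) := by
  classical
  induction s using Finset.induction_on with
  | empty => simp
  | insert i s hi ih => rw [Finset.sum_insert hi, Finset.sum_insert hi, ← ih]; rfl

lemma ell_add (e n : ℕ) (x y : T e) : ell e n (x + y) = ell e n x + ell e n y := by
  unfold ell
  rw [← Finset.sum_add_distrib]
  exact Finset.sum_congr rfl fun i _ => by rw [Pi.add_apply, smul_add]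

lemma continuous_ell (e n : ℕ) : Continuous (ell e n) := by
  unfold ell
  exact continuous_finsetSum _ fun i _ => (continuous_apply i).zsmul _

/-- the real linear form -/
def Lf (e n : ℕ) : (Fin (e + 1) → ℝ) →L[ℝ] ℝ :=
  ∑ i, (c e n i.succ : ℝ) • ContinuousLinearMap.proj i

lemma Lf_apply (e n : ℕ) (p : Fin (e + 1) → ℝ) : Lf e n p = ∑ i, (c e n i.succ : ℝ) * p i := by
  unfold Lf
  simp

lemma ell_coe (e n : ℕ) (p : Fin (e + 1) → ℝ) :
    ell e n (fun i => (p i : UnitAddCircle)) = ((Lf e n p : ℝ) : UnitAddCircle) := by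
  rw [Lf_apply, sum_coe]
  unfold ell
  exact Finset.sum_congr rfl fun i _ => zsmul_coe _ _

lemma Lf_al (e n : ℕ) : Lf e n (al e) = β e ^ n - c e n 0 := by
  rw [Lf_apply]
  have h := c_sum e n
  rw [Fin.sum_univ_succ] at h
  simp only [Fin.val_zero, pow_zero, mul_one, Fin.val_succ] at h
  unfold al
  linarith

lemma ell_zsmul (e n : ℕ) (m : ℤ) : ell e n (m • a e) = ((m * β e ^ n : ℝ) : UnitAddCircle) := by
  have h1 : m • a e = fun i => (((m * al e i : ℝ)) : UnitAddCircle) := by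
    funext i
    exact zsmul_coe _ _
  have h2 : Lf e n (fun i => m * al e i) = m * β e ^ n - ((m * c e n 0 : ℤ) : ℝ) := by
    have : (fun i => (m : ℝ) * al e i) = (m : ℝ) • al e := by funext i; rfl
    rw [this, map_smul, Lf_al, smul_eq_mul]
    push_cast
    ring
  rw [h1, ell_coe, h2, AddCircle.coe_sub, int_coe, sub_zero]

/-- the `n`-th term of the difference `G_n(x) - G_n(x + m a)` -/
def term (e n : ℕ) (m : ℤ) (x : T e) : ℝ :=
  (n : ℝ) * (cosT (ell e n x) - cosT (ell e n (x + m • a e)))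

lemma exists_rep (x : UnitAddCircle) : ∃ t : ℝ, (t : UnitAddCircle) = x ∧ |t| = ‖x‖ := by
  induction x using QuotientAddGroup.induction_on with
  | H s =>
    refine ⟨s - round s, ?_, ?_⟩
    · have : ((s - (round s : ℝ) : ℝ) : UnitAddCircle) = (s : UnitAddCircle) - ((round s : ℝ) : UnitAddCircle) := rfl
      rw [this, int_coe, sub_zero]
    · exact (UnitAddCircle.norm_eq).symm

lemma cos_sub_le (u v : ℝ) : |Real.cos u - Real.cos v| ≤ |u - v| := by
  rw [Real.cos_sub_cos, abs_mul, abs_mul]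
  have h1 := Real.abs_sin_le_one ((u + v) / 2)
  have h2 : |Real.sin ((u - v) / 2)| ≤ |(u - v) / 2| := Real.abs_sin_le_abs
  rw [abs_div] at h2
  simp only [abs_neg, Nat.abs_ofNat] at *
  have h3 := abs_nonneg (Real.sin ((u + v) / 2))
  have h4 := abs_nonneg (Real.sin ((u - v) / 2))
  nlinarith [abs_nonneg (u - v)]

lemma term_abs_le (e n : ℕ) (m : ℤ) (x : T e) :
    |term e n m x| ≤ 2 * Real.pi * |(m : ℝ)| * ((n : ℝ) * β e ^ n) := by
  obtain ⟨t, ht, -⟩ := exists_rep (ell e n x)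
  unfold term
  rw [ell_add, ell_zsmul, ← ht, ← AddCircle.coe_add, cosT_coe, cosT_coe, abs_mul, Nat.abs_cast]
  have h := cos_sub_le (2 * Real.pi * t) (2 * Real.pi * (t + m * β e ^ n))
  have h2 : |2 * Real.pi * t - 2 * Real.pi * (t + m * β e ^ n)|
      = 2 * Real.pi * (|(m : ℝ)| * β e ^ n) := by
    rw [show 2 * Real.pi * t - 2 * Real.pi * (t + m * β e ^ n)
      = -(2 * Real.pi * (m * β e ^ n)) by ring, abs_neg, abs_mul, abs_mul (m : ℝ),
      abs_of_pos Real.two_pi_pos, abs_of_pos (pow_pos (β_pos e) n)]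
  rw [h2] at h
  calc (n : ℝ) * _ ≤ n * (2 * Real.pi * (|(m : ℝ)| * β e ^ n)) := by gcongr
    _ = _ := by ring

lemma summable_nr (e : ℕ) : Summable (fun n : ℕ => (n : ℝ) * β e ^ n) := by
  have := summable_pow_mul_geometric_of_norm_lt_one (R := ℝ) 1 (r := β e)
    (by rw [Real.norm_eq_abs, abs_of_pos (β_pos e)]; exact β_lt_one e)
  simpa using this

lemma summable_term (e : ℕ) (m : ℤ) (x : T e) : Summable (fun n => term e n m x) := by
  apply Summable.of_norm_bounded ((summable_nr e).mul_left (2 * Real.pi * |(m : ℝ)|))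
  intro n
  exact term_abs_le e n m x

/-- The function. -/
def φ (e : ℕ) (x : T e) : ℝ := ∑' n, term e n 1 x

lemma continuous_φ (e : ℕ) : Continuous (φ e) := by
  unfold φ
  refine continuous_tsum (fun n => ?_) ((summable_nr e).mul_left (2 * Real.pi * |((1 : ℤ) : ℝ)|))
    (fun n x => term_abs_le e n 1 x)
  unfold term
  have h1 := continuous_ell e n
  have h2 := continuous_cosT
  exact continuous_const.mul ((h2.comp h1).sub (h2.comp (h1.comp (by fun_prop))))

lemma S_eq (e : ℕ) (m : ℤ) : ∀ x, S (a e) (φ e) m x = ∑' n, term e n m x := by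
  have hstep : ∀ (m : ℤ) (x : T e), ∑' n, term e n (m + 1) x
      = ∑' n, term e n m x + φ e (x + m • a e) := by
    intro m x
    unfold φ
    rw [← (summable_term e m x).tsum_add (summable_term e 1 _)]
    congr 1
    ext n
    unfold term
    rw [add_smul, one_smul, add_assoc]
    ring
  induction m using Int.induction_on with
  | zero => intro x; simp [S_zero, term]
  | succ m ih =>
    intro x
    rw [hstep, ← ih, add_comm (m : ℤ) 1, S_add, S_one]
  | pred m ih =>
    intro x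
    have h1 := hstep (-(m : ℤ) - 1) x
    have h2 := S_add (a := a e) (φ := φ e) 1 (-(m : ℤ) - 1) x
    rw [S_one] at h2
    rw [sub_add_cancel] at h1
    rw [show (1 : ℤ) + (-(m : ℤ) - 1) = -(m : ℤ) by ring, ih] at h2
    linarith

lemma term_zero (e n : ℕ) (m : ℤ) :
    term e n m 0 = n * (1 - Real.cos (2 * Real.pi * (m * β e ^ n))) := by
  unfold term
  have h0 : ell e n (0 : T e) = ((0 : ℝ) : UnitAddCircle) := by
    unfold ell
    simp
  rw [zero_add, h0, ell_zsmul, cosT_coe, cosT_coe]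
  simp

lemma term_zero_nonneg (e n : ℕ) (m : ℤ) : 0 ≤ term e n m 0 := by
  rw [term_zero]
  have := Real.cos_le_one (2 * Real.pi * (m * β e ^ n))
  have h0 : (0 : ℝ) ≤ n := Nat.cast_nonneg n
  nlinarith

/-- the gain -/
def κ (e : ℕ) : ℝ := 1 - Real.cos (Real.pi * β e)

lemma κ_pos (e : ℕ) : 0 < κ e := by
  unfold κ
  have h1 := β_pos e
  have h2 := β_lt_one e
  have hpi := Real.pi_pos
  have : Real.cos (Real.pi * β e) < Real.cos 0 := by
    apply Real.cos_lt_cos_of_nonneg_of_le_pi le_rfl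
    · nlinarith
    · positivity
  rw [Real.cos_zero] at this
  linarith

lemma exists_good (e : ℕ) (m : ℤ) (hm : m ≠ 0) : ∃ N : ℕ, |(m : ℝ)| * β e ^ N ≤ 1 / 2 ∧
    (N : ℝ) * κ e ≤ S (a e) (φ e) m 0 := by
  have hm1 : (1 : ℝ) ≤ |(m : ℝ)| := by
    have := Int.one_le_abs hm
    exact_mod_cast this
  have hβ0 := β_pos e
  have hβ1 := β_lt_one e
  have hex : ∃ N : ℕ, |(m : ℝ)| * β e ^ N ≤ 1 / 2 := by
    have h := (tendsto_pow_atTop_nhds_zero_of_lt_one hβ0.le hβ1).const_mul |(m : ℝ)|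
    rw [mul_zero] at h
    have := h.eventually (ge_mem_nhds (show (0 : ℝ) < 1 / 2 by norm_num))
    exact this.exists
  classical
  set N := Nat.find hex with hN
  have h1 : |(m : ℝ)| * β e ^ N ≤ 1 / 2 := Nat.find_spec hex
  have h2 : β e / 2 ≤ |(m : ℝ)| * β e ^ N := by
    have hN0 : N ≠ 0 := by
      intro h0
      rw [h0] at h1
      norm_num at h1
      linarith
    obtain ⟨k, hk⟩ := Nat.exists_eq_succ_of_ne_zero hN0
    have h3 := Nat.find_min hex (m := k) (by omega)
    push Not at h3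
    rw [hk, pow_succ]
    nlinarith
  refine ⟨N, h1, ?_⟩
  have hcos : Real.cos (2 * Real.pi * (m * β e ^ N)) ≤ Real.cos (Real.pi * β e) := by
    rw [← Real.cos_abs, abs_mul, abs_of_pos Real.two_pi_pos, abs_mul,
      abs_of_pos (pow_pos hβ0 N)]
    have hpi := Real.pi_pos
    apply Real.cos_le_cos_of_nonneg_of_le_pi
    · positivity
    · nlinarith
    · nlinarith
  rw [S_eq]
  calc (N : ℝ) * κ e ≤ term e N m 0 := by
        rw [term_zero]
        have h0 : (0 : ℝ) ≤ N := Nat.cast_nonneg N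
        unfold κ
        nlinarith
    _ ≤ ∑' n, term e n m 0 := (summable_term e m 0).le_tsum N (fun n _ => term_zero_nonneg e n m)

lemma tendsto_S (e : ℕ) : Tendsto (fun m : ℤ => S (a e) (φ e) m 0) cofinite atTop := by
  rw [tendsto_atTop]
  intro K
  rw [eventually_cofinite]
  have hκ := κ_pos e
  set L : ℕ := ⌈K / κ e⌉₊ with hL
  set B : ℤ := ⌈((β e)⁻¹) ^ L⌉ with hB
  apply (Set.finite_Icc (-B) B).subset
  intro m hm
  rw [mem_Icc, ← abs_le]
  by_cases hm0 : m = 0
  · rw [hm0, abs_zero]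
    apply Int.ceil_nonneg
    have := β_pos e
    positivity
  obtain ⟨N, h1, h2⟩ := exists_good e m hm0
  have hm' : ¬ K ≤ S (a e) (φ e) m 0 := hm
  have hNK : (N : ℝ) < K / κ e := by
    rw [lt_div_iff₀ hκ]
    linarith [not_le.1 hm']
  have hNL : N ≤ L := by
    have : (N : ℝ) ≤ L := hNK.le.trans (Nat.le_ceil _)
    exact_mod_cast this
  have hr := β_pos e
  have h3 : |(m : ℝ)| ≤ ((β e)⁻¹) ^ N := by
    rw [inv_pow, ← one_div, le_div_iff₀ (pow_pos hr N)]
    linarith
  have h4 : ((β e)⁻¹) ^ N ≤ ((β e)⁻¹) ^ L :=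
    pow_le_pow_right₀ ((one_le_inv₀ hr).2 (β_lt_one e).le) hNL
  have h5 : ((|m| : ℤ) : ℝ) ≤ B := by
    push_cast
    exact (h3.trans h4).trans (Int.le_ceil _)
  exact_mod_cast h5

/-! ### Smoothness -/

lemma norm_sin_comp {F : Type*} [NormedAddCommGroup F] [NormedSpace ℝ F] (L : F →L[ℝ] ℝ) (b : ℝ)
    (k : ℕ) (x : F) : ‖iteratedFDeriv ℝ k (fun y => Real.sin (L y + b)) x‖ ≤ ‖L‖ ^ k := by
  have h1 : (fun y => Real.sin (L y + b)) = (fun t : ℝ => Real.sin (t + b)) ∘ L := rfl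
  have hcd : ContDiff ℝ k (fun t : ℝ => Real.sin (t + b)) := by fun_prop
  rw [h1, L.iteratedFDeriv_comp_right hcd x le_rfl]
  refine (ContinuousMultilinearMap.norm_compContinuousLinearMap_le _ _).trans ?_
  rw [Finset.prod_const, Finset.card_univ, Fintype.card_fin]
  have h2 : ‖iteratedFDeriv ℝ k (fun t : ℝ => Real.sin (t + b)) (L x)‖ ≤ 1 := by
    have h3 := iteratedFDeriv_comp_add_right (𝕜 := ℝ) (f := Real.sin) k b (L x)
    rw [h3, norm_iteratedFDeriv_eq_norm_iteratedDeriv]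
    exact Real.abs_iteratedDeriv_sin_le_one k _
  calc _ ≤ 1 * ‖L‖ ^ k := by gcongr
    _ = _ := one_mul _

lemma term_coe (e n : ℕ) (p : Fin (e + 1) → ℝ) :
    term e n 1 (fun i => (p i : UnitAddCircle)) =
      (2 * n * Real.sin (Real.pi * β e ^ n)) *
        Real.sin (((2 * Real.pi) • Lf e n) p + Real.pi * β e ^ n) := by
  unfold term
  rw [ell_add, ell_zsmul, ell_coe, ← AddCircle.coe_add, cosT_coe, cosT_coe, Real.cos_sub_cos]
  rw [smul_apply, smul_eq_mul]
  have e1 : (2 * Real.pi * (Lf e n) p + 2 * Real.pi * ((Lf e n) p + ((1 : ℤ) : ℝ) * β e ^ n)) / 2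
      = 2 * Real.pi * (Lf e n) p + Real.pi * β e ^ n := by push_cast; ring
  have e2 : (2 * Real.pi * (Lf e n) p - 2 * Real.pi * ((Lf e n) p + ((1 : ℤ) : ℝ) * β e ^ n)) / 2
      = -(Real.pi * β e ^ n) := by push_cast; ring
  rw [e1, e2, Real.sin_neg]
  ring

lemma norm_Lf_le (e n : ℕ) : ‖(2 * Real.pi) • Lf e n‖ ≤
    (2 * Real.pi * ((e + 1) * 4 ^ (e + 1))) * 4 ^ n := by
  rw [norm_smul, Real.norm_eq_abs, abs_of_pos Real.two_pi_pos, mul_assoc (2 * Real.pi)]
  apply mul_le_mul_of_nonneg_left _ Real.two_pi_pos.le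
  unfold Lf
  refine (norm_sum_le _ _).trans ?_
  have h : ∀ i ∈ (Finset.univ : Finset (Fin (e + 1))),
      ‖(c e n i.succ : ℝ) • (ContinuousLinearMap.proj i : (Fin (e + 1) → ℝ) →L[ℝ] ℝ)‖
        ≤ 4 ^ (e + 1) * 4 ^ n := by
    intro i _
    rw [norm_smul]
    have h1 : ‖(ContinuousLinearMap.proj i : (Fin (e + 1) → ℝ) →L[ℝ] ℝ)‖ ≤ 1 := by
      apply ContinuousLinearMap.opNorm_le_bound _ zero_le_one
      intro x
      rw [one_mul]
      exact norm_le_pi_norm x i
    have h2 : ‖(c e n i.succ : ℝ)‖ ≤ 4 ^ (e + 1) * 4 ^ n := by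
      have h3 := (c_bound e n).2 i
      have h4 : |c e n i.succ| ≤ 4 ^ (n + e + 1) := by
        have h5 : (1 : ℤ) ≤ 2 * 4 ^ (i : ℕ) := by
          have : (1 : ℤ) ≤ 4 ^ (i : ℕ) := one_le_pow₀ (by norm_num)
          linarith
        nlinarith [abs_nonneg (c e n i.succ)]
      rw [Real.norm_eq_abs]
      have h6 : ((|c e n i.succ| : ℤ) : ℝ) ≤ ((4 ^ (n + e + 1) : ℤ) : ℝ) := by exact_mod_cast h4
      push_cast at h6
      calc |(c e n i.succ : ℝ)| ≤ 4 ^ (n + e + 1) := h6
        _ = 4 ^ (e + 1) * 4 ^ n := by ring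
    calc _ ≤ (4 ^ (e + 1) * 4 ^ n) * (1 : ℝ) := mul_le_mul h2 h1 (norm_nonneg _) (by positivity)
      _ = _ := mul_one _
  refine (Finset.sum_le_sum h).trans ?_
  rw [Finset.sum_const, Finset.card_univ, Fintype.card_fin, nsmul_eq_mul]
  push_cast
  linarith

theorem contDiff_φ (e : ℕ) : ContDiff ℝ e (fun p : Fin (e + 1) → ℝ =>
    φ e (fun i => (p i : UnitAddCircle))) := by
  have h1 : (fun p : Fin (e + 1) → ℝ => φ e (fun i => (p i : UnitAddCircle))) = fun p => ∑' n,
      (2 * n * Real.sin (Real.pi * β e ^ n)) *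
        Real.sin (((2 * Real.pi) • Lf e n) p + Real.pi * β e ^ n) := by
    funext p
    unfold φ
    exact tsum_congr fun n => term_coe e n p
  rw [h1]
  set K : ℝ := 2 * Real.pi * ((e + 1) * 4 ^ (e + 1)) with hK
  have hK0 : 0 ≤ K := by have := Real.pi_pos; positivity
  have hβ0 := β_pos e
  have key := contDiff_tsum (𝕜 := ℝ) (N := (e : ℕ∞))
    (f := fun (n : ℕ) (p : Fin (e + 1) → ℝ) => (2 * n * Real.sin (Real.pi * β e ^ n)) *
        Real.sin (((2 * Real.pi) • Lf e n) p + Real.pi * β e ^ n))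
    (v := fun k n => (2 * Real.pi * K ^ k) * ((n : ℝ) * (β e * 4 ^ k) ^ n)) ?_ ?_ ?_
  · exact_mod_cast key
  · intro n
    apply ContDiff.mul contDiff_const
    apply Real.contDiff_sin.comp
    exact (ContinuousLinearMap.contDiff _).add contDiff_const
  · intro k hk
    have hk' : k ≤ e := by exact_mod_cast hk
    apply Summable.mul_left
    have hlt : β e * 4 ^ k < 1 := by
      refine lt_of_le_of_lt ?_ (β_mul_lt e)
      apply mul_le_mul_of_nonneg_left _ hβ0.le
      exact pow_le_pow_right₀ (by norm_num) hk'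
    have := summable_pow_mul_geometric_of_norm_lt_one (R := ℝ) 1 (r := β e * 4 ^ k)
      (by rw [Real.norm_eq_abs, abs_of_pos (by positivity)]; exact hlt)
    simpa using this
  · intro k n x hk
    have h2 : (fun p : Fin (e + 1) → ℝ => (2 * n * Real.sin (Real.pi * β e ^ n)) *
        Real.sin (((2 * Real.pi) • Lf e n) p + Real.pi * β e ^ n))
        = (2 * n * Real.sin (Real.pi * β e ^ n)) • (fun p : Fin (e + 1) → ℝ =>
        Real.sin (((2 * Real.pi) • Lf e n) p + Real.pi * β e ^ n)) := by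
      funext p; rfl
    have hcd : ContDiff ℝ k (fun p : Fin (e + 1) → ℝ =>
        Real.sin (((2 * Real.pi) • Lf e n) p + Real.pi * β e ^ n)) := by
      apply Real.contDiff_sin.comp
      exact (ContinuousLinearMap.contDiff _).add contDiff_const
    rw [h2, iteratedFDeriv_const_smul_apply hcd.contDiffAt, norm_smul]
    have h3 := norm_sin_comp ((2 * Real.pi) • Lf e n) (Real.pi * β e ^ n) k x
    have h4 : ‖(2 * n * Real.sin (Real.pi * β e ^ n))‖ ≤ 2 * Real.pi * (n * β e ^ n) := by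
      rw [Real.norm_eq_abs, abs_mul, abs_mul, Nat.abs_ofNat, Nat.abs_cast]
      have h5 : |Real.sin (Real.pi * β e ^ n)| ≤ |Real.pi * β e ^ n| := Real.abs_sin_le_abs
      have h7 : 0 < Real.pi * β e ^ n := by have := Real.pi_pos; positivity
      rw [abs_of_pos h7] at h5
      calc 2 * (n : ℝ) * |Real.sin (Real.pi * β e ^ n)| ≤ 2 * n * (Real.pi * β e ^ n) := by gcongr
        _ = _ := by ring
    have h6 : ‖(2 * Real.pi) • Lf e n‖ ^ k ≤ (K * 4 ^ n) ^ k :=
      pow_le_pow_left₀ (norm_nonneg _) (norm_Lf_le e n) k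
    calc _ ≤ (2 * Real.pi * (n * β e ^ n)) * (K * 4 ^ n) ^ k :=
          mul_le_mul h4 (h3.trans h6) (norm_nonneg _) (by have := Real.pi_pos; positivity)
      _ = _ := by
          rw [mul_pow K, mul_pow (β e), ← pow_mul, ← pow_mul, mul_comm k n]
          ring

/-! ### Density of the rotation orbit (Kronecker; after `Results/MP_b9a716_gt/MooreLSpace`) -/

namespace KronAux

theorem mF_apply {m : ℕ} (k : Fin m → ℤ) (x : UnitAddTorus (Fin m)) :
    UnitAddTorus.mFourier k x = ∏ i, fourier (k i) (x i) := rfl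

theorem mF_nsmul_add {m : ℕ} (k : Fin m → ℤ) (z s : UnitAddTorus (Fin m)) (n : ℕ) :
    UnitAddTorus.mFourier k (n • z + s) =
      (UnitAddTorus.mFourier k z) ^ n * UnitAddTorus.mFourier k s := by
  rw [mF_apply, mF_apply, mF_apply, ← Finset.prod_pow, ← Finset.prod_mul_distrib]
  refine Finset.prod_congr rfl fun i _ => ?_
  simp only [Pi.add_apply, Pi.smul_apply, fourier_apply, smul_add]
  rw [AddCircle.toCircle_add, smul_comm, AddCircle.toCircle_nsmul]
  simp

theorem mF_norm {m : ℕ} (k : Fin m → ℤ) (x : UnitAddTorus (Fin m)) :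
    ‖UnitAddTorus.mFourier k x‖ = 1 := by
  rw [mF_apply, norm_prod]
  refine Finset.prod_eq_one fun i _ => ?_
  rw [fourier_apply]
  exact Circle.norm_coe _

theorem mF_ne_one {m : ℕ} (r : Fin m → ℝ) (hr : ∀ k : Fin m → ℤ, k ≠ 0 → ∀ l : ℤ,
    ∑ i, (k i : ℝ) * r i ≠ l) (k : Fin m → ℤ) (hk : k ≠ 0) :
    UnitAddTorus.mFourier k (fun i => (r i : UnitAddCircle)) ≠ 1 := by
  rw [mF_apply]
  have : ∀ i : Fin m, fourier (k i) ((r i : UnitAddCircle)) =
      Complex.exp (2 * Real.pi * Complex.I * ((k i : ℝ) * r i : ℝ)) := by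
    intro i
    rw [fourier_coe_apply]
    congr 1
    push_cast
    ring
  rw [Finset.prod_congr rfl fun i _ => this i, ← Complex.exp_sum, Ne, Complex.exp_eq_one_iff]
  rintro ⟨l, hl⟩
  apply hr k hk l
  rw [← Finset.mul_sum, ← Complex.ofReal_sum] at hl
  have h2 : (2 * Real.pi * Complex.I : ℂ) ≠ 0 := by
    simp [Real.pi_ne_zero]
  have h3 : ((∑ i, (k i : ℝ) * r i : ℝ) : ℂ) = (l : ℂ) := by
    have : (2 * Real.pi * Complex.I : ℂ) * ((∑ i, (k i : ℝ) * r i : ℝ) : ℂ) =
      (2 * Real.pi * Complex.I : ℂ) * l := by rw [hl]; ring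
    exact mul_left_cancel₀ h2 this
  exact_mod_cast h3

theorem geom_avg (ρ : ℂ) (h1 : ‖ρ‖ = 1) (h2 : ρ ≠ 1) :
    Tendsto (fun N : ℕ => ((N : ℂ))⁻¹ * ∑ n ∈ Finset.range N, ρ ^ n) atTop (𝓝 0) := by
  have hb : ∀ N : ℕ, ‖((N : ℂ))⁻¹ * ∑ n ∈ Finset.range N, ρ ^ n‖ ≤ (2 / ‖ρ - 1‖) * ((N : ℝ))⁻¹ := by
    intro N
    rw [norm_mul, norm_inv, Complex.norm_natCast, geom_sum_eq h2, norm_div, mul_comm]
    apply mul_le_mul_of_nonneg_right _ (by positivity)
    apply div_le_div_of_nonneg_right _ (norm_nonneg _)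
    calc ‖ρ ^ N - 1‖ ≤ ‖ρ ^ N‖ + ‖(1 : ℂ)‖ := norm_sub_le _ _
      _ = 2 := by rw [norm_pow, h1]; norm_num
  refine squeeze_zero_norm hb ?_
  have : Tendsto (fun N : ℕ => ((N : ℝ))⁻¹) atTop (𝓝 0) := tendsto_inv_atTop_nhds_zero_nat
  simpa using this.const_mul (2 / ‖ρ - 1‖)

theorem span_avg {m : ℕ} (z : UnitAddTorus (Fin m))
    (hz : ∀ k : Fin m → ℤ, k ≠ 0 → UnitAddTorus.mFourier k z ≠ 1)
    (q : C(UnitAddTorus (Fin m), ℂ))
    (hq : q ∈ Submodule.span ℂ (Set.range (UnitAddTorus.mFourier (d := Fin m)))) :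
    ∃ c : ℂ, ∀ s : UnitAddTorus (Fin m), Tendsto (fun N : ℕ => ((N : ℂ))⁻¹ *
      ∑ n ∈ Finset.range N, q (n • z + s)) atTop (𝓝 c) := by
  induction hq using Submodule.span_induction with
  | mem x hx =>
    obtain ⟨k, rfl⟩ := hx
    by_cases hk : k = 0
    · subst hk
      refine ⟨1, fun s => ?_⟩
      refine tendsto_const_nhds.congr' ?_
      filter_upwards [eventually_gt_atTop 0] with N hN
      rw [UnitAddTorus.mFourier_zero]
      have : (N : ℂ) ≠ 0 := by exact_mod_cast hN.ne'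
      simp [this]
    · refine ⟨0, fun s => ?_⟩
      have := (geom_avg _ (mF_norm k z) (hz k hk)).mul_const (UnitAddTorus.mFourier k s)
      rw [zero_mul] at this
      refine this.congr fun N => ?_
      rw [mul_assoc, Finset.sum_mul]
      congr 1
      refine Finset.sum_congr rfl fun n _ => ?_
      rw [mF_nsmul_add]
  | zero => exact ⟨0, fun s => by simp⟩
  | add x y _ _ hx hy =>
    obtain ⟨c, hc⟩ := hx
    obtain ⟨d, hd⟩ := hy
    refine ⟨c + d, fun s => ((hc s).add (hd s)).congr fun N => ?_⟩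
    rw [← mul_add, ← Finset.sum_add_distrib]
    rfl
  | smul u x _ hx =>
    obtain ⟨c, hc⟩ := hx
    refine ⟨u * c, fun s => ((hc s).const_mul u).congr fun N => ?_⟩
    simp only [ContinuousMap.smul_apply, smul_eq_mul]
    rw [← Finset.mul_sum]; ring

theorem dense_orbit {m : ℕ} (z : UnitAddTorus (Fin m))
    (hz : ∀ k : Fin m → ℤ, k ≠ 0 → UnitAddTorus.mFourier k z ≠ 1)
    (t : UnitAddTorus (Fin m)) (ε : ℝ) (hε : 0 < ε) : ∃ n : ℕ, dist (n • z) t < ε := by
  by_contra hcon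
  push Not at hcon
  let f : C(UnitAddTorus (Fin m), ℂ) := ⟨fun x => ((max 0 (ε - dist x t) : ℝ) : ℂ), by fun_prop⟩
  have hf : ∀ x, f x = ((max 0 (ε - dist x t) : ℝ) : ℂ) := fun x => rfl
  have hf0 : ∀ n : ℕ, f (n • z) = 0 := by
    intro n
    rw [hf, max_eq_left (by linarith [hcon n])]
    simp
  -- finite cover
  have hopen : ∀ s : UnitAddTorus (Fin m), IsOpen {x | dist (x + s) t < ε} := fun s =>
    isOpen_lt (by fun_prop) continuous_const
  obtain ⟨S, hS⟩ := isCompact_univ.elim_finite_subcover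
    (fun s : UnitAddTorus (Fin m) => {x | dist (x + s) t < ε}) hopen (by
      intro x _
      rw [Set.mem_iUnion]
      refine ⟨t - x, ?_⟩
      simpa using hε)
  have hg : Continuous fun x : UnitAddTorus (Fin m) => ∑ s ∈ S, max 0 (ε - dist (x + s) t) := by
    fun_prop
  obtain ⟨x0, -, hx0⟩ := isCompact_univ.exists_isMinOn (Set.univ_nonempty (α := UnitAddTorus (Fin m)))
    hg.continuousOn
  set c := ∑ s ∈ S, max 0 (ε - dist (x0 + s) t) with hc
  have hcpos : 0 < c := by
    obtain ⟨s, hs⟩ := Set.mem_iUnion.mp (hS (Set.mem_univ x0))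
    obtain ⟨hsS, hs2⟩ := Set.mem_iUnion.mp hs
    refine Finset.sum_pos' (fun _ _ => le_max_left _ _) ⟨s, hsS, ?_⟩
    have : dist (x0 + s) t < ε := hs2
    exact lt_max_of_lt_right (by linarith)
  have hmin : ∀ x, c ≤ ∑ s ∈ S, max 0 (ε - dist (x + s) t) := fun x => hx0 (Set.mem_univ x)
  set η : ℝ := c / (4 * (S.card + 1)) with hη
  have hη0 : 0 < η := by positivity
  have hfcl : f ∈ (Submodule.span ℂ (Set.range (UnitAddTorus.mFourier (d := Fin m)))).topologicalClosure := by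
    rw [UnitAddTorus.span_mFourier_closure_eq_top]; trivial
  obtain ⟨q, hq, hqf⟩ := Metric.mem_closure_iff.mp hfcl η hη0
  rw [dist_eq_norm] at hqf
  have hq2 : ∀ x, ‖f x - q x‖ ≤ η := fun x => ((f - q).norm_coe_le_norm x).trans hqf.le
  obtain ⟨c0, hc0⟩ := span_avg z hz q hq
  have hc0n : ‖c0‖ ≤ η := by
    have h1 := (hc0 0).norm
    refine le_of_tendsto' h1 fun N => ?_
    rw [norm_mul, norm_inv, Complex.norm_natCast]
    have h2 : ‖∑ n ∈ Finset.range N, q (n • z + 0)‖ ≤ N * η := by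
      refine (norm_sum_le _ _).trans ?_
      have : ∀ n ∈ Finset.range N, ‖q (n • z + 0)‖ ≤ η := by
        intro n _
        have := hq2 (n • z)
        rw [hf0, zero_sub, norm_neg] at this
        rwa [add_zero]
      refine (Finset.sum_le_sum this).trans ?_
      simp
    rcases Nat.eq_zero_or_pos N with rfl | hN
    · simpa using hη0.le
    · have hN' : (0 : ℝ) < N := by exact_mod_cast hN
      calc ((N : ℝ))⁻¹ * ‖∑ n ∈ Finset.range N, q (n • z + 0)‖ ≤ ((N : ℝ))⁻¹ * (N * η) :=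
            mul_le_mul_of_nonneg_left h2 (by positivity)
        _ = η := by field_simp
  have hsum : Tendsto (fun N : ℕ => ∑ s ∈ S, (((N : ℂ))⁻¹ * ∑ n ∈ Finset.range N, q (n • z + s)))
      atTop (𝓝 (∑ _s ∈ S, c0)) := tendsto_finsetSum _ fun s _ => hc0 s
  have hre := (Complex.continuous_re.tendsto _).comp hsum
  have hlow : c - S.card * η ≤ (∑ _s ∈ S, c0).re := by
    refine ge_of_tendsto hre ?_
    filter_upwards [eventually_gt_atTop 0] with N hN
    have hN' : (0 : ℝ) < N := by exact_mod_cast hN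
    have e1 : (∑ s ∈ S, (((N : ℂ))⁻¹ * ∑ n ∈ Finset.range N, q (n • z + s))) =
        (((N : ℝ)⁻¹ : ℝ) : ℂ) * ∑ n ∈ Finset.range N, ∑ s ∈ S, q (n • z + s) := by
      rw [← Finset.mul_sum, Finset.sum_comm]; push_cast; rfl
    have e2 : ∀ n ∈ Finset.range N, c - S.card * η ≤ (∑ s ∈ S, q (n • z + s)).re := by
      intro n _
      rw [Complex.re_sum]
      have h3 : ∀ s ∈ S, max 0 (ε - dist (n • z + s) t) - η ≤ (q (n • z + s)).re := by
        intro s _
        have h4 := hq2 (n • z + s)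
        have h5 := (Complex.abs_re_le_norm _).trans h4
        rw [Complex.sub_re, hf, Complex.ofReal_re, abs_le] at h5
        linarith [h5.2]
      have h6 := Finset.sum_le_sum h3
      rw [Finset.sum_sub_distrib] at h6
      have h7 := hmin (n • z)
      simp only [Finset.sum_const, nsmul_eq_mul] at h6
      linarith
    simp only [Function.comp_apply]
    rw [e1, Complex.re_ofReal_mul, Complex.re_sum]
    have h8 := Finset.sum_le_sum e2
    simp only [Finset.sum_const, nsmul_eq_mul, Finset.card_range] at h8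
    have h9 := mul_le_mul_of_nonneg_left h8 (inv_nonneg.mpr hN'.le)
    rwa [← mul_assoc, inv_mul_cancel₀ hN'.ne', one_mul] at h9
  have hup : (∑ _s ∈ S, c0).re ≤ S.card * η := by
    refine (Complex.re_le_norm _).trans ?_
    rw [Finset.sum_const, nsmul_eq_mul, norm_mul, Complex.norm_natCast]
    exact mul_le_mul_of_nonneg_left hc0n (by positivity)
  have h10 : (S.card : ℝ) * η ≤ c / 4 := by
    rw [hη, mul_div_assoc', div_le_div_iff₀ (by positivity) (by norm_num)]
    nlinarith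
  linarith

end KronAux

lemma mF_ne_one (e : ℕ) (k : Fin (e + 1) → ℤ) (hk : k ≠ 0) :
    UnitAddTorus.mFourier k (a e) ≠ 1 :=
  KronAux.mF_ne_one (al e) (fun k hk l => β_indep e k hk l) k hk

lemma dense_nat (e : ℕ) (t : T e) (ε : ℝ) (hε : 0 < ε) : ∃ n : ℕ, dist (n • a e) t < ε :=
  KronAux.dense_orbit (a e) (mF_ne_one e) t ε hε

lemma denseRange (e : ℕ) : DenseRange (fun n : ℤ => n • a e) := by
  intro t
  rw [Metric.mem_closure_iff]
  intro ε hε
  obtain ⟨n, hn⟩ := dense_nat e t ε hε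
  refine ⟨_, ⟨(n : ℤ), rfl⟩, ?_⟩
  rw [dist_comm]
  simpa using hn

lemma exists_return (e : ℕ) (j : ℕ) : ∃ q : ℕ, j ≤ q ∧ ∃ v : Fin (e + 1) → ℝ,
    (∀ i, |v i| ≤ 1 / ((j : ℝ) + 1)) ∧ q • a e = fun i => (v i : UnitAddCircle) := by
  obtain ⟨n, hn⟩ := dense_nat e (-(j • a e)) (1 / ((j : ℝ) + 1)) (by positivity)
  refine ⟨n + j, by omega, ?_⟩
  choose v hv using fun i => exists_rep (((n + j) • a e) i)
  refine ⟨v, fun i => ?_, funext fun i => (hv i).1.symm⟩
  rw [(hv i).2]
  rw [dist_eq_norm, sub_neg_eq_add, ← add_smul] at hn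
  exact (norm_le_pi_norm _ i).trans hn.le

theorem isBesicovitch (e : ℕ) : IsBesicovitch (a e) (φ e) := by
  choose q hq v hv hqv using exists_return e
  have hqt : Tendsto (fun j : ℕ => (q j : ℤ)) atTop atTop := by
    apply tendsto_natCast_atTop_atTop.comp
    exact tendsto_atTop_mono hq tendsto_id
  refine isBesicovitch_of (continuous_φ e) (denseRange e) (tendsto_S e) (fun j => (q j : ℤ))
    (fun j t => fun i => ((-(t * v j i) : ℝ) : UnitAddCircle)) ?_ ?_ ?_ ?_ ?_ ?_
  · exact hqt.mono_right (by simp [Int.cofinite_eq])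
  · exact (tendsto_neg_atTop_atBot.comp hqt).mono_right (by simp [Int.cofinite_eq])
  · intro j
    refine continuous_pi fun i => ?_
    exact (AddCircle.continuous_mk' (1 : ℝ)).comp (by fun_prop)
  · intro j
    funext i
    simp
  · intro j
    rw [natCast_zsmul, hqv]
    funext i
    simp
  · intro t ht
    rw [tendsto_pi_nhds]
    intro i
    have h0 : Tendsto (fun j => -(t j * v j i)) atTop (𝓝 0) := by
      apply squeeze_zero_norm' _ (tendsto_one_div_add_atTop_nhds_zero_nat (𝕜 := ℝ))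
      filter_upwards [ht] with j hj
      rw [norm_neg, norm_mul, Real.norm_eq_abs (t j), abs_of_nonneg hj.1]
      exact (mul_le_of_le_one_left (norm_nonneg _) hj.2).trans (hv j i)
    have h : Tendsto (fun j => ((-(t j * v j i) : ℝ) : UnitAddCircle)) atTop
        (𝓝 ((0 : ℝ) : UnitAddCircle)) :=
      ((AddCircle.continuous_mk' (1 : ℝ)).tendsto 0).comp h0
    exact h

end

end Pool.Agent.V11279.BesV
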