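import Mathlib

set_option autoImplicit false

/-!
# Expansions in powers of a uniformiser
-/

namespace Pool.Agent.V11279.Dyn

open Polynomial IntermediateField Module

section sums

variable {K : Type*} [NormedField K] [IsUltrametricDist K]

/-- If the nonzero terms of a finite sum have distinct norms, each term is bounded by the sum. -/
theorem norm_le_norm_sum {ι : Type*} (s : Finset ι) (f : ι → K)
    (hs : ∀ i ∈ s, ∀ j ∈ s, f i ≠ 0 → f j ≠ 0 → ‖f i‖ = ‖f j‖ → i = j) {i : ι} (hi : i ∈ s) :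
    ‖f i‖ ≤ ‖∑ j ∈ s, f j‖ := by
  classical
  by_cases h0 : f i = 0
  · rw [h0, norm_zero]; exact norm_nonneg _
  have h1 : ∑ j ∈ s, f j = ∑ j ∈ s.filter (fun j => f j ≠ 0), f j := by
    rw [Finset.sum_filter_ne_zero]
  have h2 : ‖∑ j ∈ s.filter (fun j => f j ≠ 0), f j‖₊ =
      (s.filter (fun j => f j ≠ 0)).sup (fun i ↦ ‖f i‖₊) := by
    apply IsUltrametricDist.nnnorm_sum_eq_sup_of_pairwise_ne
    intro a ha b hb hab h
    rw [Finset.mem_coe, Finset.mem_filter] at ha hb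
    exact hab (hs a ha.1 b hb.1 ha.2 hb.2 (congrArg NNReal.toReal h))
  rw [h1, ← coe_nnnorm, ← coe_nnnorm, h2]
  have : i ∈ s.filter (fun j => f j ≠ 0) := by simp [hi, h0]
  exact_mod_cast Finset.le_sup (f := fun i => ‖f i‖₊) this

end sums

/-- The standing assumptions: `2` has norm in `(0,1)` and the nonzero elements of `E` have norm a
power of `‖2‖`. -/
structure HV (E K : Type*) [Field E] [NormedField K] [Algebra E K] : Prop where
  pos : 0 < ‖(2 : K)‖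
  lt : ‖(2 : K)‖ < 1
  val : ∀ c : E, c ≠ 0 → ∃ k : ℤ, ‖algebraMap E K c‖ = ‖(2 : K)‖ ^ k

section expand

variable {E K : Type*} [Field E] [NormedField K] [Algebra E K]

theorem HV.zpow_inj (h : HV E K) {a b : ℤ} (hab : ‖(2 : K)‖ ^ a = ‖(2 : K)‖ ^ b) : a = b :=
  zpow_right_injective₀ h.pos h.lt.ne hab

theorem HV.zpow_le (h : HV E K) {a b : ℤ} : ‖(2 : K)‖ ^ a ≤ ‖(2 : K)‖ ^ b ↔ b ≤ a :=
  zpow_le_zpow_iff_right_of_lt_one₀ h.pos h.lt

theorem HV.pow_term (h : HV E K) {d : ℕ} {w : K} (hw : ‖w‖ ^ d = ‖(2 : K)‖) (i : ℕ) {c : E}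
    {k : ℤ} (hk : ‖algebraMap E K c‖ = ‖(2 : K)‖ ^ k) :
    ‖algebraMap E K c * w ^ i‖ ^ d = ‖(2 : K)‖ ^ (k * d + i) := by
  rw [norm_mul, norm_pow, mul_pow, hk, ← pow_mul, mul_comm i d, pow_mul, hw,
      zpow_add₀ h.pos.ne', zpow_mul, zpow_natCast, zpow_natCast]

theorem HV.w_ne (h : HV E K) {d : ℕ} {w : K} (hw : ‖w‖ ^ d = ‖(2 : K)‖) : w ≠ 0 ∧ d ≠ 0 := by
  have hd : d ≠ 0 := by
    rintro rfl
    rw [pow_zero] at hw
    exact h.lt.ne hw.symm
  refine ⟨?_, hd⟩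
  rintro rfl
  rw [norm_zero, zero_pow hd] at hw
  exact h.pos.ne hw

/-- Norms of `c w^i`, `i < d`, are distinct when `‖w‖^d = ‖2‖`. -/
theorem HV.norm_inj (h : HV E K) {d : ℕ} {w : K} (hw : ‖w‖ ^ d = ‖(2 : K)‖) {i j : ℕ}
    (hi : i < d) (hj : j < d) {c c' : E} (hc : c ≠ 0) (hc' : c' ≠ 0)
    (he : ‖algebraMap E K c * w ^ i‖ = ‖algebraMap E K c' * w ^ j‖) : i = j := by
  obtain ⟨k, hk⟩ := h.val c hc
  obtain ⟨l, hl⟩ := h.val c' hc'
  have h1 := h.pow_term hw i hk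
  rw [he, h.pow_term hw j hl] at h1
  have h3 := h.zpow_inj h1
  have h4 : ((l * d + j) % d : ℤ) = ((k * d + i) % d : ℤ) := by rw [h3]
  rw [add_comm (l * (d : ℤ)), add_comm (k * (d : ℤ)), Int.add_mul_emod_self_right,
    Int.add_mul_emod_self_right] at h4
  have h5 : j % d = i % d := by exact_mod_cast h4
  rw [Nat.mod_eq_of_lt hi, Nat.mod_eq_of_lt hj] at h5
  exact h5.symm

variable [IsUltrametricDist K]

/-- each term is bounded by the sum. -/
theorem HV.term_le (h : HV E K) {d : ℕ} {w : K} (hw : ‖w‖ ^ d = ‖(2 : K)‖) (c : Fin d → E)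
    (i : Fin d) :
    ‖algebraMap E K (c i) * w ^ (i : ℕ)‖ ≤ ‖∑ j : Fin d, algebraMap E K (c j) * w ^ (j : ℕ)‖ := by
  apply norm_le_norm_sum Finset.univ (fun j : Fin d => algebraMap E K (c j) * w ^ (j : ℕ)) _
    (Finset.mem_univ i)
  intro a _ b _ ha hb hab
  have ha' : c a ≠ 0 := by rintro h0; simp [h0] at ha
  have hb' : c b ≠ 0 := by rintro h0; simp [h0] at hb
  exact Fin.ext (h.norm_inj hw a.2 b.2 ha' hb' hab)

theorem HV.linearIndependent (h : HV E K) {d : ℕ} {w : K} (hw : ‖w‖ ^ d = ‖(2 : K)‖) :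
    LinearIndependent E (fun i : Fin d => w ^ (i : ℕ)) := by
  rw [Fintype.linearIndependent_iff]
  intro c hc i
  have h1 := h.term_le hw c i
  simp only [Algebra.smul_def] at hc
  rw [hc, norm_zero] at h1
  have h2 := norm_le_zero_iff.1 h1
  rcases mul_eq_zero.1 h2 with h3 | h3
  · exact (map_eq_zero (algebraMap E K)).1 h3
  · exact absurd h3 (pow_ne_zero _ (h.w_ne hw).1)

/-- The degree is at least the ramification index. -/
theorem HV.le_finrank (h : HV E K) {d : ℕ} {w : K} (hw : ‖w‖ ^ d = ‖(2 : K)‖)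
    (F : IntermediateField E K) [FiniteDimensional E F] (hwF : w ∈ F) : d ≤ finrank E F := by
  have h1 : LinearIndependent E (fun i : Fin d => (⟨w, hwF⟩ : F) ^ (i : ℕ)) := by
    apply LinearIndependent.of_comp F.val.toLinearMap
    have h2 := h.linearIndependent hw
    have h3 : (F.val.toLinearMap ∘ fun i : Fin d => (⟨w, hwF⟩ : F) ^ (i : ℕ)) =
        (fun i : Fin d => w ^ (i : ℕ)) := by
      funext i
      simp
    rw [h3]
    exact h2
  have h4 := h1.fintype_card_le_finrank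
  simpa using h4

/-- Expansion in powers of the uniformiser. -/
theorem HV.expand (h : HV E K) {w : K} (F : IntermediateField E K) [FiniteDimensional E F]
    (hw : ‖w‖ ^ finrank E F = ‖(2 : K)‖) (hwF : w ∈ F) {x : K} (hx : x ∈ F) :
    ∃ c : Fin (finrank E F) → E, x = ∑ j, algebraMap E K (c j) * w ^ (j : ℕ) := by
  have h1 : LinearIndependent E (fun i : Fin (finrank E F) => (⟨w, hwF⟩ : F) ^ (i : ℕ)) := by
    apply LinearIndependent.of_comp F.val.toLinearMap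
    have h2 := h.linearIndependent hw
    have h3 : (F.val.toLinearMap ∘ fun i : Fin (finrank E F) => (⟨w, hwF⟩ : F) ^ (i : ℕ)) =
        (fun i : Fin (finrank E F) => w ^ (i : ℕ)) := by
      funext i
      simp
    rw [h3]
    exact h2
  have : Nonempty (Fin (finrank E F)) := ⟨⟨0, Nat.pos_of_ne_zero (h.w_ne hw).2⟩⟩
  let b := basisOfLinearIndependentOfCardEqFinrank h1 (by simp)
  refine ⟨fun j => b.repr ⟨x, hx⟩ j, ?_⟩
  have h2 := b.sum_repr ⟨x, hx⟩
  have h3 := congrArg (fun y : F => (y : K)) h2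
  have h4 : (fun y : F => (y : K)) (∑ i, b.repr ⟨x, hx⟩ i • b i) =
      ∑ j, algebraMap E K (b.repr ⟨x, hx⟩ j) * w ^ (j : ℕ) := by
    simp [b, Algebra.smul_def]
  exact h3.symm.trans h4

/-- The value group of `F` is generated by `‖w‖`. -/
theorem HV.value (h : HV E K) {w : K} (F : IntermediateField E K) [FiniteDimensional E F]
    (hw : ‖w‖ ^ finrank E F = ‖(2 : K)‖) (hwF : w ∈ F) {x : K} (hx : x ∈ F) (hx0 : x ≠ 0) :
    ∃ k : ℤ, ‖x‖ = ‖w‖ ^ k := by
  obtain ⟨c, hc⟩ := h.expand F hw hwF hx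
  have : Nonempty (Fin (finrank E F)) := ⟨⟨0, Nat.pos_of_ne_zero (h.w_ne hw).2⟩⟩
  obtain ⟨i, hi⟩ := IsUltrametricDist.exists_norm_finsetSum_le (Finset.univ)
    (fun j : Fin (finrank E F) => algebraMap E K (c j) * w ^ (j : ℕ))
  rw [← hc] at hi
  have h2 := h.term_le hw c i
  rw [← hc] at h2
  have h3 : ‖x‖ = ‖algebraMap E K (c i) * w ^ (i : ℕ)‖ := le_antisymm hi.2 h2
  have h4 : c i ≠ 0 := by
    intro h5
    rw [h5] at h3
    simp [hx0] at h3
  obtain ⟨k, hk⟩ := h.val _ h4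
  refine ⟨finrank E F * k + i, ?_⟩
  rw [h3, norm_mul, norm_pow, hk, zpow_add₀ (norm_ne_zero_iff.2 (h.w_ne hw).1), zpow_mul,
    zpow_natCast, hw, zpow_natCast]

/-- Integral elements have integral coefficients. -/
theorem HV.coeff_le (h : HV E K) {d : ℕ} {w : K} (hw : ‖w‖ ^ d = ‖(2 : K)‖) (c : Fin d → E)
    (hx : ‖∑ j : Fin d, algebraMap E K (c j) * w ^ (j : ℕ)‖ ≤ 1) (i : Fin d) :
    ‖algebraMap E K (c i)‖ ≤ 1 := by
  by_cases h0 : c i = 0
  · simp [h0]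
  obtain ⟨k, hk⟩ := h.val _ h0
  have h1 := (h.term_le hw c i).trans hx
  have h2 : ‖algebraMap E K (c i) * w ^ (i : ℕ)‖ ^ d ≤ 1 := pow_le_one₀ (norm_nonneg _) h1
  rw [h.pow_term hw i hk, ← zpow_zero ‖(2 : K)‖, h.zpow_le] at h2
  have h3 : (0 : ℤ) ≤ k := by
    by_contra h4
    push Not at h4
    have h5 : (i : ℕ) < d := i.2
    have h6 : ((i : ℕ) : ℤ) < d := by exact_mod_cast h5
    nlinarith
  rw [hk, ← zpow_zero ‖(2 : K)‖, h.zpow_le]
  exact h3

end expand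

end Pool.Agent.V11279.Dyn
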