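import Pool.Agent.V11279.Dyn9

set_option autoImplicit false
set_option linter.unusedSectionVars false

/-!
# Back to `ℚ`
-/

namespace Pool.Agent.V11279.Dyn

open Polynomial IntermediateField Module

/-- `f^m(x) - 1`. -/
noncomputable def Pol (m : ℕ) : ℚ[X] := iter ℚ m - 1

theorem Pol_natDegree (m : ℕ) : (Pol m).natDegree = 2 ^ m := by
  unfold Pol
  rw [natDegree_sub_eq_left_of_natDegree_lt, (iter_natDegree_monic ℚ m).1]
  rw [(iter_natDegree_monic ℚ m).1, natDegree_one]
  positivity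

theorem Pol_monic (m : ℕ) : (Pol m).Monic := by
  apply (iter_natDegree_monic ℚ m).2.sub_of_left
  rw [degree_one]
  apply natDegree_pos_iff_degree_pos.1
  rw [(iter_natDegree_monic ℚ m).1]
  positivity

section gen

variable {L : Type*} [Field L] [Algebra ℚ L]

theorem aeval_Pol {m : ℕ} {x : L} : aeval x (Pol m) = 0 ↔ x ∈ tree L m := by
  unfold Pol
  rw [map_sub, map_one, aeval_def, ← eval_map, iter_map, sub_eq_zero]
  rfl

theorem mem_rootSet_Pol {m : ℕ} {x : L} : x ∈ (Pol m).rootSet L ↔ x ∈ tree L m := by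
  rw [mem_rootSet, aeval_Pol]
  exact ⟨fun h => h.2, fun h => ⟨(Pol_monic m).ne_zero, h⟩⟩

end gen

theorem exists_tree {Ω : Type*} [Field Ω] [IsAlgClosed Ω] (m : ℕ) : ∃ x : Ω, x ∈ tree Ω m := by
  induction m with
  | zero => exact ⟨1, mem_tree_zero.2 rfl⟩
  | succ m ih =>
    obtain ⟨x, hx⟩ := ih
    obtain ⟨b, hb⟩ := IsAlgClosed.exists_pow_nat_eq (1 + x) (n := 2) (by norm_num)
    refine ⟨b, ?_⟩
    rw [mem_tree_succ, hb]
    simpa using hx

theorem Pol_irreducible (m : ℕ) : Irreducible (Pol m) := by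
  obtain ⟨x, hx⟩ := exists_tree (Ω := Om) m
  have hfin : FiniteDimensional EE (adjoin EE (tree Om m)) := (EE_base.good_tree m).1
  obtain ⟨w, hw⟩ := EE_base.tr m
  let x' : adjoin EE (tree Om m) := ⟨x, subset_adjoin _ _ hx⟩
  have hx' : x' ∈ tree (adjoin EE (tree Om m)) m := (mem_tree_sub _).2 hx
  have h1 := hw.toHV.tree_minpoly hx'
  have h2 : minpoly EE x = minpoly EE x' :=
    minpoly.algHom_eq (adjoin EE (tree Om m)).val (adjoin EE (tree Om m)).val.injective x'
  have hint : IsIntegral ℚ x := by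
    refine ⟨Pol m, Pol_monic m, ?_⟩
    exact aeval_Pol.2 hx
  have h3 : minpoly EE x ∣ (minpoly ℚ x).map (algebraMap ℚ EE) := by
    apply minpoly.dvd
    rw [aeval_map_algebraMap, minpoly.aeval]
  have h4 : minpoly ℚ x = Pol m := by
    symm
    apply Polynomial.eq_of_monic_of_dvd_of_natDegree_le (minpoly.monic hint) (Pol_monic m)
      (minpoly.dvd ℚ x (aeval_Pol.2 hx))
    rw [Pol_natDegree]
    have h5 := natDegree_le_of_dvd h3 ((minpoly.monic hint).map _).ne_zero
    rw [natDegree_map, h2, h1, natDegree_sub_eq_left_of_natDegree_lt,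
      (iter_natDegree_monic EE m).1] at h5
    · exact h5
    · rw [(iter_natDegree_monic EE m).1, natDegree_one]
      positivity
  rw [← h4]
  exact minpoly.irreducible hint

section gen2

variable {L : Type*} [Field L] [Algebra ℚ L]

theorem minpoly_tree {m : ℕ} {x : L} (hx : x ∈ tree L m) : minpoly ℚ x = Pol m :=
  (minpoly.eq_of_irreducible_of_monic (Pol_irreducible m) (aeval_Pol.2 hx) (Pol_monic m)).symm

theorem map_mem_adjoin (m : ℕ) [IsSplittingField ℚ L (Pol m)] (φ : L →ₐ[ℚ] Om) (y : L) :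
    φ y ∈ adjoin EE (tree Om m) := by
  have h1 : y ∈ Algebra.adjoin ℚ ((Pol m).rootSet L) := by
    rw [IsSplittingField.adjoin_rootSet]; trivial
  induction h1 using Algebra.adjoin_induction with
  | mem x hx =>
    apply subset_adjoin
    exact tree_map (φ : L →+* Om) (mem_rootSet_Pol.1 hx)
  | algebraMap r =>
    rw [AlgHom.commutes]
    have : algebraMap ℚ Om r = algebraMap EE Om (algebraMap ℚ EE r) := by
      simp
    rw [this]
    exact IntermediateField.algebraMap_mem _ _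
  | add x y _ _ ihx ihy => rw [map_add]; exact add_mem ihx ihy
  | mul x y _ _ ihx ihy => rw [map_mul]; exact mul_mem ihx ihy

theorem exists_emb (m : ℕ) [IsSplittingField ℚ L (Pol m)] : Nonempty (L →ₐ[ℚ] Om) := by
  have : FiniteDimensional ℚ L := IsSplittingField.finiteDimensional L (Pol m)
  exact ⟨IsAlgClosed.lift⟩

/-- (A) over `ℚ`. -/
theorem globalA (m : ℕ) [IsSplittingField ℚ L (Pol m)] {x : L} (hx : x ∈ tree L m) (b : L) :
    b ^ 2 ≠ 1 + x := by
  intro hb
  obtain ⟨φ⟩ := exists_emb (L := L) m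
  have h1 : φ x ∈ tree Om m := tree_map (φ : L →+* Om) hx
  apply (EE_base.aux m).1 (φ x) h1 (φ b) _ (map_mem_adjoin m φ b)
  rw [← map_pow, hb, map_add, map_one]

/-- (B) over `ℚ`, sibling case. -/
theorem globalB (n : ℕ) (hn : Odd n) [IsSplittingField ℚ L (Pol (n + 1))] {x : L}
    (hx : x ∈ tree L n) (b : L) : b ^ 2 ≠ -x := by
  intro hb
  obtain ⟨φ⟩ := exists_emb (L := L) (n + 1)
  have h1 : φ x ∈ tree Om n := tree_map (φ : L →+* Om) hx
  apply (EE_base.aux n).2 hn (φ x) h1 (φ b) _ (map_mem_adjoin (n + 1) φ b)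
  rw [← map_pow, hb, map_neg]

end gen2

section real

theorem real_tree (m : ℕ) : ∃ r : ℝ, 1 ≤ r ∧ r ∈ tree ℝ m ∧
    ∀ x ∈ tree ℝ m, x = r ∨ (x = -r ∧ 1 < r) := by
  induction m with
  | zero => exact ⟨1, le_rfl, mem_tree_zero.2 rfl, fun x hx => Or.inl (mem_tree_zero.1 hx)⟩
  | succ m ih =>
    obtain ⟨r, hr, hrt, hall⟩ := ih
    have h0 : (0 : ℝ) ≤ 1 + r := by linarith
    have h1 : 1 < Real.sqrt (1 + r) := by
      rw [Real.lt_sqrt (by norm_num)]
      linarith
    refine ⟨Real.sqrt (1 + r), h1.le, ?_, ?_⟩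
    · rw [mem_tree_succ, Real.sq_sqrt h0]
      simpa using hrt
    · intro x hx
      rw [mem_tree_succ] at hx
      rcases hall _ hx with h2 | ⟨h2, h3⟩
      · have h4 : x ^ 2 = (Real.sqrt (1 + r)) ^ 2 := by rw [Real.sq_sqrt h0]; linarith
        rcases sq_eq_sq_iff_eq_or_eq_neg.1 h4 with h5 | h5
        · exact Or.inl h5
        · exact Or.inr ⟨h5, h1⟩
      · nlinarith [sq_nonneg x]

theorem complex_tree (m : ℕ) : ∃ r : ℂ, r ∈ tree ℂ m ∧ (starRingEnd ℂ) r = r ∧
    ∀ x ∈ tree ℂ m, (starRingEnd ℂ) x = x → x = r ∨ x = -r := by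
  obtain ⟨r, hr, hrt, hall⟩ := real_tree m
  refine ⟨(r : ℂ), ?_, Complex.conj_ofReal r, ?_⟩
  · exact tree_map Complex.ofRealHom hrt
  · intro x hx hxc
    obtain ⟨a, rfl⟩ := Complex.conj_eq_iff_real.1 hxc
    have h1 : a ∈ tree ℝ m := by
      have h2 : (iter ℂ m).eval (Complex.ofRealHom a) = 1 := hx
      rw [← iter_map Complex.ofRealHom, eval_map_apply] at h2
      apply Complex.ofRealHom.injective
      rw [h2, map_one]
    rcases hall a h1 with h2 | ⟨h2, _⟩
    · left; rw [h2]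
    · right; rw [h2]; push_cast; rfl

end real

section gen3

variable {L : Type} [Field L] [Algebra ℚ L]

/-- complex conjugation on `L`. -/
theorem exists_conj (m : ℕ) [IsSplittingField ℚ L (Pol m)] : ∃ (c : L ≃ₐ[ℚ] L) (r : L),
    r ∈ tree L m ∧ c r = r ∧ (∀ x, c (c x) = x) ∧
    ∀ x ∈ tree L m, c x = x → x = r ∨ x = -r := by
  have hfin : FiniteDimensional ℚ L := IsSplittingField.finiteDimensional L (Pol m)
  have hnormal : Normal ℚ L := Normal.of_isSplittingField (Pol m)
  let ψ : L →ₐ[ℚ] ℂ := IsAlgClosed.lift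
  let conj : ℂ ≃ₐ[ℚ] ℂ := Complex.conjAe.restrictScalars ℚ
  algebraize [ψ.toRingHom]
  have : IsScalarTower ℚ L ℂ := IsScalarTower.of_algebraMap_eq' (by ext; simp)
  have hc : ∀ x : L, ψ (conj.restrictNormal L x) = (starRingEnd ℂ) (ψ x) := fun x =>
    conj.restrictNormal_commutes L x
  obtain ⟨r, hr, hrc, hall⟩ := complex_tree m
  have hr1 : r ∈ (algebraMap L ℂ).range := by
    have h1 : ((Pol m).map (algebraMap ℚ L)).Splits := IsSplittingField.splits L (Pol m)
    apply h1.mem_range_of_isRoot ((Pol_monic m).map _).ne_zero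
    rw [Polynomial.map_map, ← IsScalarTower.algebraMap_eq, IsRoot, eval_map_algebraMap]
    exact aeval_Pol.2 hr
  obtain ⟨r', hr'⟩ := hr1
  have hr2 : ψ r' = r := hr'
  refine ⟨conj.restrictNormal L, r', ?_, ?_, ?_, ?_⟩
  · have h2 : (iter ℂ m).eval ((ψ : L →+* ℂ) r') = 1 := by
      rw [AlgHom.coe_toRingHom, hr2]; exact hr
    rw [← iter_map (ψ : L →+* ℂ), eval_map_apply] at h2
    apply (ψ : L →+* ℂ).injective
    rw [h2, map_one]
  · have h2 : ψ (conj.restrictNormal L r') = ψ r' := by rw [hc, hr2, hrc]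
    exact ψ.injective h2
  · intro x
    have h2 : ψ (conj.restrictNormal L (conj.restrictNormal L x)) = ψ x := by
      rw [hc, hc, Complex.conj_conj]
    exact ψ.injective h2
  · intro x hx hcx
    have h1 := hall (ψ x) (tree_map (ψ : L →+* ℂ) hx) (by rw [← hc, hcx])
    rw [← hr2, ← map_neg] at h1
    rcases h1 with h1 | h1
    · exact Or.inl (ψ.injective h1)
    · exact Or.inr (ψ.injective h1)

end gen3

end Pool.Agent.V11279.Dyn
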