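import Pool.Agent.V11279.Dyn10

set_option autoImplicit false
set_option linter.unusedSectionVars false

/-!
# Pairwise independence over `ℚ`
-/

namespace Pool.Agent.V11279.Dyn

open Polynomial IntermediateField Module

theorem exists_other_fixed {α : Type*} [Fintype α] [DecidableEq α] (f : α → α)
    (hf : ∀ a, f (f a) = a) (heven : 2 ∣ Fintype.card α) {r : α} (hr : f r = r) :
    ∃ s, f s = s ∧ s ≠ r := by
  let F : Function.End α := f
  have h1 : F ^ 2 ^ 1 = 1 := by
    funext a
    exact hf a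
  have : Fact (Nat.Prime 2) := ⟨Nat.prime_two⟩
  have h2 := Equiv.Perm.card_fixedPoints_modEq h1
  by_contra hcon
  push Not at hcon
  have h3 : Fintype.card (Function.fixedPoints f) = 1 := by
    rw [Fintype.card_eq_one_iff]
    refine ⟨⟨r, hr⟩, ?_⟩
    rintro ⟨s, hs⟩
    exact Subtype.ext (hcon s hs)
  have h4 : Fintype.card α % 2 = Fintype.card (Function.fixedPoints f) % 2 := by
    exact h2
  rw [h3] at h4
  omega

section glob

variable {L : Type} [Field L] [Algebra ℚ L]

theorem tree_trans_Q (m : ℕ) [IsSplittingField ℚ L (Pol m)] {x y : L} (hx : x ∈ tree L m)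
    (hy : y ∈ tree L m) : ∃ g : L ≃ₐ[ℚ] L, g x = y := by
  have hfin : FiniteDimensional ℚ L := IsSplittingField.finiteDimensional L (Pol m)
  have hnormal : Normal ℚ L := Normal.of_isSplittingField (Pol m)
  apply minpoly.exists_algEquiv_of_root' (Algebra.IsAlgebraic.isAlgebraic x)
  rw [minpoly_tree hx, aeval_Pol]
  exact hy

theorem globalC (n : ℕ) (hn : Odd n) [IsSplittingField ℚ L (Pol (n + 1))] {x y : L}
    (hx : x ∈ tree L (n + 1)) (hy : y ∈ tree L (n + 1)) (hxy : x ≠ y) :
    ¬ IsSquare ((1 + x) * (1 + y)) := by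
  classical
  intro hsq
  obtain ⟨c, r, hr, hcr, hcc, hcfix⟩ := exists_conj (L := L) (n + 1)
  let T : Finset L := ((Pol (n + 1)).rootSet L).toFinset
  have hT : ∀ t, t ∈ T ↔ t ∈ tree L (n + 1) := by
    intro t
    rw [Set.mem_toFinset, mem_rootSet_Pol]
  have hne : ∀ t ∈ T, 1 + t ≠ 0 := by
    intro t ht h0
    apply globalA (n + 1) ((hT t).1 ht) 0
    rw [h0]; norm_num
  have hrefl : ∀ t : L, IsSquare ((1 + t) * (1 + t)) := fun t => ⟨1 + t, rfl⟩
  have hsymm : ∀ t s : L, IsSquare ((1 + t) * (1 + s)) → IsSquare ((1 + s) * (1 + t)) := by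
    intro t s h
    rwa [mul_comm]
  have htrans : ∀ t s u : L, s ∈ T → IsSquare ((1 + t) * (1 + s)) → IsSquare ((1 + s) * (1 + u)) →
      IsSquare ((1 + t) * (1 + u)) := by
    rintro t s u hs ⟨a, ha⟩ ⟨b, hb⟩
    refine ⟨a * b / (1 + s), ?_⟩
    have h0 := hne s hs
    field_simp
    linear_combination (1 + s) * (1 + u) * ha + a ^ 2 * hb
  have haut : ∀ (g : L ≃ₐ[ℚ] L) (t s : L), IsSquare ((1 + t) * (1 + s)) →
      IsSquare ((1 + g t) * (1 + g s)) := by
    rintro g t s ⟨a, ha⟩
    refine ⟨g a, ?_⟩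
    rw [← map_mul, ← ha, map_mul, map_add, map_add, map_one]
  have hautT : ∀ (g : L ≃ₐ[ℚ] L) (t : L), t ∈ T → g t ∈ T := by
    intro g t ht
    rw [hT] at ht ⊢
    exact tree_map (g : L →+* L) ht
  let cls : L → Finset L := fun t => T.filter (fun s => IsSquare ((1 + t) * (1 + s)))
  have hcls : ∀ t s, t ∈ T → s ∈ T → (cls s = cls t ↔ IsSquare ((1 + t) * (1 + s))) := by
    intro t s ht hs
    constructor
    · intro h
      have h1 : s ∈ cls s := by simp only [cls, Finset.mem_filter]; exact ⟨hs, hrefl s⟩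
      rw [h] at h1
      simp only [cls, Finset.mem_filter] at h1
      exact h1.2
    · intro h
      ext u
      simp only [cls, Finset.mem_filter]
      constructor
      · rintro ⟨hu, h2⟩
        exact ⟨hu, htrans t s u hs h h2⟩
      · rintro ⟨hu, h2⟩
        exact ⟨hu, htrans s t u ht (hsymm _ _ h) h2⟩
  have hrT : r ∈ T := (hT r).2 hr
  have hcard : ∀ t ∈ T, (cls t).card = (cls r).card := by
    intro t ht
    obtain ⟨g, hg⟩ := tree_trans_Q (n + 1) ((hT t).1 ht) hr
    apply Finset.card_bij (fun u _ => g u)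
    · intro u hu
      simp only [cls, Finset.mem_filter] at hu ⊢
      refine ⟨hautT g u hu.1, ?_⟩
      rw [← hg]
      exact haut g t u hu.2
    · intro u _ v _ h
      exact g.injective h
    · intro u hu
      simp only [cls, Finset.mem_filter] at hu
      refine ⟨g.symm u, ?_, g.apply_symm_apply u⟩
      simp only [cls, Finset.mem_filter]
      refine ⟨hautT g.symm u hu.1, ?_⟩
      have h1 := haut g.symm r u hu.2
      rwa [← hg, g.symm_apply_apply] at h1
  have hTcard : T.card = 2 ^ (n + 1) := by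
    have h1 := card_rootSet_eq_natDegree (K := L) (Pol_irreducible (n + 1)).separable
      (IsSplittingField.splits L (Pol (n + 1)))
    rw [Pol_natDegree] at h1
    rw [← h1]
    exact Set.toFinset_card _
  have hdvd : (cls r).card ∣ 2 ^ (n + 1) := by
    rw [← hTcard, Finset.card_eq_sum_card_image cls T]
    refine ⟨(T.image cls).card, ?_⟩
    rw [mul_comm, ← smul_eq_mul, ← Finset.sum_const]
    apply Finset.sum_congr rfl
    intro C hC
    obtain ⟨t, ht, rfl⟩ := Finset.mem_image.1 hC
    rw [← hcard t ht]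
    congr 1
    ext s
    simp only [Finset.mem_filter]
    constructor
    · rintro ⟨hs, h⟩
      rw [← h]
      simp only [cls, Finset.mem_filter]
      exact ⟨hs, hrefl s⟩
    · intro hs
      simp only [cls, Finset.mem_filter] at hs
      exact ⟨hs.1, (hcls t s ht hs.1).2 hs.2⟩
  have hk1 : (cls r).card ≠ 1 := by
    intro h1
    rw [← hcard x ((hT x).2 hx)] at h1
    rw [Finset.card_eq_one] at h1
    obtain ⟨a, ha⟩ := h1
    have h2 : x ∈ cls x := by
      simp only [cls, Finset.mem_filter]; exact ⟨(hT x).2 hx, hrefl x⟩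
    have h3 : y ∈ cls x := by
      simp only [cls, Finset.mem_filter]; exact ⟨(hT y).2 hy, hsq⟩
    rw [ha, Finset.mem_singleton] at h2 h3
    exact hxy (h2.trans h3.symm)
  have heven : 2 ∣ (cls r).card := by
    obtain ⟨k, hk, hk2⟩ := (Nat.dvd_prime_pow Nat.prime_two).1 hdvd
    rw [hk2]
    apply dvd_pow_self
    rintro rfl
    exact hk1 (by rw [hk2, pow_zero])
  let f : cls r → cls r := fun s => ⟨c s, by
    have hs := s.2
    simp only [cls, Finset.mem_filter] at hs ⊢
    refine ⟨hautT c _ hs.1, ?_⟩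
    have h1 := haut c r s hs.2
    rwa [hcr] at h1⟩
  have hrcls : r ∈ cls r := by simp only [cls, Finset.mem_filter]; exact ⟨hrT, hrefl r⟩
  obtain ⟨s, hs, hsr⟩ := exists_other_fixed f (fun a => Subtype.ext (hcc a))
    (by rwa [Fintype.card_coe]) (r := ⟨r, hrcls⟩) (Subtype.ext hcr)
  have hs2 := s.2
  simp only [cls, Finset.mem_filter] at hs2
  have hs1 : c s = s := congrArg Subtype.val hs
  rcases hcfix s ((hT _).1 hs2.1) hs1 with h1 | h1
  · exact hsr (Subtype.ext h1)
  · have h2 := hs2.2
    rw [h1] at h2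
    obtain ⟨b, hb⟩ := h2
    have hr' := hr
    rw [mem_tree_succ] at hr'
    apply globalB n hn hr' b
    rw [sq, ← hb]; ring

end glob

end Pool.Agent.V11279.Dyn
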