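import Pool.Agent.V11279.Dyn11

set_option autoImplicit false
set_option linter.unusedSectionVars false

/-!
# Counting fixed points
-/

namespace Pool.Agent.V11279.Dyn

open Polynomial IntermediateField Module
open scoped Classical

section count

/-- The finite set of solutions. -/
noncomputable def Tf (L : Type) [Field L] [Algebra ℚ L] (m : ℕ) : Finset L :=
  ((Pol m).rootSet L).toFinset

theorem mem_Tf {L : Type} [Field L] [Algebra ℚ L] {m : ℕ} {x : L} :
    x ∈ Tf L m ↔ x ∈ tree L m := by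
  unfold Tf
  rw [Set.mem_toFinset, mem_rootSet_Pol]

/-- The number of fixed points. -/
noncomputable def XX (L : Type) [Field L] [Algebra ℚ L] (m : ℕ) (σ : L ≃ₐ[ℚ] L) : ℕ :=
  ((Tf L m).filter (fun x => σ x = x)).card

/-- average of `F(X)`. -/
noncomputable def AA (L : Type) [Field L] [Algebra ℚ L] [FiniteDimensional ℚ L] (m : ℕ)
    (F : ℕ → ℝ) : ℝ :=
  (∑ σ : L ≃ₐ[ℚ] L, F (XX L m σ)) / Fintype.card (L ≃ₐ[ℚ] L)

theorem sum_comp_hom {G H : Type*} [Group G] [Group H] [Fintype G] [Fintype H] (ρ : G →* H)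
    (hρ : Function.Surjective ρ) (f : H → ℝ) :
    (∑ g : G, f (ρ g)) / Fintype.card G = (∑ h : H, f h) / Fintype.card H := by
  set k : ℕ := (Finset.univ.filter (fun g => ρ g = 1)).card with hk
  have hfib : ∀ h : H, (Finset.univ.filter (fun g => ρ g = h)).card = k := by
    intro h
    exact MonoidHom.card_fiber_eq_of_mem_range ρ (MonoidHom.mem_range.2 (hρ h))
      (MonoidHom.mem_range.2 (hρ 1))
  have key : ∀ f : H → ℝ, ∑ g : G, f (ρ g) = k * ∑ h : H, f h := by
    intro f
    rw [← Finset.sum_fiberwise (Finset.univ) ρ (fun g => f (ρ g)), Finset.mul_sum]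
    apply Finset.sum_congr rfl
    intro h _
    rw [← hfib h, ← nsmul_eq_mul, ← Finset.sum_const]
    apply Finset.sum_congr rfl
    intro g hg
    rw [(Finset.mem_filter.1 hg).2]
  have h1 : (Fintype.card G : ℝ) = k * Fintype.card H := by
    have := key (fun _ => 1)
    simpa using this
  have hk0 : (k : ℝ) ≠ 0 := by
    intro h0
    rw [h0, zero_mul] at h1
    exact (Nat.cast_ne_zero.2 Fintype.card_ne_zero) h1
  rw [key f, h1, mul_div_mul_left _ _ hk0]

theorem AA_eq (L : Type) [Field L] [Algebra ℚ L] [FiniteDimensional ℚ L] [Normal ℚ L] (m : ℕ)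
    (hs : ((Pol m).map (algebraMap ℚ L)).Splits) (L₀ : Type) [Field L₀] [Algebra ℚ L₀]
    [FiniteDimensional ℚ L₀] [IsSplittingField ℚ L₀ (Pol m)] (F : ℕ → ℝ) :
    AA L m F = AA L₀ m F := by
  have hnormal : Normal ℚ L₀ := Normal.of_isSplittingField (Pol m)
  let ι : L₀ →ₐ[ℚ] L := IsSplittingField.lift _ (Pol m) hs
  algebraize [ι.toRingHom]
  have : IsScalarTower ℚ L₀ L := IsScalarTower.of_algebraMap_eq' (by ext; simp)
  let ρ : (L ≃ₐ[ℚ] L) →* (L₀ ≃ₐ[ℚ] L₀) :=
    AlgEquiv.restrictNormalHom L₀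
  have hρ : Function.Surjective ρ := AlgEquiv.restrictNormalHom_surjective L
  have hcomm : ∀ (σ : L ≃ₐ[ℚ] L) (y : L₀), ι (ρ σ y) = σ (ι y) := fun σ y =>
    σ.restrictNormal_commutes L₀ y
  have hX : ∀ σ : L ≃ₐ[ℚ] L, XX L m σ = XX L₀ m (ρ σ) := by
    intro σ
    unfold XX
    symm
    apply Finset.card_bij (fun y _ => ι y)
    · intro y hy
      rw [Finset.mem_filter] at hy ⊢
      refine ⟨mem_Tf.2 (tree_map (ι : L₀ →+* L) (mem_Tf.1 hy.1)), ?_⟩
      rw [← hcomm, hy.2]
    · intro a _ b _ h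
      exact ι.injective h
    · intro x hx
      rw [Finset.mem_filter, mem_Tf] at hx
      have h1 : x ∈ (algebraMap L₀ L).range := by
        apply (IsSplittingField.splits L₀ (Pol m)).mem_range_of_isRoot ((Pol_monic m).map _).ne_zero
        rw [Polynomial.map_map, ← IsScalarTower.algebraMap_eq, IsRoot, eval_map_algebraMap]
        exact aeval_Pol.2 hx.1
      obtain ⟨y, hy⟩ := h1
      have hy' : ι y = x := hy
      refine ⟨y, ?_, hy'⟩
      rw [Finset.mem_filter, mem_Tf]
      constructor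
      · have h2 : (iter L m).eval ((ι : L₀ →+* L) y) = 1 := by
          rw [AlgHom.coe_toRingHom, hy']; exact hx.1
        rw [← iter_map (ι : L₀ →+* L), eval_map_apply] at h2
        apply (ι : L₀ →+* L).injective
        rw [h2, map_one]
      · have h3 : ι (ρ σ y) = ι y := by rw [hcomm, hy', hx.2]
        exact ι.injective h3
  unfold AA
  simp only [hX]
  exact sum_comp_hom ρ hρ (fun τ => F (XX L₀ m τ))

end count

end Pool.Agent.V11279.Dyn
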