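import Pool.Agent.V11279.Dyn12

set_option autoImplicit false
set_option linter.unusedSectionVars false

/-!
# One step of the process
-/

namespace Pool.Agent.V11279.Dyn

open Polynomial IntermediateField Module
open scoped Classical

section step

attribute [-instance] DivisionRing.toRatAlgebra

variable {L : Type} [Field L] [Algebra ℚ L] (m : ℕ) [IsSplittingField ℚ L (Pol (m + 1))]

theorem mem_range_succ {x : AlgebraicClosure L} (hx : x ∈ tree (AlgebraicClosure L) (m + 1)) :
    x ∈ (algebraMap L (AlgebraicClosure L)).range := by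
  apply (IsSplittingField.splits L (Pol (m + 1))).mem_range_of_isRoot
    ((Pol_monic (m + 1)).map _).ne_zero
  rw [Polynomial.map_map, IsRoot]
  have h1 : (Pol (m + 1)).map ((algebraMap L (AlgebraicClosure L)).comp (algebraMap ℚ L)) =
      iter (AlgebraicClosure L) (m + 1) - 1 := by
    unfold Pol
    rw [Polynomial.map_sub, iter_map, Polynomial.map_one]
  rw [h1, eval_sub, eval_one, sub_eq_zero]
  exact hx

theorem exists_sqrt {x : L} (hx : x ∈ tree L m) : ∃ g : L, g ^ 2 = 1 + x := by
  obtain ⟨b, hb⟩ := IsAlgClosed.exists_pow_nat_eq (1 + algebraMap L (AlgebraicClosure L) x)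
    (n := 2) (by norm_num)
  have h1 : b ∈ tree (AlgebraicClosure L) (m + 1) := by
    rw [mem_tree_succ, hb]
    have := tree_map (algebraMap L (AlgebraicClosure L)) hx
    simpa using this
  obtain ⟨g, hg⟩ := mem_range_succ m h1
  refine ⟨g, ?_⟩
  apply (algebraMap L (AlgebraicClosure L)).injective
  rw [map_pow, hg, hb, map_add, map_one]

theorem mem_range_m {x : AlgebraicClosure L} (hx : x ∈ tree (AlgebraicClosure L) m) :
    x ∈ (algebraMap L (AlgebraicClosure L)).range := by
  obtain ⟨b, hb⟩ := IsAlgClosed.exists_pow_nat_eq (1 + x) (n := 2) (by norm_num)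
  have h1 : b ∈ tree (AlgebraicClosure L) (m + 1) := by
    rw [mem_tree_succ, hb]
    simpa using hx
  obtain ⟨g, hg⟩ := mem_range_succ m h1
  refine ⟨g ^ 2 - 1, ?_⟩
  rw [map_sub, map_pow, hg, hb, map_one]
  ring

theorem splits_m : ((Pol m).map (algebraMap ℚ L)).Splits := by
  have h0 : (((Pol m).map (algebraMap ℚ L)).map (algebraMap L (AlgebraicClosure L))).Splits :=
    IsAlgClosed.splits _
  apply h0.of_splits_map
  intro x hx
  apply mem_range_m m
  rw [mem_roots', Polynomial.map_map, IsRoot] at hx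
  have h1 : (Pol m).map ((algebraMap L (AlgebraicClosure L)).comp (algebraMap ℚ L)) =
      iter (AlgebraicClosure L) m - 1 := by
    unfold Pol
    rw [Polynomial.map_sub, iter_map, Polynomial.map_one]
  rw [h1, eval_sub, eval_one, sub_eq_zero] at hx
  exact hx.2

/-- the subfield generated by level `m`. -/
noncomputable def FF (L : Type) [Field L] [Algebra ℚ L] (m : ℕ) : IntermediateField ℚ L :=
  adjoin ℚ ((Pol m).rootSet L)

theorem FF_split : IsSplittingField ℚ (FF L m) (Pol m) :=
  IntermediateField.adjoin_rootSet_isSplittingField (splits_m m)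

theorem mem_FF {x : L} (hx : x ∈ tree L m) : x ∈ FF L m :=
  subset_adjoin _ _ (mem_rootSet_Pol.2 hx)

theorem tree_sub' {k : ℕ} {x : FF L m} : x ∈ tree (FF L m) k ↔ (x : L) ∈ tree L k := by
  constructor
  · intro hx
    exact tree_map (algebraMap (FF L m) L) hx
  · intro hx
    have h1 : (iter L k).eval (algebraMap (FF L m) L x) = 1 := hx
    rw [← iter_map (algebraMap (FF L m) L), eval_map_apply] at h1
    show (iter (FF L m) k).eval x = 1
    apply (algebraMap (FF L m) L).injective
    rw [h1, map_one]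

variable [FiniteDimensional ℚ L] [IsGalois ℚ L]

/-- the kernel of restriction to level `m`. -/
noncomputable def NNk (L : Type) [Field L] [Algebra ℚ L] (m : ℕ) : Subgroup (L ≃ₐ[ℚ] L) :=
  (FF L m).fixingSubgroup

theorem exists_mover {y : L} (hy : y ∉ FF L m) : ∃ g ∈ NNk L m, g y ≠ y := by
  by_contra h
  push Not at h
  apply hy
  rw [← IsGalois.fixedField_fixingSubgroup (FF L m), IntermediateField.mem_fixedField_iff]
  exact h

theorem NNk_fix {g : L ≃ₐ[ℚ] L} (hg : g ∈ NNk L m) {x : L} (hx : x ∈ tree L m) : g x = x :=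
  (IntermediateField.mem_fixingSubgroup_iff _ _).1 hg x (mem_FF m hx)

theorem moverA {x g : L} (hx : x ∈ tree L m) (hg : g ^ 2 = 1 + x) :
    ∃ ν ∈ NNk L m, ν g ≠ g := by
  apply exists_mover
  intro hmem
  have := FF_split (L := L) m
  have h1 : (⟨x, mem_FF m hx⟩ : FF L m) ∈ tree (FF L m) m := (tree_sub' m).2 hx
  exact globalA m h1 ⟨g, hmem⟩ (Subtype.ext hg)

theorem moverC (hm : Even m) (hm2 : 2 ≤ m) {x g y h : L} (hx : x ∈ tree L m) (hg : g ^ 2 = 1 + x)
    (hy : y ∈ tree L m) (hh : h ^ 2 = 1 + y) (hxy : x ≠ y) :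
    ∃ ν ∈ NNk L m, ν (g * h) ≠ g * h := by
  apply exists_mover
  intro hmem
  obtain ⟨n, rfl⟩ : ∃ n, m = n + 1 := ⟨m - 1, by omega⟩
  have hn : Odd n := by
    rcases Nat.even_or_odd n with h1 | h1
    · exact absurd hm (Nat.not_even_iff_odd.2 h1.add_one)
    · exact h1
  have := FF_split (L := L) (n + 1)
  have h1 : (⟨x, mem_FF (n + 1) hx⟩ : FF L (n + 1)) ∈ tree (FF L (n + 1)) (n + 1) :=
    (tree_sub' (n + 1)).2 hx
  have h2 : (⟨y, mem_FF (n + 1) hy⟩ : FF L (n + 1)) ∈ tree (FF L (n + 1)) (n + 1) :=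
    (tree_sub' (n + 1)).2 hy
  apply globalC n hn h1 h2 (fun h3 => hxy (congrArg Subtype.val h3))
  refine ⟨⟨g * h, hmem⟩, Subtype.ext ?_⟩
  show (1 + x) * (1 + y) = g * h * (g * h)
  rw [← hg, ← hh]; ring

/-- sign of `τ` on `g`. -/
noncomputable def sg (g : L) (τ : L ≃ₐ[ℚ] L) : ℝ := if τ g = g then 1 else -1

end step

end Pool.Agent.V11279.Dyn
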