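import Pool.Agent.V11279.Dyn13

set_option autoImplicit false
set_option linter.unusedSectionVars false

/-!
# Moments
-/

namespace Pool.Agent.V11279.Dyn

open Polynomial IntermediateField Module
open scoped Classical

section moments

attribute [-instance] DivisionRing.toRatAlgebra

variable {L : Type} [Field L] [Algebra ℚ L] (m : ℕ) [IsSplittingField ℚ L (Pol (m + 1))]
  [FiniteDimensional ℚ L] [IsGalois ℚ L]

theorem L_charZero (L : Type) [Field L] [Algebra ℚ L] : CharZero L :=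
  charZero_of_injective_algebraMap (algebraMap ℚ L).injective

theorem sqrt_ne_zero {x g : L} (hx : x ∈ tree L m) (hg : g ^ 2 = 1 + x) : g ≠ 0 := by
  rintro rfl
  have := FF_split (L := L) m
  have h1 : (⟨x, mem_FF m hx⟩ : FF L m) ∈ tree (FF L m) m := (tree_sub' m).2 hx
  exact globalA m h1 0 (Subtype.ext hg)

theorem sg_cases {x g : L} (hx : x ∈ tree L m) (hg : g ^ 2 = 1 + x) {τ : L ≃ₐ[ℚ] L}
    (hτ : τ x = x) : (τ g = g ∧ sg g τ = 1) ∨ (τ g = -g ∧ sg g τ = -1) := by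
  have h0 := sqrt_ne_zero m hx hg
  have hc : CharZero L := L_charZero L
  have h1 : (τ g) ^ 2 = g ^ 2 := by rw [← map_pow, hg, map_add, map_one, hτ]
  rcases sq_eq_sq_iff_eq_or_eq_neg.1 h1 with h2 | h2
  · left
    exact ⟨h2, if_pos h2⟩
  · right
    refine ⟨h2, if_neg ?_⟩
    rw [h2]
    intro h3
    apply h0
    have h4 : (2 : L) * g = 0 := by linear_combination -h3
    exact (mul_eq_zero.1 h4).resolve_left two_ne_zero

theorem sg_mul {x g : L} (hx : x ∈ tree L m) (hg : g ^ 2 = 1 + x) {σ ν : L ≃ₐ[ℚ] L}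
    (hσ : σ x = x) (hν : ν x = x) : sg g (σ * ν) = sg g σ * sg g ν := by
  have hσν : (σ * ν) x = x := by rw [AlgEquiv.mul_apply, hν, hσ]
  have h0 := sqrt_ne_zero m hx hg
  have hc : CharZero L := L_charZero L
  have hne : g ≠ -g := by
    intro h3
    apply h0
    have h4 : (2 : L) * g = 0 := by linear_combination h3
    exact (mul_eq_zero.1 h4).resolve_left two_ne_zero
  rcases sg_cases m hx hg hσ with ⟨h1, h1'⟩ | ⟨h1, h1'⟩ <;>
  rcases sg_cases m hx hg hν with ⟨h2, h2'⟩ | ⟨h2, h2'⟩ <;>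
  rcases sg_cases m hx hg hσν with ⟨h3, h3'⟩ | ⟨h3, h3'⟩ <;>
  rw [h1', h2', h3'] <;> norm_num <;>
  · rw [AlgEquiv.mul_apply, h2] at h3
    simp only [map_neg, h1, neg_neg] at h3
    first
    | exact hne h3
    | exact hne h3.symm

theorem sum_char_zero (H : Subgroup (L ≃ₐ[ℚ] L)) (f : (L ≃ₐ[ℚ] L) → ℝ)
    (hmul : ∀ ν ∈ H, ∀ μ ∈ H, f (ν * μ) = f ν * f μ) {ν₀ : L ≃ₐ[ℚ] L} (h0 : ν₀ ∈ H)
    (h1 : f ν₀ = -1) : ∑ ν : H, f ν = 0 := by
  have h2 : ∑ ν : H, f ν = ∑ ν : H, f (ν₀ * ν) := by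
    rw [← Equiv.sum_comp (Equiv.mulLeft (⟨ν₀, h0⟩ : H)) (fun ν : H => f ν)]
    rfl
  have h3 : ∑ ν : H, f (ν₀ * ν) = -∑ ν : H, f ν := by
    rw [← Finset.sum_neg_distrib]
    apply Finset.sum_congr rfl
    intro ν _
    rw [hmul ν₀ h0 ν ν.2, h1, neg_one_mul]
  linarith

theorem sum_sg {x g : L} (hx : x ∈ tree L m) (hg : g ^ 2 = 1 + x) :
    ∑ ν : NNk L m, sg g (ν : L ≃ₐ[ℚ] L) = 0 := by
  obtain ⟨ν₀, h0, h1⟩ := moverA m hx hg
  apply sum_char_zero (NNk L m) (sg g) _ h0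
  · rcases sg_cases m hx hg (NNk_fix m h0 hx) with h2 | h2
    · exact absurd h2.1 h1
    · exact h2.2
  · intro ν hν μ hμ
    exact sg_mul m hx hg (NNk_fix m hν hx) (NNk_fix m hμ hx)

theorem sum_sg_sg (hm : Even m) (hm2 : 2 ≤ m) {x g y h : L} (hx : x ∈ tree L m)
    (hg : g ^ 2 = 1 + x) (hy : y ∈ tree L m) (hh : h ^ 2 = 1 + y) (hxy : x ≠ y) :
    ∑ ν : NNk L m, sg g (ν : L ≃ₐ[ℚ] L) * sg h (ν : L ≃ₐ[ℚ] L) = 0 := by
  obtain ⟨ν₀, h0, h1⟩ := moverC m hm hm2 hx hg hy hh hxy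
  apply sum_char_zero (NNk L m) (fun ν => sg g ν * sg h ν) _ h0
  · rcases sg_cases m hx hg (NNk_fix m h0 hx) with h2 | h2 <;>
    rcases sg_cases m hy hh (NNk_fix m h0 hy) with h3 | h3
    · exact absurd (by rw [map_mul, h2.1, h3.1]) h1
    · simp only [h2.2, h3.2]; norm_num
    · simp only [h2.2, h3.2]; norm_num
    · exact absurd (by rw [map_mul, h2.1, h3.1]; ring) h1
  · intro ν hν μ hμ
    rw [sg_mul m hx hg (NNk_fix m hν hx) (NNk_fix m hμ hx),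
      sg_mul m hy hh (NNk_fix m hν hy) (NNk_fix m hμ hy)]
    ring

/-- The fixed solutions at level `m`. -/
noncomputable def RR (L : Type) [Field L] [Algebra ℚ L] (m : ℕ) (τ : L ≃ₐ[ℚ] L) : Finset L :=
  (Tf L m).filter (fun x => τ x = x)

theorem XX_formula (γ : L → L) (hγ : ∀ x ∈ tree L m, (γ x) ^ 2 = 1 + x) (τ : L ≃ₐ[ℚ] L) :
    (XX L (m + 1) τ : ℝ) = ∑ x ∈ RR L m τ, (1 + sg (γ x) τ) := by
  have hc : CharZero L := L_charZero L
  have hmaps : ∀ t ∈ RR L (m + 1) τ, t ^ 2 - 1 ∈ RR L m τ := by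
    intro t ht
    unfold RR at ht ⊢
    rw [Finset.mem_filter, mem_Tf] at ht ⊢
    refine ⟨mem_tree_succ.1 ht.1, ?_⟩
    rw [map_sub, map_pow, ht.2, map_one]
  have h1 : XX L (m + 1) τ = ∑ x ∈ RR L m τ,
      ((RR L (m + 1) τ).filter (fun t => t ^ 2 - 1 = x)).card :=
    Finset.card_eq_sum_card_fiberwise hmaps
  rw [h1]
  push_cast
  apply Finset.sum_congr rfl
  intro x hx
  unfold RR at hx
  rw [Finset.mem_filter, mem_Tf] at hx
  have hg := hγ x hx.1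
  have h0 := sqrt_ne_zero m hx.1 hg
  have hne : γ x ≠ -γ x := by
    intro h3
    apply h0
    have h4 : (2 : L) * γ x = 0 := by linear_combination h3
    exact (mul_eq_zero.1 h4).resolve_left two_ne_zero
  have htree : ∀ t : L, t ^ 2 = 1 + x → t ∈ tree L (m + 1) := by
    intro t ht
    rw [mem_tree_succ, ht]
    simpa using hx.1
  rcases sg_cases m hx.1 hg hx.2 with ⟨h2, h3⟩ | ⟨h2, h3⟩
  · have h4 : (RR L (m + 1) τ).filter (fun t => t ^ 2 - 1 = x) = {γ x, -γ x} := by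
      ext t
      unfold RR
      simp only [Finset.mem_filter, mem_Tf, Finset.mem_insert, Finset.mem_singleton]
      constructor
      · rintro ⟨_, h5⟩
        apply sq_eq_sq_iff_eq_or_eq_neg.1
        rw [hg, ← h5]; ring
      · rintro (rfl | rfl)
        · exact ⟨⟨htree _ hg, h2⟩, by rw [hg]; ring⟩
        · exact ⟨⟨htree _ (by rw [neg_sq]; exact hg), by rw [map_neg, h2]⟩,
            by rw [neg_sq, hg]; ring⟩
    rw [h4, Finset.card_pair hne, h3]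
    norm_num
  · have h4 : (RR L (m + 1) τ).filter (fun t => t ^ 2 - 1 = x) = ∅ := by
      rw [Finset.filter_eq_empty_iff]
      intro t ht h5
      unfold RR at ht
      rw [Finset.mem_filter, mem_Tf] at ht
      have h6 : t = γ x ∨ t = -γ x := by
        apply sq_eq_sq_iff_eq_or_eq_neg.1
        rw [hg, ← h5]; ring
      rcases h6 with rfl | rfl
      · exact hne (ht.2.symm.trans h2)
      · have h7 := ht.2
        rw [map_neg, h2, neg_neg] at h7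
        exact hne h7
    rw [h4, h3]
    norm_num

theorem RR_mul (σ : L ≃ₐ[ℚ] L) {ν : L ≃ₐ[ℚ] L} (hν : ν ∈ NNk L m) :
    RR L m (σ * ν) = RR L m σ := by
  unfold RR
  apply Finset.filter_congr
  intro x hx
  rw [AlgEquiv.mul_apply, NNk_fix m hν (mem_Tf.1 hx)]

theorem XX_mul (γ : L → L) (hγ : ∀ x ∈ tree L m, (γ x) ^ 2 = 1 + x) (σ : L ≃ₐ[ℚ] L)
    {ν : L ≃ₐ[ℚ] L} (hν : ν ∈ NNk L m) :
    (XX L (m + 1) (σ * ν) : ℝ) = XX L m σ + ∑ x ∈ RR L m σ, sg (γ x) σ * sg (γ x) ν := by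
  rw [XX_formula m γ hγ, RR_mul m σ hν, Finset.sum_add_distrib]
  congr 1
  · simp [XX, RR]
  · apply Finset.sum_congr rfl
    intro x hx
    unfold RR at hx
    rw [Finset.mem_filter, mem_Tf] at hx
    exact sg_mul m hx.1 (hγ x hx.1) hx.2 (NNk_fix m hν hx.1)

theorem exists_gamma : ∃ γ : L → L, ∀ x ∈ tree L m, (γ x) ^ 2 = 1 + x := by
  refine ⟨fun x => if h : x ∈ tree L m then (exists_sqrt m h).choose else 0, ?_⟩
  intro x hx
  simp only [hx, dif_pos]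
  exact (exists_sqrt m hx).choose_spec

theorem key_sum (σ : L ≃ₐ[ℚ] L) : ∑ ν : NNk L m, (XX L (m + 1) (σ * ν) : ℝ) =
    Fintype.card (NNk L m) * XX L m σ := by
  obtain ⟨γ, hγ⟩ := exists_gamma (L := L) m
  have h1 : ∀ ν : NNk L m, (XX L (m + 1) (σ * ν) : ℝ) =
      XX L m σ + ∑ x ∈ RR L m σ, sg (γ x) σ * sg (γ x) ν := fun ν => XX_mul m γ hγ σ ν.2
  rw [Finset.sum_congr rfl (fun ν _ => h1 ν), Finset.sum_add_distrib, Finset.sum_comm]
  have h2 : ∑ x ∈ RR L m σ, ∑ ν : NNk L m, sg (γ x) σ * sg (γ x) ν = 0 := by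
    apply Finset.sum_eq_zero
    intro x hx
    unfold RR at hx
    rw [Finset.mem_filter, mem_Tf] at hx
    rw [← Finset.mul_sum, sum_sg m hx.1 (hγ x hx.1), mul_zero]
  rw [h2, add_zero, Finset.sum_const, Finset.card_univ, nsmul_eq_mul]

theorem key_sq (hm : Even m) (hm2 : 2 ≤ m) (σ : L ≃ₐ[ℚ] L) :
    ∑ ν : NNk L m, ((XX L (m + 1) (σ * ν) : ℝ) - XX L m σ) ^ 2 =
    Fintype.card (NNk L m) * XX L m σ := by
  obtain ⟨γ, hγ⟩ := exists_gamma (L := L) m
  have h1 : ∀ ν : NNk L m, ((XX L (m + 1) (σ * ν) : ℝ) - XX L m σ) ^ 2 =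
      ∑ x ∈ RR L m σ, ∑ y ∈ RR L m σ, (sg (γ x) σ * sg (γ y) σ) * (sg (γ x) ν * sg (γ y) ν) := by
    intro ν
    rw [XX_mul m γ hγ σ ν.2, add_sub_cancel_left, sq, Finset.sum_mul_sum]
    apply Finset.sum_congr rfl
    intro x _
    apply Finset.sum_congr rfl
    intro y _
    ring
  rw [Finset.sum_congr rfl (fun ν _ => h1 ν), Finset.sum_comm]
  have h2 : ∀ x ∈ RR L m σ, ∑ ν : NNk L m, ∑ y ∈ RR L m σ,
      (sg (γ x) σ * sg (γ y) σ) * (sg (γ x) (ν : L ≃ₐ[ℚ] L) * sg (γ y) ν) =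
      Fintype.card (NNk L m) := by
    intro x hx
    have hx' := hx
    unfold RR at hx'
    rw [Finset.mem_filter, mem_Tf] at hx'
    have hsq : ∀ τ : L ≃ₐ[ℚ] L, sg (γ x) τ * sg (γ x) τ = 1 := by
      intro τ
      unfold sg
      split_ifs <;> norm_num
    rw [Finset.sum_comm, Finset.sum_eq_single_of_mem x hx]
    · rw [← Finset.mul_sum]
      simp only [hsq]
      simp
    · intro y hy hyx
      unfold RR at hy
      rw [Finset.mem_filter, mem_Tf] at hy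
      rw [← Finset.mul_sum, sum_sg_sg m hm hm2 hx'.1 (hγ x hx'.1) hy.1 (hγ y hy.1) hyx.symm,
        mul_zero]
  rw [Finset.sum_congr rfl h2, Finset.sum_const, nsmul_eq_mul]
  unfold XX RR
  ring

theorem XX_le (σ : L ≃ₐ[ℚ] L) {ν : L ≃ₐ[ℚ] L} (hν : ν ∈ NNk L m) :
    XX L (m + 1) (σ * ν) ≤ 2 * XX L m σ := by
  obtain ⟨γ, hγ⟩ := exists_gamma (L := L) m
  have h1 : (XX L (m + 1) (σ * ν) : ℝ) ≤ 2 * XX L m σ := by
    rw [XX_formula m γ hγ, RR_mul m σ hν]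
    calc _ ≤ ∑ _x ∈ RR L m σ, (2 : ℝ) := by
          apply Finset.sum_le_sum
          intro x _
          unfold sg
          split_ifs <;> norm_num
      _ = _ := by rw [Finset.sum_const, nsmul_eq_mul]; unfold XX RR; ring
  exact_mod_cast h1

end moments

end Pool.Agent.V11279.Dyn
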