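import Pool.Agent.V11279.Dyn14

set_option autoImplicit false
set_option linter.unusedSectionVars false

/-!
# The limit
-/

namespace Pool.Agent.V11279.Dyn

open Polynomial IntermediateField Module Filter
open scoped Classical

section real

/-- `1/(1+k)`. -/
noncomputable def ph (k : ℕ) : ℝ := 1 / (1 + k)

/-- `k/((1+k)²(1+2k))`. -/
noncomputable def hh (k : ℕ) : ℝ := k / ((1 + k) ^ 2 * (1 + 2 * k))

/-- indicator of `k > 0`. -/
noncomputable def ps (k : ℕ) : ℝ := if k = 0 then 0 else 1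

theorem ph_ineq (X r : ℕ) (hX : X ≤ 2 * r) :
    ph r - ((X : ℝ) - r) / (1 + r) ^ 2 + ((X : ℝ) - r) ^ 2 / ((1 + r) ^ 2 * (1 + 2 * r)) ≤
      ph X := by
  have hX' : (X : ℝ) ≤ 2 * r := by exact_mod_cast hX
  have hX0 : (0 : ℝ) ≤ X := Nat.cast_nonneg X
  have hr0 : (0 : ℝ) ≤ r := Nat.cast_nonneg r
  have h1 : ph X = ph r - ((X : ℝ) - r) / (1 + r) ^ 2 +
      ((X : ℝ) - r) ^ 2 / ((1 + r) ^ 2 * (1 + X)) := by
    unfold ph
    field_simp
    ring
  rw [h1]
  have h2 : ((X : ℝ) - r) ^ 2 / ((1 + r) ^ 2 * (1 + 2 * r)) ≤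
      ((X : ℝ) - r) ^ 2 / ((1 + r) ^ 2 * (1 + X)) := by
    apply div_le_div_of_nonneg_left (sq_nonneg _) (by positivity)
    apply mul_le_mul_of_nonneg_left _ (by positivity)
    linarith
  linarith

theorem ps_ineq (k R : ℕ) (hR : 1 ≤ R) :
    ps k ≤ (k : ℝ) / R + ((1 + R) ^ 2 * (1 + 2 * R)) * hh k := by
  have hR0 : (1 : ℝ) ≤ R := by exact_mod_cast hR
  have hk0 : (0 : ℝ) ≤ k := Nat.cast_nonneg k
  have hh0 : 0 ≤ hh k := by unfold hh; positivity
  unfold ps
  split_ifs with h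
  · positivity
  · have hk1 : (1 : ℝ) ≤ k := by exact_mod_cast Nat.one_le_iff_ne_zero.2 h
    rcases le_total R k with h1 | h1
    · have h2 : (R : ℝ) ≤ k := by exact_mod_cast h1
      have h3 : 1 ≤ (k : ℝ) / R := by rw [le_div_iff₀ (by linarith)]; linarith
      have h4 : 0 ≤ ((1 + R : ℝ) ^ 2 * (1 + 2 * R)) * hh k := by positivity
      linarith
    · have h2 : (k : ℝ) ≤ R := by exact_mod_cast h1
      have h3 : 0 ≤ (k : ℝ) / R := by positivity
      have h4 : 1 ≤ ((1 + R : ℝ) ^ 2 * (1 + 2 * R)) * hh k := by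
        unfold hh
        rw [mul_div_assoc', le_div_iff₀ (by positivity)]
        have h5 : (1 + k : ℝ) ^ 2 * (1 + 2 * k) ≤ (1 + R : ℝ) ^ 2 * (1 + 2 * R) := by
          apply mul_le_mul _ (by linarith) (by positivity) (by positivity)
          exact pow_le_pow_left₀ (by positivity) (by linarith) 2
        have h6 : (0 : ℝ) ≤ (1 + R : ℝ) ^ 2 * (1 + 2 * R) := by positivity
        nlinarith
      linarith

end real

section avg

attribute [-instance] DivisionRing.toRatAlgebra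

variable {L : Type} [Field L] [Algebra ℚ L] (m : ℕ) [IsSplittingField ℚ L (Pol (m + 1))]
  [FiniteDimensional ℚ L] [IsGalois ℚ L]

theorem sum_cosets (H : Subgroup (L ≃ₐ[ℚ] L)) (G : (L ≃ₐ[ℚ] L) → ℝ) :
    ∑ σ : L ≃ₐ[ℚ] L, ∑ ν : H, G (σ * ν) = Fintype.card H * ∑ σ : L ≃ₐ[ℚ] L, G σ := by
  rw [Finset.sum_comm]
  have h1 : ∀ ν : H, ∑ σ : L ≃ₐ[ℚ] L, G (σ * ν) = ∑ σ : L ≃ₐ[ℚ] L, G σ := fun ν =>
    Equiv.sum_comp (Equiv.mulRight (ν : L ≃ₐ[ℚ] L)) G
  rw [Finset.sum_congr rfl (fun ν _ => h1 ν), Finset.sum_const, Finset.card_univ, nsmul_eq_mul]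

theorem card_pos_real {G : Type*} [Group G] [Fintype G] : (0 : ℝ) < Fintype.card G := by
  exact_mod_cast Fintype.card_pos

theorem avg_id : AA L (m + 1) (fun k => k) = AA L m (fun k => k) := by
  unfold AA
  congr 1
  have h1 := sum_cosets (NNk L m) (fun σ => (XX L (m + 1) σ : ℝ))
  rw [Finset.sum_congr rfl (fun σ _ => key_sum m σ), ← Finset.mul_sum] at h1
  exact (mul_left_cancel₀ card_pos_real.ne' h1).symm

theorem local_ineq (σ : L ≃ₐ[ℚ] L) : Fintype.card (NNk L m) * ph (XX L m σ) +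
    (∑ ν : NNk L m, ((XX L (m + 1) (σ * ν) : ℝ) - XX L m σ) ^ 2) /
      ((1 + XX L m σ) ^ 2 * (1 + 2 * XX L m σ)) ≤
    ∑ ν : NNk L m, ph (XX L (m + 1) (σ * ν)) := by
  have h1 : ∑ ν : NNk L m, (ph (XX L m σ) - ((XX L (m + 1) (σ * ν) : ℝ) - XX L m σ) /
      (1 + XX L m σ) ^ 2 + ((XX L (m + 1) (σ * ν) : ℝ) - XX L m σ) ^ 2 /
        ((1 + XX L m σ) ^ 2 * (1 + 2 * XX L m σ))) ≤
      ∑ ν : NNk L m, ph (XX L (m + 1) (σ * ν)) := by
    apply Finset.sum_le_sum
    intro ν _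
    exact ph_ineq _ _ (XX_le m σ ν.2)
  rw [Finset.sum_add_distrib, Finset.sum_sub_distrib, ← Finset.sum_div, ← Finset.sum_div,
    Finset.sum_sub_distrib, key_sum, Finset.sum_const, Finset.sum_const, Finset.card_univ,
    nsmul_eq_mul, nsmul_eq_mul, sub_self, zero_div, sub_zero] at h1
  exact h1

theorem avg_ph : AA L m ph ≤ AA L (m + 1) ph := by
  unfold AA
  apply div_le_div_of_nonneg_right _ card_pos_real.le
  have h1 := sum_cosets (NNk L m) (fun σ => ph (XX L (m + 1) σ))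
  have h2 : Fintype.card (NNk L m) * ∑ σ : L ≃ₐ[ℚ] L, ph (XX L m σ) ≤
      Fintype.card (NNk L m) * ∑ σ : L ≃ₐ[ℚ] L, ph (XX L (m + 1) σ) := by
    rw [← h1, Finset.mul_sum]
    apply Finset.sum_le_sum
    intro σ _
    refine le_trans ?_ (local_ineq m σ)
    have : 0 ≤ (∑ ν : NNk L m, ((XX L (m + 1) (σ * ν) : ℝ) - XX L m σ) ^ 2) /
      ((1 + XX L m σ) ^ 2 * (1 + 2 * XX L m σ)) := by
      apply div_nonneg _ (by positivity)
      exact Finset.sum_nonneg fun _ _ => sq_nonneg _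
    linarith
  exact le_of_mul_le_mul_left h2 card_pos_real

theorem avg_hh (hm : Even m) (hm2 : 2 ≤ m) : AA L m ph + AA L m hh ≤ AA L (m + 1) ph := by
  unfold AA
  rw [← add_div]
  apply div_le_div_of_nonneg_right _ card_pos_real.le
  have h1 := sum_cosets (NNk L m) (fun σ => ph (XX L (m + 1) σ))
  have h2 : Fintype.card (NNk L m) *
      (∑ σ : L ≃ₐ[ℚ] L, ph (XX L m σ) + ∑ σ : L ≃ₐ[ℚ] L, hh (XX L m σ)) ≤
      Fintype.card (NNk L m) * ∑ σ : L ≃ₐ[ℚ] L, ph (XX L (m + 1) σ) := by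
    rw [← h1, ← Finset.sum_add_distrib, Finset.mul_sum]
    apply Finset.sum_le_sum
    intro σ _
    refine le_trans ?_ (local_ineq m σ)
    rw [key_sq m hm hm2]
    unfold hh
    rw [mul_add, mul_div_assoc]
  exact le_of_mul_le_mul_left h2 card_pos_real

theorem avg_ps : AA L (m + 1) ps ≤ AA L m ps := by
  unfold AA
  apply div_le_div_of_nonneg_right _ card_pos_real.le
  apply Finset.sum_le_sum
  intro σ _
  unfold ps
  split_ifs with h1 h2 h2
  · exact le_rfl
  · exact zero_le_one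
  · exfalso
    apply h1
    unfold XX at h2 ⊢
    rw [Finset.card_eq_zero, Finset.filter_eq_empty_iff] at h2 ⊢
    intro x hx hσ
    rw [mem_Tf, mem_tree_succ, ← mem_Tf] at hx
    apply h2 hx
    rw [map_sub, map_pow, hσ, map_one]
  · exact le_rfl

end avg

section final

attribute [-instance] DivisionRing.toRatAlgebra

variable (K : ℕ → Type) [∀ m, Field (K m)] [∀ m, Algebra ℚ (K m)]
  [∀ m, IsSplittingField ℚ (K m) (Pol m)] [∀ m, FiniteDimensional ℚ (K m)]

theorem K_galois (m : ℕ) : IsGalois ℚ (K m) := by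
  have hnormal : Normal ℚ (K m) := Normal.of_isSplittingField (Pol m)
  exact ⟨⟩

theorem AA_shift (m : ℕ) (F : ℕ → ℝ) : AA (K (m + 1)) m F = AA (K m) m F := by
  have hnormal : Normal ℚ (K (m + 1)) := Normal.of_isSplittingField (Pol (m + 1))
  exact AA_eq (K (m + 1)) m (splits_m m) (K m) F

theorem AA_zero : AA (K 0) 0 (fun k => k) = 1 := by
  have h1 : ∀ σ : K 0 ≃ₐ[ℚ] K 0, XX (K 0) 0 σ = 1 := by
    intro σ
    unfold XX
    rw [Finset.card_eq_one]
    refine ⟨1, ?_⟩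
    ext x
    rw [Finset.mem_filter, mem_Tf, mem_tree_zero, Finset.mem_singleton]
    constructor
    · exact fun h => h.1
    · rintro rfl
      exact ⟨rfl, map_one σ⟩
  unfold AA
  simp only [h1]
  simp

theorem AA_id (m : ℕ) : AA (K m) m (fun k => k) = 1 := by
  induction m with
  | zero => exact AA_zero K
  | succ m ih =>
    have := K_galois K (m + 1)
    rw [avg_id, AA_shift, ih]

theorem AA_ph_le (m : ℕ) : AA (K m) m ph ≤ 1 := by
  unfold AA
  rw [div_le_one card_pos_real]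
  calc _ ≤ ∑ _σ : K m ≃ₐ[ℚ] K m, (1 : ℝ) := by
        apply Finset.sum_le_sum
        intro σ _
        unfold ph
        rw [div_le_one (by positivity)]
        have : (0 : ℝ) ≤ XX (K m) m σ := Nat.cast_nonneg _
        linarith
    _ = _ := by simp

theorem AA_ps_le (m R : ℕ) (hR : 1 ≤ R) : AA (K m) m ps ≤
    1 / R + ((1 + R) ^ 2 * (1 + 2 * R)) * AA (K m) m hh := by
  have key : AA (K m) m ps ≤ AA (K m) m (fun k => k) / R +
      ((1 + R) ^ 2 * (1 + 2 * R)) * AA (K m) m hh := by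
    unfold AA
    rw [div_div, mul_comm (Fintype.card _ : ℝ) (R : ℝ), ← div_div, mul_div_assoc', ← add_div]
    apply div_le_div_of_nonneg_right _ card_pos_real.le
    rw [Finset.sum_div, Finset.mul_sum, ← Finset.sum_add_distrib]
    apply Finset.sum_le_sum
    intro σ _
    exact ps_ineq _ R hR
  rwa [AA_id K m] at key

theorem AA_ps_nonneg (m : ℕ) : 0 ≤ AA (K m) m ps := by
  unfold AA
  apply div_nonneg _ card_pos_real.le
  apply Finset.sum_nonneg
  intro σ _
  unfold ps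
  split_ifs <;> norm_num

theorem main_limit : Tendsto (fun m => AA (K m) m ps) atTop (nhds 0) := by
  have hmono : Monotone (fun m => AA (K m) m ph) := by
    apply monotone_nat_of_le_succ
    intro m
    have := K_galois K (m + 1)
    have h1 := avg_ph (L := K (m + 1)) m
    rwa [AA_shift] at h1
  have hanti : Antitone (fun m => AA (K m) m ps) := by
    apply antitone_nat_of_succ_le
    intro m
    have := K_galois K (m + 1)
    have h1 := avg_ps (L := K (m + 1)) m
    rwa [AA_shift] at h1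
  have hbdd : BddAbove (Set.range (fun m => AA (K m) m ph)) := by
    refine ⟨1, ?_⟩
    rintro _ ⟨m, rfl⟩
    exact AA_ph_le K m
  have hlim := tendsto_atTop_ciSup hmono hbdd
  have hdiff : Tendsto (fun m => AA (K (m + 1)) (m + 1) ph - AA (K m) m ph) atTop (nhds 0) := by
    have h1 := (hlim.comp (tendsto_add_atTop_nat 1)).sub hlim
    rw [sub_self] at h1
    exact h1
  have hgood : ∀ m, Even m → 2 ≤ m →
      AA (K m) m hh ≤ AA (K (m + 1)) (m + 1) ph - AA (K m) m ph := by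
    intro m hm hm2
    have := K_galois K (m + 1)
    have h1 := avg_hh (L := K (m + 1)) m hm hm2
    rw [AA_shift, AA_shift] at h1
    linarith
  rw [Metric.tendsto_atTop]
  intro ε hε
  obtain ⟨R, hR⟩ := exists_nat_gt (2 / ε)
  have hRpos : (0 : ℝ) < R := lt_trans (by positivity) hR
  have hR1 : 1 ≤ R := by
    have : 0 < R := by exact_mod_cast hRpos
    omega
  set C : ℝ := (1 + R) ^ 2 * (1 + 2 * R) with hC
  have hCpos : 0 < C := by positivity
  rw [Metric.tendsto_atTop] at hdiff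
  obtain ⟨M, hM⟩ := hdiff (ε / (2 * C)) (by positivity)
  refine ⟨2 * M + 2, ?_⟩
  intro m hm
  have h1 : AA (K m) m ps ≤ AA (K (2 * M + 2)) (2 * M + 2) ps := hanti hm
  have h2 := AA_ps_le K (2 * M + 2) R hR1
  have h3 := hgood (2 * M + 2) ⟨M + 1, by ring⟩ (by omega)
  have h4 := hM (2 * M + 2) (by omega)
  rw [Real.dist_eq, sub_zero] at h4
  have h5 := lt_of_le_of_lt (le_abs_self _) h4
  have h6 : AA (K (2 * M + 2)) (2 * M + 2) hh < ε / (2 * C) := lt_of_le_of_lt h3 h5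
  have h7 : C * AA (K (2 * M + 2)) (2 * M + 2) hh < ε / 2 := by
    calc _ < C * (ε / (2 * C)) := mul_lt_mul_of_pos_left h6 hCpos
      _ = ε / 2 := by field_simp
  have h8 : 1 / (R : ℝ) < ε / 2 := by
    rw [div_lt_iff₀ hRpos]
    rw [div_lt_iff₀ hε] at hR
    linarith
  rw [Real.dist_eq, sub_zero, abs_of_nonneg (AA_ps_nonneg K m)]
  linarith

end final

end Pool.Agent.V11279.Dyn
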