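import Pool.Agent.V11279.Dyn1

set_option autoImplicit false

/-!
# Products of `‖g w - w‖` over cosets
-/

namespace Pool.Agent.V11279.Dyn

open Polynomial IntermediateField Module

section ball

variable (K : Type*) [NormedField K] [IsUltrametricDist K]

/-- The unit ball as a subring. -/
def ball : Subring K where
  carrier := {x | ‖x‖ ≤ 1}
  mul_mem' {a b} ha hb := by
    have ha' : ‖a‖ ≤ 1 := ha
    have hb' : ‖b‖ ≤ 1 := hb
    show ‖a * b‖ ≤ 1
    rw [norm_mul]
    exact mul_le_one₀ ha' (norm_nonneg _) hb'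
  one_mem' := by simp
  add_mem' {a b} ha hb := by
    have ha' : ‖a‖ ≤ 1 := ha
    have hb' : ‖b‖ ≤ 1 := hb
    exact (IsUltrametricDist.norm_add_le_max a b).trans (max_le ha' hb')
  zero_mem' := by simp
  neg_mem' {a} ha := by
    have ha' : ‖a‖ ≤ 1 := ha
    show ‖-a‖ ≤ 1
    rwa [norm_neg]

variable {K}

theorem mem_ball {x : K} : x ∈ ball K ↔ ‖x‖ ≤ 1 := Iff.rfl

end ball

section grp

variable {E K : Type*} [Field E] [NormedField K] [IsUltrametricDist K] [Algebra E K]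

/-- The standing assumptions on the Galois extension `K/E`: automorphisms are isometries, and `K/E`
is totally ramified with uniformiser `w`. -/
structure TR (E K : Type*) [Field E] [NormedField K] [Algebra E K] (w : K) : Prop extends
    HV E K where
  iso : ∀ (g : K ≃ₐ[E] K) (x : K), ‖g x‖ = ‖x‖
  unif : ‖w‖ ^ finrank E K = ‖(2 : K)‖

variable {w : K}

theorem TR.w_le (h : TR E K w) : ‖w‖ ≤ 1 := by
  by_contra h1
  push Not at h1
  have := one_le_pow₀ (n := finrank E K) h1.le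
  rw [h.unif] at this
  exact absurd h.lt (not_lt.2 this)

variable [FiniteDimensional E K]

theorem TR.poly (h : TR E K w) {x : K} (hx : ‖x‖ ≤ 1) :
    ∃ b : (ball K)[X], (∀ i, ∃ c : E, algebraMap E K c = b.coeff i) ∧
      (b.map (ball K).subtype).eval w = x := by
  classical
  have hf : finrank E (⊤ : IntermediateField E K) = finrank E K := IntermediateField.finrank_top'
  have hw : ‖w‖ ^ finrank E (⊤ : IntermediateField E K) = ‖(2 : K)‖ := by rw [hf]; exact h.unif
  obtain ⟨c, hc⟩ := h.toHV.expand ⊤ hw (by trivial) (x := x) (by trivial)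
  have h1 := h.toHV.coeff_le hw c (by rw [← hc]; exact hx)
  refine ⟨∑ j : Fin (finrank E (⊤ : IntermediateField E K)),
    C ⟨algebraMap E K (c j), h1 j⟩ * X ^ (j : ℕ), ?_, ?_⟩
  · intro i
    rw [finsetSum_coeff]
    by_cases hi : i < finrank E (⊤ : IntermediateField E K)
    · refine ⟨c ⟨i, hi⟩, ?_⟩
      rw [Finset.sum_eq_single ⟨i, hi⟩]
      · simp
      · intro j _ hj
        rw [coeff_C_mul, coeff_X_pow, if_neg, mul_zero]
        intro h2
        exact hj (Fin.ext h2.symm)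
      · simp
    · refine ⟨0, ?_⟩
      rw [Finset.sum_eq_zero]
      · simp
      · intro j _
        rw [coeff_C_mul, coeff_X_pow, if_neg, mul_zero]
        intro h2
        exact hi (h2 ▸ j.2)
  · rw [Polynomial.map_sum, eval_finsetSum]
    rw [hc]
    apply Finset.sum_congr rfl
    intro j _
    simp

/-- a polynomial with coefficients in `E` commutes with automorphisms. -/
theorem eval_aut {b : (ball K)[X]} (hb : ∀ i, ∃ c : E, algebraMap E K c = b.coeff i)
    (g : K ≃ₐ[E] K) (x : K) :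
    (b.map (ball K).subtype).eval (g x) = g ((b.map (ball K).subtype).eval x) := by
  rw [eval_eq_sum_range, eval_eq_sum_range, map_sum]
  apply Finset.sum_congr rfl
  intro i _
  obtain ⟨c, hc⟩ := hb i
  rw [coeff_map]
  show ((b.coeff i : ball K) : K) * g x ^ i = g (((b.coeff i : ball K) : K) * x ^ i)
  rw [← hc, map_mul, map_pow, AlgEquiv.commutes]

theorem TR.inj (h : TR E K w) {g g' : K ≃ₐ[E] K} (hg : g w = g' w) : g = g' := by
  have hf : finrank E (⊤ : IntermediateField E K) = finrank E K := IntermediateField.finrank_top'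
  have hw : ‖w‖ ^ finrank E (⊤ : IntermediateField E K) = ‖(2 : K)‖ := by rw [hf]; exact h.unif
  ext x
  obtain ⟨c, hc⟩ := h.toHV.expand ⊤ hw (by trivial) (x := x) (by trivial)
  rw [hc, map_sum, map_sum]
  apply Finset.sum_congr rfl
  intro j _
  rw [map_mul, map_mul, map_pow, map_pow, hg, AlgEquiv.commutes, AlgEquiv.commutes]

theorem TR.aut_w_le (h : TR E K w) (g : K ≃ₐ[E] K) : ‖g w‖ ≤ 1 := by
  rw [h.iso]; exact h.w_le

/-- `∏_{s ∈ H} (X - s w)` over the unit ball. -/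
noncomputable def gpol (h : TR E K w) (H : Subgroup (K ≃ₐ[E] K)) [Fintype H] : (ball K)[X] :=
  ∏ s : H, (X - C ⟨(s : K ≃ₐ[E] K) w, h.aut_w_le s⟩)

theorem gpol_map (h : TR E K w) (H : Subgroup (K ≃ₐ[E] K)) [Fintype H] :
    (gpol h H).map (ball K).subtype = ∏ s : H, (X - C ((s : K ≃ₐ[E] K) w)) := by
  unfold gpol
  rw [Polynomial.map_prod]
  apply Finset.prod_congr rfl
  intro s _
  simp

/-- If `x` is integral and fixed by `H`, then `‖σ x - x‖ ≤ ∏_{s ∈ H} ‖σ s w - w‖`. -/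
theorem TR.tate_le (h : TR E K w) (H : Subgroup (K ≃ₐ[E] K)) [Fintype H] {x : K} (hx : ‖x‖ ≤ 1)
    (hH : ∀ g ∈ H, g x = x) (σ : K ≃ₐ[E] K) :
    ‖σ x - x‖ ≤ ∏ s : H, ‖(σ * s) w - w‖ := by
  classical
  obtain ⟨b, hb, hbx⟩ := h.poly hx
  have hdvd : gpol h H ∣ b - C ⟨x, hx⟩ := by
    by_cases h0 : b - C ⟨x, hx⟩ = 0
    · rw [h0]; exact dvd_zero _
    have h1 : gpol h H = ((Finset.univ.image (fun s : H =>
        (⟨(s : K ≃ₐ[E] K) w, h.aut_w_le s⟩ : ball K))).val.map fun a => X - C a).prod := by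
      unfold gpol
      rw [← Finset.prod_eq_multiset_prod, Finset.prod_image]
      intro s _ t _ hst
      have := congrArg (fun y : ball K => (y : K)) hst
      exact Subtype.ext (h.inj this)
    rw [h1, Multiset.prod_X_sub_C_dvd_iff_le_roots h0, Finset.val_le_iff_val_subset]
    intro a ha
    rw [Finset.mem_val, Finset.mem_image] at ha
    obtain ⟨s, _, rfl⟩ := ha
    rw [mem_roots h0, IsRoot, eval_sub, eval_C, sub_eq_zero]
    apply Subtype.ext
    have h2 := eval_aut hb (s : K ≃ₐ[E] K) w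
    rw [hbx, hH _ s.2] at h2
    exact (Polynomial.eval_map_apply (ball K).subtype _).symm.trans h2
  obtain ⟨q, hq⟩ := hdvd
  have h3 : ‖(σ⁻¹ : K ≃ₐ[E] K) w‖ ≤ 1 := h.aut_w_le _
  have h4 := congrArg (fun p : (ball K)[X] => (p.map (ball K).subtype).eval (σ⁻¹ w)) hq
  simp only [Polynomial.map_sub, Polynomial.map_mul, eval_sub, eval_mul, gpol_map, eval_prod,
    eval_X, eval_C, Polynomial.map_C] at h4
  rw [eval_aut hb, hbx] at h4
  have h5 : ‖(q.map (ball K).subtype).eval (σ⁻¹ w)‖ ≤ 1 := by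
    have h6 : (q.map (ball K).subtype).eval (σ⁻¹ w) = ((q.eval ⟨σ⁻¹ w, h3⟩ : ball K) : K) :=
      Polynomial.eval_map_apply (ball K).subtype (⟨σ⁻¹ w, h3⟩ : ball K)
    rw [h6]
    exact (q.eval ⟨σ⁻¹ w, h3⟩ : ball K).2
  have h7 : ‖σ x - x‖ = ‖σ⁻¹ x - x‖ := by
    rw [← h.iso σ (σ⁻¹ x - x), map_sub, ← AlgEquiv.mul_apply, mul_inv_cancel, AlgEquiv.one_apply,
      norm_sub_rev]
  rw [h7]
  have h8 : ‖σ⁻¹ x - x‖ = ‖∏ s : H, (σ⁻¹ w - (s : K ≃ₐ[E] K) w)‖ *
      ‖(q.map (ball K).subtype).eval (σ⁻¹ w)‖ := by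
    rw [← norm_mul, ← h4]
    rfl
  rw [h8, norm_prod]
  have h9 : ∏ s : H, ‖σ⁻¹ w - (s : K ≃ₐ[E] K) w‖ = ∏ s : H, ‖(σ * s) w - w‖ := by
    apply Finset.prod_congr rfl
    intro s _
    rw [← h.iso σ (σ⁻¹ w - (s : K ≃ₐ[E] K) w), map_sub, ← AlgEquiv.mul_apply, mul_inv_cancel,
      AlgEquiv.one_apply, norm_sub_rev, AlgEquiv.mul_apply]
  rw [h9]
  exact mul_le_of_le_one_right (Finset.prod_nonneg fun _ _ => norm_nonneg _) h5

/-- If `‖σ x - x‖ ≤ m` for all integral `x` fixed by `H`, then `∏_{s ∈ H} ‖σ s w - w‖ ≤ m`. -/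
theorem TR.tate_ge (h : TR E K w) (H : Subgroup (K ≃ₐ[E] K)) [Fintype H] {m : ℝ} (hm : 0 ≤ m)
    (σ : K ≃ₐ[E] K) (hσ : ∀ x : K, ‖x‖ ≤ 1 → (∀ g ∈ H, g x = x) → ‖σ x - x‖ ≤ m) :
    ∏ s : H, ‖(σ * s) w - w‖ ≤ m := by
  classical
  have hfix : ∀ i, ∀ g ∈ H, g ((gpol h H).coeff i : K) = ((gpol h H).coeff i : K) := by
    intro i g hg
    have h1 : ((gpol h H).map (ball K).subtype).map (g : K →+* K) =
        (gpol h H).map (ball K).subtype := by
      rw [gpol_map, Polynomial.map_prod]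
      refine Eq.trans ?_ (Equiv.prod_comp (Equiv.mulLeft (⟨g, hg⟩ : H))
        (fun s : H => X - C ((s : K ≃ₐ[E] K) w)))
      apply Finset.prod_congr rfl
      intro s _
      simp
    have h2 := congrArg (fun p : K[X] => p.coeff i) h1
    simpa [coeff_map] using h2
  have h1 : ((gpol h H).map (ball K).subtype).eval w = 0 := by
    rw [gpol_map, eval_prod]
    apply Finset.prod_eq_zero (Finset.mem_univ (1 : H))
    simp
  have h2 : (((gpol h H).map (ball K).subtype).map (σ : K →+* K)).eval w =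
      ∏ s : H, (w - (σ * s) w) := by
    rw [gpol_map, Polynomial.map_prod, eval_prod]
    apply Finset.prod_congr rfl
    intro s _
    simp
  have h3 : ∏ s : H, ‖(σ * s) w - w‖ = ‖∏ s : H, (w - (σ * s) w)‖ := by
    rw [norm_prod]
    apply Finset.prod_congr rfl
    intro s _
    rw [norm_sub_rev]
  rw [h3, ← h2, ← sub_zero (eval w _), ← h1, ← eval_sub, eval_eq_sum_range]
  apply IsUltrametricDist.norm_sum_le_of_forall_le_of_nonneg hm
  intro i _
  rw [coeff_sub, coeff_map, norm_mul, norm_pow]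
  have h4 := hσ ((gpol h H).coeff i : K) ((gpol h H).coeff i).2 (hfix i)
  have h5 : ‖w‖ ^ i ≤ 1 := pow_le_one₀ (norm_nonneg _) h.w_le
  rw [coeff_map]
  exact (mul_le_of_le_one_right (norm_nonneg _) h5).trans h4

end grp

end Pool.Agent.V11279.Dyn
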