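import Pool.Agent.V11279.Dyn2

set_option autoImplicit false

/-!
# The tree of preimages of `1` under `x ↦ x² - 1`
-/

namespace Pool.Agent.V11279.Dyn

open Polynomial IntermediateField Module

/-- `f^n` as a polynomial, `f = X² - 1`; `f^{n+1}(x) = f^n(x² - 1)`. -/
noncomputable def iter (R : Type*) [CommRing R] : ℕ → R[X]
  | 0 => X
  | n + 1 => (iter R n).comp (X ^ 2 - 1)

/-- The solutions of `f^n(x) = 1`. -/
def tree (K : Type*) [CommRing K] (n : ℕ) : Set K := {x | (iter K n).eval x = 1}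

section basic

variable {K : Type*} [CommRing K]

theorem mem_tree_zero {x : K} : x ∈ tree K 0 ↔ x = 1 := by simp [tree, iter]

theorem mem_tree_succ {n : ℕ} {x : K} : x ∈ tree K (n + 1) ↔ x ^ 2 - 1 ∈ tree K n := by
  simp [tree, iter, eval_comp]

theorem iter_map {R S : Type*} [CommRing R] [CommRing S] (f : R →+* S) (n : ℕ) :
    (iter R n).map f = iter S n := by
  induction n with
  | zero => simp [iter]
  | succ n ih => simp [iter, Polynomial.map_comp, ih]

theorem iter_natDegree_monic (R : Type*) [CommRing R] [Nontrivial R] (n : ℕ) :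
    (iter R n).natDegree = 2 ^ n ∧ (iter R n).Monic := by
  induction n with
  | zero => exact ⟨by simp [iter], by simp [iter, monic_X]⟩
  | succ n ih =>
    have h1 : (X ^ 2 - 1 : R[X]).natDegree = 2 := by
      have := natDegree_X_pow_sub_C (R := R) (n := 2) (r := 1)
      simpa using this
    have h2 : (X ^ 2 - 1 : R[X]).Monic := by
      have := monic_X_pow_sub_C (R := R) 1 (n := 2) (by norm_num)
      simpa using this
    have h3 : (iter R (n + 1)).Monic := ih.2.comp h2 (by rw [h1]; norm_num)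
    refine ⟨?_, h3⟩
    show ((iter R n).comp (X ^ 2 - 1)).natDegree = 2 ^ (n + 1)
    have h4 := natDegree_comp_eq_of_mul_ne_zero (p := iter R n) (q := X ^ 2 - 1) (by
      rw [ih.2.leadingCoeff, h2.leadingCoeff]; simp)
    rw [h4, ih.1, h1, pow_succ]

theorem tree_map {R S : Type*} [CommRing R] [CommRing S] (f : R →+* S) {n : ℕ} {x : R}
    (hx : x ∈ tree R n) : f x ∈ tree S n := by
  have h1 : (iter R n).eval x = 1 := hx
  show (iter S n).eval (f x) = 1
  rw [← iter_map f, eval_map_apply, h1, map_one]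

end basic

section norms

variable {E K : Type*} [Field E] [NormedField K] [IsUltrametricDist K] [Algebra E K]

theorem HV.norm_one_add (_h : HV E K) {x : K} (hx : ‖x‖ < 1) : ‖1 + x‖ = 1 := by
  rw [IsUltrametricDist.norm_add_eq_max_of_norm_ne_norm (by rw [norm_one]; exact hx.ne'),
    norm_one, max_eq_left hx.le]

theorem HV.tree_norm (h : HV E K) (n : ℕ) : ∀ x ∈ tree K n,
    (Even n ∧ ‖x‖ = 1 ∧ ‖1 + x‖ ^ (2 ^ n) = ‖(2 : K)‖) ∨
    (Odd n ∧ ‖x‖ ^ (2 ^ n) = ‖(2 : K)‖ ∧ ‖1 + x‖ = 1) := by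
  induction n with
  | zero =>
    intro x hx
    rw [mem_tree_zero] at hx
    subst hx
    left
    refine ⟨Even.zero, norm_one, ?_⟩
    norm_num
  | succ n ih =>
    intro x hx
    rw [mem_tree_succ] at hx
    have hx2 : 1 + (x ^ 2 - 1) = x ^ 2 := by ring
    rcases ih _ hx with ⟨h1, h2, h3⟩ | ⟨h1, h2, h3⟩
    · right
      rw [hx2, norm_pow, ← pow_mul, ← pow_succ'] at h3
      refine ⟨h1.add_one, h3, ?_⟩
      apply h.norm_one_add
      by_contra h4
      push Not at h4
      have := one_le_pow₀ (n := 2 ^ (n + 1)) h4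
      rw [h3] at this
      exact absurd h.lt (not_lt.2 this)
    · left
      rw [hx2, norm_pow] at h3
      have h4 : ‖x‖ = 1 := by
        have := pow_eq_one_iff_of_nonneg (norm_nonneg x) (two_ne_zero)
        exact this.1 h3
      refine ⟨h1.add_one, h4, ?_⟩
      have h5 : ‖x ^ 2 - 1‖ = ‖1 + x‖ * ‖1 - x‖ := by
        rw [← norm_mul, ← norm_neg]; congr 1; ring
      have h6 : ‖(2 : K)‖ < ‖x ^ 2 - 1‖ := by
        by_contra h7
        push Not at h7
        have h8 : ‖x ^ 2 - 1‖ ^ 2 ^ n ≤ ‖(2 : K)‖ ^ 2 ^ n := pow_le_pow_left₀ (norm_nonneg _) h7 _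
        have h9 : ‖(2 : K)‖ ^ 2 ^ n < ‖(2 : K)‖ ^ 1 := by
          apply pow_lt_pow_right_of_lt_one₀ h.pos h.lt
          have : n ≠ 0 := by rintro rfl; simp at h1
          exact Nat.one_lt_two_pow this
        rw [h2] at h8
        rw [pow_one] at h9
        exact absurd h9 (not_lt.2 h8)
      have h7 : ‖1 + x‖ = ‖1 - x‖ := by
        by_contra h8
        have h9 := IsUltrametricDist.norm_add_eq_max_of_norm_ne_norm h8
        have h10 : (1 + x) + (1 - x) = 2 := by ring
        rw [h10] at h9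
        have h11 : ‖1 + x‖ ≤ ‖(2 : K)‖ := by rw [h9]; exact le_max_left _ _
        have h12 : ‖1 - x‖ ≤ ‖(2 : K)‖ := by rw [h9]; exact le_max_right _ _
        have h13 : ‖1 + x‖ * ‖1 - x‖ ≤ ‖(2 : K)‖ * 1 :=
          mul_le_mul h11 (h12.trans h.lt.le) (norm_nonneg _) h.pos.le
        rw [← h5, mul_one] at h13
        exact absurd h6 (not_lt.2 h13)
      rw [← h7, ← sq] at h5
      rw [pow_succ', pow_mul, ← h5, h2]

/-- The uniformiser attached to `x`. -/
def uni (n : ℕ) (x : K) : K := if Even n then 1 + x else x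

theorem HV.uni_norm (h : HV E K) {n : ℕ} {x : K} (hx : x ∈ tree K n) :
    ‖uni n x‖ ^ (2 ^ n) = ‖(2 : K)‖ := by
  unfold uni
  rcases h.tree_norm n x hx with ⟨h1, h2, h3⟩ | ⟨h1, h2, h3⟩
  · rw [if_pos h1]; exact h3
  · rw [if_neg (Nat.not_even_iff_odd.2 h1)]; exact h2

theorem HV.tree_le (h : HV E K) {n : ℕ} {x : K} (hx : x ∈ tree K n) : ‖x‖ ≤ 1 ∧ ‖1 + x‖ ≤ 1 := by
  have key : ∀ y : K, ‖y‖ ^ (2 ^ n) = ‖(2 : K)‖ → ‖y‖ ≤ 1 := by
    intro y hy
    by_contra h4
    push Not at h4
    have := one_le_pow₀ (n := 2 ^ n) h4.le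
    rw [hy] at this
    exact absurd h.lt (not_lt.2 this)
  rcases h.tree_norm n x hx with ⟨h1, h2, h3⟩ | ⟨h1, h2, h3⟩
  · exact ⟨h2.le, key _ h3⟩
  · exact ⟨key _ h2, h3.le⟩

theorem uni_mem {n : ℕ} {x : K} (F : IntermediateField E K) (hx : x ∈ F) : uni n x ∈ F := by
  unfold uni
  split_ifs
  · exact add_mem (one_mem _) hx
  · exact hx

variable [FiniteDimensional E K]

theorem HV.tree_finrank (h : HV E K) {n : ℕ} {x : K} (hx : x ∈ tree K n) :
    finrank E E⟮x⟯ = 2 ^ n := by
  apply le_antisymm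
  · rw [IntermediateField.adjoin.finrank (Algebra.IsIntegral.isIntegral x)]
    have h1 : (iter E n - 1) ≠ 0 := by
      intro h0
      have h2 := (iter_natDegree_monic E n)
      rw [sub_eq_zero.1 h0, natDegree_one] at h2
      exact absurd h2.1 (by positivity)
    have h2 : aeval x (iter E n - 1) = 0 := by
      rw [map_sub, map_one, aeval_def, ← eval_map, iter_map, sub_eq_zero]
      exact hx
    have h3 := natDegree_le_natDegree (minpoly.degree_le_of_ne_zero E x h1 h2)
    refine h3.trans ((natDegree_sub_le _ _).trans ?_)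
    rw [(iter_natDegree_monic E n).1, natDegree_one]
    simp
  · exact h.le_finrank (h.uni_norm hx) _ (uni_mem _ (mem_adjoin_simple_self E x))

theorem HV.tree_minpoly (h : HV E K) {n : ℕ} {x : K} (hx : x ∈ tree K n) :
    minpoly E x = iter E n - 1 := by
  have h1 := h.tree_finrank hx
  rw [IntermediateField.adjoin.finrank (Algebra.IsIntegral.isIntegral x)] at h1
  have h2 : aeval x (iter E n - 1) = 0 := by
    rw [map_sub, map_one, aeval_def, ← eval_map, iter_map, sub_eq_zero]
    exact hx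
  have h3 : (iter E n - 1).Monic := by
    apply (iter_natDegree_monic E n).2.sub_of_left
    rw [degree_one]
    apply natDegree_pos_iff_degree_pos.1
    rw [(iter_natDegree_monic E n).1]
    positivity
  have h4 : (iter E n - 1).natDegree = 2 ^ n := by
    rw [natDegree_sub_eq_left_of_natDegree_lt, (iter_natDegree_monic E n).1]
    rw [(iter_natDegree_monic E n).1, natDegree_one]
    positivity
  symm
  apply Polynomial.eq_of_monic_of_dvd_of_natDegree_le
    (minpoly.monic (Algebra.IsIntegral.isIntegral x)) h3 (minpoly.dvd E x h2)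
  rw [h4, h1]

theorem HV.tree_trans (h : HV E K) [Normal E K] {n : ℕ} {x y : K} (hx : x ∈ tree K n)
    (hy : y ∈ tree K n) : ∃ g : K ≃ₐ[E] K, g x = y := by
  apply minpoly.exists_algEquiv_of_root' (Algebra.IsAlgebraic.isAlgebraic x)
  rw [h.tree_minpoly hx, map_sub, map_one, aeval_def, ← eval_map, iter_map, sub_eq_zero]
  exact hy

end norms

end Pool.Agent.V11279.Dyn
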