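import Pool.Agent.V11279.Dyn3

set_option autoImplicit false
set_option linter.unusedSectionVars false

/-!
# The local theorem
-/

namespace Pool.Agent.V11279.Dyn

open Polynomial IntermediateField Module

section local_

variable {E K : Type*} [Field E] [NormedField K] [IsUltrametricDist K] [Algebra E K]
  [FiniteDimensional E K] [IsGalois E K] {w : K}

/-- `i(g) = ‖g w - w‖`. -/
noncomputable def ii (w : K) (g : K ≃ₐ[E] K) : ℝ := ‖g w - w‖

/-- the stabilizer. -/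
def stab (E : Type*) {K : Type*} [Field E] [Field K] [Algebra E K] (x : K) :
    Subgroup (K ≃ₐ[E] K) where
  carrier := {g | g x = x}
  mul_mem' {a b} ha hb := by
    have ha' : a x = x := ha
    have hb' : b x = x := hb
    show (a * b) x = x
    rw [AlgEquiv.mul_apply, hb', ha']
  one_mem' := rfl
  inv_mem' {a} ha := by
    have ha' : a x = x := ha
    show a⁻¹ x = x
    conv_lhs => rw [← ha']
    rw [← AlgEquiv.mul_apply, inv_mul_cancel, AlgEquiv.one_apply]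

theorem mem_stab {x : K} {g : K ≃ₐ[E] K} : g ∈ stab E x ↔ g x = x := Iff.rfl

/-- Elements fixed by the stabilizer lie in `E(x)`. -/
theorem mem_adjoin_of_stab {x y : K} (hy : ∀ g ∈ stab E x, g y = y) : y ∈ E⟮x⟯ := by
  rw [← IsGalois.fixedField_fixingSubgroup E⟮x⟯]
  rw [IntermediateField.mem_fixedField_iff]
  intro g hg
  apply hy
  rw [IntermediateField.mem_fixingSubgroup_iff] at hg
  exact hg x (mem_adjoin_simple_self E x)

/-- An element not in `E(x)` is moved by some automorphism fixing `x`. -/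
theorem exists_stab {x y : K} (hy : y ∉ E⟮x⟯) : ∃ g ∈ stab E x, g y ≠ y := by
  by_contra h
  push Not at h
  exact hy (mem_adjoin_of_stab h)

theorem norm_pow_sub_pow_le {a b : K} (ha : ‖a‖ ≤ 1) (hb : ‖b‖ ≤ 1) (j : ℕ) :
    ‖a ^ j - b ^ j‖ ≤ ‖a - b‖ := by
  induction j with
  | zero => simp
  | succ j ih =>
    have h1 : a ^ (j + 1) - b ^ (j + 1) = a * (a ^ j - b ^ j) + (a - b) * b ^ j := by ring
    rw [h1]
    refine (IsUltrametricDist.norm_add_le_max _ _).trans (max_le ?_ ?_)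
    · rw [norm_mul]
      exact (mul_le_of_le_one_left (norm_nonneg _) ha).trans ih
    · rw [norm_mul, norm_pow]
      exact mul_le_of_le_one_right (norm_nonneg _) (pow_le_one₀ (norm_nonneg _) hb)

/-- For `y` integral in `E(x)`: `‖σ y - y‖ ≤ ‖σ x - x‖`. -/
theorem TR.tree_move (h : TR E K w) {n : ℕ} {x : K} (hx : x ∈ tree K n) {y : K} (hy : y ∈ E⟮x⟯)
    (hy1 : ‖y‖ ≤ 1) (σ : K ≃ₐ[E] K) : ‖σ y - y‖ ≤ ‖σ x - x‖ := by
  have hf := h.toHV.tree_finrank hx
  have hu : ‖uni n x‖ ^ finrank E E⟮x⟯ = ‖(2 : K)‖ := by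
    rw [hf]; exact h.toHV.uni_norm hx
  obtain ⟨c, hc⟩ := h.toHV.expand E⟮x⟯ hu (uni_mem _ (mem_adjoin_simple_self E x)) hy
  have h1 := h.toHV.coeff_le hu c (by rw [← hc]; exact hy1)
  have hle : ‖uni n x‖ ≤ 1 := by
    unfold uni
    split_ifs
    · exact (h.toHV.tree_le hx).2
    · exact (h.toHV.tree_le hx).1
  have hmove : ‖σ (uni n x) - uni n x‖ = ‖σ x - x‖ := by
    unfold uni
    split_ifs
    · rw [map_add, map_one]; congr 1; ring
    · rfl
  rw [hc, map_sum, ← Finset.sum_sub_distrib]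
  apply IsUltrametricDist.norm_sum_le_of_forall_le_of_nonneg (norm_nonneg _)
  intro j _
  rw [map_mul, map_pow, AlgEquiv.commutes, ← mul_sub, norm_mul, ← hmove]
  refine (mul_le_of_le_one_left (norm_nonneg _) (h1 j)).trans ?_
  exact norm_pow_sub_pow_le (by rw [h.iso]; exact hle) hle _

theorem TR.ii_mul (h : TR E K w) (s t : K ≃ₐ[E] K) : ii w (s * t) ≤ max (ii w s) (ii w t) := by
  unfold ii
  have h1 : (s * t) w - w = (s w - w) + s (t w - w) := by
    rw [map_sub, AlgEquiv.mul_apply]; ring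
  rw [h1]
  refine (IsUltrametricDist.norm_add_le_max _ _).trans ?_
  rw [h.iso]

theorem TR.ii_inv (h : TR E K w) (s : K ≃ₐ[E] K) : ii w s⁻¹ = ii w s := by
  unfold ii
  rw [← h.iso s (s⁻¹ w - w), map_sub, ← AlgEquiv.mul_apply, mul_inv_cancel, AlgEquiv.one_apply,
    norm_sub_rev]

theorem TR.ii_pos (h : TR E K w) {s : K ≃ₐ[E] K} (hs : s ≠ 1) : 0 < ii w s := by
  unfold ii
  rw [norm_pos_iff, sub_ne_zero]
  intro h1
  exact hs (h.inj (by rw [h1, AlgEquiv.one_apply]))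

theorem ii_nonneg (s : K ≃ₐ[E] K) : 0 ≤ ii w s := norm_nonneg _

/-- `z` is as close to `1` as possible. -/
def IsMin (w : K) (z : K ≃ₐ[E] K) : Prop := z ≠ 1 ∧ ∀ s : K ≃ₐ[E] K, s ≠ 1 → ii w z ≤ ii w s

theorem TR.ii_zmul (h : TR E K w) {z : K ≃ₐ[E] K} (hz : IsMin w z) {s : K ≃ₐ[E] K} (hs : s ≠ 1)
    (hzs : z * s ≠ 1) : ii w (z * s) = ii w s := by
  apply le_antisymm
  · refine (h.ii_mul z s).trans (max_le (hz.2 s hs) le_rfl)
  · have h1 : s = z⁻¹ * (z * s) := by group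
    conv_lhs => rw [h1]
    refine (h.ii_mul _ _).trans (max_le ?_ le_rfl)
    rw [h.ii_inv]
    exact hz.2 _ hzs

variable [∀ H : Subgroup (K ≃ₐ[E] K), Fintype H] [DecidableEq (K ≃ₐ[E] K)]

/-- `D(H) = ∏_{s ∈ H, s ≠ 1} i(s)`. -/
noncomputable def DD (w : K) (H : Subgroup (K ≃ₐ[E] K)) : ℝ :=
  ∏ s : H, if (s : K ≃ₐ[E] K) = 1 then 1 else ii w (s : K ≃ₐ[E] K)

/-- `P(σ H) = ∏_{s ∈ H} i(σ s)`. -/
noncomputable def PP (w : K) (σ : K ≃ₐ[E] K) (H : Subgroup (K ≃ₐ[E] K)) : ℝ :=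
  ∏ s : H, ii w (σ * (s : K ≃ₐ[E] K))

theorem DD_nonneg (H : Subgroup (K ≃ₐ[E] K)) : 0 ≤ DD w H := by
  unfold DD
  apply Finset.prod_nonneg
  intro s _
  split_ifs
  · exact zero_le_one
  · exact ii_nonneg _

theorem PP_nonneg (σ : K ≃ₐ[E] K) (H : Subgroup (K ≃ₐ[E] K)) : 0 ≤ PP w σ H :=
  Finset.prod_nonneg fun _ _ => ii_nonneg _

theorem mul_DD (μ : ℝ) (H : Subgroup (K ≃ₐ[E] K)) : μ * DD w H =
    ∏ s : H, if (s : K ≃ₐ[E] K) = 1 then μ else ii w (s : K ≃ₐ[E] K) := by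
  have h1 : ∏ s : H, (if (s : K ≃ₐ[E] K) = 1 then μ else 1) = μ := by
    rw [Finset.prod_eq_single (1 : H)]
    · simp
    · intro b _ hb
      rw [if_neg]
      intro h2
      exact hb (Subtype.ext h2)
    · simp
  unfold DD
  nth_rewrite 1 [← h1]
  rw [← Finset.prod_mul_distrib]
  apply Finset.prod_congr rfl
  intro s _
  split_ifs <;> simp

theorem TR.PP_z (h : TR E K w) {z : K ≃ₐ[E] K} (hz : IsMin w z) {H : Subgroup (K ≃ₐ[E] K)}
    (hzH : z ∉ H) : PP w z H = ii w z * DD w H := by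
  rw [mul_DD]
  unfold PP
  apply Finset.prod_congr rfl
  intro s _
  split_ifs with h1
  · rw [h1, mul_one]
  · apply h.ii_zmul hz h1
    intro h2
    apply hzH
    rw [eq_inv_of_mul_eq_one_left h2]
    exact H.inv_mem s.2

theorem DD_split {S : Subgroup (K ≃ₐ[E] K)} {y : K} (hS : ∀ s ∈ S, s y = y ∨ s y = -y)
    {s₁ : K ≃ₐ[E] K} (h1 : s₁ ∈ S) (h2 : s₁ y ≠ y) :
    DD w S = DD w (S ⊓ stab E y) * PP w s₁ (S ⊓ stab E y) := by
  classical
  have hfin : Fintype (K ≃ₐ[E] K) :=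
    Fintype.ofEquiv (⊤ : Subgroup (K ≃ₐ[E] K)) Subgroup.topEquiv.toEquiv
  have key : ∀ (H : Subgroup (K ≃ₐ[E] K)) (f : (K ≃ₐ[E] K) → ℝ),
      ∏ s : H, f s = ∏ g ∈ Finset.univ.filter (fun g => g ∈ H), f g := by
    intro H f
    rw [Finset.prod_subtype (Finset.univ.filter (fun g => g ∈ H)) (p := fun g => g ∈ H)
      (by intro x; simp) f]
  have hs1 : s₁ y = -y := (hS s₁ h1).resolve_left h2
  have hs1' : s₁⁻¹ y = -y := by
    have h3 : s₁ (-y) = y := by rw [map_neg, hs1, neg_neg]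
    conv_lhs => rw [← h3]
    rw [← AlgEquiv.mul_apply, inv_mul_cancel, AlgEquiv.one_apply]
  unfold DD PP
  rw [key S (fun g => if g = 1 then 1 else ii w g),
    key (S ⊓ stab E y) (fun g => if g = 1 then 1 else ii w g),
    key (S ⊓ stab E y) (fun g => ii w (s₁ * g)),
    ← Finset.prod_filter_mul_prod_filter_not (Finset.univ.filter (fun g => g ∈ S))
      (fun g : K ≃ₐ[E] K => g y = y)]
  congr 1
  · apply Finset.prod_congr _ (fun _ _ => rfl)
    ext g
    simp only [Finset.mem_filter, Finset.mem_univ, true_and, Subgroup.mem_inf, mem_stab]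
  · apply Finset.prod_bij' (fun g _ => s₁⁻¹ * g) (fun g _ => s₁ * g)
    · intro g hg
      simp only [Finset.mem_filter, Finset.mem_univ, true_and] at hg ⊢
      refine ⟨S.mul_mem (S.inv_mem h1) hg.1, ?_⟩
      show (s₁⁻¹ * g) y = y
      rw [AlgEquiv.mul_apply, (hS g hg.1).resolve_left hg.2, map_neg, hs1', neg_neg]
    · intro g hg
      simp only [Finset.mem_filter, Finset.mem_univ, true_and] at hg ⊢
      refine ⟨S.mul_mem h1 hg.1, ?_⟩
      rw [AlgEquiv.mul_apply, (mem_stab.1 hg.2)]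
      exact h2
    · intro g _; group
    · intro g _; group
    · intro g hg
      simp only [Finset.mem_filter, Finset.mem_univ, true_and] at hg
      rw [if_neg]
      · congr 1; group
      · rintro rfl
        exact hg.2 rfl

theorem TR.exists_ineq (h : TR E K w) {z : K ≃ₐ[E] K} (hz : IsMin w z)
    {S : Subgroup (K ≃ₐ[E] K)} {y : K} (hS : ∀ s ∈ S, s y = y ∨ s y = -y)
    {s₁ : K ≃ₐ[E] K} (h1 : s₁ ∈ S) (h2 : s₁ y ≠ y) :
    ∃ s₀ ∈ S, s₀ y ≠ y ∧ ii w z * DD w S ≤ PP w s₀ (S ⊓ stab E y) ^ 2 := by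
  classical
  have hfin : Fintype (K ≃ₐ[E] K) :=
    Fintype.ofEquiv (⊤ : Subgroup (K ≃ₐ[E] K)) Subgroup.topEquiv.toEquiv
  obtain ⟨s₀, hs₀, hmin⟩ := Finset.exists_min_image
    (Finset.univ.filter (fun g : K ≃ₐ[E] K => g ∈ S ∧ g y ≠ y)) (ii w) ⟨s₁, by simp [h1, h2]⟩
  simp only [Finset.mem_filter, Finset.mem_univ, true_and] at hs₀ hmin
  refine ⟨s₀, hs₀.1, hs₀.2, ?_⟩
  have h3 : ii w z * DD w (S ⊓ stab E y) ≤ PP w s₀ (S ⊓ stab E y) := by
    rw [mul_DD]
    unfold PP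
    apply Finset.prod_le_prod
    · intro s _
      split_ifs <;> exact ii_nonneg _
    · intro s _
      have hs0 : s₀ ≠ 1 := by
        rintro rfl
        exact hs₀.2 rfl
      split_ifs with h4
      · rw [h4, mul_one]
        exact hz.2 _ hs0
      · have h5 : ii w s₀ ≤ ii w (s₀ * (s : K ≃ₐ[E] K)) := by
          apply hmin
          refine ⟨S.mul_mem hs₀.1 (Subgroup.mem_inf.1 s.2).1, ?_⟩
          rw [AlgEquiv.mul_apply, mem_stab.1 (Subgroup.mem_inf.1 s.2).2]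
          exact hs₀.2
        have h6 : (s : K ≃ₐ[E] K) = s₀⁻¹ * (s₀ * s) := by group
        rw [h6]
        refine (h.ii_mul _ _).trans (max_le ?_ ?_)
        · rw [h.ii_inv]
          rw [← h6]
          exact h5
        · rw [← h6]
  rw [DD_split hS hs₀.1 hs₀.2, sq, ← mul_assoc]
  exact mul_le_mul_of_nonneg_right h3 (PP_nonneg _ _)

end local_

end Pool.Agent.V11279.Dyn
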