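import Pool.Agent.V11279.Dyn4

set_option autoImplicit false
set_option linter.unusedSectionVars false

/-!
# The local theorem, conclusion
-/

namespace Pool.Agent.V11279.Dyn

open Polynomial IntermediateField Module

section local_

variable {E K : Type*} [Field E] [NormedField K] [IsUltrametricDist K] [Algebra E K]
  [FiniteDimensional E K] [IsGalois E K] {w : K}
  [∀ H : Subgroup (K ≃ₐ[E] K), Fintype H] [DecidableEq (K ≃ₐ[E] K)]

theorem TR.PP_le_tree (h : TR E K w) {n : ℕ} {x : K} (hx : x ∈ tree K n) (σ : K ≃ₐ[E] K) :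
    PP w σ (stab E x) ≤ ‖σ x - x‖ := by
  unfold PP ii
  apply h.tate_ge (stab E x) (norm_nonneg _) σ
  intro y hy hfix
  exact h.tree_move hx (mem_adjoin_of_stab hfix) hy σ

theorem TR.le_PP (h : TR E K w) {x : K} (hx : ‖x‖ ≤ 1) (H : Subgroup (K ≃ₐ[E] K))
    (hH : ∀ g ∈ H, g x = x) (σ : K ≃ₐ[E] K) : ‖σ x - x‖ ≤ PP w σ H :=
  h.tate_le H hx hH σ

theorem TR.not_mem_adjoin (h : TR E K w) {n : ℕ} {a b : K} (ha : a ∈ tree K n)
    (hb : b ^ 2 = 1 + a) : b ∉ E⟮a⟯ := by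
  intro hmem
  have hb' : b ∈ tree K (n + 1) := by
    rw [mem_tree_succ, hb]
    simpa using ha
  have h1 := h.toHV.le_finrank (h.toHV.uni_norm hb') E⟮a⟯ (uni_mem _ hmem)
  rw [h.toHV.tree_finrank ha] at h1
  exact absurd h1 (not_le.2 (Nat.pow_lt_pow_right (by norm_num) (Nat.lt_succ_self n)))

theorem stab_le {a b : K} (hb : b ^ 2 = 1 + a) : stab E b ≤ stab E a := by
  intro g hg
  have hg' : g b = b := hg
  have h1 : a = b ^ 2 - 1 := by rw [hb]; ring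
  show g a = a
  rw [h1, map_sub, map_pow, map_one, hg']

theorem sq_fix {a b : K} (hb : b ^ 2 = 1 + a) {s : K ≃ₐ[E] K} (hs : s a = a) :
    s b = b ∨ s b = -b := by
  have h1 : (s b) ^ 2 = b ^ 2 := by rw [← map_pow, hb, map_add, map_one, hs]
  exact sq_eq_sq_iff_eq_or_eq_neg.1 h1

theorem TR.zfix (h : TR E K w) {z : K ≃ₐ[E] K} (hz : IsMin w z) {i : ℕ} {a b : K}
    (ha : a ∈ tree K (i + 1)) (hb : b ^ 2 = 1 + a) (hz1 : z (a ^ 2 - 1) = a ^ 2 - 1) :
    z a = a := by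
  by_contra hza
  have hb' : b ∈ tree K (i + 2) := by
    rw [mem_tree_succ, hb]
    simpa using ha
  have hza' : z a = -a := by
    have h1 : a ^ 2 = 1 + (a ^ 2 - 1) := by ring
    exact (sq_fix h1 hz1).resolve_left hza
  obtain ⟨s₁, hs₁, hs₁b⟩ := exists_stab (h.not_mem_adjoin ha hb)
  have hS : ∀ s ∈ stab E a, s b = b ∨ s b = -b := fun s hs => sq_fix hb hs
  have hsplit := DD_split (w := w) hS hs₁ hs₁b
  have hinf : stab E a ⊓ stab E b = stab E b := inf_eq_right.2 (stab_le hb)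
  rw [hinf] at hsplit
  have h1 := h.le_PP (h.toHV.tree_le ha).1 (stab E a) (fun g hg => hg) z
  rw [h.PP_z hz (fun hh => hza hh), hza', hsplit] at h1
  have h2 := h.PP_le_tree hb' z
  rw [h.PP_z hz (fun hh => hza (stab_le hb hh))] at h2
  have h3 := h.PP_le_tree hb' s₁
  rw [(hS s₁ hs₁).resolve_left hs₁b] at h3
  have h4 : ‖-a - a‖ ≤ ‖z b - b‖ * ‖-b - b‖ := by
    refine h1.trans ?_
    rw [← mul_assoc]
    exact mul_le_mul h2 h3 (PP_nonneg _ _) (norm_nonneg _)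
  have h5 : ‖-a - a‖ = ‖(2 : K)‖ * ‖a‖ := by rw [← norm_mul, ← norm_neg]; congr 1; ring
  have h6 : ‖-b - b‖ = ‖(2 : K)‖ * ‖b‖ := by rw [← norm_mul, ← norm_neg]; congr 1; ring
  have h7 : (z b - b) * (z b + b) = -a - a := by
    have : (z b - b) * (z b + b) = z (b ^ 2) - b ^ 2 := by rw [map_pow]; ring
    rw [this, hb, map_add, map_one, hza']; ring
  have h8 : ‖z b - b‖ * ‖z b + b‖ = ‖-a - a‖ := by rw [← norm_mul, h7]
  have ha0 : 0 < ‖a‖ := by
    rcases h.toHV.tree_norm _ a ha with ⟨_, h9, _⟩ | ⟨_, h9, _⟩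
    · rw [h9]; exact one_pos
    · rw [norm_pos_iff]
      rintro rfl
      rw [norm_zero, zero_pow (by positivity)] at h9
      exact h.pos.ne h9
  have h9 : 0 < ‖-a - a‖ := by rw [h5]; exact mul_pos h.pos ha0
  have h10 : 0 < ‖z b - b‖ := by
    rcases (norm_nonneg (z b - b)).eq_or_lt with h11 | h11
    · rw [← h11, zero_mul] at h8
      exact absurd h8 h9.ne
    · exact h11
  have h11 : ‖z b + b‖ ≤ ‖-b - b‖ := by
    rw [← h8] at h4
    exact le_of_mul_le_mul_left h4 h10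
  have h12 : ‖z b - b‖ ≤ ‖-b - b‖ := by
    have : z b - b = (z b + b) + (-b - b) := by ring
    rw [this]
    exact (IsUltrametricDist.norm_add_le_max _ _).trans (max_le h11 le_rfl)
  have h13 : ‖-a - a‖ ≤ ‖-b - b‖ * ‖-b - b‖ := by
    rw [← h8]
    exact mul_le_mul h12 h11 (norm_nonneg _) (norm_nonneg _)
  rw [h5, h6] at h13
  have h14 : ‖b‖ * ‖b‖ ≤ 1 := by
    have := (h.toHV.tree_le ha).2
    rw [← hb, norm_pow, sq] at this
    exact this
  have h15 : ‖a‖ ≤ ‖(2 : K)‖ := by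
    have h16 : ‖(2 : K)‖ * ‖b‖ * (‖(2 : K)‖ * ‖b‖) = ‖(2 : K)‖ * (‖(2 : K)‖ * (‖b‖ * ‖b‖)) := by ring
    rw [h16] at h13
    have h17 := le_of_mul_le_mul_left h13 h.pos
    exact h17.trans (mul_le_of_le_one_right h.pos.le h14)
  rcases h.toHV.tree_norm _ a ha with ⟨_, h16, _⟩ | ⟨_, h16, _⟩
  · rw [h16] at h15
    exact absurd h.lt (not_lt.2 h15)
  · have h17 : ‖a‖ ^ 2 ^ (i + 1) ≤ ‖(2 : K)‖ ^ 2 ^ (i + 1) :=
      pow_le_pow_left₀ (norm_nonneg _) h15 _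
    have h18 : ‖(2 : K)‖ ^ 2 ^ (i + 1) < ‖(2 : K)‖ ^ 1 := by
      apply pow_lt_pow_right_of_lt_one₀ h.pos h.lt
      exact Nat.one_lt_two_pow (by omega)
    rw [h16] at h17
    rw [pow_one] at h18
    exact absurd h18 (not_lt.2 h17)

/-- The minimal element fixes `tree K j` for `j ≤ n`. -/
theorem TR.zfix_all (h : TR E K w) {z : K ≃ₐ[E] K} (hz : IsMin w z) {n : ℕ}
    (hroot : ∀ j ≤ n, ∀ a ∈ tree K j, ∃ b : K, b ^ 2 = 1 + a) :
    ∀ j ≤ n, ∀ a ∈ tree K j, z a = a := by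
  intro j
  induction j with
  | zero =>
    intro _ a ha
    rw [mem_tree_zero] at ha
    rw [ha, map_one]
  | succ j ih =>
    intro hj a ha
    obtain ⟨b, hb⟩ := hroot (j + 1) hj a ha
    have ha' := ha
    rw [mem_tree_succ] at ha'
    exact h.zfix hz ha hb (ih (by omega) _ ha')

/-- a minimal element exists. -/
theorem TR.exists_min (h : TR E K w) {b : K} (hb : b ^ 2 = 1 + 1) : ∃ z : K ≃ₐ[E] K, IsMin w z := by
  classical
  have hfin : Fintype (K ≃ₐ[E] K) :=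
    Fintype.ofEquiv (⊤ : Subgroup (K ≃ₐ[E] K)) Subgroup.topEquiv.toEquiv
  have h1 : (1 : K) ∈ tree K 0 := mem_tree_zero.2 rfl
  obtain ⟨s, _, hs⟩ := exists_stab (h.not_mem_adjoin h1 hb)
  have hs1 : s ≠ 1 := by rintro rfl; exact hs rfl
  obtain ⟨z, hz, hmin⟩ := Finset.exists_min_image
    (Finset.univ.filter (fun g : K ≃ₐ[E] K => g ≠ 1)) (ii w) ⟨s, by simp [hs1]⟩
  simp only [Finset.mem_filter, Finset.mem_univ, true_and] at hz hmin
  exact ⟨z, hz, hmin⟩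

/-- Statement (A). -/
theorem TR.stepA (h : TR E K w) {n : ℕ}
    (hroot : ∀ j ≤ n, ∀ a ∈ tree K j, ∃ b : K, b ^ 2 = 1 + a)
    (hgen : ∀ g : K ≃ₐ[E] K, (∀ t ∈ tree K (n + 1), g t = t) → g = 1) {x b : K}
    (hx : x ∈ tree K n) (hb : b ^ 2 = 1 + x) :
    ∃ g : K ≃ₐ[E] K, (∀ t ∈ tree K n, g t = t) ∧ g b ≠ b := by
  obtain ⟨b1, hb1⟩ := hroot 0 (Nat.zero_le n) 1 (mem_tree_zero.2 rfl)
  obtain ⟨z, hz⟩ := h.exists_min hb1
  have hfix := h.zfix_all hz hroot n le_rfl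
  obtain ⟨y, hy, hzy⟩ : ∃ y ∈ tree K (n + 1), z y ≠ y := by
    by_contra hcon
    push Not at hcon
    exact hz.1 (hgen z hcon)
  have hy' := hy
  rw [mem_tree_succ] at hy'
  obtain ⟨g, hg⟩ := h.toHV.tree_trans hy' hx
  have hgy : b = g y ∨ b = -g y := by
    apply sq_eq_sq_iff_eq_or_eq_neg.1
    rw [hb, ← hg, map_sub, map_pow, map_one]
    ring
  refine ⟨g * z * g⁻¹, ?_, ?_⟩
  · intro t ht
    have h1 : g⁻¹ t ∈ tree K n := tree_map (g⁻¹ : K ≃ₐ[E] K).toRingEquiv.toRingHom ht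
    have h2 := hfix _ h1
    show g (z (g⁻¹ t)) = t
    rw [h2, ← AlgEquiv.mul_apply, mul_inv_cancel, AlgEquiv.one_apply]
  · intro hgb
    apply hzy
    have h3 : (g * z * g⁻¹) (g y) = g y := by
      rcases hgy with h4 | h4
      · rw [← h4]; exact hgb
      · have h5 : g y = -b := by rw [h4, neg_neg]
        rw [h5, map_neg, hgb]
    have h6 : g (z (g⁻¹ (g y))) = g y := h3
    rw [← AlgEquiv.mul_apply g⁻¹ g, inv_mul_cancel, AlgEquiv.one_apply] at h6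
    exact g.injective h6

/-- Statement (B): for odd `n`, `-x` is not a square. -/
theorem TR.stepB (h : TR E K w) {n : ℕ} (hn : Odd n)
    (hroot : ∀ j ≤ n, ∀ a ∈ tree K j, ∃ b : K, b ^ 2 = 1 + a)
    (hgen : ∀ g : K ≃ₐ[E] K, (∀ t ∈ tree K (n + 1), g t = t) → g = 1) {x : K}
    (hx : x ∈ tree K n) (η : K) : η ^ 2 ≠ -x := by
  intro hη
  obtain ⟨b1, hb1⟩ := hroot 0 (Nat.zero_le n) 1 (mem_tree_zero.2 rfl)
  obtain ⟨z, hz⟩ := h.exists_min hb1
  have hfix := h.zfix_all hz hroot n le_rfl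
  obtain ⟨y, hy, hzy⟩ : ∃ y ∈ tree K (n + 1), z y ≠ y := by
    by_contra hcon
    push Not at hcon
    exact hz.1 (hgen z hcon)
  have hy' := hy
  rw [mem_tree_succ] at hy'
  -- move `η`
  obtain ⟨g, hg⟩ := h.toHV.tree_trans hx hy'
  set x' : K := y ^ 2 - 1 with hx'
  have hyx : y ^ 2 = 1 + x' := by rw [hx']; ring
  set θ : K := g η with hθ
  have hθ2 : θ ^ 2 = -x' := by rw [hθ, ← map_pow, hη, map_neg, hg]
  -- norms
  obtain ⟨hpow, hone⟩ : ‖x'‖ ^ 2 ^ n = ‖(2 : K)‖ ∧ ‖1 + x'‖ = 1 := by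
    rcases h.toHV.tree_norm n x' hy' with ⟨h1, _⟩ | ⟨_, h1⟩
    · exact absurd h1 (Nat.not_even_iff_odd.2 hn)
    · exact h1
  have hfr := h.toHV.tree_finrank hy'
  have hpow' : ‖x'‖ ^ finrank E E⟮x'⟯ = ‖(2 : K)‖ := by rw [hfr]; exact hpow
  have hx0 : x' ≠ 0 := (h.toHV.w_ne hpow).1
  have hxpos : 0 < ‖x'‖ := norm_pos_iff.2 hx0
  have hxlt : ‖x'‖ < 1 := by
    by_contra h4
    push Not at h4
    have := one_le_pow₀ (n := 2 ^ n) h4
    rw [hpow] at this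
    exact absurd h.lt (not_lt.2 this)
  have hxinj : ∀ k l : ℤ, ‖x'‖ ^ k = ‖x'‖ ^ l → k = l := fun k l hkl =>
    zpow_right_injective₀ hxpos hxlt.ne hkl
  have hval : ∀ t : K, t ∈ E⟮x'⟯ → t ≠ 0 → ∃ k : ℤ, ‖t‖ = ‖x'‖ ^ k := fun t ht ht0 =>
    h.toHV.value E⟮x'⟯ hpow' (mem_adjoin_simple_self E x') ht ht0
  have hθn : ‖θ‖ ^ 2 = ‖x'‖ := by rw [← norm_pow, hθ2, norm_neg]
  have hθ0 : θ ≠ 0 := by
    intro h0
    rw [h0, norm_zero] at hθn
    exact hxpos.ne (by rw [← hθn]; norm_num)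
  have hθmem : θ ∉ E⟮x'⟯ := by
    intro hmem
    obtain ⟨k, hk⟩ := hval θ hmem hθ0
    rw [hk, ← zpow_natCast, ← zpow_mul] at hθn
    have := hxinj (k * (2 : ℕ)) 1 (by rw [hθn, zpow_one])
    omega
  obtain ⟨s₁, hs₁, hs₁θ⟩ := exists_stab hθmem
  have hSθ : ∀ s ∈ stab E x', s θ = θ ∨ s θ = -θ := by
    intro s hs
    have hs' : s x' = x' := hs
    apply sq_eq_sq_iff_eq_or_eq_neg.1
    rw [← map_pow, hθ2, map_neg, hs']
  obtain ⟨s₀, hs₀, hs₀θ, hineq⟩ := h.exists_ineq hz hSθ hs₁ hs₁θ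
  have hs₀θ' : s₀ θ = -θ := (hSθ s₀ hs₀).resolve_left hs₀θ
  -- upper bound
  have hupper : PP w s₀ (stab E x' ⊓ stab E θ) ≤ ‖(2 : K)‖ * ‖θ‖ := by
    unfold PP ii
    apply h.tate_ge _ (by positivity) s₀
    intro u hu hufix
    have h20 : (2 : K) ≠ 0 := norm_pos_iff.1 h.pos
    -- decomposition
    have hcoset : ∀ s ∈ stab E x', s θ = -θ → s u = s₀ u := by
      intro s hs hsθ
      have h1 : s₀⁻¹ * s ∈ stab E x' ⊓ stab E θ := by
        refine ⟨Subgroup.mul_mem _ (Subgroup.inv_mem _ hs₀) hs, ?_⟩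
        show (s₀⁻¹ * s) θ = θ
        rw [AlgEquiv.mul_apply, hsθ]
        have : -θ = s₀ θ := hs₀θ'.symm
        rw [this, ← AlgEquiv.mul_apply, inv_mul_cancel, AlgEquiv.one_apply]
      have h2 := hufix _ h1
      conv_rhs => rw [← h2]
      rw [← AlgEquiv.mul_apply, mul_inv_cancel_left]
    have hcoset2 : ∀ s ∈ stab E x', s θ = -θ → s (s₀ u) = u := by
      intro s hs hsθ
      have h1 : s * s₀ ∈ stab E x' ⊓ stab E θ := by
        refine ⟨Subgroup.mul_mem _ hs hs₀, ?_⟩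
        show (s * s₀) θ = θ
        rw [AlgEquiv.mul_apply, hs₀θ', map_neg, hsθ, neg_neg]
      exact hufix _ h1
    have hcoset3 : ∀ s ∈ stab E x', s θ = θ → s (s₀ u) = s₀ u := by
      intro s hs hsθ
      have h1 : s₀⁻¹ * (s * s₀) ∈ stab E x' ⊓ stab E θ := by
        refine ⟨Subgroup.mul_mem _ (Subgroup.inv_mem _ hs₀) (Subgroup.mul_mem _ hs hs₀), ?_⟩
        show (s₀⁻¹ * (s * s₀)) θ = θ
        rw [AlgEquiv.mul_apply, AlgEquiv.mul_apply, hs₀θ', map_neg, hsθ]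
        have : -θ = s₀ θ := hs₀θ'.symm
        rw [this, ← AlgEquiv.mul_apply, inv_mul_cancel, AlgEquiv.one_apply]
      have h2 := hufix _ h1
      conv_rhs => rw [← h2]
      rw [← AlgEquiv.mul_apply, ← AlgEquiv.mul_apply, mul_inv_cancel_left]
    have ha : (u + s₀ u) / 2 ∈ E⟮x'⟯ := by
      apply mem_adjoin_of_stab
      intro s hs
      rcases hSθ s hs with h1 | h1
      · rw [map_div₀, map_add, hufix s ⟨hs, h1⟩, hcoset3 s hs h1, map_ofNat]
      · rw [map_div₀, map_add, hcoset s hs h1, hcoset2 s hs h1, map_ofNat, add_comm]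
    have hb : (u - s₀ u) / (2 * θ) ∈ E⟮x'⟯ := by
      apply mem_adjoin_of_stab
      intro s hs
      rcases hSθ s hs with h1 | h1
      · rw [map_div₀, map_sub, hufix s ⟨hs, h1⟩, hcoset3 s hs h1, map_mul, map_ofNat, h1]
      · rw [map_div₀, map_sub, hcoset s hs h1, hcoset2 s hs h1, map_mul, map_ofNat, h1]
        field_simp
        ring
    set a : K := (u + s₀ u) / 2 with hadef
    set c : K := (u - s₀ u) / (2 * θ) with hcdef
    have hu2 : u = a + c * θ := by rw [hadef, hcdef]; field_simp; ring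
    have hdiff : s₀ u - u = -(2 * (c * θ)) := by rw [hcdef]; field_simp; ring
    rw [hdiff, norm_neg, norm_mul, norm_mul]
    have hc1 : ‖c‖ ≤ 1 := by
      by_cases hc0 : c = 0
      · rw [hc0, norm_zero]; exact zero_le_one
      obtain ⟨l, hl⟩ := hval c hb hc0
      have hne : ‖a‖ ≠ ‖c * θ‖ := by
        intro heq
        by_cases ha0 : a = 0
        · rw [ha0, norm_zero] at heq
          exact mul_ne_zero hc0 hθ0 (norm_eq_zero.1 heq.symm)
        · obtain ⟨k, hk⟩ := hval a ha ha0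
          have h1 : ‖a‖ ^ 2 = ‖c * θ‖ ^ 2 := by rw [heq]
          rw [norm_mul, mul_pow, hθn, hk, hl, ← zpow_natCast, ← zpow_natCast, ← zpow_mul,
            ← zpow_mul, ← zpow_add_one₀ hxpos.ne'] at h1
          have := hxinj _ _ h1
          omega
      have hmax := IsUltrametricDist.norm_add_eq_max_of_norm_ne_norm hne
      rw [← hu2] at hmax
      have h2 : ‖c * θ‖ ≤ 1 := (le_max_right _ _).trans (hmax.symm.le.trans hu)
      have h3 : ‖c * θ‖ ^ 2 ≤ 1 := pow_le_one₀ (norm_nonneg _) h2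
      rw [norm_mul, mul_pow, hθn, hl, ← zpow_natCast, ← zpow_mul, ← zpow_add_one₀ hxpos.ne',
        ← zpow_zero ‖x'‖, zpow_le_zpow_iff_right_of_lt_one₀ hxpos hxlt] at h3
      rw [hl, ← zpow_zero ‖x'‖, zpow_le_zpow_iff_right_of_lt_one₀ hxpos hxlt]
      push_cast at h3
      omega
    have : ‖(2 : K)‖ * (‖c‖ * ‖θ‖) = ‖c‖ * (‖(2 : K)‖ * ‖θ‖) := by ring
    rw [this]
    exact mul_le_of_le_one_left (by positivity) hc1
  -- lower bound
  have hzx : z ∈ stab E x' := hfix x' hy'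
  have hSy : ∀ s ∈ stab E x', s y = y ∨ s y = -y := fun s hs => sq_fix hyx hs
  have hsplit := DD_split (w := w) hSy hzx hzy
  have hinf : stab E x' ⊓ stab E y = stab E y := inf_eq_right.2 (stab_le hyx)
  rw [hinf] at hsplit
  have hPz := h.PP_z hz (H := stab E y) hzy
  have hlow := h.le_PP (h.toHV.tree_le hy).1 (stab E y) (fun g hg => hg) z
  have hyn : ‖z y - y‖ = ‖(2 : K)‖ := by
    have hy1 : ‖y‖ = 1 := by
      have h1 : ‖y‖ ^ 2 = 1 := by rw [← norm_pow, hyx, hone]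
      exact (pow_eq_one_iff_of_nonneg (norm_nonneg y) two_ne_zero).1 h1
    rw [(hSy z hzx).resolve_left hzy]
    have : -y - y = -(2 * y) := by ring
    rw [this, norm_neg, norm_mul, hy1, mul_one]
  rw [hyn] at hlow
  have h1 : ‖(2 : K)‖ ^ 2 ≤ (‖(2 : K)‖ * ‖θ‖) ^ 2 := by
    calc ‖(2 : K)‖ ^ 2 ≤ PP w z (stab E y) ^ 2 := pow_le_pow_left₀ h.pos.le hlow 2
      _ = ii w z * DD w (stab E x') := by
          rw [hsplit, sq]
          nth_rewrite 1 [hPz]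
          ring
      _ ≤ PP w s₀ (stab E x' ⊓ stab E θ) ^ 2 := hineq
      _ ≤ _ := pow_le_pow_left₀ (PP_nonneg _ _) hupper 2
  have h2 : ‖θ‖ ^ 2 < 1 := by rw [hθn]; exact hxlt
  rw [mul_pow] at h1
  have h3 : 0 < ‖(2 : K)‖ ^ 2 := pow_pos h.pos 2
  nlinarith

end local_

end Pool.Agent.V11279.Dyn
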