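import Pool.Agent.V11279.Dyn5

set_option autoImplicit false
set_option linter.unusedSectionVars false

/-!
# Towers of quadratic extensions are totally ramified over `E`
-/

namespace Pool.Agent.V11279.Dyn

open Polynomial IntermediateField Module

section tower

variable {E Ω : Type*} [Field E] [NormedField Ω] [IsUltrametricDist Ω] [Algebra E Ω]
  [IsAlgClosed Ω] [Algebra.IsAlgebraic E Ω] [CharZero E]

/-- The assumptions on the base field `E`. -/
structure BF (E Ω : Type*) [Field E] [NormedField Ω] [Algebra E Ω] : Prop extends HV E Ω where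
  iso : ∀ (g : Ω ≃ₐ[E] Ω) (x : Ω), ‖g x‖ = ‖x‖
  res : ∀ u : Ω, ‖u‖ = 1 → ∃ c : E, ‖u - algebraMap E Ω c‖ < 1

/-- `F` is finite and totally ramified over `E`. -/
def Good (F : IntermediateField E Ω) : Prop :=
  FiniteDimensional E F ∧ ∃ w ∈ F, ‖w‖ ^ finrank E F = ‖(2 : Ω)‖

/-- If `y ∉ F` and `y² ∈ F` there is an automorphism over `F` with `y ↦ -y`. -/
theorem exists_neg (F : IntermediateField E Ω) {y : Ω} (hy : y ∉ F) (hy2 : y ^ 2 ∈ F) :
    ∃ g : Ω ≃ₐ[E] Ω, (∀ x ∈ F, g x = x) ∧ g y = -y := by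
  have halg : Algebra.IsAlgebraic F Ω := Algebra.IsAlgebraic.tower_top F (K := E)
  have hnorm : Normal F Ω := by
    have : IsAlgClosure F Ω := ⟨inferInstance, halg⟩
    exact IsAlgClosure.normal F Ω
  have hint : IsIntegral F y := (halg.isAlgebraic y).isIntegral
  have hroot : aeval (-y) (minpoly F y) = 0 := by
    have h1 : minpoly F y = X ^ 2 - C ⟨y ^ 2, hy2⟩ := by
      symm
      apply Polynomial.eq_of_monic_of_dvd_of_natDegree_le (minpoly.monic hint)
        (monic_X_pow_sub_C _ two_ne_zero)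
      · apply minpoly.dvd
        simp
      · rw [natDegree_X_pow_sub_C]
        rw [minpoly.two_le_natDegree_iff hint]
        rintro ⟨a, ha⟩
        apply hy
        rw [← ha]
        exact a.2
    rw [h1]
    simp
  obtain ⟨g, hg⟩ := minpoly.exists_algEquiv_of_root' (halg.isAlgebraic y) hroot
  refine ⟨g.restrictScalars E, ?_, hg⟩
  intro x hx
  exact g.commutes ⟨x, hx⟩

theorem BF.approx (h : BF E Ω) (F : IntermediateField E Ω) {w : Ω} (hwF : w ∈ F) (hw0 : w ≠ 0)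
    {y : Ω} (hall : ∀ x ∈ F, ∃ k : ℤ, ‖y - x‖ = ‖w‖ ^ k) (hw1 : ‖w‖ < 1) (m : ℕ) :
    ∃ x ∈ F, ‖y - x‖ ≤ ‖w‖ ^ m * ‖y‖ := by
  induction m with
  | zero => exact ⟨0, F.zero_mem, by simp⟩
  | succ m ih =>
    obtain ⟨x, hx, hxm⟩ := ih
    obtain ⟨k, hk⟩ := hall x hx
    have hwpos : 0 < ‖w‖ := norm_pos_iff.2 hw0
    have h1 : ‖(y - x) / w ^ k‖ = 1 := by
      rw [norm_div, norm_zpow, hk]
      exact div_self (zpow_pos hwpos k).ne'
    obtain ⟨c, hc⟩ := h.res _ h1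
    have hx' : x + algebraMap E Ω c * w ^ k ∈ F :=
      F.add_mem hx (F.mul_mem (F.algebraMap_mem c) (F.pow_mem hwF k))
    refine ⟨x + algebraMap E Ω c * w ^ k, hx', ?_⟩
    have h2 : y - (x + algebraMap E Ω c * w ^ k) =
        ((y - x) / w ^ k - algebraMap E Ω c) * w ^ k := by
      rw [sub_mul, div_mul_cancel₀ _ (zpow_ne_zero k hw0)]; ring
    have h3 : ‖y - (x + algebraMap E Ω c * w ^ k)‖ < ‖w‖ ^ k := by
      rw [h2, norm_mul, norm_zpow]
      exact mul_lt_of_lt_one_left (zpow_pos hwpos k) hc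
    obtain ⟨l, hl⟩ := hall _ hx'
    rw [hl] at h3 ⊢
    rw [zpow_lt_zpow_iff_right_of_lt_one₀ hwpos hw1] at h3
    have h4 : ‖w‖ ^ l ≤ ‖w‖ ^ (k + 1) := by
      rw [zpow_le_zpow_iff_right_of_lt_one₀ hwpos hw1]; omega
    rw [zpow_add_one₀ hwpos.ne', ← hk] at h4
    calc ‖w‖ ^ l ≤ ‖y - x‖ * ‖w‖ := h4
      _ ≤ (‖w‖ ^ m * ‖y‖) * ‖w‖ := mul_le_mul_of_nonneg_right hxm hwpos.le
      _ = _ := by ring

theorem BF.step (h : BF E Ω) {F : IntermediateField E Ω} (hF : Good F) {y : Ω}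
    (hy2 : y ^ 2 ∈ F) : Good (F ⊔ E⟮y⟯) := by
  obtain ⟨hfin, w, hwF, hw⟩ := hF
  by_cases hy : y ∈ F
  · have h1 : F ⊔ E⟮y⟯ = F := by
      rw [sup_eq_left, adjoin_simple_le_iff]
      exact hy
    rw [h1]
    exact ⟨hfin, w, hwF, hw⟩
  have hw0 : w ≠ 0 := (h.toHV.w_ne hw).1
  have hwpos : 0 < ‖w‖ := norm_pos_iff.2 hw0
  have hw1 : ‖w‖ < 1 := by
    by_contra h4
    push Not at h4
    have := one_le_pow₀ (n := finrank E F) h4
    rw [hw] at this
    exact absurd h.lt (not_lt.2 this)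
  obtain ⟨g, hgF, hgy⟩ := exists_neg F hy hy2
  have hy0 : y ≠ 0 := fun h0 => hy (h0 ▸ F.zero_mem)
  have hsymm : ∀ x ∈ F, ‖-y - x‖ = ‖y - x‖ := by
    intro x hx
    rw [← h.iso g (y - x), map_sub, hgy, hgF x hx]
  -- find `x` with `‖y - x‖` outside the value group
  obtain ⟨x, hx, hxk⟩ : ∃ x ∈ F, ∀ k : ℤ, ‖y - x‖ ≠ ‖w‖ ^ k := by
    by_contra hcon
    push Not at hcon
    have hpos : 0 < ‖(2 : Ω)‖ := h.pos
    obtain ⟨m, hm⟩ := exists_pow_lt_of_lt_one hpos hw1
    obtain ⟨x, hx, hxm⟩ := h.approx F hwF hw0 hcon hw1 m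
    have h1 : ‖y - x‖ < ‖(2 : Ω)‖ * ‖y‖ :=
      hxm.trans_lt (mul_lt_mul_of_pos_right hm (norm_pos_iff.2 hy0))
    have h2 : ‖(2 : Ω)‖ * ‖y‖ ≤ ‖y - x‖ := by
      have h3 : 2 * y = (y - x) + -(-y - x) := by ring
      rw [← norm_mul, h3]
      refine (IsUltrametricDist.norm_add_le_max _ _).trans ?_
      rw [norm_neg, hsymm x hx, max_self]
    exact absurd h1 (not_lt.2 h2)
  have hprod : ‖y - x‖ ^ 2 = ‖x ^ 2 - y ^ 2‖ := by
    have h1 : x ^ 2 - y ^ 2 = (y - x) * (-y - x) := by ring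
    rw [h1, norm_mul, hsymm x hx, sq]
  have hmem : x ^ 2 - y ^ 2 ∈ F := F.sub_mem (pow_mem hx 2) hy2
  have hyx : y - x ≠ 0 := fun h0 => hy (by rw [sub_eq_zero.1 h0]; exact hx)
  have hne : x ^ 2 - y ^ 2 ≠ 0 := by
    intro h0
    rw [h0, norm_zero] at hprod
    exact hyx (norm_eq_zero.1 (pow_eq_zero_iff two_ne_zero |>.1 hprod))
  obtain ⟨k, hk⟩ := h.toHV.value F hw hwF hmem hne
  rw [hk] at hprod
  have hodd : Odd k := by
    rw [← Int.not_even_iff_odd]
    rintro ⟨l, hl⟩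
    apply hxk l
    rw [hl, ← two_mul, mul_comm, zpow_mul, zpow_ofNat] at hprod
    exact (pow_left_inj₀ (norm_nonneg _) (zpow_nonneg (norm_nonneg _) _) two_ne_zero).1 hprod
  obtain ⟨l, hl⟩ := hodd
  set w' : Ω := (y - x) / w ^ l with hw'
  have hw'2 : ‖w'‖ ^ 2 = ‖w‖ := by
    rw [hw', norm_div, div_pow, hprod, hl, norm_zpow, zpow_add_one₀ hwpos.ne', ← zpow_natCast,
      ← zpow_mul, mul_comm l]
    push_cast
    rw [mul_comm, mul_div_assoc, div_self (zpow_ne_zero _ hwpos.ne'), mul_one]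
  have hle1 : F ≤ F ⊔ E⟮y⟯ := le_sup_left
  have hle2 : y ∈ F ⊔ E⟮y⟯ := (le_sup_right : E⟮y⟯ ≤ F ⊔ E⟮y⟯) (mem_adjoin_simple_self E y)
  have hw'mem : w' ∈ F ⊔ E⟮y⟯ :=
    (F ⊔ E⟮y⟯).div_mem ((F ⊔ E⟮y⟯).sub_mem hle2 (hle1 hx))
      ((F ⊔ E⟮y⟯).pow_mem (hle1 hwF) l)
  have hint : IsIntegral E y := (Algebra.IsAlgebraic.isAlgebraic y).isIntegral
  have hfin1 : FiniteDimensional E E⟮y⟯ := adjoin.finiteDimensional hint
  have hfin2 : FiniteDimensional E (F ⊔ E⟮y⟯ : IntermediateField E Ω) :=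
    IntermediateField.finiteDimensional_sup F E⟮y⟯
  have hw'd : ‖w'‖ ^ (2 * finrank E F) = ‖(2 : Ω)‖ := by rw [pow_mul, hw'2, hw]
  have hge := h.toHV.le_finrank hw'd (F ⊔ E⟮y⟯) hw'mem
  have hle : finrank E (F ⊔ E⟮y⟯ : IntermediateField E Ω) ≤ 2 * finrank E F := by
    have hintF : IsIntegral F y := hint.tower_top
    have h1 : finrank F F⟮y⟯ ≤ 2 := by
      rw [adjoin.finrank hintF]
      have h2 : (X ^ 2 - C (⟨y ^ 2, hy2⟩ : F)) ≠ 0 := X_pow_sub_C_ne_zero (by norm_num) _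
      have h3 := natDegree_le_natDegree (minpoly.degree_le_of_ne_zero F y h2 (by simp))
      rwa [natDegree_X_pow_sub_C] at h3
    have h2 : F ⊔ E⟮y⟯ ≤ (F⟮y⟯).restrictScalars E := by
      apply sup_le
      · intro a ha
        show a ∈ F⟮y⟯
        exact F⟮y⟯.algebraMap_mem ⟨a, ha⟩
      · rw [adjoin_simple_le_iff]
        exact mem_adjoin_simple_self F y
    have hfin3 : FiniteDimensional F F⟮y⟯ := adjoin.finiteDimensional hintF
    have hfin4 : FiniteDimensional E F⟮y⟯ := FiniteDimensional.trans E F F⟮y⟯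
    have h3 : finrank E ((F⟮y⟯).restrictScalars E) = finrank E F * finrank F F⟮y⟯ :=
      (finrank_mul_finrank E F F⟮y⟯).symm
    have h4 : finrank E (F ⊔ E⟮y⟯ : IntermediateField E Ω) ≤
        finrank E ((F⟮y⟯).restrictScalars E) := by
      have hfin5 : FiniteDimensional E ((F⟮y⟯).restrictScalars E) := hfin4
      exact IntermediateField.finrank_le_of_le_right h2
    calc _ ≤ finrank E F * finrank F F⟮y⟯ := h4.trans h3.le
      _ ≤ finrank E F * 2 := Nat.mul_le_mul_left _ h1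
      _ = _ := mul_comm _ _
  refine ⟨hfin2, w', hw'mem, ?_⟩
  rw [le_antisymm hle hge]
  exact hw'd

theorem BF.step_finset (h : BF E Ω) {F : IntermediateField E Ω} (hF : Good F) (T : Finset Ω)
    (hT : ∀ y ∈ T, y ^ 2 ∈ F) : Good (F ⊔ adjoin E (T : Set Ω)) := by
  classical
  induction T using Finset.induction_on with
  | empty => simpa using hF
  | insert y T hyT ih =>
    have h1 := ih (fun z hz => hT z (Finset.mem_insert_of_mem hz))
    have h2 : F ⊔ adjoin E ((insert y T : Finset Ω) : Set Ω) =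
        (F ⊔ adjoin E (T : Set Ω)) ⊔ E⟮y⟯ := by
      rw [Finset.coe_insert, Set.insert_eq, IntermediateField.adjoin_union, sup_comm E⟮y⟯,
        ← sup_assoc]
    rw [h2]
    exact h.step h1 ((le_sup_left : F ≤ F ⊔ adjoin E (T : Set Ω))
      (hT y (Finset.mem_insert_self _ _)))

theorem tree_finite (n : ℕ) : (tree Ω n).Finite := by
  have h1 : (iter Ω n - 1) ≠ 0 := by
    intro h0
    have h2 := (iter_natDegree_monic Ω n)
    rw [sub_eq_zero.1 h0, natDegree_one] at h2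
    exact absurd h2.1 (by positivity)
  apply Set.Finite.subset ((iter Ω n - 1).rootSet_finite Ω)
  intro x hx
  rw [mem_rootSet]
  refine ⟨h1, ?_⟩
  have : (iter Ω n).eval x = 1 := hx
  simp [this]

theorem exists_child {n : ℕ} {x : Ω} (hx : x ∈ tree Ω n) :
    ∃ b : Ω, b ^ 2 = 1 + x ∧ b ∈ tree Ω (n + 1) := by
  obtain ⟨b, hb⟩ := IsAlgClosed.exists_pow_nat_eq (1 + x) (n := 2) (by norm_num)
  refine ⟨b, hb, ?_⟩
  rw [mem_tree_succ, hb]
  simpa using hx

theorem tree_le_adjoin {n j : ℕ} (hj : j ≤ n) : tree Ω j ⊆ adjoin E (tree Ω n) := by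
  induction n with
  | zero =>
    obtain rfl : j = 0 := by omega
    exact subset_adjoin E _
  | succ n ih =>
    have h1 : ∀ k ≤ n + 1, k = n + 1 ∨ k ≤ n := by intro k hk; omega
    rcases h1 j hj with rfl | h2
    · exact subset_adjoin E _
    · have h3 : adjoin E (tree Ω n) ≤ adjoin E (tree Ω (n + 1)) := by
        rw [adjoin_le_iff]
        intro x hx
        obtain ⟨b, hb, hb'⟩ := exists_child hx
        have h4 : x = b ^ 2 - 1 := by rw [hb]; ring
        rw [h4]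
        exact IntermediateField.sub_mem _ (pow_mem (subset_adjoin E _ hb') 2)
          (IntermediateField.one_mem _)
      exact fun x hx => h3 (ih h2 hx)

theorem BF.good_tree (h : BF E Ω) (n : ℕ) : Good (adjoin E (tree Ω n)) := by
  induction n with
  | zero =>
    have h1 : adjoin E (tree Ω 0) = ⊥ := by
      rw [adjoin_eq_bot_iff]
      intro x hx
      rw [mem_tree_zero] at hx
      rw [hx]
      exact IntermediateField.one_mem _
    rw [h1]
    refine ⟨inferInstance, 2, ?_, ?_⟩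
    · exact_mod_cast IntermediateField.natCast_mem (⊥ : IntermediateField E Ω) 2
    · rw [IntermediateField.finrank_bot, pow_one]
  | succ n ih =>
    have h1 : adjoin E (tree Ω (n + 1)) =
        adjoin E (tree Ω n) ⊔ adjoin E (((tree_finite (Ω := Ω) (n + 1)).toFinset : Finset Ω) :
          Set Ω) := by
      rw [Set.Finite.coe_toFinset, eq_comm, sup_eq_right, adjoin_le_iff]
      exact tree_le_adjoin (Nat.le_succ n)
    rw [h1]
    apply h.step_finset ih
    intro y hy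
    rw [Set.Finite.mem_toFinset, mem_tree_succ] at hy
    have h2 : y ^ 2 = (y ^ 2 - 1) + 1 := by ring
    rw [h2]
    exact IntermediateField.add_mem _ (subset_adjoin E _ hy) (IntermediateField.one_mem _)

end tower

end Pool.Agent.V11279.Dyn
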