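import Pool.Agent.V11279.Dyn6

set_option autoImplicit false
set_option linter.unusedSectionVars false

/-!
# Conclusion over `E`
-/

namespace Pool.Agent.V11279.Dyn

open Polynomial IntermediateField Module

section concl

variable {E Ω : Type*} [Field E] [NormedField Ω] [IsUltrametricDist Ω] [Algebra E Ω]
  [IsAlgClosed Ω] [Algebra.IsAlgebraic E Ω] [CharZero E]

theorem mem_tree_sub (K : IntermediateField E Ω) {n : ℕ} {x : K} :
    x ∈ tree K n ↔ (x : Ω) ∈ tree Ω n := by
  constructor
  · intro hx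
    exact tree_map (algebraMap K Ω) hx
  · intro hx
    have h1 : (iter Ω n).eval (algebraMap K Ω x) = 1 := hx
    rw [← iter_map (algebraMap K Ω), eval_map_apply] at h1
    show (iter K n).eval x = 1
    apply (algebraMap K Ω).injective
    rw [h1, map_one]

theorem tree_eq_rootSet (n : ℕ) : tree Ω n = (iter E n - 1).rootSet Ω := by
  have h1 : (iter E n - 1) ≠ 0 := by
    intro h0
    have h2 := (iter_natDegree_monic E n)
    rw [sub_eq_zero.1 h0, natDegree_one] at h2
    exact absurd h2.1 (by positivity)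
  ext x
  rw [mem_rootSet]
  have h2 : aeval x (iter E n - 1) = (iter Ω n).eval x - 1 := by
    rw [map_sub, map_one, aeval_def, ← eval_map, iter_map]
  rw [h2, sub_eq_zero]
  exact ⟨fun h => ⟨h1, h⟩, fun h => h.2⟩

theorem tree_galois (n : ℕ) : IsGalois E (adjoin E (tree Ω n)) := by
  have hsp : IsSplittingField E (adjoin E (tree Ω n)) (iter E n - 1) := by
    rw [tree_eq_rootSet (E := E)]
    exact IntermediateField.adjoin_rootSet_isSplittingField (IsAlgClosed.splits _)
  have hnormal : Normal E (adjoin E (tree Ω n)) := Normal.of_isSplittingField (iter E n - 1)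
  exact ⟨⟩

theorem BF.tr (h : BF E Ω) (n : ℕ) : ∃ w : adjoin E (tree Ω n), TR E (adjoin E (tree Ω n)) w := by
  obtain ⟨hfin, w, hw, hwn⟩ := h.good_tree n
  refine ⟨⟨w, hw⟩, ?_⟩
  have h2 : ‖(2 : adjoin E (tree Ω n))‖ = ‖(2 : Ω)‖ := rfl
  have hnormal : Normal E Ω := by
    have : IsAlgClosure E Ω := ⟨inferInstance, inferInstance⟩
    exact IsAlgClosure.normal E Ω
  exact
    { pos := by rw [h2]; exact h.pos
      lt := by rw [h2]; exact h.lt
      val := by rw [h2]; exact h.val
      iso := by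
        intro g x
        have h3 := h.iso (g.liftNormal Ω) x
        have h4 : g.liftNormal Ω (x : Ω) = (g x : Ω) := g.liftNormal_commutes Ω x
        rw [h4] at h3
        exact h3
      unif := hwn }

theorem BF.aux (h : BF E Ω) (n : ℕ) :
    (∀ x ∈ tree Ω n, ∀ b : Ω, b ^ 2 = 1 + x → b ∉ adjoin E (tree Ω n)) ∧
    (Odd n → ∀ x ∈ tree Ω n, ∀ η : Ω, η ^ 2 = -x → η ∉ adjoin E (tree Ω (n + 1))) := by
  classical
  obtain ⟨w, hw⟩ := h.tr (n + 1)
  set K := adjoin E (tree Ω (n + 1)) with hK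
  have hfin : FiniteDimensional E K := (h.good_tree (n + 1)).1
  have hgal : IsGalois E K := tree_galois (n + 1)
  have hsub : ∀ H : Subgroup (K ≃ₐ[E] K), Fintype H := fun H => Fintype.ofFinite H
  have hroot : ∀ j ≤ n, ∀ a ∈ tree K j, ∃ b : K, b ^ 2 = 1 + a := by
    intro j hj a ha
    rw [mem_tree_sub] at ha
    obtain ⟨b, hb, hb'⟩ := exists_child ha
    refine ⟨⟨b, tree_le_adjoin (by omega) hb'⟩, ?_⟩
    apply Subtype.ext
    exact hb
  have hgen : ∀ g : K ≃ₐ[E] K, (∀ t ∈ tree K (n + 1), g t = t) → g = 1 := by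
    intro g hg
    have h1 : ∀ (y : Ω) (hy : y ∈ adjoin E (tree Ω (n + 1))) (hy' : y ∈ K),
        g ⟨y, hy'⟩ = ⟨y, hy'⟩ := by
      have hle : adjoin E (tree Ω (n + 1)) ≤ K := le_rfl
      intro y hy
      induction hy using IntermediateField.adjoin_induction with
      | mem x hx =>
        intro _
        apply hg
        rw [mem_tree_sub]
        exact hx
      | algebraMap x => intro _; exact g.commutes x
      | add x y hx hy ihx ihy =>
        intro _
        have : (⟨x + y, add_mem (hle hx) (hle hy)⟩ : K) = ⟨x, hle hx⟩ + ⟨y, hle hy⟩ := rfl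
        rw [this, map_add, ihx, ihy]
      | inv x hx ihx =>
        intro _
        have : (⟨x⁻¹, inv_mem (hle hx)⟩ : K) = (⟨x, hle hx⟩)⁻¹ := rfl
        rw [this, map_inv₀, ihx]
      | mul x y hx hy ihx ihy =>
        intro _
        have : (⟨x * y, mul_mem (hle hx) (hle hy)⟩ : K) = ⟨x, hle hx⟩ * ⟨y, hle hy⟩ := rfl
        rw [this, map_mul, ihx, ihy]
    ext y
    rw [h1 y.1 y.2 y.2]
    rfl
  refine ⟨?_, ?_⟩
  · intro x hx b hb hmem
    have hxK : x ∈ K := tree_le_adjoin (Nat.le_succ n) hx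
    have hb' : b ∈ tree Ω (n + 1) := by
      rw [mem_tree_succ, hb]
      simpa using hx
    have hbK : b ∈ K := subset_adjoin E _ hb'
    have hx' : (⟨x, hxK⟩ : K) ∈ tree K n := mem_tree_sub K |>.2 hx
    obtain ⟨g, hg, hgb⟩ := hw.stepA hroot hgen (b := ⟨b, hbK⟩) hx' (Subtype.ext hb)
    apply hgb
    have h1 : ∀ (y : Ω) (hy : y ∈ adjoin E (tree Ω n)) (hy' : y ∈ K), g ⟨y, hy'⟩ = ⟨y, hy'⟩ := by
      have hle : adjoin E (tree Ω n) ≤ K := by
        rw [adjoin_le_iff]
        exact tree_le_adjoin (Nat.le_succ n)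
      intro y hy
      induction hy using IntermediateField.adjoin_induction with
      | mem x hx =>
        intro _
        apply hg
        rw [mem_tree_sub]
        exact hx
      | algebraMap x => intro _; exact g.commutes x
      | add x y hx hy ihx ihy =>
        intro _
        have : (⟨x + y, add_mem (hle hx) (hle hy)⟩ : K) = ⟨x, hle hx⟩ + ⟨y, hle hy⟩ := rfl
        rw [this, map_add, ihx, ihy]
      | inv x hx ihx =>
        intro _
        have : (⟨x⁻¹, inv_mem (hle hx)⟩ : K) = (⟨x, hle hx⟩)⁻¹ := rfl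
        rw [this, map_inv₀, ihx]
      | mul x y hx hy ihx ihy =>
        intro _
        have : (⟨x * y, mul_mem (hle hx) (hle hy)⟩ : K) = ⟨x, hle hx⟩ * ⟨y, hle hy⟩ := rfl
        rw [this, map_mul, ihx, ihy]
    exact h1 b hmem hbK
  · intro hn x hx η hη hmem
    have hxK : x ∈ K := tree_le_adjoin (Nat.le_succ n) hx
    have hx' : (⟨x, hxK⟩ : K) ∈ tree K n := mem_tree_sub K |>.2 hx
    exact hw.stepB hn hroot hgen hx' ⟨η, hmem⟩ (Subtype.ext hη)

end concl

end Pool.Agent.V11279.Dyn
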