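import Pool.Agent.V11279.Dyn7

set_option autoImplicit false
set_option linter.unusedSectionVars false

/-!
# The base field: `ℚ₂` with all roots of unity of odd order
-/

namespace Pool.Agent.V11279.Dyn

open Polynomial IntermediateField Module

/-- An algebraic closure of `ℚ₂`. -/
abbrev Om := PadicAlgCl 2

theorem Om_norm_two : ‖(2 : Om)‖ = 1 / 2 := by
  have h1 : (2 : Om) = algebraMap ℚ_[2] Om 2 := (map_ofNat (algebraMap ℚ_[2] Om) 2).symm
  rw [h1, norm_algebraMap', show (2 : ℚ_[2]) = ((2 : ℕ) : ℚ_[2]) by norm_num, Padic.norm_p]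
  norm_num

theorem Om_norm_odd {N : ℕ} (hN : Odd N) : ‖(N : Om)‖ = 1 := by
  obtain ⟨k, rfl⟩ := hN
  have h1 : ‖(2 * k : Om)‖ < 1 := by
    rw [norm_mul, Om_norm_two]
    have := IsUltrametricDist.norm_natCast_le_one Om k
    linarith
  push_cast
  rw [IsUltrametricDist.norm_add_eq_max_of_norm_ne_norm (by rw [norm_one]; exact h1.ne),
    norm_one, max_eq_right h1.le]

/-- distinct roots of unity of odd order are far apart. -/
theorem root_eq_one {N : ℕ} (hN : Odd N) {r : Om} (hr : r ^ N = 1) (hr1 : ‖r - 1‖ < 1) : r = 1 := by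
  by_contra hne
  have h1 : (r - 1) * ∑ i ∈ Finset.range N, r ^ i = 0 := by
    rw [mul_geom_sum, hr, sub_self]
  have h2 : ∑ i ∈ Finset.range N, r ^ i = 0 :=
    (mul_eq_zero.1 h1).resolve_left (sub_ne_zero.2 hne)
  have hrn : ‖r‖ ≤ 1 := by
    have : r = (r - 1) + 1 := by ring
    rw [this]
    exact (IsUltrametricDist.norm_add_le_max _ _).trans (max_le hr1.le norm_one.le)
  have h3 : ‖∑ i ∈ Finset.range N, (r ^ i - 1)‖ ≤ ‖r - 1‖ := by
    apply IsUltrametricDist.norm_sum_le_of_forall_le_of_nonneg (norm_nonneg _)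
    intro i _
    have := norm_pow_sub_pow_le hrn (norm_one.le : ‖(1 : Om)‖ ≤ 1) i
    rwa [one_pow] at this
  rw [Finset.sum_sub_distrib, h2, zero_sub, norm_neg] at h3
  simp only [Finset.sum_const, Finset.card_range, nsmul_eq_mul, mul_one] at h3
  rw [Om_norm_odd hN] at h3
  exact absurd hr1 (not_lt.2 h3)

/-- every unit is close to a root of unity of odd order, first step. -/
theorem exists_pow_close (u : Om) (hu : ‖u‖ = 1) : ∃ N : ℕ, Odd N ∧ ‖u ^ N - 1‖ < 1 := by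
  -- compactness
  have h1 : ∃ M : ℕ, 0 < M ∧ ‖u ^ M - 1‖ < 1 := by
    have hint : IsIntegral ℚ_[2] u := (Algebra.IsAlgebraic.isAlgebraic u).isIntegral
    have hfd : FiniteDimensional ℚ_[2] ℚ_[2]⟮u⟯ := adjoin.finiteDimensional hint
    let S : Submodule ℚ_[2] Om := Subalgebra.toSubmodule (ℚ_[2]⟮u⟯).toSubalgebra
    have hfdS : FiniteDimensional ℚ_[2] S := hfd
    have hproper : ProperSpace S := FiniteDimensional.proper ℚ_[2] S
    let a : ℕ → S := fun k => ⟨u ^ k, pow_mem (mem_adjoin_simple_self ℚ_[2] u) k⟩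
    have ha : ∀ k, a k ∈ Metric.closedBall (0 : S) 1 := by
      intro k
      rw [mem_closedBall_zero_iff]
      show ‖u ^ k‖ ≤ 1
      rw [norm_pow, hu, one_pow]
    obtain ⟨x, _, φ, hφ, hlim⟩ := (isCompact_closedBall (0 : S) 1).tendsto_subseq ha
    have hc := hlim.cauchySeq
    rw [Metric.cauchySeq_iff'] at hc
    obtain ⟨N, hN⟩ := hc 1 one_pos
    have h2 := hN (N + 1) (Nat.le_succ N)
    rw [dist_eq_norm] at h2
    have h3 : ‖u ^ φ (N + 1) - u ^ φ N‖ < 1 := h2
    have h4 : φ N < φ (N + 1) := hφ (Nat.lt_succ_self N)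
    refine ⟨φ (N + 1) - φ N, by omega, ?_⟩
    have h5 : u ^ φ (N + 1) - u ^ φ N = u ^ φ N * (u ^ (φ (N + 1) - φ N) - 1) := by
      rw [mul_sub, ← pow_add, mul_one]
      congr 2
      omega
    rw [h5, norm_mul, norm_pow, hu, one_pow, one_mul] at h3
    exact h3
  obtain ⟨M, hM, hMu⟩ := h1
  obtain ⟨k, m, hm, rfl⟩ := Nat.exists_eq_two_pow_mul_odd hM.ne'
  refine ⟨m, hm, ?_⟩
  clear hM
  induction k with
  | zero => simpa using hMu
  | succ k ih =>
    apply ih
    have h2 : u ^ (2 ^ (k + 1) * m) - 1 = (u ^ (2 ^ k * m) - 1) * (u ^ (2 ^ k * m) - 1 + 2) := by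
      have : u ^ (2 ^ (k + 1) * m) = (u ^ (2 ^ k * m)) ^ 2 := by rw [← pow_mul]; congr 1; ring
      rw [this]; ring
    rw [h2, norm_mul] at hMu
    by_contra h3
    push Not at h3
    have h4 : ‖u ^ (2 ^ k * m) - 1 + 2‖ = ‖u ^ (2 ^ k * m) - 1‖ := by
      rw [IsUltrametricDist.norm_add_eq_max_of_norm_ne_norm, max_eq_left]
      · rw [Om_norm_two]; linarith
      · rw [Om_norm_two]; intro h5; rw [h5] at h3; norm_num at h3
    rw [h4] at hMu
    nlinarith

theorem exists_root_close (u : Om) (hu : ‖u‖ = 1) :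
    ∃ z : Om, (∃ N : ℕ, Odd N ∧ z ^ N = 1) ∧ ‖u - z‖ < 1 := by
  classical
  obtain ⟨N, hN, h1⟩ := exists_pow_close u hu
  have hNpos : 0 < N := hN.pos
  have : NeZero N := ⟨hNpos.ne'⟩
  obtain ⟨ζ, hζ⟩ := HasEnoughRootsOfUnity.exists_primitiveRoot Om N
  have h2 := X_pow_sub_one_eq_prod hNpos hζ
  have h3 := congrArg (eval u) h2
  rw [eval_prod] at h3
  simp only [eval_sub, eval_pow, eval_X, eval_one, eval_C] at h3
  by_contra hcon
  push Not at hcon
  have h4 : 1 ≤ ‖u ^ N - 1‖ := by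
    rw [h3, norm_prod]
    calc (1 : ℝ) = ∏ _z ∈ nthRootsFinset N (1 : Om), (1 : ℝ) := by simp
      _ ≤ _ := by
        apply Finset.prod_le_prod (fun _ _ => zero_le_one)
        intro z hz
        have hz' : z ^ N = 1 := (mem_nthRootsFinset hNpos 1).1 hz
        exact hcon z ⟨N, hN, hz'⟩
  exact absurd h1 (not_lt.2 h4)

end Pool.Agent.V11279.Dyn
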