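import Pool.Agent.V11279.Dyn8

set_option autoImplicit false
set_option linter.unusedSectionVars false

/-!
# The base field: value group
-/

namespace Pool.Agent.V11279.Dyn

open Polynomial IntermediateField Module

theorem Om_iso_hom (F : IntermediateField ℚ_[2] Om) (φ : F →ₐ[ℚ_[2]] Om) (y : F) :
    ‖φ y‖ = ‖(y : Om)‖ := by
  rw [← PadicAlgCl.spectralNorm_eq, ← PadicAlgCl.spectralNorm_eq]
  unfold spectralNorm
  rw [minpoly.algHom_eq φ φ.injective]
  rw [show ((y : Om)) = F.val y from rfl, minpoly.algHom_eq F.val F.val.injective]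

theorem Padic_small {y : ℚ_[2]} (hy : ‖y‖ < 1) : ‖y‖ ≤ 1 / 2 := by
  have h1 := (Padic.norm_le_pow_iff_norm_lt_pow_add_one y (-1)).2 (by simpa using hy)
  rw [zpow_neg_one] at h1
  simpa using h1

theorem adj_small {ζ : Om} {N : ℕ} (hN : Odd N) (hζ : ζ ^ N = 1) {x : Om}
    (hx : x ∈ ℚ_[2]⟮ζ⟯) (hx1 : ‖x‖ < 1) : ‖x‖ ≤ 1 / 2 := by
  classical
  have hint : IsIntegral ℚ_[2] ζ := (Algebra.IsAlgebraic.isAlgebraic ζ).isIntegral
  have hfd : FiniteDimensional ℚ_[2] ℚ_[2]⟮ζ⟯ := adjoin.finiteDimensional hint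
  set F := ℚ_[2]⟮ζ⟯ with hF
  let x' : F := ⟨x, hx⟩
  let z : F := ⟨ζ, mem_adjoin_simple_self _ ζ⟩
  have hzn : ∀ φ : F →ₐ[ℚ_[2]] Om, (φ z) ^ N = 1 := by
    intro φ
    rw [← map_pow]
    have : z ^ N = 1 := Subtype.ext hζ
    rw [this, map_one]
  have hnorm : ∀ r : Om, r ^ N = 1 → ‖r‖ = 1 := by
    intro r hr
    have h1 : ‖r‖ ^ N = 1 := by rw [← norm_pow, hr, norm_one]
    exact (pow_eq_one_iff_of_nonneg (norm_nonneg r) hN.pos.ne').1 h1
  have hinj : ∀ φ ψ : F →ₐ[ℚ_[2]] Om, φ z = ψ z → φ = ψ := by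
    intro φ ψ hφψ
    apply IntermediateField.adjoin_algHom_ext ℚ_[2]
    intro y hy
    obtain rfl : y = ζ := hy
    exact hφψ
  have hfar : ∀ φ ψ : F →ₐ[ℚ_[2]] Om, φ ≠ ψ → ‖φ z - ψ z‖ = 1 := by
    intro φ ψ hne
    have h1 : φ z ≠ 0 := by
      intro h0
      have := hnorm _ (hzn φ)
      rw [h0, norm_zero] at this
      exact zero_ne_one this
    have h2 : ‖ψ z / φ z - 1‖ = ‖φ z - ψ z‖ := by
      have h3 : ψ z / φ z - 1 = -(φ z - ψ z) / φ z := by field_simp; ring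
      rw [h3, norm_div, hnorm _ (hzn φ), div_one, norm_neg]
    rw [← h2]
    apply le_antisymm
    · have h4 : ‖ψ z / φ z‖ = 1 := by rw [norm_div, hnorm _ (hzn φ), hnorm _ (hzn ψ), div_one]
      have h5 : ψ z / φ z - 1 = ψ z / φ z + -1 := by ring
      rw [h5]
      refine (IsUltrametricDist.norm_add_le_max _ _).trans (max_le h4.le ?_)
      rw [norm_neg, norm_one]
    · by_contra h4
      push Not at h4
      have h5 := root_eq_one hN (r := ψ z / φ z) (by rw [div_pow, hzn, hzn, div_one]) h4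
      rw [div_eq_one_iff_eq h1] at h5
      exact hne (hinj _ _ h5.symm)
  -- the interpolation polynomial
  have hzb : ∀ φ : F →ₐ[ℚ_[2]] Om, ‖φ z‖ ≤ 1 := fun φ => (hnorm _ (hzn φ)).le
  have hcb : ∀ φ : F →ₐ[ℚ_[2]] Om, ‖(ζ - φ z)⁻¹‖ ≤ 1 := by
    intro φ
    by_cases hφ : φ = F.val
    · subst hφ
      have : F.val z = ζ := rfl
      rw [this, sub_self, inv_zero, norm_zero]
      exact zero_le_one
    · have h1 := hfar F.val φ (Ne.symm hφ)
      have : F.val z = ζ := rfl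
      rw [this] at h1
      rw [norm_inv, h1, inv_one]
  let Q : (ball Om)[X] := ∏ φ ∈ Finset.univ.erase F.val,
    ((X - C (⟨φ z, hzb φ⟩ : ball Om)) * C (⟨(ζ - φ z)⁻¹, hcb φ⟩ : ball Om))
  have hQeval : ∀ r : Om, (Q.map (ball Om).subtype).eval r =
      ∏ φ ∈ Finset.univ.erase F.val, ((r - φ z) * (ζ - φ z)⁻¹) := by
    intro r
    simp only [Q, Polynomial.map_prod, eval_prod]
    apply Finset.prod_congr rfl
    intro φ _
    simp
  have hQ1 : (Q.map (ball Om).subtype).eval ζ = 1 := by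
    rw [hQeval]
    apply Finset.prod_eq_one
    intro φ hφ
    rw [Finset.mem_erase] at hφ
    apply mul_inv_cancel₀
    have h1 := hfar F.val φ (Ne.symm hφ.1)
    have h2 : F.val z = ζ := rfl
    rw [h2] at h1
    intro h0
    rw [h0, norm_zero] at h1
    exact zero_ne_one h1
  have hQ0 : ∀ φ : F →ₐ[ℚ_[2]] Om, φ ≠ F.val → (Q.map (ball Om).subtype).eval (φ z) = 0 := by
    intro φ hφ
    rw [hQeval]
    apply Finset.prod_eq_zero (i := φ)
    · rw [Finset.mem_erase]; exact ⟨hφ, Finset.mem_univ _⟩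
    · rw [sub_self, zero_mul]
  have hsum : x = ∑ j ∈ Finset.range ((Q.map (ball Om).subtype).natDegree + 1),
      (Q.map (ball Om).subtype).coeff j *
        algebraMap ℚ_[2] Om (Algebra.trace ℚ_[2] F (x' * z ^ j)) := by
    have h1 : x = ∑ φ : F →ₐ[ℚ_[2]] Om, φ x' * (Q.map (ball Om).subtype).eval (φ z) := by
      rw [Finset.sum_eq_single F.val]
      · have h2 : F.val z = ζ := rfl
        rw [h2, hQ1, mul_one]
        rfl
      · intro φ _ hφ
        rw [hQ0 φ hφ, mul_zero]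
      · intro h; exact absurd (Finset.mem_univ _) h
    conv_lhs => rw [h1]
    simp only [eval_eq_sum_range, trace_eq_sum_embeddings Om, Finset.mul_sum]
    rw [Finset.sum_comm]
    apply Finset.sum_congr rfl
    intro j _
    apply Finset.sum_congr rfl
    intro φ _
    rw [map_mul, map_pow]
    ring
  rw [hsum]
  apply IsUltrametricDist.norm_sum_le_of_forall_le_of_nonneg (by norm_num)
  intro j _
  rw [norm_mul]
  have h1 : ‖(Q.map (ball Om).subtype).coeff j‖ ≤ 1 := by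
    rw [coeff_map]
    exact (Q.coeff j).2
  have h2 : ‖algebraMap ℚ_[2] Om (Algebra.trace ℚ_[2] F (x' * z ^ j))‖ < 1 := by
    have h3 : ‖algebraMap ℚ_[2] Om (Algebra.trace ℚ_[2] F (x' * z ^ j))‖ ≤ ‖x‖ := by
      rw [trace_eq_sum_embeddings Om]
      apply IsUltrametricDist.norm_sum_le_of_forall_le_of_nonneg (norm_nonneg _)
      intro φ _
      rw [map_mul, map_pow, norm_mul, norm_pow, hnorm _ (hzn φ), one_pow, mul_one, Om_iso_hom]
    exact h3.trans_lt hx1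
  rw [norm_algebraMap'] at h2
  have h3 := Padic_small h2
  rw [norm_algebraMap']
  calc _ ≤ 1 * ‖Algebra.trace ℚ_[2] F (x' * z ^ j)‖ := mul_le_mul_of_nonneg_right h1 (norm_nonneg _)
    _ ≤ 1 / 2 := by rw [one_mul]; exact h3

/-- the set of roots of unity of odd order. -/
def oddRoots : Set Om := {z | ∃ N : ℕ, Odd N ∧ z ^ N = 1}

theorem exists_common (T : Finset Om) (hT : (T : Set Om) ⊆ oddRoots) :
    ∃ N : ℕ, Odd N ∧ ∀ z ∈ T, z ^ N = 1 := by
  classical
  induction T using Finset.induction_on with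
  | empty => exact ⟨1, odd_one, by simp⟩
  | insert a T ha ih =>
    obtain ⟨N, hN, hNT⟩ := ih (fun z hz => hT (by simp [Finset.mem_coe.1 hz]))
    obtain ⟨M, hM, hMa⟩ := hT (show a ∈ ((insert a T : Finset Om) : Set Om) by simp)
    refine ⟨N * M, hN.mul hM, ?_⟩
    intro z hz
    rcases Finset.mem_insert.1 hz with rfl | hz
    · rw [mul_comm, pow_mul, hMa, one_pow]
    · rw [pow_mul, hNT z hz, one_pow]

theorem exists_single {x : Om} (hx : x ∈ adjoin ℚ_[2] oddRoots) :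
    ∃ ζ : Om, ∃ N : ℕ, Odd N ∧ ζ ^ N = 1 ∧ x ∈ ℚ_[2]⟮ζ⟯ := by
  obtain ⟨T, hT, hxT⟩ := IntermediateField.exists_finset_of_mem_adjoin hx
  obtain ⟨N, hN, hNT⟩ := exists_common T hT
  have : NeZero N := ⟨hN.pos.ne'⟩
  obtain ⟨ζ, hζ⟩ := HasEnoughRootsOfUnity.exists_primitiveRoot Om N
  refine ⟨ζ, N, hN, hζ.pow_eq_one, ?_⟩
  have hle : adjoin ℚ_[2] (T : Set Om) ≤ ℚ_[2]⟮ζ⟯ := by
    rw [adjoin_le_iff]
    intro z hz
    obtain ⟨i, _, hi⟩ := hζ.eq_pow_of_pow_eq_one (hNT z (Finset.mem_coe.1 hz))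
    rw [← hi]
    exact pow_mem (mem_adjoin_simple_self _ ζ) i
  exact hle hxT

/-- the base field. -/
noncomputable def EE : IntermediateField ℚ_[2] Om := adjoin ℚ_[2] oddRoots

theorem EE_small {x : Om} (hx : x ∈ EE) (hx1 : ‖x‖ < 1) : ‖x‖ ≤ 1 / 2 := by
  obtain ⟨ζ, N, hN, hζ, hxζ⟩ := exists_single hx
  exact adj_small hN hζ hxζ hx1

theorem EE_base : BF EE Om where
  pos := by rw [Om_norm_two]; norm_num
  lt := by rw [Om_norm_two]; norm_num
  val := by
    intro c hc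
    have hc0 : (c : Om) ≠ 0 := fun h0 => hc (Subtype.ext h0)
    obtain ⟨k, hk⟩ := exists_mem_Ioc_zpow (norm_pos_iff.2 hc0) (by norm_num : (1 : ℝ) < 2)
    rw [Set.mem_Ioc] at hk
    have h2 : (2 : Om) ∈ EE := by exact_mod_cast _root_.natCast_mem EE 2
    have h2n : ‖(2 : Om) ^ (k + 1)‖ = ((2 : ℝ) ^ (k + 1))⁻¹ := by
      rw [norm_zpow, Om_norm_two, one_div, inv_zpow]
    have h3 : (c : Om) * 2 ^ (k + 1) ∈ EE := mul_mem c.2 (EE.pow_mem h2 (k + 1))
    have hpos : (0 : ℝ) < 2 ^ (k + 1) := by positivity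
    have h4 : ‖(c : Om) * 2 ^ (k + 1)‖ ≤ 1 := by
      rw [norm_mul, h2n, ← div_eq_mul_inv, div_le_one hpos]
      exact hk.2
    have h5 : 1 / 2 < ‖(c : Om) * 2 ^ (k + 1)‖ := by
      rw [norm_mul, h2n, ← div_eq_mul_inv, lt_div_iff₀ hpos, zpow_add_one₀ (by norm_num)]
      linarith [hk.1]
    have h6 : ‖(c : Om) * 2 ^ (k + 1)‖ = 1 := by
      rcases h4.lt_or_eq with h7 | h7
      · exact absurd (EE_small h3 h7) (not_le.2 h5)
      · exact h7
    refine ⟨-(k + 1), ?_⟩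
    show ‖(c : Om)‖ = _
    rw [norm_mul, norm_zpow] at h6
    rw [zpow_neg]
    exact eq_inv_of_mul_eq_one_left h6
  iso := by
    intro g x
    have h1 := spectralNorm_eq_of_equiv (K := ℚ_[2]) (g.restrictScalars ℚ_[2]) x
    rw [PadicAlgCl.spectralNorm_eq, PadicAlgCl.spectralNorm_eq] at h1
    exact h1.symm
  res := by
    intro u hu
    obtain ⟨z, hz, hz1⟩ := exists_root_close u hu
    exact ⟨⟨z, subset_adjoin _ _ hz⟩, hz1⟩

end Pool.Agent.V11279.Dyn
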