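import Mathlib

set_option autoImplicit false

/-!
# The canonical nonclassical Hopf-Galois structure of a Galois extension `L/K`

`G = Gal(L/K) = (L ≃ₐ[K] L)`, `N = λ(G) ⊆ Perm(G)`, `H_λ = L[N]^G`, the action of `H_λ` on `L` and
the associated order of a subset of `L`.
-/

namespace Pool.Agent.V11279.HG

section defs

variable (K L : Type) [Field K] [Field L] [Algebra K L]

/-- The left regular embedding `λ : G → Perm(G)`, `λ(g)(h) = g h`, of `G = Gal(L/K)`. -/
def lam : (L ≃ₐ[K] L) →* Equiv.Perm (L ≃ₐ[K] L) where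
  toFun g := Equiv.mulLeft g
  map_one' := by ext h x; simp
  map_mul' g h := by ext k x; simp

/-- `N = λ(G)`, a subgroup of `Perm(G)`. -/
def NN : Subgroup (Equiv.Perm (L ≃ₐ[K] L)) := (lam K L).range

/-- For `g ∈ G`, the automorphism `n ↦ λ(g) n λ(g)⁻¹` of `N`. -/
def conjN (g : L ≃ₐ[K] L) : NN K L →* NN K L where
  toFun n := ⟨lam K L g * n * (lam K L g)⁻¹, by
    obtain ⟨m, hm⟩ := n.2
    exact ⟨g * m * g⁻¹, by rw [← hm]; simp⟩⟩
  map_one' := by ext1; simp
  map_mul' a b := by ext1; simp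

/-- The action of `g ∈ G` on the group algebra `L[N]`:
`g · (∑ c_n n) = ∑ g(c_n) λ(g) n λ(g)⁻¹`. -/
noncomputable def galAct (g : L ≃ₐ[K] L) :
    MonoidAlgebra L (NN K L) →+* MonoidAlgebra L (NN K L) :=
  (MonoidAlgebra.mapDomainRingHom L (conjN K L g)).comp
    (MonoidAlgebra.mapRingHom (NN K L) (g : L →+* L))

variable {K L} in
theorem galAct_single (g : L ≃ₐ[K] L) (n : NN K L) (c : L) :
    galAct K L g (MonoidAlgebra.single n c) = MonoidAlgebra.single (conjN K L g n) (g c) := by
  simp [galAct]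

/-- `H_λ = L[N]^G`. -/
noncomputable def Hlam : Subalgebra K (MonoidAlgebra L (NN K L)) where
  carrier := {h | ∀ g : L ≃ₐ[K] L, galAct K L g h = h}
  mul_mem' {a b} ha hb g := by rw [map_mul, ha g, hb g]
  add_mem' {a b} ha hb g := by rw [map_add, ha g, hb g]
  algebraMap_mem' r g := by
    have h : algebraMap K (MonoidAlgebra L (NN K L)) r =
        MonoidAlgebra.single 1 (algebraMap K L r) := by
      simp
    rw [h, galAct_single]
    simp

/-- The action of `L[N]` on `L`: `(∑ c_n n) · x = ∑ c_n (n⁻¹(1_G))(x)`. -/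
noncomputable def act (h : MonoidAlgebra L (NN K L)) (x : L) : L :=
  h.coeff.sum fun n c => c * ((n : Equiv.Perm (L ≃ₐ[K] L))⁻¹ 1) x

end defs

section lemmas

variable {K L : Type} [Field K] [Field L] [Algebra K L]

theorem lam_injective : Function.Injective (lam K L) := by
  intro g h e
  have := congrArg (fun f : Equiv.Perm (L ≃ₐ[K] L) => f 1) e
  simpa [lam] using this

/-- `λ : G ≃ N`. -/
noncomputable def eN : (L ≃ₐ[K] L) ≃* NN K L := MonoidHom.ofInjective lam_injective

theorem eN_coe (g : L ≃ₐ[K] L) : ((eN g : NN K L) : Equiv.Perm (L ≃ₐ[K] L)) = lam K L g := rfl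

theorem eN_inv_one (g : L ≃ₐ[K] L) :
    ((eN g : NN K L) : Equiv.Perm (L ≃ₐ[K] L))⁻¹ 1 = g⁻¹ := by
  rw [eN_coe, ← map_inv]
  simp [lam]

theorem conjN_eN (g h : L ≃ₐ[K] L) : conjN K L g (eN h) = eN (g * h * g⁻¹) := by
  apply Subtype.ext
  simp [conjN, eN_coe]

theorem conjN_injective (g : L ≃ₐ[K] L) : Function.Injective (conjN K L g) := by
  intro a b h
  obtain ⟨a, rfl⟩ := eN.surjective a
  obtain ⟨b, rfl⟩ := eN.surjective b
  rw [conjN_eN, conjN_eN] at h
  have := eN.injective h
  congr 1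
  simpa using this

theorem coeff_galAct (g : L ≃ₐ[K] L) (h : MonoidAlgebra L (NN K L)) (n : NN K L) :
    (galAct K L g h).coeff (conjN K L g n) = g (h.coeff n) := by
  have : ∀ h : MonoidAlgebra L (NN K L), (galAct K L g h).coeff (conjN K L g n) = g (h.coeff n) := by
    intro h
    induction h using MonoidAlgebra.induction_linear with
    | zero => simp
    | add a b ha hb => simp [map_add, ha, hb]
    | single m c =>
      rw [galAct_single]
      classical
      rw [MonoidAlgebra.coeff_single, MonoidAlgebra.coeff_single, Finsupp.single_apply,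
        Finsupp.single_apply]
      by_cases hm : m = n
      · simp [hm]
      · rw [if_neg hm, if_neg (fun e => hm (conjN_injective g e)), map_zero]
  exact this h

theorem mem_Hlam_iff {h : MonoidAlgebra L (NN K L)} :
    h ∈ Hlam K L ↔ ∀ g k : L ≃ₐ[K] L, h.coeff (eN (g * k * g⁻¹)) = g (h.coeff (eN k)) := by
  constructor
  · intro hh g k
    have h1 := coeff_galAct g h (eN k)
    rw [hh g, conjN_eN] at h1
    exact h1
  · intro hh g
    apply MonoidAlgebra.coeff_injective
    ext n
    obtain ⟨m, rfl⟩ : ∃ m, n = conjN K L g m := by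
      obtain ⟨k, rfl⟩ := eN.surjective n
      refine ⟨eN (g⁻¹ * k * g), ?_⟩
      rw [conjN_eN]
      congr 1
      group
    obtain ⟨k, rfl⟩ := eN.surjective m
    rw [coeff_galAct, conjN_eN, hh]

variable [Fintype (L ≃ₐ[K] L)]

theorem act_eq (h : MonoidAlgebra L (NN K L)) (x : L) :
    act K L h x = ∑ g : L ≃ₐ[K] L, h.coeff (eN g) * g⁻¹ x := by
  classical
  have : Fintype (NN K L) := Fintype.ofEquiv _ eN.toEquiv
  unfold act
  rw [Finsupp.sum_fintype _ _ (by simp), ← Equiv.sum_comp eN.toEquiv]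
  apply Finset.sum_congr rfl
  intro g _
  simp only [MulEquiv.toEquiv_eq_coe, EquivLike.coe_coe, eN_inv_one]

theorem coeff_mul_eN (h h' : MonoidAlgebra L (NN K L)) (g : L ≃ₐ[K] L) :
    (h * h').coeff (eN g) = ∑ k : L ≃ₐ[K] L, h.coeff (eN k) * h'.coeff (eN (k⁻¹ * g)) := by
  classical
  have : Fintype (NN K L) := Fintype.ofEquiv _ eN.toEquiv
  rw [MonoidAlgebra.coeff_mul, Finsupp.sum_fintype _ _ (by simp), ← Equiv.sum_comp eN.toEquiv]
  apply Finset.sum_congr rfl
  intro k _
  rw [Finsupp.sum_fintype _ _ (by simp), ← Equiv.sum_comp eN.toEquiv,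
    Finset.sum_eq_single (k⁻¹ * g)]
  · simp [← map_mul]
  · intro b _ hb
    rw [if_neg]
    intro e
    simp only [MulEquiv.toEquiv_eq_coe, EquivLike.coe_coe, ← map_mul] at e
    apply hb
    rw [← eN.injective e]
    simp
  · simp

/-- The action of `L[N]` on `L` as a `K`-linear map. -/
noncomputable def actL (h : MonoidAlgebra L (NN K L)) : Module.End K L :=
  ∑ g : L ≃ₐ[K] L, (h.coeff (eN g)) • (g⁻¹).toLinearMap

theorem actL_apply (h : MonoidAlgebra L (NN K L)) (x : L) :
    actL h x = ∑ g : L ≃ₐ[K] L, h.coeff (eN g) * g⁻¹ x := by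
  simp [actL, LinearMap.sum_apply]

theorem act_eq_actL (h : MonoidAlgebra L (NN K L)) (x : L) : act K L h x = actL h x := by
  rw [act_eq, actL_apply]

theorem actL_mul {h h' : MonoidAlgebra L (NN K L)} (hh' : h' ∈ Hlam K L) (x : L) :
    actL (h * h') x = actL h (actL h' x) := by
  rw [actL_apply, actL_apply, actL_apply]
  simp only [coeff_mul_eN, map_sum, Finset.sum_mul, Finset.mul_sum]
  rw [Finset.sum_comm]
  apply Finset.sum_congr rfl
  intro k _
  rw [← Equiv.sum_comp (MulAut.conj k).toEquiv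
    (fun b => h.coeff (eN k) * k⁻¹ (h'.coeff (eN b) * b⁻¹ x))]
  rw [← Equiv.sum_comp (Equiv.mulLeft k)]
  apply Finset.sum_congr rfl
  intro b _
  simp only [Equiv.coe_mulLeft, MulEquiv.toEquiv_eq_coe, EquivLike.coe_coe,
    MulAut.conj_apply]
  rw [mem_Hlam_iff.1 hh' k b, mul_assoc, inv_mul_cancel_left, map_mul k⁻¹]
  have e1 : k⁻¹ (k (h'.coeff (eN b))) = h'.coeff (eN b) := by
    rw [← AlgEquiv.mul_apply]; simp
  have e2 : k⁻¹ ((k * b * k⁻¹)⁻¹ x) = (k * b)⁻¹ x := by
    rw [← AlgEquiv.mul_apply]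
    congr 1
    group
  rw [e1, e2]

theorem actL_one (x : L) : actL (1 : MonoidAlgebra L (NN K L)) x = x := by
  classical
  rw [actL_apply, Finset.sum_eq_single 1]
  · rw [map_one, MonoidAlgebra.coeff_one_one]; simp
  · intro g _ hg
    rw [MonoidAlgebra.one_def, MonoidAlgebra.coeff_single, Finsupp.single_apply, if_neg, zero_mul]
    intro e
    apply hg
    apply eN.injective
    rw [← e, map_one]
  · simp

theorem actL_comm {h : MonoidAlgebra L (NN K L)} (hh : h ∈ Hlam K L) (g : L ≃ₐ[K] L) (x : L) :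
    actL h (g x) = g (actL h x) := by
  rw [actL_apply, actL_apply, map_sum]
  rw [← Equiv.sum_comp (MulAut.conj g).toEquiv]
  apply Finset.sum_congr rfl
  intro b _
  simp only [MulEquiv.toEquiv_eq_coe, EquivLike.coe_coe, MulAut.conj_apply]
  rw [mem_Hlam_iff.1 hh g b, map_mul g]
  congr 1
  rw [← AlgEquiv.mul_apply, ← AlgEquiv.mul_apply]
  congr 1
  group

theorem actL_add (h h' : MonoidAlgebra L (NN K L)) : actL (h + h') = actL h + actL h' := by
  ext x
  simp [actL_apply, add_mul, Finset.sum_add_distrib]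

theorem actL_smul {R : Type} [CommRing R] [Algebra R L] [Algebra R K] [IsScalarTower R K L]
    (r : R) (h : MonoidAlgebra L (NN K L)) (x : L) :
    actL (r • h) x = r • actL h x := by
  simp [actL_apply, Finset.smul_sum]

end lemmas

end Pool.Agent.V11279.HG
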