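import Pool.Agent.V11279.HG

set_option autoImplicit false

/-!
# Orders of `H_λ` and the associated order
-/

namespace Pool.Agent.V11279.HG

section order

variable (R K L : Type) [CommRing R] [Field K] [Field L] [Algebra R K] [Algebra K L] [Algebra R L]
  [IsScalarTower R K L]

/-- `Λ` is an `R`-order of the `K`-algebra `H` (a `K`-subalgebra of `A`): `Λ` is a subring of `H`
which contains `R`, is finitely generated as an `R`-module and spans `H` over `K`. -/
def IsOrder {A : Type} [Ring A] [Algebra R A] [Algebra K A] (Λ : Subalgebra R A)
    (H : Subalgebra K A) : Prop :=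
  (Subalgebra.toSubmodule Λ).FG ∧ Submodule.span K (Λ : Set A) = Subalgebra.toSubmodule H

/-- `Λ` is a maximal `R`-order of `H`: it is an order and no order of `H` properly contains it. -/
def IsMaximalOrder {A : Type} [Ring A] [Algebra R A] [Algebra K A] (Λ : Subalgebra R A)
    (H : Subalgebra K A) : Prop :=
  IsOrder R K Λ H ∧ ∀ Λ' : Subalgebra R A, IsOrder R K Λ' H → Λ ≤ Λ' → Λ' = Λ

/-- The associated order `{h ∈ H_λ : h · B ⊆ B}` of the `R`-submodule `B` of `L`. -/
noncomputable def assocLam [FiniteDimensional K L] (B : Submodule R L) :
    Subalgebra R (MonoidAlgebra L (NN K L)) where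
  carrier := {h | h ∈ Hlam K L ∧ ∀ x ∈ B, act K L h x ∈ B}
  mul_mem' {a b} ha hb := by
    classical
    refine ⟨mul_mem ha.1 hb.1, fun x hx => ?_⟩
    rw [act_eq_actL, actL_mul hb.1, ← act_eq_actL, ← act_eq_actL]
    exact ha.2 _ (hb.2 _ hx)
  add_mem' {a b} ha hb := by
    classical
    refine ⟨add_mem ha.1 hb.1, fun x hx => ?_⟩
    rw [act_eq_actL, actL_add, LinearMap.add_apply, ← act_eq_actL, ← act_eq_actL]
    exact add_mem (ha.2 _ hx) (hb.2 _ hx)
  algebraMap_mem' r := by
    classical
    refine ⟨?_, fun x hx => ?_⟩
    · rw [IsScalarTower.algebraMap_apply R K (MonoidAlgebra L (NN K L))]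
      exact Subalgebra.algebraMap_mem _ _
    · rw [Algebra.algebraMap_eq_smul_one, act_eq_actL, actL_smul (K := K), actL_one]
      exact B.smul_mem _ hx

end order

section integrality

open Polynomial

theorem isIntegral_trace_matrix {R L n : Type} [CommRing R] [Field L] [Algebra R L] [Fintype n]
    [DecidableEq n] (M : Matrix n n L) (p : R[X]) (hp : p.Monic)
    (h : aeval M (p.map (algebraMap R L)) = 0) : IsIntegral R M.trace := by
  let Ω := AlgebraicClosure L
  rcases isEmpty_or_nonempty n with hn | hn
  · simp [Matrix.trace, isIntegral_zero]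
  rw [← isIntegral_algebraMap_iff (algebraMap L Ω).injective]
  have h1 : algebraMap L Ω M.trace = (M.map (algebraMap L Ω)).trace := by
    simp [Matrix.trace, map_sum]
  have h2 : aeval (M.map (algebraMap L Ω)) (p.map (algebraMap R Ω)) = 0 := by
    have h3 := congrArg ((algebraMap L Ω).mapMatrix) h
    rw [map_zero] at h3
    rw [← h3]
    rw [aeval_def, aeval_def, hom_eval₂, eval₂_map, eval₂_map]
    congr 1
    ext r i j
    simp only [RingHom.coe_comp, Function.comp_apply, Matrix.algebraMap_matrix_apply,
      RingHom.mapMatrix_apply, Matrix.map_apply, Algebra.algebraMap_self, RingHom.id_apply]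
    split_ifs
    · exact IsScalarTower.algebraMap_apply R L Ω r
    · simp
  rw [h1, Matrix.trace_eq_sum_roots_charpoly]
  apply IsIntegral.multiset_sum
  intro μ hμ
  have h4 := Matrix.mem_spectrum_of_isRoot_charpoly (isRoot_of_mem_roots hμ)
  have h5 := spectrum.subset_polynomial_aeval (M.map (algebraMap L Ω)) (p.map (algebraMap R Ω))
    ⟨μ, h4, rfl⟩
  rw [h2, spectrum.zero_eq, Set.mem_singleton_iff] at h5
  refine ⟨p, hp, ?_⟩
  rw [← h5]
  simp only [eval_map]

theorem isIntegral_card_mul_coeff_one {R L : Type} [CommRing R] [Field L] [Algebra R L]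
    {G : Type} [Group G] [Finite G]
    (z : MonoidAlgebra L G) (hz : IsIntegral R z) :
    IsIntegral R ((Nat.card G : L) * z.coeff 1) := by
  classical
  have : Fintype G := Fintype.ofFinite G
  obtain ⟨p, hp, hp0⟩ := hz
  -- the matrix of left multiplication
  let ρ : MonoidAlgebra L G →ₐ[L] Matrix G G L :=
    MonoidAlgebra.lift L (Matrix G G L) G
      { toFun := fun g => Matrix.of fun i j => if g * j = i then (1 : L) else 0
        map_one' := by ext i j; simp [Matrix.one_apply, eq_comm]
        map_mul' := by
          intro g h
          ext i j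
          simp [Matrix.mul_apply, mul_assoc] }
  have h1 : (ρ z).trace = (Nat.card G : L) * z.coeff 1 := by
    have : ∀ z : MonoidAlgebra L G, (ρ z).trace = (Nat.card G : L) * z.coeff 1 := by
      intro z
      induction z using MonoidAlgebra.induction_linear with
      | zero => simp
      | add a b ha hb => rw [map_add, Matrix.trace_add, ha, hb]; simp [mul_add]
      | single m c =>
        simp only [ρ, MonoidAlgebra.lift_single, Matrix.trace_smul]
        simp only [Matrix.trace, MonoidHom.coe_mk, OneHom.coe_mk, Matrix.diag_apply, Matrix.of_apply,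
          MonoidAlgebra.coeff_single, Finsupp.single_apply, mul_eq_right]
        by_cases hm : m = 1
        · simp [hm, Nat.card_eq_fintype_card, mul_comm]
        · simp [hm]
    exact this z
  rw [← h1]
  apply isIntegral_trace_matrix _ p hp
  have h2 : aeval z (p.map (algebraMap R L)) = 0 := by
    rw [aeval_def, eval₂_map, ← IsScalarTower.algebraMap_eq]
    exact hp0
  rw [aeval_algHom_apply, h2, map_zero]

end integrality

section main

variable {R K L : Type} [CommRing R] [Field K] [Field L] [Algebra R K] [Algebra K L] [Algebra R L]
  [IsScalarTower R K L]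

theorem mem_assocLam [FiniteDimensional K L] {B : Submodule R L} {h : MonoidAlgebra L (NN K L)} :
    h ∈ assocLam R K L B ↔ h ∈ Hlam K L ∧ ∀ x ∈ B, act K L h x ∈ B := Iff.rfl

/-- An element of `L[N]` acting as zero on a spanning set of `L` is zero. -/
theorem eq_zero_of_actL [Fintype (L ≃ₐ[K] L)] {h : MonoidAlgebra L (NN K L)}
    (h0 : ∀ x, actL h x = 0) : h = 0 := by
  have hli : LinearIndependent L (fun g : L ≃ₐ[K] L => ((g⁻¹ : L ≃ₐ[K] L) : L → L)) := by
    have h1 := linearIndependent_monoidHom L L
    have h2 := h1.comp (fun g : L ≃ₐ[K] L => ((g⁻¹ : L ≃ₐ[K] L) : L →* L)) (by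
      intro a b hab
      apply inv_injective
      ext x
      exact DFunLike.congr_fun hab x)
    exact h2
  rw [Fintype.linearIndependent_iff] at hli
  have h3 := hli (fun g => h.coeff (eN g)) (by
    ext x
    have := h0 x
    rw [actL_apply] at this
    simpa [Finset.sum_apply] using this)
  apply MonoidAlgebra.coeff_injective
  ext n
  obtain ⟨g, rfl⟩ := eN.surjective n
  simpa using h3 g

variable [IsDomain R] [IsFractionRing R K] [FiniteDimensional K L]

/-- The associated order of a finitely generated `R`-submodule spanning `L` is an order. -/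
theorem isOrder_assocLam [IsNoetherianRing R] (B : Submodule R L) (hB : B.FG)
    (hspan : ∀ x : L, ∃ r : R, r ≠ 0 ∧ r • x ∈ B) :
    IsOrder R K (assocLam R K L B) (Hlam K L) := by
  classical
  constructor
  · obtain ⟨T, hT⟩ := hB
    have hfin : Module.Finite R B := Module.Finite.iff_fg.2 ⟨T, hT⟩
    have hnoe : IsNoetherian R (T → B) := inferInstance
    let f : assocLam R K L B →ₗ[R] (T → B) :=
      { toFun := fun h t => ⟨actL (h : MonoidAlgebra L (NN K L)) t, by
          have := h.2.2 (t : L) (by rw [← hT]; exact Submodule.subset_span t.2)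
          rwa [act_eq_actL] at this⟩
        map_add' := by
          intro a b
          ext t
          simp [actL_add]
        map_smul' := by
          intro r a
          ext t
          simp [actL_smul (K := K)] }
    have hf : Function.Injective f := by
      rw [injective_iff_map_eq_zero]
      intro h hh
      apply Subtype.ext
      apply eq_zero_of_actL (K := K)
      -- vanishes on B
      have h1 : ∀ x ∈ B, actL (h : MonoidAlgebra L (NN K L)) x = 0 := by
        intro x hx
        rw [← hT] at hx
        induction hx using Submodule.span_induction with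
        | mem t ht =>
          have := congrArg (fun u : T → B => ((u ⟨t, ht⟩ : B) : L)) hh
          simpa [f] using this
        | zero => simp
        | add a b _ _ ha hb => rw [map_add, ha, hb, add_zero]
        | smul r a _ ha =>
          rw [← IsScalarTower.algebraMap_smul K r a, map_smul, ha, smul_zero]
      intro x
      obtain ⟨r, hr, hrx⟩ := hspan x
      have h2 := h1 _ hrx
      rw [← IsScalarTower.algebraMap_smul K r x, map_smul, smul_eq_zero] at h2
      rcases h2 with h2 | h2
      · exact absurd ((map_eq_zero_iff _ (IsFractionRing.injective R K)).1 h2) hr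
      · exact h2
    have hfin2 : Module.Finite R (assocLam R K L B) := Module.Finite.of_injective f hf
    exact Module.Finite.iff_fg.1 hfin2
  · apply le_antisymm
    · rw [Submodule.span_le]
      intro h hh
      exact hh.1
    · intro h hh
      -- find r with r • h in the associated order
      obtain ⟨T, hT⟩ := hB
      have key : ∀ T' : Finset L, ∃ r : R, r ≠ 0 ∧ ∀ t ∈ T', r • t ∈ B := by
        intro T'
        induction T' using Finset.induction_on with
        | empty => exact ⟨1, one_ne_zero, by simp⟩
        | insert a s _ ih =>
          obtain ⟨r, hr, hrs⟩ := ih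
          obtain ⟨r', hr', ha⟩ := hspan a
          refine ⟨r * r', mul_ne_zero hr hr', fun t ht => ?_⟩
          rcases Finset.mem_insert.1 ht with rfl | ht
          · rw [mul_smul]; exact B.smul_mem _ ha
          · rw [mul_comm, mul_smul]; exact B.smul_mem _ (hrs t ht)
      obtain ⟨r, hr, hrT⟩ := key (T.image (fun t => actL h t))
      have hmem : r • h ∈ assocLam R K L B := by
        refine ⟨?_, fun x hx => ?_⟩
        · rw [← IsScalarTower.algebraMap_smul K r h]
          exact Subalgebra.smul_mem _ hh _
        · rw [act_eq_actL, actL_smul (K := K)]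
          rw [← hT] at hx
          induction hx using Submodule.span_induction with
          | mem t ht => exact hrT _ (Finset.mem_image_of_mem _ ht)
          | zero => simp
          | add a b _ _ ha hb => rw [map_add, smul_add]; exact add_mem ha hb
          | smul c a _ ha =>
            rw [← IsScalarTower.algebraMap_smul K c a, map_smul, IsScalarTower.algebraMap_smul,
              smul_comm]
            exact B.smul_mem _ ha
      have : h = (algebraMap R K r)⁻¹ • (r • h) := by
        rw [← IsScalarTower.algebraMap_smul K r h, smul_smul, inv_mul_cancel₀, one_smul]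
        rwa [Ne, map_eq_zero_iff _ (IsFractionRing.injective R K)]
      rw [this]
      exact Submodule.smul_mem _ _ (Submodule.subset_span hmem)

end main

end Pool.Agent.V11279.HG
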