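import Pool.Agent.V11279.HG2

set_option autoImplicit false

/-!
# The classical structure `K[G]`, associated orders in `K[G]`, and Hopf orders
-/

namespace Pool.Agent.V11279.HG

open scoped TensorProduct

section defs

variable (R K L : Type) [CommRing R] [Field K] [Field L] [Algebra R K] [Algebra K L] [Algebra R L]
  [IsScalarTower R K L]

/-- The action of `K[G]` on `L`: `(∑ c_g g) · x = ∑ c_g g(x)`. -/
noncomputable def actC (z : MonoidAlgebra K (L ≃ₐ[K] L)) (x : L) : L :=
  z.coeff.sum fun g c => c • g x

variable {K L} in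
/-- The action of `K[G]` as an algebra homomorphism. -/
noncomputable def actCHom : MonoidAlgebra K (L ≃ₐ[K] L) →ₐ[K] Module.End K L :=
  MonoidAlgebra.lift K (Module.End K L) (L ≃ₐ[K] L)
    { toFun := fun g => g.toLinearMap
      map_one' := rfl
      map_mul' := fun _ _ => rfl }

variable {K L} in
theorem actC_eq (z : MonoidAlgebra K (L ≃ₐ[K] L)) (x : L) : actC K L z x = actCHom z x := by
  unfold actC actCHom
  rw [MonoidAlgebra.lift_apply, Finsupp.sum, Finsupp.sum, LinearMap.sum_apply]
  rfl

/-- The associated order `{z ∈ K[G] : z B ⊆ B}` of the `R`-submodule `B` of `L`. -/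
noncomputable def assocClass (B : Submodule R L) : Subalgebra R (MonoidAlgebra K (L ≃ₐ[K] L)) where
  carrier := {z | ∀ x ∈ B, actC K L z x ∈ B}
  mul_mem' {a b} ha hb x hx := by
    rw [actC_eq, map_mul, Module.End.mul_apply, ← actC_eq, ← actC_eq]
    exact ha _ (hb _ hx)
  add_mem' {a b} ha hb x hx := by
    rw [actC_eq, map_add, LinearMap.add_apply, ← actC_eq, ← actC_eq]
    exact add_mem (ha _ hx) (hb _ hx)
  algebraMap_mem' r x hx := by
    rw [actC_eq, IsScalarTower.algebraMap_apply R K (MonoidAlgebra K (L ≃ₐ[K] L)),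
      AlgHom.commutes, Module.algebraMap_end_apply, IsScalarTower.algebraMap_smul]
    exact B.smul_mem _ hx

/-- `Λ` is a Hopf order of `H`. Here `H` is a `K`-subalgebra of the group algebra `E[M]` (with
its usual Hopf algebra structure over `E`: `Δ(m) = m ⊗ m`, `ε(m) = 1`, `S(m) = m⁻¹`), `Λ` is an
`R`-order of `H`, and `Δ(Λ) ⊆ Λ ⊗_R Λ` (that is, `Δ(z)` is an `R`-linear combination of elements
`x ⊗ y` with `x, y ∈ Λ`), `ε(Λ) ⊆ R`, `S(Λ) ⊆ Λ`. -/
def IsHopfOrder {E M : Type} [Field E] [Group M] [Algebra K E] [Algebra R E]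
    (Λ : Subalgebra R (MonoidAlgebra E M)) (H : Subalgebra K (MonoidAlgebra E M)) : Prop :=
  IsOrder R K Λ H ∧
  (∀ z ∈ Λ, Coalgebra.comul (R := E) z ∈
    Submodule.span R {t : MonoidAlgebra E M ⊗[E] MonoidAlgebra E M |
      ∃ x ∈ Λ, ∃ y ∈ Λ, t = x ⊗ₜ[E] y}) ∧
  (∀ z ∈ Λ, ∃ r : R, Coalgebra.counit (R := E) z = algebraMap R E r) ∧
  (∀ z ∈ Λ, HopfAlgebra.antipode E z ∈ Λ)

end defs

section lemmas

variable {R K L : Type} [CommRing R] [Field K] [Field L] [Algebra R K] [Algebra K L] [Algebra R L]
  [IsScalarTower R K L]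

theorem actC_eq_sum [Fintype (L ≃ₐ[K] L)] (z : MonoidAlgebra K (L ≃ₐ[K] L)) (x : L) :
    actC K L z x = ∑ g : L ≃ₐ[K] L, z.coeff g • g x := by
  unfold actC
  rw [Finsupp.sum_fintype _ _ (by simp)]

theorem eq_zero_of_actC [Fintype (L ≃ₐ[K] L)] {z : MonoidAlgebra K (L ≃ₐ[K] L)}
    (h0 : ∀ x, actC K L z x = 0) : z = 0 := by
  have hli : LinearIndependent L (fun g : L ≃ₐ[K] L => ((g : L ≃ₐ[K] L) : L → L)) := by
    have h1 := linearIndependent_monoidHom L L
    have h2 := h1.comp (fun g : L ≃ₐ[K] L => ((g : L ≃ₐ[K] L) : L →* L)) (by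
      intro a b hab
      ext x
      exact DFunLike.congr_fun hab x)
    exact h2
  rw [Fintype.linearIndependent_iff] at hli
  have h3 := hli (fun g => algebraMap K L (z.coeff g)) (by
    ext x
    have := h0 x
    rw [actC_eq_sum] at this
    simpa [Finset.sum_apply, Algebra.smul_def] using this)
  apply MonoidAlgebra.coeff_injective
  ext g
  simpa using h3 g

variable [IsDomain R] [IsFractionRing R K] [FiniteDimensional K L]

/-- The associated order in `K[G]` of a finitely generated `R`-submodule spanning `L` which is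
stable under `G` is an order. -/
theorem isOrder_assocClass [IsNoetherianRing R] (B : Submodule R L) (hB : B.FG)
    (hspan : ∀ x : L, ∃ r : R, r ≠ 0 ∧ r • x ∈ B) (hG : ∀ g : L ≃ₐ[K] L, ∀ x ∈ B, g x ∈ B) :
    IsOrder R K (assocClass R K L B) ⊤ := by
  classical
  constructor
  · obtain ⟨T, hT⟩ := hB
    have hfin : Module.Finite R B := Module.Finite.iff_fg.2 ⟨T, hT⟩
    have hnoe : IsNoetherian R (T → B) := inferInstance
    let f : assocClass R K L B →ₗ[R] (T → B) :=
      { toFun := fun h t => ⟨actCHom (h : MonoidAlgebra K (L ≃ₐ[K] L)) t, by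
          have := h.2 (t : L) (by rw [← hT]; exact Submodule.subset_span t.2)
          rwa [actC_eq] at this⟩
        map_add' := by
          intro a b
          ext t
          simp
        map_smul' := by
          intro r a
          ext t
          have : actCHom (r • (a : MonoidAlgebra K (L ≃ₐ[K] L))) (t : L) =
              r • actCHom (a : MonoidAlgebra K (L ≃ₐ[K] L)) (t : L) := by
            rw [← IsScalarTower.algebraMap_smul K r (a : MonoidAlgebra K (L ≃ₐ[K] L)), map_smul,
              LinearMap.smul_apply, IsScalarTower.algebraMap_smul]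
          simpa using this }
    have hf : Function.Injective f := by
      rw [injective_iff_map_eq_zero]
      intro h hh
      apply Subtype.ext
      apply eq_zero_of_actC (K := K) (L := L)
      -- vanishes on B
      have h1 : ∀ x ∈ B, actCHom (h : MonoidAlgebra K (L ≃ₐ[K] L)) x = 0 := by
        intro x hx
        rw [← hT] at hx
        induction hx using Submodule.span_induction with
        | mem t ht =>
          have := congrArg (fun u : T → B => ((u ⟨t, ht⟩ : B) : L)) hh
          simpa [f] using this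
        | zero => simp
        | add a b _ _ ha hb => rw [map_add, ha, hb, add_zero]
        | smul r a _ ha =>
          rw [← IsScalarTower.algebraMap_smul K r a, map_smul, ha, smul_zero]
      intro x
      obtain ⟨r, hr, hrx⟩ := hspan x
      have h2 := h1 _ hrx
      rw [← IsScalarTower.algebraMap_smul K r x, map_smul, smul_eq_zero] at h2
      rw [actC_eq]
      rcases h2 with h2 | h2
      · exact absurd ((map_eq_zero_iff _ (IsFractionRing.injective R K)).1 h2) hr
      · exact h2
    have hfin2 : Module.Finite R (assocClass R K L B) := Module.Finite.of_injective f hf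
    exact Module.Finite.iff_fg.1 hfin2
  · apply le_antisymm
    · exact le_top
    · intro h _
      have hsum : h = h.coeff.sum MonoidAlgebra.single := (MonoidAlgebra.sum_coeff_single h).symm
      rw [hsum, Finsupp.sum]
      apply Submodule.sum_mem
      intro g _
      have : MonoidAlgebra.single g (h.coeff g) = h.coeff g • MonoidAlgebra.single g (1 : K) := by
        simp
      rw [this]
      apply Submodule.smul_mem
      apply Submodule.subset_span
      intro x hx
      rw [actC_eq_sum, Finset.sum_eq_single g]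
      · simpa using hG g x hx
      · intro b _ hb
        rw [MonoidAlgebra.coeff_single, Finsupp.single_apply, if_neg (Ne.symm hb), zero_smul]
      · simp

/-- If `|G|` is invertible in the integrally closed Noetherian domain `R`, the associated order
in `K[G]` of a `G`-stable lattice is `R[G]`. -/
theorem mem_assocClass_iff [IsNoetherianRing R] [IsIntegrallyClosed R] (B : Submodule R L)
    (hB : B.FG) (hspan : ∀ x : L, ∃ r : R, r ≠ 0 ∧ r • x ∈ B)
    (hG : ∀ g : L ≃ₐ[K] L, ∀ x ∈ B, g x ∈ B)
    (hn : IsUnit ((Nat.card (L ≃ₐ[K] L) : ℕ) : R)) (z : MonoidAlgebra K (L ≃ₐ[K] L)) :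
    z ∈ assocClass R K L B ↔ ∀ g, ∃ r : R, algebraMap R K r = z.coeff g := by
  classical
  have hsingle : ∀ g : L ≃ₐ[K] L, MonoidAlgebra.single g (1 : K) ∈ assocClass R K L B := by
    intro g x hx
    rw [actC_eq_sum, Finset.sum_eq_single g]
    · simpa using hG g x hx
    · intro b _ hb
      rw [MonoidAlgebra.coeff_single, Finsupp.single_apply, if_neg (Ne.symm hb), zero_smul]
    · simp
  constructor
  · intro hz g
    have h1 : z * MonoidAlgebra.single g⁻¹ 1 ∈ assocClass R K L B := mul_mem hz (hsingle _)
    have h2 : IsIntegral R (z * MonoidAlgebra.single g⁻¹ 1) :=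
      IsIntegral.of_mem_of_fg _ (isOrder_assocClass (K := K) B hB hspan hG).1 _ h1
    have h3 := isIntegral_card_mul_coeff_one _ h2
    have h4 : (z * MonoidAlgebra.single g⁻¹ (1 : K)).coeff 1 = z.coeff g := by
      rw [MonoidAlgebra.coeff_mul_single_eq_coeff_mul (m₂ := g)]
      · simp
      · intro m _
        rw [mul_inv_eq_one]
    rw [h4, IsIntegrallyClosed.isIntegral_iff] at h3
    obtain ⟨r, hr⟩ := h3
    obtain ⟨u, hu⟩ := hn
    refine ⟨↑u⁻¹ * r, ?_⟩
    rw [map_mul, hr, ← mul_assoc, ← map_natCast (algebraMap R K), ← hu, ← map_mul, Units.inv_mul,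
      map_one, one_mul]
  · intro hz
    have hsum : z = z.coeff.sum MonoidAlgebra.single := (MonoidAlgebra.sum_coeff_single z).symm
    rw [hsum, Finsupp.sum]
    apply Subalgebra.sum_mem
    intro g _
    obtain ⟨r, hr⟩ := hz g
    have : MonoidAlgebra.single g (z.coeff g) = r • MonoidAlgebra.single g (1 : K) := by
      rw [← hr, MonoidAlgebra.smul_single, Algebra.smul_def, mul_one]
    rw [this]
    exact Subalgebra.smul_mem _ (hsingle g) _

/-- If `|G|` is invertible in `R`, the associated order in `K[G]` of a `G`-stable lattice is a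
Hopf order. -/
theorem isHopfOrder_assocClass [IsNoetherianRing R] [IsIntegrallyClosed R] (B : Submodule R L)
    (hB : B.FG) (hspan : ∀ x : L, ∃ r : R, r ≠ 0 ∧ r • x ∈ B)
    (hG : ∀ g : L ≃ₐ[K] L, ∀ x ∈ B, g x ∈ B)
    (hn : IsUnit ((Nat.card (L ≃ₐ[K] L) : ℕ) : R)) :
    IsHopfOrder R K (assocClass R K L B) ⊤ := by
  classical
  have hsingle : ∀ g : L ≃ₐ[K] L, MonoidAlgebra.single g (1 : K) ∈ assocClass R K L B := by
    intro g x hx
    rw [actC_eq_sum, Finset.sum_eq_single g]
    · simpa using hG g x hx
    · intro b _ hb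
      rw [MonoidAlgebra.coeff_single, Finsupp.single_apply, if_neg (Ne.symm hb), zero_smul]
    · simp
  have key : ∀ z ∈ assocClass R K L B, ∃ c : (L ≃ₐ[K] L) → R,
      z = ∑ g, c g • MonoidAlgebra.single g (1 : K) := by
    intro z hz
    rw [mem_assocClass_iff B hB hspan hG hn] at hz
    choose c hc using hz
    refine ⟨c, ?_⟩
    apply MonoidAlgebra.coeff_injective
    ext g
    rw [MonoidAlgebra.coeff_sum, Finsupp.finsetSum_apply, Finset.sum_eq_single g]
    · rw [MonoidAlgebra.smul_single, MonoidAlgebra.coeff_single, Finsupp.single_eq_same,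
        Algebra.smul_def, mul_one, hc]
    · intro b _ hb
      rw [MonoidAlgebra.smul_single, MonoidAlgebra.coeff_single, Finsupp.single_apply, if_neg hb]
    · simp
  refine ⟨isOrder_assocClass (K := K) B hB hspan hG, ?_, ?_, ?_⟩
  · intro z hz
    obtain ⟨c, rfl⟩ := key z hz
    rw [map_sum]
    apply Submodule.sum_mem
    intro g _
    have h1 : Coalgebra.comul (R := K) (c g • MonoidAlgebra.single g (1 : K)) =
        c g • (MonoidAlgebra.single g (1 : K) ⊗ₜ[K] MonoidAlgebra.single g (1 : K)) := by
      rw [← IsScalarTower.algebraMap_smul K (c g) (MonoidAlgebra.single g (1 : K)), map_smul,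
        MonoidAlgebra.comul_single, CommSemiring.comul_apply, TensorProduct.map_tmul,
        IsScalarTower.algebraMap_smul]
      rfl
    rw [h1]
    apply Submodule.smul_mem
    exact Submodule.subset_span ⟨_, hsingle g, _, hsingle g, rfl⟩
  · intro z hz
    obtain ⟨c, rfl⟩ := key z hz
    refine ⟨∑ g, c g, ?_⟩
    rw [map_sum, map_sum]
    apply Finset.sum_congr rfl
    intro g _
    rw [← IsScalarTower.algebraMap_smul K (c g) (MonoidAlgebra.single g (1 : K)), map_smul,
      MonoidAlgebra.counit_single]
    simp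
  · intro z hz
    obtain ⟨c, rfl⟩ := key z hz
    rw [map_sum]
    apply Subalgebra.sum_mem
    intro g _
    rw [← IsScalarTower.algebraMap_smul K (c g) (MonoidAlgebra.single g (1 : K)), map_smul,
      MonoidAlgebra.antipode_single, IsScalarTower.algebraMap_smul]
    apply Subalgebra.smul_mem
    simpa using hsingle g⁻¹

end lemmas

end Pool.Agent.V11279.HG
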