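import Pool.Agent.V11279.HG4

set_option autoImplicit false

/-!
# Arithmetic of `ℚ_p(p^(1/3), ζ₃)`, `p ≡ 2 mod 3`
-/

namespace Pool.Agent.V11279.HG

open Polynomial

section padic

variable (p : ℕ) [hpf : Fact p.Prime]

theorem zmod_aniso (hp5 : 5 ≤ p) (hp3 : p % 3 = 2) (x : ZMod p) : x ^ 2 - x + 1 ≠ 0 := by
  intro h
  have hy : (-x) ^ 3 = 1 := by linear_combination (-(x + 1)) * h
  have hy1 : -x ≠ 1 := by
    intro hx
    have h3 : (3 : ZMod p) = 0 := by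
      have : x = -1 := by linear_combination -hx
      rw [this] at h
      linear_combination h
    have h4 : ((3 : ℕ) : ZMod p) = 0 := by exact_mod_cast h3
    rw [ZMod.natCast_eq_zero_iff] at h4
    have := Nat.le_of_dvd (by norm_num) h4
    omega
  have hord : orderOf (-x) = 3 := orderOf_eq_prime hy hy1
  have hx0 : -x ≠ 0 := by
    intro h0
    rw [h0] at hy
    simp at hy
  have hdvd : orderOf (-x) ∣ p - 1 := orderOf_dvd_of_pow_eq_one (ZMod.pow_card_sub_one_eq_one hx0)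
  rw [hord] at hdvd
  omega

theorem padicInt_aniso (hp5 : 5 ≤ p) (hp3 : p % 3 = 2) (u : ℤ_[p]) : ‖u ^ 2 - u + 1‖ = 1 := by
  by_contra h
  have h1 : ‖u ^ 2 - u + 1‖ < 1 := lt_of_le_of_ne (PadicInt.norm_le_one _) h
  have h2 : u ^ 2 - u + 1 ∈ RingHom.ker (PadicInt.toZMod (p := p)) := by
    rw [PadicInt.ker_toZMod, IsLocalRing.mem_maximalIdeal, PadicInt.mem_nonunits]
    exact h1
  rw [RingHom.mem_ker] at h2
  apply zmod_aniso p hp5 hp3 (PadicInt.toZMod u)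
  simpa using h2

theorem padic_aniso_le (hp5 : 5 ≤ p) (hp3 : p % 3 = 2) (a b : ℚ_[p]) (hab : ‖a‖ ≤ ‖b‖) :
    ‖a ^ 2 - a * b + b ^ 2‖ = ‖b‖ ^ 2 := by
  by_cases hb : b = 0
  · subst hb
    have : a = 0 := by simpa using hab
    subst this
    simp
  have hu : ‖a / b‖ ≤ 1 := by
    rw [norm_div]
    exact div_le_one_of_le₀ hab (norm_nonneg _)
  have h1 := padicInt_aniso p hp5 hp3 ⟨a / b, hu⟩
  rw [PadicInt.norm_def] at h1
  have h2 : a ^ 2 - a * b + b ^ 2 = b ^ 2 * ((a / b) ^ 2 - a / b + 1) := by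
    field_simp
  rw [h2, norm_mul, norm_pow]
  have h3 : ‖(a / b) ^ 2 - a / b + 1‖ = 1 := h1
  rw [h3, mul_one]

theorem padic_aniso (hp5 : 5 ≤ p) (hp3 : p % 3 = 2) (a b : ℚ_[p]) :
    ‖a ^ 2 - a * b + b ^ 2‖ = max ‖a‖ ‖b‖ ^ 2 := by
  rcases le_total ‖a‖ ‖b‖ with h | h
  · rw [padic_aniso_le p hp5 hp3 a b h, max_eq_right h]
  · have := padic_aniso_le p hp5 hp3 b a h
    rw [max_eq_left h, ← this]
    congr 1
    ring

/-- An element of `ℚ_p` whose norm cubed is at most `p ^ 2` is in `ℤ_p`. -/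
theorem norm_le_one_of_cube (w : ℚ_[p]) (h : ‖w‖ ^ 3 ≤ (p : ℝ) ^ 2) : ‖w‖ ≤ 1 := by
  by_cases hw : w = 0
  · simp [hw]
  have hp1 : (1 : ℝ) < p := by exact_mod_cast hpf.out.one_lt
  rw [Padic.norm_eq_zpow_neg_valuation hw] at h ⊢
  rw [← zpow_natCast, ← zpow_mul, ← zpow_natCast, zpow_le_zpow_iff_right₀ hp1] at h
  rw [← zpow_zero (p : ℝ), zpow_le_zpow_iff_right₀ hp1]
  push_cast at h
  omega

/-- If `‖N‖ ^ 3 ≤ p ^ (-2)` and `N = a ^ 2 - a b + b ^ 2` then `p` divides `a` and `b`. -/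
theorem norm_le_of_cube (hp5 : 5 ≤ p) (hp3 : p % 3 = 2) (a b : ℚ_[p])
    (h : ‖a ^ 2 - a * b + b ^ 2‖ ^ 3 ≤ (p : ℝ) ^ (-2 : ℤ)) :
    ‖a‖ ≤ (p : ℝ)⁻¹ ∧ ‖b‖ ≤ (p : ℝ)⁻¹ := by
  have hp1 : (1 : ℝ) < p := by exact_mod_cast hpf.out.one_lt
  have key : ∀ c : ℚ_[p], ‖c‖ ≤ max ‖a‖ ‖b‖ → ‖c‖ ≤ (p : ℝ)⁻¹ := by
    intro c hc
    by_cases hc0 : c = 0
    · simp [hc0]
    have h1 : (‖c‖ ^ 2) ^ 3 ≤ (p : ℝ) ^ (-2 : ℤ) := by
      refine le_trans ?_ h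
      rw [padic_aniso p hp5 hp3]
      gcongr
    rw [Padic.norm_eq_zpow_neg_valuation hc0] at h1 ⊢
    rw [← pow_mul, ← zpow_natCast, ← zpow_mul, zpow_le_zpow_iff_right₀ hp1] at h1
    rw [← zpow_neg_one (p : ℝ), zpow_le_zpow_iff_right₀ hp1]
    push_cast at h1
    omega
  exact ⟨key a (le_max_left _ _), key b (le_max_right _ _)⟩

/-- An element `w` of `ℚ_p` has no cube of norm `p ^ (-2)`. -/
theorem norm_cube_ne (w : ℚ_[p]) : ‖w‖ ^ 3 ≠ (p : ℝ) ^ (-2 : ℤ) := by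
  intro h
  have hp1 : (1 : ℝ) < p := by exact_mod_cast hpf.out.one_lt
  by_cases hw : w = 0
  · rw [hw, norm_zero] at h
    have : (0 : ℝ) < (p : ℝ) ^ (-2 : ℤ) := by positivity
    rw [← h] at this
    simp at this
  rw [Padic.norm_eq_zpow_neg_valuation hw, ← zpow_natCast, ← zpow_mul] at h
  have := zpow_right_injective₀ (by linarith) hp1.ne' h
  push_cast at this
  omega

end padic

end Pool.Agent.V11279.HG
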