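import Pool.Agent.V11279.HG5

set_option autoImplicit false

/-!
# The nonclassical associated order of `ℚ_p(p^(1/3), ζ₃)/ℚ_p` is not a Hopf order
-/

namespace Pool.Agent.V11279.HG

open Polynomial
open scoped TensorProduct

section

variable {p : ℕ} [hpf : Fact p.Prime] {L : Type} [Field L] [Algebra ℚ_[p] L]

/-- A generator of `L` with its conjugates. -/
structure Dat (p : ℕ) [Fact p.Prime] (L : Type) [Field L] [Algebra ℚ_[p] L] where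
  π : L
  ζ : L
  hπ : π ^ 3 = (p : L)
  hζ : ζ ^ 2 + ζ + 1 = 0
  hgen : ∀ g : L ≃ₐ[ℚ_[p]] L, g π = π → g ζ = ζ → g = 1

variable (D : Dat p L)

namespace Dat

theorem p_ne : (p : L) ≠ 0 := by
  have : CharZero L := charZero_of_injective_algebraMap (algebraMap ℚ_[p] L).injective
  exact_mod_cast hpf.out.ne_zero

theorem π_ne : D.π ≠ 0 := by
  intro h
  have := D.hπ
  rw [h] at this
  exact p_ne (p := p) (L := L) (by rw [← this]; simp)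

theorem ζ3 : D.ζ ^ 3 = 1 := by linear_combination (D.ζ - 1) * D.hζ

theorem ζ_ne : D.ζ ≠ 0 := by
  intro h
  have := D.hζ
  rw [h] at this
  simp at this

theorem ζ_ne_one : D.ζ ≠ 1 := by
  intro h
  have := D.hζ
  rw [h] at this
  have h3 : CharZero L := charZero_of_injective_algebraMap (algebraMap ℚ_[p] L).injective
  norm_num at this

theorem ζ_ne_sq : D.ζ ≠ D.ζ ^ 2 := by
  intro h
  have h2 : D.ζ * (D.ζ - 1) = 0 := by linear_combination -h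
  rcases mul_eq_zero.1 h2 with h3 | h3
  · exact D.ζ_ne h3
  · exact D.ζ_ne_one (sub_eq_zero.1 h3)

theorem cube_root {ω : L} (h : ω ^ 3 = 1) : ω = 1 ∨ ω = D.ζ ∨ ω = D.ζ ^ 2 := by
  have h1 : (ω - 1) * ((ω - D.ζ) * (ω - D.ζ ^ 2)) = 0 := by
    linear_combination h + (ω - 1) * (D.ζ - 1 - ω) * D.hζ
  rcases mul_eq_zero.1 h1 with h2 | h2
  · exact Or.inl (sub_eq_zero.1 h2)
  · rcases mul_eq_zero.1 h2 with h3 | h3
    · exact Or.inr (Or.inl (sub_eq_zero.1 h3))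
    · exact Or.inr (Or.inr (sub_eq_zero.1 h3))

/-- Automorphisms fixing `ζ`. -/
def C (g : L ≃ₐ[ℚ_[p]] L) : Prop := g D.ζ = D.ζ

/-- Automorphisms moving `ζ`. -/
def T (g : L ≃ₐ[ℚ_[p]] L) : Prop := g D.ζ = D.ζ ^ 2

theorem C_or_T (g : L ≃ₐ[ℚ_[p]] L) : D.C g ∨ D.T g := by
  have h1 : (g D.ζ) ^ 3 = 1 := by rw [← map_pow, D.ζ3, map_one]
  rcases D.cube_root h1 with h | h | h
  · exfalso
    apply D.ζ_ne_one
    apply g.injective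
    rw [h, map_one]
  · exact Or.inl h
  · exact Or.inr h

theorem not_C_T {g : L ≃ₐ[ℚ_[p]] L} (h1 : D.C g) (h2 : D.T g) : False :=
  D.ζ_ne_sq (h1.symm.trans h2)

theorem C_apply {g : L ≃ₐ[ℚ_[p]] L} (h : D.C g) {ω : L} (hω : ω ^ 3 = 1) : g ω = ω := by
  rcases D.cube_root hω with h1 | h1 | h1
  · rw [h1, map_one]
  · rw [h1]; exact h
  · rw [h1, map_pow]; rw [show g D.ζ = D.ζ from h]

theorem T_apply {g : L ≃ₐ[ℚ_[p]] L} (h : D.T g) {ω : L} (hω : ω ^ 3 = 1) : g ω = ω ^ 2 := by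
  rcases D.cube_root hω with h1 | h1 | h1
  · rw [h1, map_one, one_pow]
  · rw [h1]; exact h
  · rw [h1, map_pow, show g D.ζ = D.ζ ^ 2 from h]

theorem C_one : D.C 1 := rfl

theorem CC {g h : L ≃ₐ[ℚ_[p]] L} (hg : D.C g) (hh : D.C h) : D.C (g * h) := by
  show g (h D.ζ) = D.ζ
  rw [show h D.ζ = D.ζ from hh, show g D.ζ = D.ζ from hg]

theorem CT {g h : L ≃ₐ[ℚ_[p]] L} (hg : D.C g) (hh : D.T h) : D.T (g * h) := by
  show g (h D.ζ) = D.ζ ^ 2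
  rw [show h D.ζ = D.ζ ^ 2 from hh, map_pow, show g D.ζ = D.ζ from hg]

theorem TC {g h : L ≃ₐ[ℚ_[p]] L} (hg : D.T g) (hh : D.C h) : D.T (g * h) := by
  show g (h D.ζ) = D.ζ ^ 2
  rw [show h D.ζ = D.ζ from hh, show g D.ζ = D.ζ ^ 2 from hg]

theorem TT {g h : L ≃ₐ[ℚ_[p]] L} (hg : D.T g) (hh : D.T h) : D.C (g * h) := by
  show g (h D.ζ) = D.ζ
  rw [show h D.ζ = D.ζ ^ 2 from hh, map_pow, show g D.ζ = D.ζ ^ 2 from hg]
  linear_combination D.ζ * D.ζ3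

theorem C_inv {g : L ≃ₐ[ℚ_[p]] L} (hg : D.C g) : D.C g⁻¹ := by
  rcases D.C_or_T g⁻¹ with h | h
  · exact h
  · exact absurd (D.TC h hg) (by rw [inv_mul_cancel]; exact fun h => D.not_C_T D.C_one h)

theorem T_inv {g : L ≃ₐ[ℚ_[p]] L} (hg : D.T g) : D.T g⁻¹ := by
  rcases D.C_or_T g⁻¹ with h | h
  · exact absurd (D.CT h hg) (by rw [inv_mul_cancel]; exact fun h => D.not_C_T D.C_one h)
  · exact h

theorem T_conj {g : L ≃ₐ[ℚ_[p]] L} (s : L ≃ₐ[ℚ_[p]] L) (hg : D.T g) : D.T (s * g * s⁻¹) := by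
  rcases D.C_or_T s with h | h
  · exact D.TC (D.CT h hg) (D.C_inv h)
  · exact D.CT (D.TT h hg) (D.T_inv h)

theorem C_conj {g : L ≃ₐ[ℚ_[p]] L} (s : L ≃ₐ[ℚ_[p]] L) (hg : D.C g) : D.C (s * g * s⁻¹) := by
  rcases D.C_or_T s with h | h
  · exact D.CC (D.CC h hg) (D.C_inv h)
  · exact D.TT (D.TC h hg) (D.T_inv h)

/-- `χ(g) = g(π)/π`. -/
noncomputable def χ (g : L ≃ₐ[ℚ_[p]] L) : L := g D.π / D.π

theorem χ3 (g : L ≃ₐ[ℚ_[p]] L) : D.χ g ^ 3 = 1 := by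
  rw [χ, div_pow, ← map_pow, D.hπ, map_natCast]
  exact div_self p_ne

theorem g_π (g : L ≃ₐ[ℚ_[p]] L) : g D.π = D.χ g * D.π := by
  rw [χ, div_mul_cancel₀ _ D.π_ne]

theorem χ_ne (g : L ≃ₐ[ℚ_[p]] L) : D.χ g ≠ 0 := by
  intro h
  have := D.χ3 g
  rw [h] at this
  simp at this

theorem χ_mul (g h : L ≃ₐ[ℚ_[p]] L) : D.χ (g * h) = g (D.χ h) * D.χ g := by
  have h1 : (g * h) D.π = g (D.χ h) * D.χ g * D.π := by
    rw [AlgEquiv.mul_apply, D.g_π h, map_mul, D.g_π g]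
    ring
  rw [χ, h1, mul_div_cancel_right₀ _ D.π_ne]

theorem χ_one : D.χ 1 = 1 := by
  rw [χ]
  exact div_self D.π_ne

theorem χ_inv_T {g : L ≃ₐ[ℚ_[p]] L} (hg : D.T g) : D.χ g⁻¹ = D.χ g := by
  have h1 := D.χ_mul g g⁻¹
  rw [mul_inv_cancel, D.χ_one, D.T_apply hg (D.χ3 _)] at h1
  -- 1 = χ(g⁻¹)^2 χ(g)
  have h2 := D.χ3 g⁻¹
  have h3 : D.χ g⁻¹ * 1 = D.χ g⁻¹ * (D.χ g⁻¹ ^ 2 * D.χ g) := by rw [← h1]
  linear_combination h3 + D.χ g * h2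

theorem χ_conj {g : L ≃ₐ[ℚ_[p]] L} (s : L ≃ₐ[ℚ_[p]] L) (hg : D.T g) :
    D.χ (s * g * s⁻¹) = D.χ s ^ 2 * s (D.χ g) := by
  have h1 : s * g * s⁻¹ * s = s * g := by group
  have h2 := D.χ_mul (s * g * s⁻¹) s
  rw [h1, D.χ_mul, D.T_apply (D.T_conj s hg) (D.χ3 s)] at h2
  have h3 := D.χ3 s
  -- s χ(g) χ(s) = χ(s)^2 χ(sgs⁻¹)
  linear_combination (-D.χ s) * h2 - D.χ (s * g * s⁻¹) * h3

end Dat

end

end Pool.Agent.V11279.HG
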