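import Pool.Agent.V11279.HG6

set_option autoImplicit false

/-!
# The nonclassical associated order of `ℚ_p(p^(1/3), ζ₃)/ℚ_p` is not a Hopf order
-/

namespace Pool.Agent.V11279.HG

open Polynomial
open scoped TensorProduct

namespace Dat

variable {p : ℕ} [hpf : Fact p.Prime] {L : Type} [Field L] [Algebra ℚ_[p] L]
  [FiniteDimensional ℚ_[p] L] [IsGalois ℚ_[p] L] (D : Dat p L)

theorem mem_range {x : L} (h : ∀ g : L ≃ₐ[ℚ_[p]] L, g x = x) :
    ∃ a : ℚ_[p], algebraMap ℚ_[p] L a = x :=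
  (IsGalois.mem_range_algebraMap_iff_fixed x).2 h

/-- There is an automorphism moving `ζ`. -/
theorem exists_T (hp5 : 5 ≤ p) (hp3 : p % 3 = 2) : ∃ g, D.T g := by
  by_contra h
  push Not at h
  obtain ⟨a, ha⟩ := mem_range (p := p) (x := D.ζ) (fun g => (D.C_or_T g).resolve_right (h g))
  have h1 : a ^ 2 + a + 1 = 0 := by
    apply (algebraMap ℚ_[p] L).injective
    rw [map_add, map_add, map_pow, ha, map_one, map_zero]
    exact D.hζ
  have h2 := padic_aniso p hp5 hp3 (-a) 1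
  have h3 : (-a) ^ 2 - -a * 1 + 1 ^ 2 = 0 := by linear_combination h1
  rw [h3, norm_zero] at h2
  have h4 : 1 ≤ max ‖-a‖ ‖(1 : ℚ_[p])‖ := by simp
  nlinarith

/-- Elements fixed by `C` are `a + b ζ`. -/
theorem fixed_C (hp5 : 5 ≤ p) (hp3 : p % 3 = 2) {t : L} (ht : ∀ g, D.C g → g t = t) :
    ∃ a b : ℚ_[p], t = algebraMap ℚ_[p] L a + algebraMap ℚ_[p] L b * D.ζ ∧
      ∀ g, D.T g → g t = algebraMap ℚ_[p] L a + algebraMap ℚ_[p] L b * D.ζ ^ 2 := by
  obtain ⟨τ, hτ⟩ := D.exists_T hp5 hp3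
  have hd : D.ζ - D.ζ ^ 2 ≠ 0 := sub_ne_zero.2 D.ζ_ne_sq
  have hT : ∀ g, D.T g → g t = τ t := by
    intro g hg
    have h1 := ht _ (D.TT (D.T_inv hτ) hg)
    rw [AlgEquiv.mul_apply] at h1
    have h2 := congrArg τ h1
    rw [← AlgEquiv.mul_apply, mul_inv_cancel] at h2
    exact h2
  have hCτ : ∀ g, D.C g → g (τ t) = τ t := by
    intro g hg
    rw [← AlgEquiv.mul_apply]
    exact hT _ (D.CT hg hτ)
  have hTτ : ∀ g, D.T g → g (τ t) = t := by
    intro g hg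
    rw [← AlgEquiv.mul_apply]
    exact ht _ (D.TT hg hτ)
  obtain ⟨b, hb⟩ := mem_range (p := p) (x := (t - τ t) / (D.ζ - D.ζ ^ 2)) (by
    intro g
    rcases D.C_or_T g with hg | hg
    · rw [map_div₀, map_sub, map_sub, map_pow, ht g hg, hCτ g hg, show g D.ζ = D.ζ from hg]
    · rw [map_div₀, map_sub, map_sub, map_pow, hT g hg, hTτ g hg,
        show g D.ζ = D.ζ ^ 2 from hg, div_eq_div_iff _ hd]
      · have h4 : (D.ζ ^ 2) ^ 2 = D.ζ := by linear_combination D.ζ * D.ζ3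
        rw [h4]; ring
      · have h4 : (D.ζ ^ 2) ^ 2 = D.ζ := by linear_combination D.ζ * D.ζ3
        rw [h4, ← neg_sub]
        exact neg_ne_zero.2 hd)
  have hb' : algebraMap ℚ_[p] L b * (D.ζ - D.ζ ^ 2) = t - τ t := by
    rw [hb, div_mul_cancel₀ _ hd]
  obtain ⟨a, ha⟩ := mem_range (p := p) (x := t - algebraMap ℚ_[p] L b * D.ζ) (by
    intro g
    rcases D.C_or_T g with hg | hg
    · rw [map_sub, map_mul, AlgEquiv.commutes, ht g hg, show g D.ζ = D.ζ from hg]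
    · rw [map_sub, map_mul, AlgEquiv.commutes, hT g hg, show g D.ζ = D.ζ ^ 2 from hg]
      linear_combination hb')
  refine ⟨a, b, by rw [ha]; ring, fun g hg => ?_⟩
  rw [ha, hT g hg]
  linear_combination hb'

/-- There is an automorphism in `C` moving `π`. -/
theorem exists_C (hp5 : 5 ≤ p) (hp3 : p % 3 = 2) : ∃ g, D.C g ∧ D.χ g ≠ 1 := by
  by_contra h
  push Not at h
  obtain ⟨a, b, h1, h2⟩ := D.fixed_C hp5 hp3 (t := D.π) (by
    intro g hg
    rw [D.g_π, h g hg, one_mul])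
  obtain ⟨τ, hτ⟩ := D.exists_T hp5 hp3
  have h3 := h2 τ hτ
  -- norm
  have h4 : algebraMap ℚ_[p] L (a ^ 2 - a * b + b ^ 2) = D.χ τ * D.π ^ 2 := by
    have : D.π * τ D.π = D.χ τ * D.π ^ 2 := by rw [D.g_π]; ring
    rw [← this, h3]
    conv_rhs => rw [h1]
    simp only [map_add, map_sub, map_mul, map_pow]
    linear_combination (algebraMap ℚ_[p] L b ^ 2 * (-(D.ζ - 1)) - algebraMap ℚ_[p] L a * algebraMap ℚ_[p] L b) * D.hζ
  have h5 : (a ^ 2 - a * b + b ^ 2) ^ 3 = (p : ℚ_[p]) ^ 2 := by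
    apply (algebraMap ℚ_[p] L).injective
    rw [map_pow, h4, mul_pow, D.χ3, one_mul, ← pow_mul, mul_comm 2 3, pow_mul, D.hπ]
    simp
  apply norm_cube_ne p (a ^ 2 - a * b + b ^ 2)
  rw [← norm_pow, h5, norm_pow, Padic.norm_p, inv_pow, zpow_neg]
  norm_cast

open Classical in
/-- The coefficients of the test element. -/
noncomputable def cf (g : L ≃ₐ[ℚ_[p]] L) : L := if D.T g then g D.π / D.π ^ 2 else 0

open Classical in
/-- The test element of `L[N]`. -/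
noncomputable def hel : MonoidAlgebra L (NN ℚ_[p] L) :=
  ∑ g : L ≃ₐ[ℚ_[p]] L, MonoidAlgebra.single (eN g) (D.cf g)

theorem coeff_hel (g : L ≃ₐ[ℚ_[p]] L) : D.hel.coeff (eN g) = D.cf g := by
  classical
  rw [hel, MonoidAlgebra.coeff_sum, Finsupp.finsetSum_apply, Finset.sum_eq_single g]
  · simp
  · intro h _ hk
    rw [MonoidAlgebra.coeff_single, Finsupp.single_apply, if_neg]
    exact fun e => hk (eN.injective e)
  · simp

theorem cf_T {g : L ≃ₐ[ℚ_[p]] L} (hg : D.T g) : D.cf g = D.χ g / D.π := by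
  rw [cf, if_pos hg, D.g_π]
  have := D.π_ne
  field_simp

theorem cf_C {g : L ≃ₐ[ℚ_[p]] L} (hg : D.C g) : D.cf g = 0 := by
  rw [cf, if_neg]
  exact fun h => D.not_C_T hg h

theorem hel_mem : D.hel ∈ Hlam ℚ_[p] L := by
  rw [mem_Hlam_iff]
  intro s g
  rw [D.coeff_hel, D.coeff_hel]
  rcases D.C_or_T g with hg | hg
  · rw [D.cf_C hg, D.cf_C (D.C_conj s hg), map_zero]
  · rw [D.cf_T hg, D.cf_T (D.T_conj s hg), map_div₀, D.χ_conj s hg, D.g_π s]
    have h1 := D.χ_ne s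
    have h2 := D.π_ne
    field_simp
    linear_combination s (D.χ g) * D.χ3 s

end Dat

end Pool.Agent.V11279.HG
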