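import Mathlib

set_option autoImplicit false

noncomputable section

namespace Pool.Agent.V11279.OG

open Finsupp

/-- The twisted product on finitely supported functions. -/
def tmul {A H : Type} [AddCommGroup A] [Group H] [DistribMulAction H A]
    (Φ : ℕ → (ℕ →₀ A) → H) (a b : ℕ →₀ A) : ℕ →₀ A :=
  Finsupp.onFinset (a.support ∪ b.support) (fun i => a i + Φ i a • b i) (by
    intro i hi
    by_contra h
    simp only [Finset.mem_union, Finsupp.mem_support_iff, not_or, not_not] at h
    exact hi (by rw [h.1, h.2, smul_zero, add_zero]))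

lemma tmul_apply {A H : Type} [AddCommGroup A] [Group H] [DistribMulAction H A]
    (Φ : ℕ → (ℕ →₀ A) → H) (a b : ℕ →₀ A) (i : ℕ) :
    tmul Φ a b i = a i + Φ i a • b i := rfl

/-- Twisting data. -/
structure TwData (A H : Type) [AddCommGroup A] [Group H] [DistribMulAction H A] where
  /-- the twist -/
  Φ : ℕ → (ℕ →₀ A) → H
  zero : ∀ i, Φ i 0 = 1
  dep : ∀ i a b, (∀ j, i < j → a j = b j) → Φ i a = Φ i b
  mul : ∀ i a b, Φ i (tmul Φ a b) = Φ i a * Φ i b

variable {A H : Type} [AddCommGroup A] [Group H] [DistribMulAction H A]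

/-- The twisted group. -/
@[ext]
structure Tw (D : TwData A H) where
  /-- coordinates -/
  val : ℕ →₀ A

namespace Tw

variable {D : TwData A H}

instance : One (Tw D) := ⟨⟨0⟩⟩
instance : Mul (Tw D) := ⟨fun x y => ⟨tmul D.Φ x.val y.val⟩⟩
instance : Inv (Tw D) := ⟨fun x => ⟨Finsupp.onFinset x.val.support
  (fun i => - ((D.Φ i x.val)⁻¹ • x.val i)) (by
    intro i hi
    by_contra h
    simp only [Finsupp.mem_support_iff, not_not] at h
    exact hi (by rw [h, smul_zero, neg_zero]))⟩⟩

lemma one_val : (1 : Tw D).val = 0 := rfl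
lemma mul_val (x y : Tw D) : (x * y).val = tmul D.Φ x.val y.val := rfl
lemma mul_apply (x y : Tw D) (i : ℕ) :
    (x * y).val i = x.val i + D.Φ i x.val • y.val i := rfl
lemma inv_apply (x : Tw D) (i : ℕ) :
    (x⁻¹).val i = - ((D.Φ i x.val)⁻¹ • x.val i) := rfl

lemma ext' {x y : Tw D} (h : ∀ i, x.val i = y.val i) : x = y := by
  cases x; cases y
  congr 1
  exact Finsupp.ext h

instance : Group (Tw D) := Group.ofRightAxioms
  (by
    intro a b c
    apply ext'
    intro i
    rw [mul_apply, mul_apply, mul_apply, mul_apply, mul_val, D.mul, mul_smul, smul_add, add_assoc])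
  (by
    intro a
    apply ext'
    intro i
    rw [mul_apply, one_val, Finsupp.zero_apply, smul_zero, add_zero])
  (by
    intro a
    apply ext'
    intro i
    rw [mul_apply, inv_apply, smul_neg, smul_inv_smul, one_val, Finsupp.zero_apply,
      add_neg_cancel])

/-- The twist as a homomorphism. -/
def Φhom (D : TwData A H) (i : ℕ) : Tw D →* H where
  toFun x := D.Φ i x.val
  map_one' := D.zero i
  map_mul' x y := D.mul i x.val y.val

section order

variable [LinearOrder A]

instance : LinearOrder (Tw D) :=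
  LinearOrder.lift' (fun x => toColex x.val) (by
    intro x y h
    exact Tw.ext h)

lemma lt_iff {x y : Tw D} :
    x < y ↔ ∃ i, (∀ j, i < j → x.val j = y.val j) ∧ x.val i < y.val i :=
  Iff.rfl

lemma mul_lt_mul_right_tw [AddRightStrictMono A] {x y : Tw D} (z : Tw D) (h : x < y) :
    x * z < y * z := by
  rw [lt_iff] at h ⊢
  obtain ⟨i, h1, h2⟩ := h
  refine ⟨i, ?_, ?_⟩
  · intro j hj
    rw [mul_apply, mul_apply, h1 j hj,
      D.dep j x.val y.val (fun l hl => h1 l (lt_trans hj hl))]
  · rw [mul_apply, mul_apply, D.dep i x.val y.val h1]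
    exact add_lt_add_left h2 _

lemma mul_lt_mul_left_tw [AddLeftStrictMono A] (hH : ∀ (g : H) (a b : A), a < b → g • a < g • b)
    {x y : Tw D} (z : Tw D) (h : x < y) : z * x < z * y := by
  rw [lt_iff] at h ⊢
  obtain ⟨i, h1, h2⟩ := h
  refine ⟨i, ?_, ?_⟩
  · intro j hj
    rw [mul_apply, mul_apply, h1 j hj]
  · rw [mul_apply, mul_apply]
    exact add_lt_add_right (hH _ _ _ h2) _

end order

end Tw

/-! ### The group `K` -/

lemma negOnePow_smul (e : ℤˣ) (n : ℤ) : (e • n).negOnePow = n.negOnePow := by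
  rcases Int.units_eq_one_or e with h | h <;> simp [h, Units.smul_def]

/-- data for `K` -/
def DK : TwData ℤ ℤˣ where
  Φ i m := (m (i + 2)).negOnePow
  zero i := by simp
  dep i a b h := by rw [h (i + 2) (by omega)]
  mul i a b := by
    rw [tmul_apply, Int.negOnePow_add, negOnePow_smul]

/-- The index group. -/
abbrev K : Type := Tw DK

lemma K_mul (x y : K) (i : ℕ) :
    (x * y).val i = x.val i + (x.val (i + 2)).negOnePow • y.val i := rfl

/-- Shift homomorphism. -/
def T (n : ℕ) : K →* K where
  toFun x := ⟨Finsupp.comapDomain (fun i => n + i) x.val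
    (fun a _ b _ h => Nat.add_left_cancel h)⟩
  map_one' := by
    apply Tw.ext'
    intro i
    simp [Tw.one_val]
  map_mul' x y := by
    apply Tw.ext'
    intro i
    show (x * y).val (n + i) = x.val (n + i) + (x.val (n + (i + 2))).negOnePow • y.val (n + i)
    rw [K_mul, add_assoc]

lemma T_apply (n : ℕ) (x : K) (i : ℕ) : (T n x).val i = x.val (n + i) := rfl

end Pool.Agent.V11279.OG
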