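import Mathlib

set_option autoImplicit false

noncomputable section

namespace Pool.Agent.V11279.OG

open Polynomial

/-- the element to invert -/
def den : ℤ[X] := X * (1 + X + X ^ 2)

/-- The coefficient ring. -/
def M0 : Type := Localization.Away den

instance : CommRing M0 := inferInstanceAs (CommRing (Localization.Away den))
instance : Algebra ℤ[X] M0 := inferInstanceAs (Algebra ℤ[X] (Localization.Away den))
instance : IsLocalization.Away den M0 :=
  inferInstanceAs (IsLocalization.Away den (Localization.Away den))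

/-- A positive transcendental real. -/
def θ : ℝ := (liouvilleNumber 2) ^ 2

lemma θ_trans : Transcendental ℤ θ := (transcendental_liouvilleNumber (le_refl 2)).pow two_pos

lemma θ_pos : 0 < θ := by
  have h : liouvilleNumber (2 : ℝ) ≠ 0 := by
    intro h
    have := transcendental_liouvilleNumber (m := 2) (le_refl 2)
    rw [show ((2 : ℕ) : ℝ) = 2 by norm_num, h] at this
    exact this (isAlgebraic_zero)
  unfold θ
  positivity

/-- evaluation at `θ` -/
def evθ : ℤ[X] →+* ℝ := (aeval θ : ℤ[X] →ₐ[ℤ] ℝ).toRingHom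

lemma evθ_inj : Function.Injective evθ := by
  intro a b h
  have := transcendental_iff_injective.mp θ_trans
  exact this h

lemma evθ_den : IsUnit (evθ den) := by
  have : evθ den = θ * (1 + θ + θ ^ 2) := by simp [evθ, den]
  rw [this, isUnit_iff_ne_zero]
  have := θ_pos
  positivity

/-- evaluation at `-1` -/
def evm : ℤ[X] →+* ℤ := (aeval (-1 : ℤ) : ℤ[X] →ₐ[ℤ] ℤ).toRingHom

lemma evm_den : IsUnit (evm den) := by
  have : evm den = -1 := by simp [evm, den]
  rw [this]
  exact isUnit_one.neg

/-- the real embedding -/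
def L : M0 →+* ℝ := IsLocalization.Away.lift den evθ_den

/-- the integer evaluation -/
def ev : M0 →+* ℤ := IsLocalization.Away.lift den evm_den

lemma L_algebraMap (p : ℤ[X]) : L (algebraMap ℤ[X] M0 p) = evθ p :=
  IsLocalization.Away.lift_eq den evθ_den p

lemma ev_algebraMap (p : ℤ[X]) : ev (algebraMap ℤ[X] M0 p) = evm p :=
  IsLocalization.Away.lift_eq den evm_den p

lemma L_inj : Function.Injective L := by
  rw [injective_iff_map_eq_zero]
  intro a ha
  obtain ⟨n, p, hp⟩ := IsLocalization.Away.surj den a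
  have h1 : evθ p = 0 := by
    rw [← L_algebraMap, ← hp, map_mul, ha, zero_mul]
  have h2 : p = 0 := evθ_inj (by rw [h1, map_zero])
  rw [h2, map_zero] at hp
  have h3 : IsUnit (algebraMap ℤ[X] M0 den ^ n) :=
    (IsLocalization.Away.algebraMap_isUnit den).pow n
  exact (IsUnit.mul_left_eq_zero h3).mp hp

instance : LinearOrder M0 := LinearOrder.lift' L L_inj

lemma lt_iff_L {a b : M0} : a < b ↔ L a < L b := Iff.rfl

instance : AddLeftStrictMono M0 := ⟨fun a b c h => by
  rw [lt_iff_L] at h ⊢
  simp only [map_add]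
  linarith⟩

instance : AddRightStrictMono M0 := ⟨fun a b c h => by
  rw [lt_iff_L] at h ⊢
  simp only [Function.swap, map_add]
  linarith⟩

lemma isUnit_X : IsUnit (algebraMap ℤ[X] M0 X) := by
  have h := IsLocalization.Away.algebraMap_isUnit (S := M0) den
  rw [den, map_mul] at h
  exact isUnit_of_mul_isUnit_left h

lemma isUnit_w : IsUnit (algebraMap ℤ[X] M0 (1 + X + X ^ 2)) := by
  have h := IsLocalization.Away.algebraMap_isUnit (S := M0) den
  rw [den, map_mul] at h
  exact isUnit_of_mul_isUnit_right h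

/-- the unit `u` -/
def u : M0ˣ := isUnit_X.unit
/-- the unit `w` -/
def w : M0ˣ := isUnit_w.unit

lemma u_val : (u : M0) = algebraMap ℤ[X] M0 X := rfl
lemma w_val : (w : M0) = 1 + (u : M0) + (u : M0) ^ 2 := by
  show algebraMap ℤ[X] M0 (1 + X + X ^ 2) = _
  rw [map_add, map_add, map_pow, map_one, u_val]

lemma ev_u : ev (u : M0) = -1 := by
  rw [u_val, ev_algebraMap]; simp [evm]

lemma ev_w : ev (w : M0) = 1 := by
  rw [w_val]; simp [ev_u]

lemma L_u : L (u : M0) = θ := by
  rw [u_val, L_algebraMap]; simp [evθ]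

lemma L_w : L (w : M0) = 1 + θ + θ ^ 2 := by
  rw [w_val]; simp [L_u]

/-- positive units -/
def posU : Subgroup M0ˣ where
  carrier := {v | 0 < L (v : M0)}
  mul_mem' := by
    intro a b ha hb
    simp only [Set.mem_ofPred_eq, Units.val_mul, map_mul] at *
    exact mul_pos ha hb
  one_mem' := by simp
  inv_mem' := by
    intro a ha
    simp only [Set.mem_ofPred_eq] at *
    have h : L (a : M0) * L ((a⁻¹ : M0ˣ) : M0) = 1 := by
      rw [← map_mul, Units.mul_inv, map_one]
    by_contra hn
    push Not at hn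
    nlinarith

lemma mem_posU {v : M0ˣ} : v ∈ posU ↔ 0 < L (v : M0) := Iff.rfl

lemma u_mem : u ∈ posU := by rw [mem_posU, L_u]; exact θ_pos
lemma w_mem : w ∈ posU := by
  rw [mem_posU, L_w]
  have := θ_pos
  positivity

lemma mul_lt_mul_of_posU {v : M0ˣ} (hv : v ∈ posU) {a b : M0} (h : a < b) :
    (v : M0) * a < (v : M0) * b := by
  rw [lt_iff_L] at h ⊢
  rw [map_mul, map_mul]
  exact mul_lt_mul_of_pos_left h hv

/-- `ev` on units. -/
def evU : M0ˣ →* ℤˣ := Units.map ev.toMonoidHom

lemma evU_u : evU u = -1 := by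
  apply Units.ext
  show ev (u : M0) = _
  rw [ev_u]; rfl

lemma evU_w : evU w = 1 := by
  apply Units.ext
  show ev (w : M0) = _
  rw [ev_w]; rfl

end Pool.Agent.V11279.OG
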