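import Pool.Agent.V11279.OGa
import Pool.Agent.V11279.OGb

set_option autoImplicit false

noncomputable section

namespace Pool.Agent.V11279.OG

/-- the weight cocycle -/
def wt (k x : K) : M0ˣ :=
  w ^ ((x.val 0).negOnePow • k.val 0) * u ^ ((x.val 1).negOnePow • k.val 1)

lemma wt_mem (k x : K) : wt k x ∈ posU :=
  mul_mem (zpow_mem w_mem _) (zpow_mem u_mem _)

lemma wt_one (x : K) : wt 1 x = 1 := by
  simp [wt, Tw.one_val]

lemma sgn_shift (x k : K) (i : ℕ) :
    ((x * T 2 k).val i).negOnePow = (x.val i).negOnePow * (k.val (2 + i)).negOnePow := by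
  rw [K_mul, Int.negOnePow_add, negOnePow_smul, T_apply]

lemma wt_mul (k k' x : K) : wt (k * k') x = wt k x * wt k' (x * T 2 k) := by
  have h0 : (x.val 0).negOnePow • (k * k').val 0 =
      (x.val 0).negOnePow • k.val 0 + ((x * T 2 k).val 0).negOnePow • k'.val 0 := by
    rw [sgn_shift, K_mul, smul_add, mul_smul]
  have h1 : (x.val 1).negOnePow • (k * k').val 1 =
      (x.val 1).negOnePow • k.val 1 + ((x * T 2 k).val 1).negOnePow • k'.val 1 := by
    rw [sgn_shift, K_mul, smul_add, mul_smul]
  unfold wt
  rw [h0, h1, zpow_add, zpow_add]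
  exact mul_mul_mul_comm _ _ _ _

/-- the module `C` -/
abbrev C : Type := Colex (K →₀ M0)

/-- the coordinates -/
def co (f : C) (x : K) : M0 := (ofColex f) x

lemma co_ext {f g : C} (h : ∀ x, co f x = co g x) : f = g :=
  ofColex.injective (Finsupp.ext h)

lemma co_add (f g : C) (x : K) : co (f + g) x = co f x + co g x := rfl
lemma co_zero (x : K) : co 0 x = 0 := rfl

/-- the action -/
def act (k : K) (f : C) : C :=
  toColex (Finsupp.onFinset ((ofColex f).support.image (fun y => y * (T 2 k)⁻¹))
    (fun x => (wt k x : M0) * co f (x * T 2 k)) (by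
      intro x hx
      rw [Finset.mem_image]
      refine ⟨x * T 2 k, ?_, by rw [mul_inv_cancel_right]⟩
      rw [Finsupp.mem_support_iff]
      intro h
      apply hx
      show _ * (ofColex f) (x * T 2 k) = 0
      rw [h, mul_zero]))

lemma co_act (k : K) (f : C) (x : K) : co (act k f) x = (wt k x : M0) * co f (x * T 2 k) := rfl

instance : DistribMulAction K C where
  smul := act
  one_smul f := by
    apply co_ext
    intro x
    show co (act 1 f) x = _
    rw [co_act, wt_one, map_one, mul_one, Units.val_one, one_mul]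
  mul_smul k k' f := by
    apply co_ext
    intro x
    show co (act (k * k') f) x = co (act k (act k' f)) x
    rw [co_act, co_act, co_act, wt_mul, map_mul, Units.val_mul, mul_assoc, mul_assoc]
  smul_zero k := by
    apply co_ext
    intro x
    show co (act k 0) x = _
    rw [co_act, co_zero, mul_zero, co_zero]
  smul_add k f g := by
    apply co_ext
    intro x
    show co (act k (f + g)) x = co (act k f + act k g) x
    rw [co_act, co_add, co_add, co_act, co_act, mul_add]

lemma co_smul (k : K) (f : C) (x : K) : co (k • f) x = (wt k x : M0) * co f (x * T 2 k) := rfl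

lemma lt_iff_co {f g : C} : f < g ↔ ∃ x, (∀ y, x < y → co f y = co g y) ∧ co f x < co g x :=
  Iff.rfl

lemma smul_lt_smul_C (k : K) {f g : C} (h : f < g) : k • f < k • g := by
  rw [lt_iff_co] at h ⊢
  obtain ⟨x, h1, h2⟩ := h
  refine ⟨x * (T 2 k)⁻¹, ?_, ?_⟩
  · intro y hy
    rw [co_smul, co_smul]
    have := Tw.mul_lt_mul_right_tw (T 2 k) hy
    rw [inv_mul_cancel_right] at this
    rw [h1 _ this]
  · rw [co_smul, co_smul, inv_mul_cancel_right]
    exact mul_lt_mul_of_posU (wt_mem _ _) h2

/-- the functional -/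
def φ : C →+ ℤ :=
  (Finsupp.liftAddHom (fun _ : K => ev.toAddMonoidHom)).comp
    ({ toFun := ofColex, map_zero' := rfl, map_add' := fun _ _ => rfl } : C →+ (K →₀ M0))

/-- basis elements -/
def sg (x : K) (m : M0) : C := toColex (Finsupp.single x m)

lemma co_sg (x : K) (m : M0) (y : K) : co (sg x m) y = if x = y then m else 0 :=
  Finsupp.single_apply

lemma φ_sg (x : K) (m : M0) : φ (sg x m) = ev m := by
  show Finsupp.liftAddHom (fun _ : K => ev.toAddMonoidHom) (Finsupp.single x m) = ev m
  rw [Finsupp.liftAddHom_apply_single]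
  rfl

lemma smul_sg (k x : K) (m : M0) :
    k • sg x m = sg (x * (T 2 k)⁻¹) ((wt k (x * (T 2 k)⁻¹) : M0) * m) := by
  apply co_ext
  intro y
  rw [co_smul, co_sg, co_sg]
  by_cases h : x = y * T 2 k
  · rw [if_pos h, if_pos (by rw [h, mul_inv_cancel_right])]
    congr 3
    rw [h, mul_inv_cancel_right]
  · rw [if_neg h, if_neg (by rintro rfl; exact h (by rw [inv_mul_cancel_right])), mul_zero]

lemma C_induction {P : C → Prop} (f : C) (h0 : P 0) (hadd : ∀ f g, P f → P g → P (f + g))
    (hs : ∀ x m, P (sg x m)) : P f := by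
  have := Finsupp.induction_linear (motive := fun f : K →₀ M0 => P (toColex f)) (ofColex f)
    h0 (fun f g hf hg => hadd _ _ hf hg) (fun x m => hs x m)
  exact this

lemma negOnePow_zpow (a b : ℤ) : (-1 : ℤˣ) ^ (a.negOnePow • b) = b.negOnePow := by
  rcases Int.units_eq_one_or a.negOnePow with h | h
  · rw [h, one_smul]; rfl
  · rw [h, Units.smul_def, Units.val_neg, Units.val_one, smul_eq_mul, neg_one_mul, zpow_neg]
    show (b.negOnePow)⁻¹ = _
    exact Int.units_inv_eq_self _

lemma ev_wt (k x : K) : ev (wt k x : M0) = ((k.val 1).negOnePow : ℤ) := by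
  have : evU (wt k x) = (k.val 1).negOnePow := by
    rw [wt, map_mul, map_zpow, map_zpow, evU_w, evU_u, one_zpow, one_mul, negOnePow_zpow]
  rw [← this]
  rfl

lemma φ_smul (k : K) (f : C) : φ (k • f) = (k.val 1).negOnePow • φ f := by
  induction f using C_induction with
  | h0 => rw [smul_zero, map_zero, smul_zero]
  | hadd f g hf hg => rw [smul_add, map_add, map_add, smul_add, hf, hg]
  | hs x m => rw [smul_sg, φ_sg, φ_sg, map_mul, ev_wt]; rfl

end Pool.Agent.V11279.OG
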