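import Pool.Agent.V11279.OGc

set_option autoImplicit false

noncomputable section

namespace Pool.Agent.V11279.OG

/-- the map to `K` on coordinates -/
def mm (c : ℕ →₀ C) : K := ⟨c.mapRange φ (map_zero φ)⟩

lemma mm_apply (c : ℕ →₀ C) (i : ℕ) : (mm c).val i = φ (c i) := rfl

/-- the twist of `G` -/
def ΦG (i : ℕ) (c : ℕ →₀ C) : K := T (i + 1) (mm c)

lemma mm_tmul (a b : ℕ →₀ C) : mm (tmul ΦG a b) = mm a * mm b := by
  apply Tw.ext'
  intro i
  rw [K_mul, mm_apply, mm_apply, mm_apply, tmul_apply, map_add, φ_smul, ΦG, T_apply, mm_apply,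
    mm_apply]

/-- the data for `G` -/
def DG : TwData C K where
  Φ := ΦG
  zero i := by
    apply Tw.ext'
    intro j
    rw [ΦG, T_apply, mm_apply]
    simp [Tw.one_val]
  dep i a b h := by
    apply Tw.ext'
    intro j
    rw [ΦG, ΦG, T_apply, mm_apply, T_apply, mm_apply, h (i + 1 + j) (by omega)]
  mul i a b := by
    rw [ΦG, mm_tmul, map_mul]
    rfl

/-- the group `G` -/
abbrev G : Type := Tw DG

/-- the projection to `K` -/
def mG : G →* K where
  toFun x := mm x.val
  map_one' := by
    apply Tw.ext'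
    intro j
    rw [mm_apply]
    simp [Tw.one_val]
  map_mul' x y := mm_tmul x.val y.val

lemma mG_apply (x : G) (i : ℕ) : (mG x).val i = φ (x.val i) := mm_apply _ _

lemma G_mul (x y : G) (i : ℕ) : (x * y).val i = x.val i + T (i + 1) (mG x) • y.val i := rfl

lemma mulLeft_G (z x y : G) (h : x < y) : z * x < z * y :=
  Tw.mul_lt_mul_left_tw (fun g _ _ h => smul_lt_smul_C g h) z h

lemma mulRight_G (z x y : G) (h : x < y) : x * z < y * z :=
  Tw.mul_lt_mul_right_tw z h

instance : MulLeftMono G := ⟨fun z x y h => by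
  rcases lt_or_eq_of_le h with h | h
  · exact (mulLeft_G z x y h).le
  · rw [h]⟩

instance : MulRightMono G := ⟨fun z x y h => by
  rcases lt_or_eq_of_le h with h | h
  · exact (mulRight_G z x y h).le
  · rw [h]⟩

/-! ### solvability -/

/-- parity homomorphism -/
def par : K →* Multiplicative (ℕ → ZMod 2) where
  toFun x := Multiplicative.ofAdd (fun i => ((x.val i : ℤ) : ZMod 2))
  map_one' := by
    rw [Tw.one_val]
    simp only [Finsupp.coe_zero, Pi.zero_apply, Int.cast_zero]
    rfl
  map_mul' x y := by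
    rw [← ofAdd_add]
    congr 1
    funext i
    rw [K_mul, Pi.add_apply, Int.cast_add]
    congr 1
    rcases Int.units_eq_one_or (x.val (i + 2)).negOnePow with h | h
    · rw [h, one_smul]
    · rw [h, Units.smul_def, Units.val_neg, Units.val_one, smul_eq_mul, neg_one_mul, Int.cast_neg,
        ZModModule.neg_eq_self]

lemma negOnePow_of_par {x : K} (h : par x = 1) (i : ℕ) : (x.val i).negOnePow = 1 := by
  have h1 : ((x.val i : ℤ) : ZMod 2) = 0 := congr_fun (congrArg Multiplicative.toAdd h) i
  rw [ZMod.intCast_zmod_eq_zero_iff_dvd] at h1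
  exact Int.negOnePow_even _ (even_iff_two_dvd.mpr (by exact_mod_cast h1))

instance solK : Group.IsSolvable K := by
  have hker : Group.IsSolvable par.ker := by
    apply Group.isSolvable_of_comm
    rintro ⟨x, hx⟩ ⟨y, hy⟩
    rw [MonoidHom.mem_ker] at hx hy
    apply Subtype.ext
    apply Tw.ext'
    intro i
    show (x * y).val i = (y * x).val i
    rw [K_mul, K_mul, negOnePow_of_par hx, negOnePow_of_par hy, one_smul, one_smul, add_comm]
  exact Group.isSolvable_of_ker_le_range par.ker.subtype par (by rw [Subgroup.range_subtype])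

instance solG : Group.IsSolvable G := by
  have hker : Group.IsSolvable mG.ker := by
    apply Group.isSolvable_of_comm
    rintro ⟨x, hx⟩ ⟨y, hy⟩
    rw [MonoidHom.mem_ker] at hx hy
    apply Subtype.ext
    apply Tw.ext'
    intro i
    show (x * y).val i = (y * x).val i
    rw [G_mul, G_mul, hx, hy, map_one, one_smul, one_smul, add_comm]
  exact Group.isSolvable_of_ker_le_range mG.ker.subtype mG (by rw [Subgroup.range_subtype])

/-! ### the abelianization -/

/-- one-coordinate elements -/
def sG (i : ℕ) (c : C) : G := ⟨Finsupp.single i c⟩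

lemma sG_val (i : ℕ) (c : C) (j : ℕ) : (sG i c).val j = if i = j then c else 0 :=
  Finsupp.single_apply

lemma T_mG_sG (i : ℕ) (c : C) (j : ℕ) (hj : i ≤ j) : T (j + 1) (mG (sG i c)) = 1 := by
  apply Tw.ext'
  intro l
  rw [T_apply, mG_apply, sG_val, if_neg (by omega), map_zero]
  rfl

lemma sG_mul (i : ℕ) (c : C) (g : G) (hg : ∀ j, j < i → g.val j = 0) (j : ℕ) :
    (sG i c * g).val j = (if i = j then c else 0) + g.val j := by
  rw [G_mul, sG_val]
  by_cases hj : j < i
  · rw [hg j hj, smul_zero]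
  · rw [T_mG_sG i c j (by omega), one_smul]

lemma sG_add (i : ℕ) (c d : C) : sG i (c + d) = sG i c * sG i d := by
  apply Tw.ext'
  intro j
  rw [sG_mul i c (sG i d) (fun l hl => by rw [sG_val, if_neg (by omega)]), sG_val, sG_val]
  split_ifs <;> simp

/-- `sG` as a hom. -/
def sGhom (i : ℕ) : Multiplicative C →* G where
  toFun c := sG i c.toAdd
  map_one' := by
    apply Tw.ext'
    intro j
    rw [sG_val]
    simp [Tw.one_val]
  map_mul' c d := sG_add i _ _

/-- a lift of `κ` supported above `i` -/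
def lft (i : ℕ) (κ : K) : G :=
  ⟨Finsupp.onFinset (κ.val.support.image (fun l => i + 1 + l))
    (fun j => if i + 1 ≤ j then sg 1 ((κ.val (j - (i + 1)) : ℤ) : M0) else 0) (by
      intro j hj
      rw [Finset.mem_image]
      by_cases h : i + 1 ≤ j
      · refine ⟨j - (i + 1), ?_, by omega⟩
        rw [Finsupp.mem_support_iff]
        intro h0
        apply hj
        rw [if_pos h, h0]
        simp [sg]
      · rw [if_neg h] at hj
        exact absurd rfl hj)⟩

lemma lft_val (i : ℕ) (κ : K) (j : ℕ) : (lft i κ).val j =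
    if i + 1 ≤ j then sg 1 ((κ.val (j - (i + 1)) : ℤ) : M0) else 0 := rfl

lemma T_lft (i : ℕ) (κ : K) : T (i + 1) (mG (lft i κ)) = κ := by
  apply Tw.ext'
  intro l
  rw [T_apply, mG_apply, lft_val, if_pos (by omega), φ_sg, map_intCast, Nat.add_sub_cancel_left]
  rfl

lemma lft_conj (i : ℕ) (κ : K) (c : C) : lft i κ * sG i c = sG i (κ • c) * lft i κ := by
  apply Tw.ext'
  intro j
  rw [sG_mul i _ _ (fun l hl => by rw [lft_val, if_neg (by omega)]), G_mul, sG_val]
  by_cases h : i = j
  · subst h
    rw [if_pos rfl, if_pos rfl, T_lft, add_comm]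
  · rw [if_neg h, if_neg h, smul_zero, add_zero, zero_add]

open Abelianization in
lemma of_sG_smul (i : ℕ) (κ : K) (c : C) :
    Abelianization.of (sG i (κ • c)) = Abelianization.of (sG i c) := by
  have h := congrArg (fun z => Abelianization.of z) (lft_conj i κ c)
  simp only [map_mul] at h
  rw [mul_comm] at h
  exact (mul_right_cancel h).symm

/-- the composite `C → G^{ab}` -/
def ψ (i : ℕ) : Multiplicative C →* Abelianization G := Abelianization.of.comp (sGhom i)

lemma ψ_smul (i : ℕ) (κ : K) (c : C) :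
    ψ i (Multiplicative.ofAdd (κ • c)) = ψ i (Multiplicative.ofAdd c) := of_sG_smul i κ c

/-- element of `K` with `T 2 k = y` and first two coordinates given -/
def kel (a b : ℤ) (y : K) : K :=
  ⟨Finsupp.single 0 a + Finsupp.single 1 b + Finsupp.onFinset (y.val.support.image (fun l => 2 + l))
    (fun j => if 2 ≤ j then y.val (j - 2) else 0) (by
      intro j hj
      rw [Finset.mem_image]
      by_cases h : 2 ≤ j
      · rw [if_pos h] at hj
        exact ⟨j - 2, by rwa [Finsupp.mem_support_iff], by omega⟩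
      · rw [if_neg h] at hj
        exact absurd rfl hj)⟩

lemma kel_zero (a b : ℤ) (y : K) : (kel a b y).val 0 = a := by
  simp [kel]

lemma kel_one (a b : ℤ) (y : K) : (kel a b y).val 1 = b := by
  simp [kel]

lemma T_kel (a b : ℤ) (y : K) : T 2 (kel a b y) = y := by
  apply Tw.ext'
  intro l
  rw [T_apply]
  simp [kel, Finsupp.single_apply]
  omega

lemma kel_smul (a b : ℤ) (m : M0) :
    kel a b 1 • sg 1 m = sg 1 (((w ^ a * u ^ b : M0ˣ) : M0) * m) := by
  rw [smul_sg, T_kel, inv_one, mul_one, wt, kel_zero, kel_one]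
  simp [Tw.one_val]

lemma kel_smul' (y : K) (m : M0) : kel 0 0 y • sg y m = sg 1 m := by
  rw [smul_sg, T_kel, mul_inv_cancel, wt, kel_zero, kel_one]
  simp

lemma sg_add (x : K) (m n : M0) : sg x (m + n) = sg x m + sg x n := by
  unfold sg
  rw [Finsupp.single_add]
  rfl

lemma ψ_sg_one_sq (i : ℕ) (m : M0) : (ψ i (Multiplicative.ofAdd (sg 1 m))) ^ 2 = 1 := by
  have hu : ∀ n : M0, ψ i (Multiplicative.ofAdd (sg 1 ((u : M0) * n))) =
      ψ i (Multiplicative.ofAdd (sg 1 n)) := by
    intro n
    have := ψ_smul i (kel 0 1 1) (sg 1 n)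
    rwa [kel_smul, zpow_zero, zpow_one, one_mul] at this
  have hw : ∀ n : M0, ψ i (Multiplicative.ofAdd (sg 1 ((w : M0) * n))) =
      ψ i (Multiplicative.ofAdd (sg 1 n)) := by
    intro n
    have := ψ_smul i (kel 1 0 1) (sg 1 n)
    rwa [kel_smul, zpow_zero, zpow_one, mul_one] at this
  have h := hw m
  rw [w_val, show (1 + (u : M0) + (u : M0) ^ 2) * m = m + ((u : M0) * m + (u : M0) * ((u : M0) * m))
    by ring, sg_add, sg_add, ofAdd_add, ofAdd_add, map_mul, map_mul, hu, hu, hu] at h
  rw [pow_two]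
  exact mul_eq_left.mp h

lemma ψ_sq (i : ℕ) (c : C) : (ψ i (Multiplicative.ofAdd c)) ^ 2 = 1 := by
  induction c using C_induction with
  | h0 => rw [ofAdd_zero, map_one, one_pow]
  | hadd f g hf hg => rw [ofAdd_add, map_mul, mul_pow, hf, hg, one_mul]
  | hs x m =>
    rw [← ψ_smul i (kel 0 0 x), kel_smul']
    exact ψ_sg_one_sq i m

lemma of_sq (g : G) : (Abelianization.of g) ^ 2 = 1 := by
  obtain ⟨f⟩ := g
  induction f using Finsupp.induction_on_min with
  | zero =>
    have : (⟨0⟩ : G) = 1 := rfl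
    rw [this, map_one, one_pow]
  | single_add a b f hlt hb ih =>
    have : (⟨Finsupp.single a b + f⟩ : G) = sG a b * ⟨f⟩ := by
      apply Tw.ext'
      intro j
      rw [sG_mul]
      · show (Finsupp.single a b + f) j = _
        rw [Finsupp.add_apply, Finsupp.single_apply]
      · intro j hj
        by_contra h
        have := hlt j (Finsupp.mem_support_iff.mpr h)
        omega
    rw [this, map_mul, mul_pow, ih, mul_one]
    exact ψ_sq a b

theorem counterexample :
    ¬ (∀ (G : Type) [Group G] [LinearOrder G] [MulLeftMono G] [MulRightMono G]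
      [Nontrivial G], Group.IsSolvable G → ∃ x : Abelianization G, ¬ IsOfFinOrder x) := by
  intro h
  have hnt : Nontrivial G := by
    refine ⟨⟨sG 0 (sg 1 1), 1, ?_⟩⟩
    intro h
    have h1 : (mG (sG 0 (sg 1 1))).val 0 = (mG 1).val 0 := by rw [h]
    rw [mG_apply, sG_val, if_pos rfl, φ_sg, map_one, map_one] at h1
    exact one_ne_zero h1
  obtain ⟨x, hx⟩ := h G solG
  apply hx
  rw [isOfFinOrder_iff_pow_eq_one]
  refine ⟨2, two_pos, ?_⟩
  obtain ⟨g, rfl⟩ := QuotientGroup.mk_surjective x
  exact of_sq g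

end Pool.Agent.V11279.OG
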