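import Mathlib

set_option autoImplicit false

noncomputable section

namespace Pool.Agent.V11279.RD

/-- The ring of matrices `[[σ a, b], [0, a]]`. -/
@[ext]
structure Tri {D : Type} [Ring D] (σ : D →+* D) where
  /-- diagonal entry -/
  a : D
  /-- corner entry -/
  b : D

namespace Tri

variable {D : Type} [Ring D] {σ : D →+* D}

instance : Zero (Tri σ) := ⟨⟨0, 0⟩⟩
instance : One (Tri σ) := ⟨⟨1, 0⟩⟩
instance : Add (Tri σ) := ⟨fun x y => ⟨x.a + y.a, x.b + y.b⟩⟩
instance : Neg (Tri σ) := ⟨fun x => ⟨-x.a, -x.b⟩⟩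
instance : Mul (Tri σ) := ⟨fun x y => ⟨x.a * y.a, σ x.a * y.b + x.b * y.a⟩⟩

@[simp] lemma zero_a : (0 : Tri σ).a = 0 := rfl
@[simp] lemma zero_b : (0 : Tri σ).b = 0 := rfl
@[simp] lemma one_a : (1 : Tri σ).a = 1 := rfl
@[simp] lemma one_b : (1 : Tri σ).b = 0 := rfl
@[simp] lemma add_a (x y : Tri σ) : (x + y).a = x.a + y.a := rfl
@[simp] lemma add_b (x y : Tri σ) : (x + y).b = x.b + y.b := rfl
@[simp] lemma neg_a (x : Tri σ) : (-x).a = -x.a := rfl
@[simp] lemma neg_b (x : Tri σ) : (-x).b = -x.b := rfl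
@[simp] lemma mul_a (x y : Tri σ) : (x * y).a = x.a * y.a := rfl
@[simp] lemma mul_b (x y : Tri σ) : (x * y).b = σ x.a * y.b + x.b * y.a := rfl

instance : Ring (Tri σ) where
  add_assoc x y z := by ext <;> simp [add_assoc]
  zero_add x := by ext <;> simp
  add_zero x := by ext <;> simp
  add_comm x y := by ext <;> simp [add_comm]
  neg_add_cancel x := by ext <;> simp
  mul_assoc x y z := by ext <;> simp [mul_assoc, mul_add, add_mul, add_assoc]
  one_mul x := by ext <;> simp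
  mul_one x := by ext <;> simp
  zero_mul x := by ext <;> simp
  mul_zero x := by ext <;> simp
  left_distrib x y z := by
    ext
    · simp [mul_add]
    · simp [mul_add]; abel
  right_distrib x y z := by
    ext
    · simp [add_mul]
    · simp [add_mul]; abel
  nsmul := nsmulRec
  zsmul := zsmulRec

/-- projection -/
def pr : Tri σ →+* D where
  toFun x := x.a
  map_one' := rfl
  map_zero' := rfl
  map_mul' _ _ := rfl
  map_add' _ _ := rfl

end Tri

section main

variable {D : Type} [DivisionRing D] {σ : D →+* D}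

/-- the minimal ideal -/
def N (σ : D →+* D) : Submodule (Tri σ)ᵐᵒᵖ (Tri σ) where
  carrier := {x | x.a = 0}
  add_mem' := by
    intro x y hx hy
    simp only [Set.mem_ofPred_eq] at *
    simp [hx, hy]
  zero_mem' := rfl
  smul_mem' := by
    intro c x hx
    simp only [Set.mem_ofPred_eq] at *
    show (x * c.unop).a = 0
    simp [hx]

lemma mem_N {x : Tri σ} : x ∈ N σ ↔ x.a = 0 := Iff.rfl

lemma right_tricho (P : Submodule (Tri σ)ᵐᵒᵖ (Tri σ)) : P = ⊥ ∨ P = N σ ∨ P = ⊤ := by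
  by_cases h1 : ∃ x ∈ P, x.a ≠ 0
  · right; right
    obtain ⟨x, hx, ha⟩ := h1
    rw [Submodule.eq_top_iff']
    intro y
    have : y = MulOpposite.op (⟨x.a⁻¹ * y.a, (σ x.a)⁻¹ * (y.b - x.b * (x.a⁻¹ * y.a))⟩ : Tri σ) • x := by
      show y = x * (⟨x.a⁻¹ * y.a, (σ x.a)⁻¹ * (y.b - x.b * (x.a⁻¹ * y.a))⟩ : Tri σ)
      have hσ : σ x.a ≠ 0 := (map_ne_zero σ).mpr ha
      ext
      · simp [mul_inv_cancel_left₀ ha]
      · simp [mul_inv_cancel_left₀ hσ]
    rw [this]
    exact P.smul_mem _ hx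
  · push Not at h1
    by_cases h2 : ∃ x ∈ P, x ≠ 0
    · right; left
      obtain ⟨x, hx, h0⟩ := h2
      have ha := h1 x hx
      have hb : x.b ≠ 0 := by
        intro hb
        exact h0 (Tri.ext ha hb)
      apply le_antisymm
      · intro y hy
        exact h1 y hy
      · intro y hy
        rw [mem_N] at hy
        have : y = MulOpposite.op (⟨x.b⁻¹ * y.b, 0⟩ : Tri σ) • x := by
          show y = x * (⟨x.b⁻¹ * y.b, 0⟩ : Tri σ)
          ext
          · simp [hy, ha]
          · simp [mul_inv_cancel_left₀ hb]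
        rw [this]
        exact P.smul_mem _ hx
    · left
      push Not at h2
      rw [Submodule.eq_bot_iff]
      exact h2

lemma right_chain (P Q : Submodule (Tri σ)ᵐᵒᵖ (Tri σ)) : P ≤ Q ∨ Q ≤ P := by
  rcases right_tricho P with h | h | h
  · left; rw [h]; exact bot_le
  · rcases right_tricho Q with h' | h' | h'
    · right; rw [h']; exact bot_le
    · left; rw [h, h']
    · left; rw [h']; exact le_top
  · right; rw [h]; exact le_top

lemma right_dist (a b c : Submodule (Tri σ)ᵐᵒᵖ (Tri σ)) : a ⊓ (b ⊔ c) = (a ⊓ b) ⊔ (a ⊓ c) := by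
  rcases right_chain b c with h | h
  · rw [sup_eq_right.mpr h, sup_eq_right.mpr (inf_le_inf_left a h)]
  · rw [sup_eq_left.mpr h, sup_eq_left.mpr (inf_le_inf_left a h)]

/-- the left ideal `σ(D) y` in the corner -/
def LI (σ : D →+* D) (y : D) : Submodule (Tri σ) (Tri σ) where
  carrier := {x | x.a = 0 ∧ ∃ d, x.b = σ d * y}
  add_mem' := by
    rintro x z ⟨hx, d, hd⟩ ⟨hz, e, he⟩
    refine ⟨by simp [hx, hz], d + e, ?_⟩
    simp [hd, he, add_mul]
  zero_mem' := ⟨rfl, 0, by simp⟩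
  smul_mem' := by
    rintro c x ⟨hx, d, hd⟩
    refine ⟨?_, c.a * d, ?_⟩
    · show (c * x).a = 0
      simp [hx]
    · show (c * x).b = _
      simp [hx, hd, mul_assoc]

lemma mem_LI {y : D} {x : Tri σ} : x ∈ LI σ y ↔ x.a = 0 ∧ ∃ d, x.b = σ d * y := Iff.rfl

lemma left_not_dist {y : D} (hy : ∀ d, σ d ≠ y) :
    ¬ ∀ a b c : Submodule (Tri σ) (Tri σ), a ⊓ (b ⊔ c) = (a ⊓ b) ⊔ (a ⊓ c) := by
  intro h
  have h1 := h (LI σ (1 + y)) (LI σ 1) (LI σ y)
  have hbot1 : LI σ (1 + y) ⊓ LI σ 1 = ⊥ := by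
    rw [Submodule.eq_bot_iff]
    rintro x ⟨⟨hx, d, hd⟩, _, e, he⟩
    have h2 : σ d * (1 + y) = σ e * 1 := by rw [← hd, ← he]
    by_cases hd0 : d = 0
    · apply Tri.ext hx
      rw [hd, hd0]
      simp
    · exfalso
      apply hy (d⁻¹ * e - 1)
      rw [map_sub, map_mul, map_one, map_inv₀]
      have h3 : σ d ≠ 0 := (map_ne_zero σ).mpr hd0
      have h4 : 1 + y = (σ d)⁻¹ * σ e := by
        rw [mul_one] at h2
        rw [← h2, inv_mul_cancel_left₀ h3]
      rw [← h4]
      abel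
  have hbot2 : LI σ (1 + y) ⊓ LI σ y = ⊥ := by
    rw [Submodule.eq_bot_iff]
    rintro x ⟨⟨hx, d, hd⟩, _, e, he⟩
    have h2 : σ d * (1 + y) = σ e * y := by rw [← hd, ← he]
    by_cases hd0 : d = 0
    · apply Tri.ext hx
      rw [hd, hd0]
      simp
    · exfalso
      have h3 : σ (e - d) * y = σ d := by
        rw [map_sub, sub_mul, ← h2, mul_add, mul_one]
        abel
      have h4 : e - d ≠ 0 := by
        intro h5
        rw [h5, map_zero, zero_mul] at h3
        exact hd0 ((map_eq_zero σ).mp h3.symm)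
      apply hy ((e - d)⁻¹ * d)
      rw [map_mul, map_inv₀, ← h3, inv_mul_cancel_left₀ ((map_ne_zero σ).mpr h4)]
  rw [hbot1, hbot2, sup_bot_eq] at h1
  have h2 : (⟨0, 1 + y⟩ : Tri σ) ∈ LI σ (1 + y) ⊓ (LI σ 1 ⊔ LI σ y) := by
    refine ⟨⟨rfl, 1, by simp⟩, ?_⟩
    have : (⟨0, 1 + y⟩ : Tri σ) = ⟨0, 1⟩ + ⟨0, y⟩ := by ext <;> simp
    rw [this]
    exact Submodule.add_mem_sup ⟨rfl, 1, by simp⟩ ⟨rfl, 1, by simp⟩
  rw [h1, Submodule.mem_bot] at h2
  have h3 : (1 : D) + y = 0 := congrArg Tri.b h2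
  apply hy (-1)
  rw [map_neg, map_one]
  exact neg_eq_of_add_eq_zero_right h3

lemma sq_zero_of {z : Tri σ} (h : z.a = 0) : z * z = 0 := by
  ext
  · simp [h]
  · simp [h]

/-- the central copy of `F` -/
def toR {F : Type} [Field F] [Algebra F D] (hσ : ∀ c : F, σ (algebraMap F D c) = algebraMap F D c) :
    F →+* Subring.center (Tri σ) where
  toFun c := ⟨⟨algebraMap F D c, 0⟩, by
    rw [Subring.mem_center_iff]
    intro g
    ext
    · simp [Algebra.commutes]
    · simp [hσ, Algebra.commutes]⟩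
  map_one' := by
    apply Subtype.ext
    ext <;> simp
  map_zero' := by
    apply Subtype.ext
    ext <;> simp
  map_mul' x y := by
    apply Subtype.ext
    ext <;> simp
  map_add' x y := by
    apply Subtype.ext
    ext <;> simp

theorem counterexample_of {F : Type} [Field F] [Algebra F D] (hint : Algebra.IsIntegral F D)
    (σ : D →ₐ[F] D) (hs : ¬ Function.Surjective σ) :
    ¬ (∀ (R : Type) [Ring R],
      (∀ a b c : Submodule Rᵐᵒᵖ R, a ⊓ (b ⊔ c) = (a ⊓ b) ⊔ (a ⊓ c)) →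
      (∀ x : R, ∃ p : Polynomial (Subring.center R),
          p.Monic ∧ Polynomial.eval₂ (Subring.center R).subtype x p = 0) →
      ∀ a b c : Submodule R R, a ⊓ (b ⊔ c) = (a ⊓ b) ⊔ (a ⊓ c)) := by
  intro h
  unfold Function.Surjective at hs
  push Not at hs
  obtain ⟨y, hy⟩ := hs
  refine left_not_dist (σ := σ.toRingHom) hy (h (Tri σ.toRingHom) right_dist ?_)
  intro x
  have hσ : ∀ c : F, σ.toRingHom (algebraMap F D c) = algebraMap F D c := fun c => σ.commutes c
  obtain ⟨p, hp, hpx⟩ := hint.isIntegral x.a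
  refine ⟨(p ^ 2).map (toR hσ), (hp.pow 2).map _, ?_⟩
  rw [Polynomial.eval₂_map]
  set g : F →+* Tri σ.toRingHom := (Subring.center (Tri σ.toRingHom)).subtype.comp (toR hσ) with hg
  have hc : ∀ (c : F) (z : Tri σ.toRingHom), g c * z = z * g c := by
    intro c z
    exact ((Subring.mem_center_iff.mp (toR hσ c).2) z).symm
  have hpow : Polynomial.eval₂ g x (p ^ 2) = (Polynomial.eval₂ g x p) ^ 2 := by
    rw [pow_two, pow_two]
    apply Polynomial.eval₂_mul_noncomm
    intro k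
    exact hc _ _
  rw [hpow]
  have h1 : (Polynomial.eval₂ g x p).a = 0 := by
    have : Tri.pr (Polynomial.eval₂ g x p) = Polynomial.eval₂ (Tri.pr.comp g) (Tri.pr x) p :=
      Polynomial.hom_eval₂ _ _ _ _
    have h2 : (Tri.pr (σ := σ.toRingHom)).comp g = algebraMap F D := by
      ext c
      rfl
    rw [h2] at this
    exact this.trans hpx
  rw [pow_two]
  exact sq_zero_of h1

end main

end Pool.Agent.V11279.RD
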