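import Mathlib

set_option autoImplicit false

noncomputable section

namespace Pool.Agent.V11279.RD

section endo

variable {F D : Type} [Field F] [DivisionRing D] [Algebra F D] (e : ℕ → D)

/-- partial products -/
def gg : ℕ → D
  | 0 => 1
  | n + 1 => gg n * (1 + e (n + 1))

variable {e} (h2 : (2 : D) ≠ 0) (he : ∀ n, e n ≠ 0)
  (hanti : ∀ n, e (n + 1) * e n = - (e n * e (n + 1)))
  (hcomm : ∀ i j, i + 2 ≤ j → Commute (e i) (e j))
  (hloc : ∀ x : D, ∃ N, ∀ n, N ≤ n → Commute x (e n))

include h2 he hanti in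
lemma one_add_ne (n : ℕ) : 1 + e n ≠ 0 := by
  intro h
  have h1 : e n = -1 := by
    rw [eq_neg_iff_add_eq_zero, add_comm]; exact h
  have h3 := hanti n
  rw [h1] at h3
  have h4 : 2 * e (n + 1) = 0 := by
    have : e (n + 1) * -1 = -(-1 * e (n + 1)) := h3
    simp only [mul_neg, mul_one, neg_mul, one_mul, neg_neg] at this
    rw [two_mul]
    nth_rewrite 1 [← this]
    exact neg_add_cancel _
  rcases mul_eq_zero.mp h4 with h5 | h5
  · exact h2 h5
  · exact he _ h5

include h2 he hanti in
lemma gg_ne (n : ℕ) : gg e n ≠ 0 := by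
  induction n with
  | zero => exact one_ne_zero
  | succ n ih => exact mul_ne_zero ih (one_add_ne h2 he hanti _)

include hcomm in
lemma gg_comm (n j : ℕ) (hj : n + 2 ≤ j) : Commute (gg e n) (e j) := by
  induction n with
  | zero => exact Commute.one_left _
  | succ n ih =>
    exact (ih (by omega)).mul_left ((Commute.one_left _).add_left (hcomm _ _ (by omega)))

variable (e) in
/-- conjugation -/
def cj (n : ℕ) (x : D) : D := gg e n * x * (gg e n)⁻¹

include h2 he hanti in
lemma cj_succ (n : ℕ) (x : D) (hx : Commute x (e (n + 1))) : cj e (n + 1) x = cj e n x := by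
  unfold cj
  have h1 : Commute x (1 + e (n + 1)) := (Commute.one_right x).add_right hx
  have h3 := one_add_ne h2 he hanti (n + 1)
  rw [gg, mul_inv_rev]
  have : gg e n * (1 + e (n + 1)) * x * ((1 + e (n + 1))⁻¹ * (gg e n)⁻¹) =
      gg e n * (((1 + e (n + 1)) * x) * (1 + e (n + 1))⁻¹) * (gg e n)⁻¹ := by
    simp only [mul_assoc]
  rw [this, ← h1.eq, mul_inv_cancel_right₀ h3]

include h2 he hanti in
lemma cj_const (N n : ℕ) (x : D) (hx : ∀ n, N ≤ n → Commute x (e n)) (hn : N ≤ n) :
    cj e n x = cj e N x := by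
  induction n, hn using Nat.le_induction with
  | base => rfl
  | succ n hn ih => rw [cj_succ h2 he hanti n x (hx _ (by omega)), ih]

include hloc in
/-- the limit -/
def lim (x : D) : D := cj e (Classical.choose (hloc x)) x

include h2 he hanti in
lemma lim_eq (x : D) : ∃ N, ∀ n, N ≤ n → lim hloc x = cj e n x :=
  ⟨Classical.choose (hloc x), fun n hn =>
    (cj_const h2 he hanti _ n x (Classical.choose_spec (hloc x)) hn).symm⟩

include h2 he hanti in
lemma cj_mul (n : ℕ) (x y : D) : cj e n (x * y) = cj e n x * cj e n y := by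
  unfold cj
  have := gg_ne h2 he hanti n
  rw [show gg e n * x * (gg e n)⁻¹ * (gg e n * y * (gg e n)⁻¹) =
    gg e n * x * ((gg e n)⁻¹ * (gg e n * y)) * (gg e n)⁻¹ by simp only [mul_assoc],
    inv_mul_cancel_left₀ this]
  simp only [mul_assoc]

lemma cj_add (n : ℕ) (x y : D) : cj e n (x + y) = cj e n x + cj e n y := by
  unfold cj
  rw [mul_add, add_mul]

include h2 he hanti in
lemma cj_alg (n : ℕ) (c : F) : cj e n (algebraMap F D c) = algebraMap F D c := by
  unfold cj
  rw [← Algebra.commutes, mul_inv_cancel_right₀ (gg_ne h2 he hanti n)]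

include h2 he hanti in
lemma lim_mul (x y : D) : lim hloc (x * y) = lim hloc x * lim hloc y := by
  obtain ⟨a, ha⟩ := lim_eq h2 he hanti hloc x
  obtain ⟨b, hb⟩ := lim_eq h2 he hanti hloc y
  obtain ⟨c, hc⟩ := lim_eq h2 he hanti hloc (x * y)
  rw [ha (a + b + c) (by omega), hb (a + b + c) (by omega), hc (a + b + c) (by omega),
    cj_mul h2 he hanti]

include h2 he hanti in
lemma lim_add (x y : D) : lim hloc (x + y) = lim hloc x + lim hloc y := by
  obtain ⟨a, ha⟩ := lim_eq h2 he hanti hloc x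
  obtain ⟨b, hb⟩ := lim_eq h2 he hanti hloc y
  obtain ⟨c, hc⟩ := lim_eq h2 he hanti hloc (x + y)
  rw [ha (a + b + c) (by omega), hb (a + b + c) (by omega), hc (a + b + c) (by omega), cj_add]

include h2 he hanti in
lemma lim_alg (c : F) : lim hloc (algebraMap F D c) = algebraMap F D c := by
  obtain ⟨a, ha⟩ := lim_eq h2 he hanti hloc (algebraMap F D c)
  rw [ha a le_rfl, cj_alg h2 he hanti]

variable (F) in
/-- the endomorphism -/
def endo : D →ₐ[F] D where
  toFun := lim hloc
  map_one' := by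
    rw [← map_one (algebraMap F D)]
    exact lim_alg h2 he hanti hloc 1
  map_zero' := by
    rw [← map_zero (algebraMap F D)]
    exact lim_alg h2 he hanti hloc 0
  map_mul' := lim_mul h2 he hanti hloc
  map_add' := lim_add h2 he hanti hloc
  commutes' := lim_alg h2 he hanti hloc

lemma key_alg {y a f : D} (h2 : (2 : D) ≠ 0) (hf : f ≠ 0) (hfa : f * a = - (a * f)) (h1 : 1 + a ≠ 0)
    (hyf : Commute y f) (h : Commute ((1 + a)⁻¹ * y * (1 + a)) f) : Commute y a := by
  have hPf : (1 + a) * f = f * (1 - a) := by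
    rw [add_mul, mul_sub, mul_one, one_mul, hfa, sub_neg_eq_add]
  have e1 : y * (1 - a) = (1 - a) * (1 + a)⁻¹ * y * (1 + a) := by
    have e2 : f * (y * (1 - a)) = f * ((1 - a) * (1 + a)⁻¹ * y * (1 + a)) := by
      calc f * (y * (1 - a)) = y * (f * (1 - a)) := by rw [← mul_assoc, ← hyf.eq, mul_assoc]
        _ = (1 + a) * (((1 + a)⁻¹ * y * (1 + a)) * f) := by
            rw [← hPf]
            simp only [← mul_assoc]
            rw [mul_inv_cancel₀ h1, one_mul]
        _ = (1 + a) * (f * ((1 + a)⁻¹ * y * (1 + a))) := by rw [h.eq]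
        _ = ((1 + a) * f) * ((1 + a)⁻¹ * y * (1 + a)) := by rw [← mul_assoc (1 + a) f]
        _ = f * ((1 - a) * (1 + a)⁻¹ * y * (1 + a)) := by rw [hPf]; simp only [mul_assoc]
    exact mul_left_cancel₀ hf e2
  have hPQ : (1 + a) * (1 - a) = (1 - a) * (1 + a) := by noncomm_ring
  have e3 : (1 + a) * y * (1 - a) = (1 - a) * y * (1 + a) := by
    calc (1 + a) * y * (1 - a) = (1 + a) * (y * (1 - a)) := by rw [mul_assoc]
      _ = (1 + a) * (1 - a) * ((1 + a)⁻¹ * (y * (1 + a))) := by rw [e1]; simp only [mul_assoc]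
      _ = (1 - a) * ((1 + a) * ((1 + a)⁻¹ * (y * (1 + a)))) := by rw [hPQ]; simp only [mul_assoc]
      _ = (1 - a) * y * (1 + a) := by rw [mul_inv_cancel_left₀ h1, mul_assoc]
  have e4 : 2 * (y * a) = 2 * (a * y) := by
    have e5 : (1 + a) * y * (1 - a) - (1 - a) * y * (1 + a) = 2 * (a * y) - 2 * (y * a) := by
      noncomm_ring
    rw [e3, sub_self] at e5
    exact (sub_eq_zero.mp e5.symm).symm
  exact mul_left_cancel₀ h2 e4

include h2 he hanti hcomm in
lemma never (n : ℕ) : ¬ Commute ((gg e n)⁻¹ * e 0 * gg e n) (e (n + 1)) := by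
  induction n with
  | zero =>
    intro h
    simp only [gg, inv_one, one_mul, mul_one, zero_add] at h
    have h3 := hanti 0
    rw [zero_add, ← h.eq] at h3
    have h4 : 2 * (e 0 * e 1) = 0 := by
      rw [two_mul]
      nth_rewrite 1 [h3]
      exact neg_add_cancel _
    rcases mul_eq_zero.mp h4 with h5 | h5
    · exact h2 h5
    · exact mul_ne_zero (he 0) (he 1) h5
  | succ n ih =>
    intro h
    apply ih
    apply key_alg (f := e (n + 2)) h2 (he _) (hanti _) (one_add_ne h2 he hanti _)
    · have h1 := gg_comm hcomm n (n + 2) le_rfl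
      exact (h1.inv_left₀.mul_left (hcomm 0 (n + 2) (by omega))).mul_left h1
    · rw [gg, mul_inv_rev] at h
      simpa only [mul_assoc] using h

include hcomm in
theorem endo_not_surj : ¬ Function.Surjective (endo F h2 he hanti hloc) := by
  intro hs
  obtain ⟨x, hx⟩ := hs (e 0)
  obtain ⟨a, ha⟩ := lim_eq h2 he hanti hloc x
  obtain ⟨N, hN⟩ := hloc x
  apply never h2 he hanti hcomm (a + N)
  have h1 : e 0 = cj e (a + N) x := by
    rw [← ha (a + N) (by omega)]
    exact hx.symm
  have h3 := gg_ne h2 he hanti (a + N)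
  have h4 : (gg e (a + N))⁻¹ * e 0 * gg e (a + N) = x := by
    rw [h1, cj]
    simp only [mul_assoc]
    rw [inv_mul_cancel₀ h3, mul_one, inv_mul_cancel_left₀ h3]
  rw [h4]
  exact hN _ (by omega)

end endo

end Pool.Agent.V11279.RD
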