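import Mathlib

set_option autoImplicit false

noncomputable section

namespace Pool.Agent.V11279.RD

open Finset

/-- exponents -/
abbrev Gm : Type := Lex (ℕ →₀ ℤ)

/-- coordinates -/
def cd (γ : Gm) (i : ℕ) : ℤ := (ofLex γ) i

lemma cd_ext {γ δ : Gm} (h : ∀ i, cd γ i = cd δ i) : γ = δ := ofLex.injective (Finsupp.ext h)
lemma cd_add (γ δ : Gm) (i : ℕ) : cd (γ + δ) i = cd γ i + cd δ i := rfl
lemma cd_zero (i : ℕ) : cd 0 i = 0 := rfl

/-- the bilinear form -/
def chi (γ : Gm) : Gm →+ ℤ where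
  toFun δ := (ofLex δ).sum (fun i d => cd γ (i + 1) * d)
  map_zero' := Finsupp.sum_zero_index
  map_add' δ δ' := by
    show (ofLex δ + ofLex δ').sum _ = _
    rw [Finsupp.sum_add_index']
    · intro i; exact mul_zero _
    · intro i a b; exact mul_add _ _ _

lemma chi_add (γ γ' δ : Gm) : chi (γ + γ') δ = chi γ δ + chi γ' δ := by
  show (ofLex δ).sum _ = (ofLex δ).sum _ + (ofLex δ).sum _
  rw [← Finsupp.sum_add]
  congr 1
  funext i d
  rw [cd_add, add_mul]

lemma chi_zero (δ : Gm) : chi 0 δ = 0 := by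
  have := chi_add 0 0 δ
  rw [add_zero] at this
  omega

/-- basis vector -/
def bs (i : ℕ) : Gm := toLex (Finsupp.single i 1)

lemma cd_bs (i j : ℕ) : cd (bs i) j = if i = j then 1 else 0 := Finsupp.single_apply

lemma chi_bs (γ : Gm) (i : ℕ) : chi γ (bs i) = cd γ (i + 1) := by
  show (Finsupp.single i (1 : ℤ)).sum _ = _
  rw [Finsupp.sum_single_index (mul_zero _), mul_one]

lemma chi_bs_left (γ : Gm) (i : ℕ) : chi (bs (i + 1)) γ = cd γ i := by
  show (ofLex γ).sum _ = _
  rw [Finsupp.sum_eq_single i]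
  · rw [cd_bs, if_pos rfl, one_mul]; rfl
  · intro j _ hj
    rw [cd_bs, if_neg (by omega), zero_mul]
  · intro _
    exact mul_zero _

/-- rational sign -/
def rs (γ δ : Gm) : ℚ := (((chi γ δ).negOnePow : ℤˣ) : ℤ)

lemma rs_add_right (γ δ δ' : Gm) : rs γ (δ + δ') = rs γ δ * rs γ δ' := by
  unfold rs
  rw [map_add, Int.negOnePow_add, Units.val_mul, Int.cast_mul]

lemma rs_add_left (γ γ' δ : Gm) : rs (γ + γ') δ = rs γ δ * rs γ' δ := by
  unfold rs
  rw [chi_add, Int.negOnePow_add, Units.val_mul, Int.cast_mul]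

lemma rs_zero_left (δ : Gm) : rs 0 δ = 1 := by
  unfold rs
  rw [chi_zero]; simp

lemma rs_zero_right (δ : Gm) : rs δ 0 = 1 := by
  unfold rs
  rw [map_zero]; simp

lemma rs_or (γ δ : Gm) : rs γ δ = 1 ∨ rs γ δ = -1 := by
  unfold rs
  rcases Int.units_eq_one_or (chi γ δ).negOnePow with h | h
  · left; rw [h]; simp
  · right; rw [h]; simp

lemma rs_ne (γ δ : Gm) : rs γ δ ≠ 0 := by
  rcases rs_or γ δ with h | h <;> rw [h] <;> norm_num

lemma rs_sq (γ δ : Gm) : rs γ δ * rs γ δ = 1 := by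
  rcases rs_or γ δ with h | h <;> rw [h] <;> norm_num

lemma rs_eq_one_iff (γ δ : Gm) : rs γ δ = 1 ↔ Even (chi γ δ) := by
  unfold rs
  rw [← Int.negOnePow_eq_one_iff]
  constructor
  · intro h
    have h1 : (((chi γ δ).negOnePow : ℤˣ) : ℤ) = 1 := Int.cast_injective (α := ℚ) (by rw [h]; simp)
    exact Units.ext h1
  · intro h
    rw [h]; simp

/-- the big field -/
abbrev KK : Type := HahnSeries Gm ℚ

/-- sign change -/
def th0 (γ : Gm) (x : KK) : KK where
  coeff δ := rs γ δ * x.coeff δ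
  isPWO_support' := x.isPWO_support.mono (by
    intro δ hδ
    rw [HahnSeries.mem_support]
    exact right_ne_zero_of_mul hδ)

lemma th0_coeff (γ : Gm) (x : KK) (δ : Gm) : (th0 γ x).coeff δ = rs γ δ * x.coeff δ := rfl

lemma th0_support (γ : Gm) (x : KK) (δ : Gm) : δ ∈ (th0 γ x).support ↔ δ ∈ x.support := by
  rw [HahnSeries.mem_support, HahnSeries.mem_support, th0_coeff, mul_ne_zero_iff]
  exact ⟨fun h => h.2, fun h => ⟨rs_ne _ _, h⟩⟩

/-- sign change as ring hom -/
def th (γ : Gm) : KK →+* KK where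
  toFun := th0 γ
  map_one' := by
    ext δ
    rw [th0_coeff, HahnSeries.coeff_one]
    by_cases h : δ = 0
    · rw [h, rs_zero_right, if_pos rfl, one_mul]
    · rw [if_neg h, mul_zero]
  map_zero' := by
    ext δ
    rw [th0_coeff, HahnSeries.coeff_zero, mul_zero]
  map_add' x y := by
    ext δ
    rw [th0_coeff, HahnSeries.coeff_add, HahnSeries.coeff_add, th0_coeff, th0_coeff, mul_add]
  map_mul' x y := by
    ext δ
    rw [th0_coeff, HahnSeries.coeff_mul, HahnSeries.coeff_mul, Finset.mul_sum]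
    apply Finset.sum_congr
    · ext ij
      rw [Finset.mem_antidiagonal, Finset.mem_antidiagonal, th0_support, th0_support]
    · intro ij hij
      rw [Finset.mem_antidiagonal] at hij
      rw [th0_coeff, th0_coeff, ← hij.2.2, rs_add_right]
      ring

lemma th_coeff (γ : Gm) (x : KK) (δ : Gm) : (th γ x).coeff δ = rs γ δ * x.coeff δ := rfl

lemma th_th (γ γ' : Gm) (x : KK) : th γ (th γ' x) = th (γ + γ') x := by
  ext δ
  rw [th_coeff, th_coeff, th_coeff, rs_add_left, mul_assoc]

/-- monomials -/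
def mo (γ : Gm) : KK := HahnSeries.single γ 1

lemma mo_mul (γ δ : Gm) : mo γ * mo δ = mo (γ + δ) := by
  unfold mo
  rw [HahnSeries.single_mul_single, mul_one]

lemma mo_zero : mo 0 = 1 := rfl

lemma mo_ne (γ : Gm) : mo γ ≠ 0 := HahnSeries.single_ne_zero one_ne_zero

lemma th_mo (γ δ : Gm) : th γ (mo δ) = HahnSeries.C (rs γ δ) * mo δ := by
  ext ε
  rw [th_coeff]
  unfold mo
  rw [HahnSeries.C_apply, HahnSeries.single_mul_single, zero_add, mul_one,
    HahnSeries.coeff_single, HahnSeries.coeff_single]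
  by_cases h : ε = δ
  · simp [h]
  · simp [h]

lemma order_mo (γ : Gm) : (mo γ).order = γ := HahnSeries.order_single one_ne_zero

lemma order_th (γ : Gm) {x : KK} (hx : x ≠ 0) : (th γ x).order = x.order := by
  have h1 : th γ x ≠ 0 := (map_ne_zero (th γ)).mpr hx
  apply le_antisymm
  · apply HahnSeries.order_le_of_coeff_ne_zero
    rw [th_coeff]
    exact mul_ne_zero (rs_ne _ _) (HahnSeries.coeff_order_eq_zero.not.mpr hx)
  · apply HahnSeries.order_le_of_coeff_ne_zero
    have := HahnSeries.coeff_order_eq_zero.not.mpr h1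
    rw [th_coeff] at this
    exact right_ne_zero_of_mul this

/-- the central subfield -/
def FF : Subfield KK where
  carrier := {x | ∀ γ, th γ x = x}
  mul_mem' := by
    intro a b ha hb γ
    rw [map_mul, ha γ, hb γ]
  one_mem' := by
    intro γ
    rw [map_one]
  add_mem' := by
    intro a b ha hb γ
    rw [map_add, ha γ, hb γ]
  zero_mem' := by
    intro γ
    rw [map_zero]
  neg_mem' := by
    intro a ha γ
    rw [map_neg, ha γ]
  inv_mem' := by
    intro a ha γ
    rw [map_inv₀, ha γ]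

lemma mem_FF {x : KK} : x ∈ FF ↔ ∀ γ, th γ x = x := Iff.rfl

lemma FF_order {x : KK} (hx : x ∈ FF) (h0 : x ≠ 0) (i : ℕ) : Even (cd x.order i) := by
  have h1 := hx (bs (i + 1))
  have h2 : (th (bs (i + 1)) x).coeff x.order = x.coeff x.order := by rw [h1]
  rw [th_coeff] at h2
  have h3 := HahnSeries.coeff_order_eq_zero.not.mpr h0
  have h4 : rs (bs (i + 1)) x.order = 1 := mul_right_cancel₀ h3 (by rw [h2, one_mul])
  rw [rs_eq_one_iff, chi_bs_left] at h4
  exact h4

/-- monomials with even exponents -/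
def emo (δ : Gm) : FF := ⟨mo (δ + δ), by
  intro γ
  rw [th_mo, rs_add_right, rs_sq, map_one, one_mul]⟩

/-- the operators -/
def EE (γ : Gm) : Module.End FF KK where
  toFun x := mo γ * th γ x
  map_add' x y := by rw [map_add, mul_add]
  map_smul' c x := by
    rw [Subfield.smul_def, smul_eq_mul, map_mul, c.2 γ, RingHom.id_apply, Subfield.smul_def,
      smul_eq_mul]
    ring

lemma EE_apply (γ : Gm) (x : KK) : EE γ x = mo γ * th γ x := rfl

lemma EE_zero : EE 0 = 1 := by
  ext x : 1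
  rw [EE_apply, mo_zero, one_mul, Module.End.one_apply]
  ext δ
  rw [th_coeff, rs_zero_left, one_mul]

/-- rational scalars in `FF` -/
def qF (q : ℚ) : FF := ⟨HahnSeries.C q, by
  intro γ
  ext δ
  rw [th_coeff, HahnSeries.C_apply, HahnSeries.coeff_single]
  by_cases h : δ = 0
  · simp [h, rs_zero_right]
  · simp [h]⟩

lemma qF_one : qF 1 = 1 := by
  apply Subtype.ext
  show HahnSeries.C (1 : ℚ) = 1
  rw [map_one]

lemma qF_neg_one : qF (-1) = -1 := by
  apply Subtype.ext
  show HahnSeries.C (-1 : ℚ) = -1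
  rw [map_neg, map_one]

lemma EE_mul (γ δ : Gm) : EE γ * EE δ = qF (rs γ δ) • EE (γ + δ) := by
  ext x : 1
  rw [Module.End.mul_apply, LinearMap.smul_apply, EE_apply, EE_apply, EE_apply, map_mul, th_th,
    th_mo, Subfield.smul_def, smul_eq_mul, ← mo_mul]
  show _ = HahnSeries.C (rs γ δ) * _
  ring

lemma EE_even (γ δ : Gm) : EE (γ + (δ + δ)) = emo δ • EE γ := by
  ext x : 1
  rw [LinearMap.smul_apply, EE_apply, EE_apply, Subfield.smul_def, smul_eq_mul, ← mo_mul]
  have h : th (γ + (δ + δ)) x = th γ x := by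
    ext ε
    rw [th_coeff, th_coeff, rs_add_left, rs_add_left, rs_sq, mul_one]
  rw [h]
  show _ = mo (δ + δ) * _
  ring

end Pool.Agent.V11279.RD
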