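import Pool.Agent.V11279.RDa
import Pool.Agent.V11279.RDb
import Pool.Agent.V11279.RDc

set_option autoImplicit false

noncomputable section

namespace Pool.Agent.V11279.RD

open Finset

/-- the exponent of a finite set -/
def io (S : Finset ℕ) : Gm := toLex (Finsupp.indicator S (fun _ _ => (1 : ℤ)))

lemma cd_io (S : Finset ℕ) (i : ℕ) : cd (io S) i = if i ∈ S then 1 else 0 := by
  show Finsupp.indicator S (fun _ _ => (1 : ℤ)) i = _
  rw [Finsupp.indicator_apply]
  split_ifs <;> rfl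

lemma io_empty : io ∅ = 0 := by
  apply cd_ext
  intro i
  rw [cd_io, cd_zero, if_neg (Finset.notMem_empty i)]

/-- decomposition -/
lemma gm_decomp (γ : Gm) (n : ℕ) (hγ : ∀ i, n ≤ i → cd γ i = 0) :
    ∃ S ⊆ Finset.range n, ∃ δ : Gm, γ = io S + (δ + δ) := by
  classical
  refine ⟨(Finset.range n).filter (fun i => ¬ Even (cd γ i)), Finset.filter_subset _ _,
    toLex ((ofLex γ).mapRange (· / 2) (by norm_num)), ?_⟩
  apply cd_ext
  intro i
  rw [cd_add, cd_add, cd_io]
  have h1 : cd (toLex ((ofLex γ).mapRange (· / 2) (by norm_num))) i = cd γ i / 2 := rfl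
  rw [h1]
  simp only [Finset.mem_filter, Finset.mem_range]
  by_cases hi : i < n
  · by_cases he : Even (cd γ i)
    · rw [if_neg (by tauto)]
      obtain ⟨k, hk⟩ := he
      omega
    · rw [if_pos ⟨hi, he⟩]
      rw [Int.not_even_iff_odd] at he
      obtain ⟨k, hk⟩ := he
      omega
  · rw [if_neg (by tauto), hγ i (by omega)]
    norm_num

/-- the finite-dimensional pieces -/
def Dn (n : ℕ) : Submodule FF (Module.End FF KK) :=
  Submodule.span FF {T | ∃ γ : Gm, (∀ i, n ≤ i → cd γ i = 0) ∧ T = EE γ}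

lemma Dn_eq (n : ℕ) : Dn n = Submodule.span FF ((fun S => EE (io S)) '' (Finset.range n).powerset) := by
  apply le_antisymm
  · rw [Dn, Submodule.span_le]
    rintro T ⟨γ, hγ, rfl⟩
    obtain ⟨S, hS, δ, rfl⟩ := gm_decomp γ n hγ
    rw [EE_even]
    apply Submodule.smul_mem
    apply Submodule.subset_span
    exact ⟨S, Finset.mem_coe.mpr (Finset.mem_powerset.mpr hS), rfl⟩
  · rw [Submodule.span_le]
    rintro T ⟨S, hS, rfl⟩
    apply Submodule.subset_span
    refine ⟨io S, ?_, rfl⟩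
    intro i hi
    rw [cd_io, if_neg]
    intro h
    have h2 := (Finset.mem_powerset.mp (Finset.mem_coe.mp hS)) h
    rw [Finset.mem_range] at h2
    omega

lemma one_mem_Dn (n : ℕ) : (1 : Module.End FF KK) ∈ Dn n := by
  apply Submodule.subset_span
  exact ⟨0, fun i _ => cd_zero i, EE_zero.symm⟩

lemma mul_mem_Dn (n : ℕ) (x y : Module.End FF KK) (hx : x ∈ Dn n) (hy : y ∈ Dn n) :
    x * y ∈ Dn n := by
  have h := Submodule.mul_mem_mul hx hy
  have h2 : Dn n * Dn n ≤ Dn n := by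
    rw [Dn, Submodule.span_mul_span, Submodule.span_le]
    rintro T ⟨_, ⟨γ, hγ, rfl⟩, _, ⟨δ, hδ, rfl⟩, rfl⟩
    show EE γ * EE δ ∈ _
    rw [EE_mul]
    apply Submodule.smul_mem
    apply Submodule.subset_span
    exact ⟨γ + δ, fun i hi => by rw [cd_add, hγ i hi, hδ i hi, add_zero], rfl⟩
  exact h2 h

/-- pieces as subalgebras -/
def DA (n : ℕ) : Subalgebra FF (Module.End FF KK) :=
  (Dn n).toSubalgebra (one_mem_Dn n) (mul_mem_Dn n)

lemma mem_DA {n : ℕ} {x : Module.End FF KK} : x ∈ DA n ↔ x ∈ Dn n := Iff.rfl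

lemma DA_mono {m n : ℕ} (h : m ≤ n) : DA m ≤ DA n := by
  intro x hx
  rw [mem_DA] at *
  revert x
  show Dn m ≤ Dn n
  apply Submodule.span_mono
  rintro T ⟨γ, hγ, rfl⟩
  exact ⟨γ, fun i hi => hγ i (by omega), rfl⟩

lemma DA_dir : Directed (· ≤ ·) DA := by
  intro m n
  exact ⟨max m n, DA_mono (le_max_left _ _), DA_mono (le_max_right _ _)⟩

/-- the algebra -/
def DD : Subalgebra FF (Module.End FF KK) := ⨆ n, DA n

lemma mem_DD {x : Module.End FF KK} : x ∈ DD ↔ ∃ n, x ∈ DA n := by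
  rw [DD, ← SetLike.mem_coe, Subalgebra.coe_iSup_of_directed DA_dir, Set.mem_iUnion]
  rfl

instance (n : ℕ) : FiniteDimensional FF (DA n) := by
  have : FiniteDimensional FF (Dn n) := by
    rw [Dn_eq]
    exact FiniteDimensional.span_of_finite FF ((Finset.finite_toSet _).image _)
  exact this

/-- nonvanishing of sums of series with distinct orders -/
lemma sum_ne_zero {ι : Type} (s : Finset ι) (hs : s.Nonempty) (t : ι → KK)
    (h0 : ∀ i ∈ s, t i ≠ 0) (hd : ∀ i ∈ s, ∀ j ∈ s, (t i).order = (t j).order → i = j) :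
    ∑ i ∈ s, t i ≠ 0 := by
  obtain ⟨i, hi, hmin⟩ := Finset.exists_min_image s (fun i => (t i).order) hs
  intro h
  have h1 : (∑ j ∈ s, t j).coeff (t i).order = 0 := by rw [h, HahnSeries.coeff_zero]
  rw [HahnSeries.coeff_sum, Finset.sum_eq_single i] at h1
  · exact HahnSeries.coeff_order_eq_zero.not.mpr (h0 i hi) h1
  · intro j hj hji
    apply HahnSeries.coeff_eq_zero_of_lt_order
    apply lt_of_le_of_ne (hmin j hj)
    intro he
    exact hji (hd i hi j hj he).symm
  · intro h2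
    exact absurd hi h2

/-- nonzero elements act injectively -/
lemma apply_ne_zero {n : ℕ} {x : Module.End FF KK} (hx : x ∈ DA n) (h0 : x ≠ 0) {k : KK}
    (hk : k ≠ 0) : x k ≠ 0 := by
  classical
  rw [mem_DA, Dn_eq] at hx
  have hx2 : x ∈ Submodule.span FF (Set.range (fun S : Finset ℕ => EE (io S))) :=
    Submodule.span_mono (Set.image_subset_range _ _) hx
  rw [Finsupp.mem_span_range_iff_exists_finsupp] at hx2
  obtain ⟨a, rfl⟩ := hx2
  have ha : a.support.Nonempty := by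
    rw [Finsupp.support_nonempty_iff]
    rintro rfl
    exact h0 (by simp)
  rw [Finsupp.sum, LinearMap.sum_apply]
  have ht : ∀ S ∈ a.support, (a S • EE (io S)) k ≠ 0 ∧
      ((a S • EE (io S)) k).order = (a S : KK).order + (io S + k.order) := by
    intro S hS
    have h1 : (a S : KK) ≠ 0 := by
      intro h
      exact (Finsupp.mem_support_iff.mp hS) (Subtype.ext h)
    have h2 : th (io S) k ≠ 0 := (map_ne_zero _).mpr hk
    have h3 : mo (io S) * th (io S) k ≠ 0 := mul_ne_zero (mo_ne _) h2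
    have h4 : (a S • EE (io S)) k = (a S : KK) * (mo (io S) * th (io S) k) := rfl
    rw [h4]
    refine ⟨mul_ne_zero h1 h3, ?_⟩
    rw [HahnSeries.order_mul h1 h3, HahnSeries.order_mul (mo_ne _) h2, order_mo, order_th _ hk]
  apply sum_ne_zero _ ha _ (fun S hS => (ht S hS).1)
  intro S hS T hT hST
  rw [(ht S hS).2, (ht T hT).2] at hST
  ext i
  have h1 := congrArg (fun γ => cd γ i) hST
  simp only [cd_add, cd_io] at h1
  have h2 : (a S : KK) ≠ 0 := by
    intro h
    exact (Finsupp.mem_support_iff.mp hS) (Subtype.ext h)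
  have h3 : (a T : KK) ≠ 0 := by
    intro h
    exact (Finsupp.mem_support_iff.mp hT) (Subtype.ext h)
  obtain ⟨p, hp⟩ := FF_order (a S).2 h2 i
  obtain ⟨q, hq⟩ := FF_order (a T).2 h3 i
  rw [hp, hq] at h1
  split_ifs at h1 with h4 h5 h5
  · exact ⟨fun _ => h5, fun _ => h4⟩
  · omega
  · omega
  · exact ⟨fun h => absurd h h4, fun h => absurd h h5⟩

lemma mul_ne_zero_DD {x y : Module.End FF KK} (hx : x ∈ DD) (hx0 : x ≠ 0) (hy0 : y ≠ 0) :
    x * y ≠ 0 := by
  intro h
  obtain ⟨n, hn⟩ := mem_DD.mp hx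
  have : ∃ k, y k ≠ 0 := by
    by_contra hc
    push Not at hc
    exact hy0 (LinearMap.ext hc)
  obtain ⟨k, hk⟩ := this
  apply apply_ne_zero hn hx0 hk
  rw [← Module.End.mul_apply, h, LinearMap.zero_apply]


instance : NoZeroDivisors DD where
  eq_zero_or_eq_zero_of_mul_eq_zero := by
    intro a b hab
    by_contra hc
    push Not at hc
    apply mul_ne_zero_DD a.2 (fun h => hc.1 (Subtype.ext h)) (fun h => hc.2 (Subtype.ext h))
    exact congrArg Subtype.val hab

instance : IsDomain DD := NoZeroDivisors.to_isDomain DD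

instance (n : ℕ) : NoZeroDivisors (DA n) where
  eq_zero_or_eq_zero_of_mul_eq_zero := by
    intro a b hab
    by_contra hc
    push Not at hc
    apply mul_ne_zero_DD (mem_DD.mpr ⟨n, a.2⟩) (fun h => hc.1 (Subtype.ext h))
      (fun h => hc.2 (Subtype.ext h))
    exact congrArg Subtype.val hab

instance (n : ℕ) : IsDomain (DA n) := NoZeroDivisors.to_isDomain (DA n)

lemma exists_right_inv (x : DD) (hx : x ≠ 0) : ∃ y : DD, x * y = 1 := by
  obtain ⟨n, hn⟩ := mem_DD.mp x.2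
  have h1 : (⟨x.1, hn⟩ : DA n) ≠ 0 := by
    intro h
    have h' : x.1 = 0 := congrArg Subtype.val h
    exact hx (Subtype.ext h')
  obtain ⟨y, hy⟩ := FiniteDimensional.exists_mul_eq_one FF (K := DA n) h1
  have hy' : x.1 * y.1 = 1 := congrArg Subtype.val hy
  exact ⟨⟨y.1, mem_DD.mpr ⟨n, y.2⟩⟩, Subtype.ext hy'⟩

lemma isUnit_or (x : DD) : IsUnit x ∨ x = 0 := by
  by_cases hx : x = 0
  · right; exact hx
  · left
    obtain ⟨y, hy⟩ := exists_right_inv x hx
    have h2 : y * x = 1 := by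
      have h3 : x * (y * x) = x * 1 := by
        rw [← mul_assoc, hy, one_mul, mul_one]
      exact mul_left_cancel₀ hx h3
    exact ⟨⟨x, y, hy, h2⟩, rfl⟩

instance : DivisionRing DD := DivisionRing.ofIsUnitOrEqZero isUnit_or

lemma DD_integral : Algebra.IsIntegral FF DD := ⟨by
  intro x
  obtain ⟨n, hn⟩ := mem_DD.mp x.2
  have h1 : IsIntegral FF (⟨x.1, hn⟩ : DA n) := Algebra.IsIntegral.isIntegral _
  obtain ⟨p, hp, hpx⟩ := h1
  refine ⟨p, hp, ?_⟩
  have h2 : (DA n).val (Polynomial.aeval (⟨x.1, hn⟩ : DA n) p) = 0 := by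
    rw [Polynomial.aeval_def, hpx, map_zero]
  rw [← Polynomial.aeval_algHom_apply] at h2
  apply Subtype.ext
  have h3 : DD.val (Polynomial.aeval x p) = 0 := by
    rw [← Polynomial.aeval_algHom_apply]
    exact h2
  exact h3⟩

/-- the generators -/
def ee (n : ℕ) : DD := ⟨EE (bs n), mem_DD.mpr ⟨n + 1, Submodule.subset_span
  ⟨bs n, fun i hi => by rw [cd_bs, if_neg (by omega)], rfl⟩⟩⟩

lemma rs_bs (i j : ℕ) : rs (bs i) (bs j) = if i = j + 1 then -1 else 1 := by
  have h : chi (bs i) (bs j) = if i = j + 1 then 1 else 0 := by rw [chi_bs, cd_bs]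
  unfold rs
  rw [h]
  split_ifs <;> simp

lemma EE_ne (γ : Gm) : EE γ ≠ 0 := by
  intro h
  have h1 : EE γ 1 = 0 := by rw [h]; rfl
  rw [EE_apply, map_one, mul_one] at h1
  exact mo_ne γ h1

lemma EE_comm {γ δ : Gm} (h : rs γ δ = rs δ γ) : EE γ * EE δ = EE δ * EE γ := by
  rw [EE_mul, EE_mul, h, add_comm]

lemma ee_ne (n : ℕ) : ee n ≠ 0 := fun h => EE_ne (bs n) (congrArg Subtype.val h)

lemma ee_anti (n : ℕ) : ee (n + 1) * ee n = - (ee n * ee (n + 1)) := by
  apply Subtype.ext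
  show EE (bs (n + 1)) * EE (bs n) = - (EE (bs n) * EE (bs (n + 1)))
  rw [EE_mul, EE_mul, rs_bs, rs_bs, if_pos rfl, if_neg (by omega), qF_one, qF_neg_one, add_comm,
    one_smul]
  have h := neg_smul (1 : FF) (EE (bs n + bs (n + 1)))
  rw [one_smul] at h
  exact h

lemma ee_comm (i j : ℕ) (h : i + 2 ≤ j) : Commute (ee i) (ee j) := by
  apply Subtype.ext
  show EE (bs i) * EE (bs j) = EE (bs j) * EE (bs i)
  apply EE_comm
  rw [rs_bs, rs_bs, if_neg (by omega), if_neg (by omega)]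

lemma ee_loc (x : DD) : ∃ N, ∀ n, N ≤ n → Commute x (ee n) := by
  obtain ⟨m, hm⟩ := mem_DD.mp x.2
  refine ⟨m + 1, fun n hn => ?_⟩
  apply Subtype.ext
  show x.1 * EE (bs n) = EE (bs n) * x.1
  rw [mem_DA] at hm
  refine Submodule.span_induction (p := fun z _ => z * EE (bs n) = EE (bs n) * z) ?_ ?_ ?_ ?_ hm
  · rintro T ⟨γ, hγ, rfl⟩
    apply EE_comm
    have h1 : rs γ (bs n) = 1 := by
      rw [rs_eq_one_iff, chi_bs, hγ (n + 1) (by omega)]
      exact Even.zero
    have h2 : rs (bs n) γ = 1 := by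
      obtain ⟨k, rfl⟩ : ∃ k, n = k + 1 := ⟨n - 1, by omega⟩
      rw [rs_eq_one_iff, chi_bs_left, hγ k (by omega)]
      exact Even.zero
    rw [h1, h2]
  · rw [zero_mul, mul_zero]
  · intro a b _ _ ha hb
    rw [add_mul, mul_add, ha, hb]
  · intro c a _ ha
    rw [smul_mul_assoc, mul_smul_comm, ha]

lemma two_ne : (2 : DD) ≠ 0 := by
  intro h
  have h0 : (1 : DD) + 1 = 0 := by rw [one_add_one_eq_two]; exact h
  have h1 : ((1 : DD) + 1 : DD).1 (1 : KK) = 0 := by rw [h0]; rfl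
  have h2 : (1 : KK) + 1 = 0 := h1
  have h3 : ((1 : KK) + 1).coeff 0 = 0 := by rw [h2]; rfl
  rw [HahnSeries.coeff_add, HahnSeries.coeff_one, if_pos rfl] at h3
  norm_num at h3

theorem final :
    ¬ (∀ (R : Type) [Ring R],
      (∀ a b c : Submodule Rᵐᵒᵖ R, a ⊓ (b ⊔ c) = (a ⊓ b) ⊔ (a ⊓ c)) →
      (∀ x : R, ∃ p : Polynomial (Subring.center R),
          p.Monic ∧ Polynomial.eval₂ (Subring.center R).subtype x p = 0) →
      ∀ a b c : Submodule R R, a ⊓ (b ⊔ c) = (a ⊓ b) ⊔ (a ⊓ c)) :=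
  counterexample_of (F := FF) (D := DD) DD_integral
    (endo FF two_ne ee_ne ee_anti ee_loc) (endo_not_surj two_ne ee_ne ee_anti ee_comm ee_loc)

end Pool.Agent.V11279.RD
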